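import Pool.Agent.KIM.ALD
import Pool.Agent.LOE.VEL

/-!
# KIM / AL1: Taylor series of products, derivatives, `f z / z`, dilations

PROOFS.
`coef n g = iteratedDeriv n g 0 / n!`.
`tay_congr`: `g = h` on the open set `Dk`, so `iteratedDeriv n` agree at `0`
(`Filter.EventuallyEq.iteratedDeriv_eq` or `Set.EqOn.iteratedDeriv...`).
`tay_mul`: `g`, `h` are analytic at `0`, `ContDiffAt`; use `iteratedDeriv_mul` (Leibniz) at `0`
(Mathlib: `iteratedDeriv_mul`, `iteratedDerivWithin_mul`, or through the uniqueness of the power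
series expansion `HasFPowerSeriesAt`), then `n.choose i / n! = 1 / (i! (n-i)!)` and
`PowerSeries.coeff_mul`.
`tay_deriv`: `iteratedDeriv (n+1) g = iteratedDeriv n (deriv g)` (`iteratedDeriv_succ'`).
`tay_id_mul_deriv`: from `tay_mul` (with `tay (fun z => z) = X`) and `tay_deriv`.
`tay_dslope`: `g z = z * dslope g 0 z` for every `z` (because `g 0 = 0`), `dslope g 0` is
holomorphic on `Dk` (`differentiableOn_dslope`), so `coef (n+1) g = coef n (dslope g 0)` by
`tay_mul`.
`coef_scale`: `iteratedDeriv_comp_const_mul` (holds if `g` is smooth near `0`; for `rho = 0` both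
sides are the constant term).
`hasSum_tay`: Taylor expansion on the disc (`Complex.hasSum_taylorSeries_on_ball`).
-/

set_option autoImplicit false

open PowerSeries Finset

namespace Pool.Agent.KIM.AL

open Pool.Agent.LOE (Dk coef)

theorem tay_congr {g h : ℂ → ℂ} (e : ∀ z ∈ Dk, g z = h z) : tay g = tay h := by
  ext n
  rw [coeff_tay, coeff_tay]
  unfold Pool.Agent.LOE.coef
  have h1 : g =ᶠ[nhds 0] h := by
    filter_upwards [Metric.ball_mem_nhds (0 : ℂ) one_pos] with z hz
    exact e z hz
  rw [h1.iteratedDeriv_eq n]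

theorem tay_const (c : ℂ) : tay (fun _ => c) = C c := by
  ext n
  rw [coeff_tay, coeff_C]
  unfold Pool.Agent.LOE.coef
  rw [iteratedDeriv_const]
  split_ifs with h
  · subst h; simp
  · simp

theorem tay_id : tay (fun z => z) = X := by
  ext n
  rw [coeff_tay, coeff_X]
  unfold Pool.Agent.LOE.coef
  rw [iteratedDeriv_fun_id_zero]
  split_ifs with h
  · subst h; simp
  · simp

theorem constantCoeff_tay (g : ℂ → ℂ) : constantCoeff (tay g) = g 0 := by
  rw [← coeff_zero_eq_constantCoeff_apply, coeff_tay]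
  unfold Pool.Agent.LOE.coef
  simp

theorem tay_mul {g h : ℂ → ℂ} (hg : DifferentiableOn ℂ g Dk) (hh : DifferentiableOn ℂ h Dk) :
    tay (fun z => g z * h z) = tay g * tay h := by
  ext n
  rw [coeff_tay, coeff_mul, Pool.Agent.LOE.coef_mul hg hh,
    Finset.Nat.sum_antidiagonal_eq_sum_range_succ_mk]
  refine Finset.sum_congr rfl fun i _ => ?_
  rw [coeff_tay, coeff_tay]

theorem tay_deriv (g : ℂ → ℂ) : tay (deriv g) = d⁄dX ℂ (tay g) := by
  ext n
  rw [coeff_tay, coeff_derivative, coeff_tay]
  unfold Pool.Agent.LOE.coef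
  rw [iteratedDeriv_succ', Nat.factorial_succ]
  push_cast
  have h2 : ((n : ℂ) + 1) ≠ 0 := by exact_mod_cast n.succ_ne_zero
  have h3 : (n.factorial : ℂ) ≠ 0 := by exact_mod_cast n.factorial_ne_zero
  field_simp

theorem serP_eq_tay (g : ℂ → ℂ) : serP g = tay (deriv g) := by
  rw [tay_deriv]
  ext n
  rw [coeff_derivative, coeff_tay, serP, coeff_mk]
  ring

theorem serD_eq_tay {g : ℂ → ℂ} (hg : DifferentiableOn ℂ g Dk) (h0 : g 0 = 0) :
    serD g = tay (dslope g 0) := by
  have hd : DifferentiableOn ℂ (dslope g 0) Dk :=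
    (Complex.differentiableOn_dslope (Metric.ball_mem_nhds (0 : ℂ) one_pos)).2 hg
  have h1 : tay g = X * tay (dslope g 0) := by
    have hid : DifferentiableOn ℂ (fun z : ℂ => z) Dk := differentiableOn_id
    rw [← tay_id, ← tay_mul hid hd]
    refine tay_congr fun z _ => ?_
    have h := sub_smul_dslope g 0 z
    rw [sub_zero, smul_eq_mul, h0, sub_zero] at h
    exact h.symm
  ext n
  rw [serD, coeff_mk, coeff_tay, ← coeff_tay, h1, coeff_succ_X_mul, coeff_tay]

/-- `serD g + X (serD g)' = serP g` for every `g`. -/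
theorem serD_add_eul (g : ℂ → ℂ) : serD g + eul (serD g) = serP g := by
  ext n
  rw [map_add, eul]
  rcases n with _ | n
  · rw [coeff_zero_X_mul, serD, serP, coeff_mk, coeff_mk]
    push_cast
    ring
  · rw [coeff_succ_X_mul, coeff_derivative, serD, serP, coeff_mk, coeff_mk]
    push_cast
    ring

theorem coef_scale {g : ℂ → ℂ} (hg : DifferentiableOn ℂ g Dk) (rho : ℝ) (n : ℕ) :
    coef n (fun z => g (rho * z)) = (rho : ℂ) ^ n * coef n g := by
  have key : ∀ n : ℕ, ∀ g : ℂ → ℂ, iteratedDeriv n (fun z => g ((rho : ℂ) * z)) 0 =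
      (rho : ℂ) ^ n * iteratedDeriv n g 0 := by
    intro n
    induction n with
    | zero => intro g; simp
    | succ n ih =>
      intro g
      rw [iteratedDeriv_succ', iteratedDeriv_succ']
      have h1 : deriv (fun z => g ((rho : ℂ) * z)) =
          fun z => (rho : ℂ) * deriv g ((rho : ℂ) * z) := by
        funext z
        rw [deriv_comp_mul_left, smul_eq_mul]
      rw [h1, iteratedDeriv_const_mul_field, ih (deriv g), pow_succ]
      ring
  unfold Pool.Agent.LOE.coef
  rw [key, mul_div_assoc]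

/-- Taylor expansion on the disc. -/
theorem hasSum_tay {g : ℂ → ℂ} (hg : DifferentiableOn ℂ g Dk) {z : ℂ} (hz : z ∈ Dk) :
    HasSum (fun n : ℕ => coef n g * z ^ n) (g z) := by
  have h := Complex.hasSum_taylorSeries_on_ball hg hz
  have e : (fun n : ℕ => coef n g * z ^ n) =
      fun n : ℕ => ((n.factorial : ℂ))⁻¹ • (z - 0) ^ n • iteratedDeriv n g 0 := by
    funext n
    unfold Pool.Agent.LOE.coef
    rw [sub_zero, smul_eq_mul, smul_eq_mul]
    ring
  rw [e]
  exact h

/-- Absolute convergence of the Taylor series on the disc. -/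
theorem summable_norm_tay {g : ℂ → ℂ} (hg : DifferentiableOn ℂ g Dk) {r : ℝ} (h0 : 0 ≤ r)
    (h1 : r < 1) : Summable fun n : ℕ => ‖coef n g‖ * r ^ n := by
  have hz : (r : ℂ) ∈ Dk := by
    unfold Pool.Agent.LOE.Dk
    rw [mem_ball_zero_iff, Complex.norm_real, Real.norm_eq_abs, abs_of_nonneg h0]
    exact h1
  have h := (hasSum_tay hg hz).summable.norm
  convert h using 1
  funext n
  rw [norm_mul, norm_pow, Complex.norm_real, Real.norm_eq_abs, abs_of_nonneg h0]

end Pool.Agent.KIM.AL
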