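import Pool.Agent.KIM.ALD

/-!
# KIM / AL2: powers of power series (pure algebra)

`rp f a` is defined by the Miller recursion.  All statements follow from the differential equation
`f g' = a f' g`, `g(0) = 1`, and its uniqueness.

PROOFS.
`rp_ode` (needs constant coefficient `1` of `f`): compare coefficients of `X ^ n`:
`sum_{i+j=n} f_i (j+1) g_{j+1} = a sum_{i+j=n} (i+1) f_{i+1} g_j`; the term `i = 0` of the left
side is `(n+1) g_{n+1}`; this is the recursion `rpc`.
`rp_unique`: by induction on `n` the coefficients of `g` satisfy the recursion (char. zero: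
`(n : k) + 1 ≠ 0`).
`rp_mul`, `rp_add`, `rp_rp`, `rp_one`, `rp_zero`, `rp_rescale`, `rp_map`: the right hand side
satisfies the differential equation (`Derivation.leibniz`), use `rp_unique`.
`rp_nat`: `f ^ n` satisfies it too (`Derivation.leibniz_pow`).
-/

set_option autoImplicit false

open PowerSeries Finset

namespace Pool.Agent.KIM.AL

variable {k : Type*} [Field k] [CharZero k]

theorem constantCoeff_rp (f : k⟦X⟧) (a : k) : constantCoeff (rp f a) = 1 := by
  rw [← coeff_zero_eq_constantCoeff_apply, rp, coeff_mk]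
  rw [rpc]

private theorem rp_rec (f : k⟦X⟧) (a : k) (n : ℕ) :
    ((n : k) + 1) * coeff (n + 1) (rp f a) = ∑ m ∈ range (n + 1),
      (a * ((n + 1 - m : ℕ) : k) - (m : k)) * coeff (n + 1 - m) f * coeff m (rp f a) := by
  have h1 : coeff (n + 1) (rp f a) = (∑ i : Fin (n + 1),
      (a * ((n + 1 - (i : ℕ) : ℕ) : k) - ((i : ℕ) : k)) * coeff (n + 1 - (i : ℕ)) f *
        coeff (i : ℕ) (rp f a)) / ((n : k) + 1) := by
    simp only [rp, coeff_mk]
    rw [rpc]
  have h2 : ((n : k) + 1) ≠ 0 := Nat.cast_add_one_ne_zero n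
  rw [h1, mul_div_cancel₀ _ h2, Finset.sum_range]

private theorem ode_iff {f g : k⟦X⟧} (hf : constantCoeff f = 1) (a : k) :
    f * d⁄dX k g = C a * d⁄dX k f * g ↔ ∀ n : ℕ,
      ((n : k) + 1) * coeff (n + 1) g = ∑ m ∈ range (n + 1),
        (a * ((n + 1 - m : ℕ) : k) - (m : k)) * coeff (n + 1 - m) f * coeff m g := by
  have hL : ∀ n : ℕ, coeff n (f * d⁄dX k g) =
      ∑ m ∈ range (n + 1), (m : k) * coeff (n + 1 - m) f * coeff m g +
        ((n : k) + 1) * coeff (n + 1) g := by
    intro n
    rw [mul_comm, coeff_mul, Finset.Nat.sum_antidiagonal_eq_sum_range_succ_mk]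
    have h1 : ∑ m ∈ range (n + 1 + 1), (m : k) * coeff (n + 1 - m) f * coeff m g =
        ∑ m ∈ range (n + 1), ((m : k) + 1) * coeff (n - m) f * coeff (m + 1) g := by
      rw [Finset.sum_range_succ']
      simp only [Nat.cast_zero, zero_mul, add_zero, Nat.cast_add, Nat.cast_one,
        Nat.add_sub_add_right]
    rw [Finset.sum_range_succ] at h1
    have h2 : coeff (n + 1 - (n + 1)) f = 1 := by
      rw [Nat.sub_self, coeff_zero_eq_constantCoeff_apply, hf]
    rw [h2] at h1
    have h3 : ∑ m ∈ range (n + 1), coeff m (d⁄dX k g) * coeff (n - m) f =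
        ∑ m ∈ range (n + 1), ((m : k) + 1) * coeff (n - m) f * coeff (m + 1) g := by
      apply Finset.sum_congr rfl
      intro m _
      rw [PowerSeries.coeff_derivative]
      ring
    show ∑ m ∈ range (n + 1), coeff m (d⁄dX k g) * coeff (n - m) f = _
    rw [h3, ← h1]
    push_cast
    ring
  have hR : ∀ n : ℕ, coeff n (C a * d⁄dX k f * g) =
      ∑ m ∈ range (n + 1), a * ((n + 1 - m : ℕ) : k) * coeff (n + 1 - m) f * coeff m g := by
    intro n
    rw [mul_assoc, coeff_C_mul, mul_comm (d⁄dX k f) g, coeff_mul,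
      Finset.Nat.sum_antidiagonal_eq_sum_range_succ_mk, Finset.mul_sum]
    apply Finset.sum_congr rfl
    intro m hm
    have hm' : m ≤ n := Nat.lt_succ_iff.1 (Finset.mem_range.1 hm)
    show a * (coeff m g * coeff (n - m) (d⁄dX k f)) = _
    rw [PowerSeries.coeff_derivative]
    have h1 : n + 1 - m = n - m + 1 := by omega
    rw [h1]
    push_cast
    ring
  constructor
  · intro h n
    have h1 := congrArg (coeff n) h
    rw [hL, hR] at h1
    have h2 : ∑ m ∈ range (n + 1),
        (a * ((n + 1 - m : ℕ) : k) - (m : k)) * coeff (n + 1 - m) f * coeff m g =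
        ∑ m ∈ range (n + 1), a * ((n + 1 - m : ℕ) : k) * coeff (n + 1 - m) f * coeff m g -
          ∑ m ∈ range (n + 1), (m : k) * coeff (n + 1 - m) f * coeff m g := by
      rw [← Finset.sum_sub_distrib]
      apply Finset.sum_congr rfl
      intro m _
      ring
    rw [h2, ← h1]
    ring
  · intro h
    ext n
    rw [hL, hR, h n, ← Finset.sum_add_distrib]
    apply Finset.sum_congr rfl
    intro m _
    ring

private theorem rp_unique' {f g : k⟦X⟧} (hg : constantCoeff g = 1) {a : k}
    (h : ∀ n : ℕ, ((n : k) + 1) * coeff (n + 1) g = ∑ m ∈ range (n + 1),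
        (a * ((n + 1 - m : ℕ) : k) - (m : k)) * coeff (n + 1 - m) f * coeff m g) :
    g = rp f a := by
  ext n
  induction n using Nat.strong_induction_on with
  | _ n ih =>
    cases n with
    | zero =>
      rw [coeff_zero_eq_constantCoeff_apply, coeff_zero_eq_constantCoeff_apply, hg,
        constantCoeff_rp]
    | succ n =>
      have h1 : ((n : k) + 1) ≠ 0 := Nat.cast_add_one_ne_zero n
      apply mul_left_cancel₀ h1
      rw [h n, rp_rec]
      apply Finset.sum_congr rfl
      intro m hm
      rw [ih m (Finset.mem_range.1 hm)]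

theorem rp_ode {f : k⟦X⟧} (hf : constantCoeff f = 1) (a : k) :
    f * d⁄dX k (rp f a) = C a * d⁄dX k f * rp f a :=
  (ode_iff hf a).2 (rp_rec f a)

theorem rp_unique {f g : k⟦X⟧} (hf : constantCoeff f = 1) (hg : constantCoeff g = 1) {a : k}
    (h : f * d⁄dX k g = C a * d⁄dX k f * g) : g = rp f a :=
  rp_unique' hg ((ode_iff hf a).1 h)

theorem rp_mul {f g : k⟦X⟧} (hf : constantCoeff f = 1) (hg : constantCoeff g = 1) (a : k) :
    rp (f * g) a = rp f a * rp g a := by
  symm
  apply rp_unique
  · rw [map_mul, hf, hg, mul_one]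
  · rw [map_mul, constantCoeff_rp, constantCoeff_rp, mul_one]
  · have h1 := rp_ode hf a
    have h2 := rp_ode hg a
    rw [Derivation.leibniz, Derivation.leibniz]
    simp only [smul_eq_mul]
    linear_combination (g * rp g a) * h1 + (f * rp f a) * h2

theorem rp_add {f : k⟦X⟧} (hf : constantCoeff f = 1) (a b : k) :
    rp f (a + b) = rp f a * rp f b := by
  symm
  apply rp_unique hf
  · rw [map_mul, constantCoeff_rp, constantCoeff_rp, mul_one]
  · have h1 := rp_ode hf a
    have h2 := rp_ode hf b
    rw [Derivation.leibniz, map_add]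
    simp only [smul_eq_mul]
    linear_combination (rp f b) * h1 + (rp f a) * h2

theorem rp_rp {f : k⟦X⟧} (hf : constantCoeff f = 1) (a b : k) : rp (rp f a) b = rp f (a * b) := by
  apply rp_unique hf (constantCoeff_rp _ _)
  have h1 := rp_ode hf a
  have h2 := rp_ode (constantCoeff_rp f a) b
  have hne : rp f a ≠ 0 := by
    intro h
    have h3 := constantCoeff_rp f a
    rw [h, map_zero] at h3
    exact zero_ne_one h3
  apply mul_left_cancel₀ hne
  rw [map_mul]
  linear_combination f * h2 + (C b * rp (rp f a) b) * h1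

theorem rp_zero {f : k⟦X⟧} (hf : constantCoeff f = 1) : rp f 0 = 1 := by
  symm
  apply rp_unique hf (map_one _)
  simp

theorem rp_one {f : k⟦X⟧} (hf : constantCoeff f = 1) : rp f 1 = f := by
  symm
  apply rp_unique hf hf
  rw [map_one, one_mul, mul_comm]

theorem rp_nat {f : k⟦X⟧} (hf : constantCoeff f = 1) (n : ℕ) : rp f (n : k) = f ^ n := by
  induction n with
  | zero => rw [Nat.cast_zero, rp_zero hf, pow_zero]
  | succ n ih =>
    rw [Nat.cast_succ, rp_add hf, ih, rp_one hf, pow_succ]

theorem rp_rescale {f : k⟦X⟧} (hf : constantCoeff f = 1) (a c : k) :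
    rp (rescale c f) a = rescale c (rp f a) := by
  symm
  have _ := hf
  apply rp_unique'
  · rw [← coeff_zero_eq_constantCoeff_apply, coeff_rescale, pow_zero, one_mul,
      coeff_zero_eq_constantCoeff_apply, constantCoeff_rp]
  · intro n
    have h1 := rp_rec f a n
    rw [coeff_rescale]
    have h2 : ∑ m ∈ range (n + 1), (a * ((n + 1 - m : ℕ) : k) - (m : k)) *
        coeff (n + 1 - m) (rescale c f) * coeff m (rescale c (rp f a)) =
        c ^ (n + 1) * ∑ m ∈ range (n + 1), (a * ((n + 1 - m : ℕ) : k) - (m : k)) *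
          coeff (n + 1 - m) f * coeff m (rp f a) := by
      rw [Finset.mul_sum]
      apply Finset.sum_congr rfl
      intro m hm
      have hm' : m ≤ n := Nat.lt_succ_iff.1 (Finset.mem_range.1 hm)
      rw [coeff_rescale, coeff_rescale]
      have h3 : c ^ (n + 1) = c ^ (n + 1 - m) * c ^ m := by
        rw [← pow_add]
        congr 1
        omega
      rw [h3]
      ring
    rw [h2, ← h1]
    ring

theorem rp_map {l : Type*} [Field l] [CharZero l] (φ : k →+* l) {f : k⟦X⟧}
    (hf : constantCoeff f = 1) (a : k) :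
    rp (PowerSeries.map φ f) (φ a) = PowerSeries.map φ (rp f a) := by
  symm
  have _ := hf
  apply rp_unique'
  · rw [← coeff_zero_eq_constantCoeff_apply, coeff_map, coeff_zero_eq_constantCoeff_apply,
      constantCoeff_rp, map_one]
  · intro n
    have h1 := congrArg φ (rp_rec f a n)
    simp only [map_mul, map_add, map_one, map_natCast, map_sum, map_sub] at h1
    simp only [coeff_map]
    exact h1

end Pool.Agent.KIM.AL
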