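import Pool.Agent.KIM.AL1
import Pool.Agent.KIM.AL2
import Pool.Agent.LOE.PRM

/-!
# KIM / AL3: real powers of zero free holomorphic functions on the disc

PROOF.  `Dk = ball 0 1`; `DifferentiableOn.isExactOn_ball` gives a primitive of `h' / h`, or use
`Pool.Agent.LOE.exists_log`; subtract `L 0` (`exp (L 0) = 1`): there is `L` holomorphic on `Dk`,
`L 0 = 0`, `exp (L z) = h z`.  `G z = exp (a * L z)`.  `‖G z‖ = exp (a * re (L z))`
(`Complex.norm_exp`, `a` real) and `‖h z‖ = exp (re (L z))`, `Real.exp_mul`.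
`deriv G z = a * deriv L z * G z`, `deriv h z = deriv L z * h z`, so `h G' = a h' G` on `Dk`;
take Taylor series (`tay_congr`, `tay_mul`, `tay_deriv`) and use `rp_unique`.
-/

set_option autoImplicit false

open PowerSeries Finset

namespace Pool.Agent.KIM.AL

open Pool.Agent.LOE (Dk coef)

theorem exists_branch {h : ℂ → ℂ} (hh : DifferentiableOn ℂ h Dk) (h0 : ∀ z ∈ Dk, h z ≠ 0)
    (h1 : h 0 = 1) (a : ℝ) :
    ∃ G : ℂ → ℂ, DifferentiableOn ℂ G Dk ∧ G 0 = 1 ∧ (∀ z ∈ Dk, ‖G z‖ = ‖h z‖ ^ a) ∧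
      (∀ z ∈ Dk, h z * deriv G z = a * deriv h z * G z) ∧ tay G = rp (tay h) (a : ℂ) := by
  have hO : IsOpen Dk := Metric.isOpen_ball
  have h0m : (0 : ℂ) ∈ Dk := Metric.mem_ball_self one_pos
  have hconn : IsPreconnected Dk := (convex_ball (0 : ℂ) 1).isPreconnected
  have hd : DifferentiableOn ℂ (fun z => deriv h z / h z) Dk := (hh.deriv hO).div hh h0
  obtain ⟨L, hL0, hL⟩ := (DifferentiableOn.isExactOn_ball hd).with_val_at 0 0
  have hh' : ∀ z ∈ Dk, HasDerivAt h (deriv h z) z := fun z hz =>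
    (hh.differentiableAt (hO.mem_nhds hz)).hasDerivAt
  have hc : ∀ z ∈ Dk, HasDerivAt (fun w => h w * Complex.exp (-L w)) 0 z := by
    intro z hz
    have h2 := (hh' z hz).mul ((hL z hz).neg.cexp)
    have h3 : deriv h z * Complex.exp (-L z) +
        h z * (Complex.exp (-L z) * -(deriv h z / h z)) = 0 := by
      have := h0 z hz
      field_simp
      ring
    rw [← h3]
    exact h2
  have hexp : ∀ z ∈ Dk, Complex.exp (L z) = h z := by
    intro z hz
    have h2 : h z * Complex.exp (-L z) = h 0 * Complex.exp (-L 0) :=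
      hO.is_const_of_deriv_eq_zero hconn
        (fun w hw => (hc w hw).differentiableAt.differentiableWithinAt)
        (fun w hw => (hc w hw).deriv) hz h0m
    rw [h1, hL0, neg_zero, Complex.exp_zero, mul_one, Complex.exp_neg] at h2
    have h3 := Complex.exp_ne_zero (L z)
    field_simp at h2
    exact h2.symm
  have hG : ∀ z ∈ Dk, HasDerivAt (fun z => Complex.exp ((a : ℂ) * L z))
      (Complex.exp ((a : ℂ) * L z) * ((a : ℂ) * (deriv h z / h z))) z := fun z hz =>
    ((hL z hz).const_mul (a : ℂ)).cexp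
  have hGd : DifferentiableOn ℂ (fun z => Complex.exp ((a : ℂ) * L z)) Dk := fun z hz =>
    (hG z hz).differentiableAt.differentiableWithinAt
  have hG0 : (fun z => Complex.exp ((a : ℂ) * L z)) 0 = 1 := by
    simp [hL0]
  have hode : ∀ z ∈ Dk, h z * deriv (fun z => Complex.exp ((a : ℂ) * L z)) z =
      a * deriv h z * (fun z => Complex.exp ((a : ℂ) * L z)) z := by
    intro z hz
    rw [(hG z hz).deriv]
    have := h0 z hz
    field_simp
  refine ⟨fun z => Complex.exp ((a : ℂ) * L z), hGd, hG0, ?_, hode, ?_⟩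
  · intro z hz
    rw [← hexp z hz, Complex.norm_exp, Complex.norm_exp, ← Real.exp_mul]
    congr 1
    rw [Complex.re_ofReal_mul, mul_comm]
  · apply rp_unique
    · rw [constantCoeff_tay, h1]
    · rw [constantCoeff_tay]
      exact hG0
    · rw [← tay_deriv, ← tay_deriv, ← tay_mul hh (hGd.deriv hO), ← tay_const, ←
        tay_mul (differentiableOn_const _) (hh.deriv hO), ← tay_mul _ hGd]
      · exact tay_congr hode
      · exact (differentiableOn_const _).mul (hh.deriv hO)

end Pool.Agent.KIM.AL
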