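import Pool.Agent.KIM.AL1

/-!
# KIM / AL4: Parseval's identity on circles

PROOF.  `G (r e^{iθ}) = ∑ a_n r^n e^{inθ}` with `∑ |a_n| r^n < ∞` (`hasSum_tay`,
`summable_norm_tay`).  Expand `‖G‖^2 = G * conj G` as the absolutely convergent double series
`∑_{m,n} a_m conj(a_n) r^{m+n} e^{i(m-n)θ}` (`Summable.mul_norm`, product of two absolutely
convergent series) and integrate term by term (`intervalIntegral.hasSum_integral_of_summable_norm`
or `hasSum_integral_of_dominated_convergence`); `∫_0^{2π} e^{i(m-n)θ} dθ = 2π` if `m = n` and `0`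
otherwise.  (Other proof: Fourier series `fourierCoeff`, `tsum_sq_fourierCoeff`.)
-/

set_option autoImplicit false

open PowerSeries Finset

namespace Pool.Agent.KIM.AL

open Pool.Agent.LOE (Dk coef)

private theorem mem_Dk_of {r : ℝ} (h0 : 0 ≤ r) (h1 : r < 1) (θ : ℝ) :
    (r : ℂ) * Complex.exp (θ * Complex.I) ∈ Dk := by
  unfold Dk
  rw [Metric.mem_ball, dist_zero_right, norm_mul, Complex.norm_exp_ofReal_mul_I, mul_one,
    Complex.norm_real, Real.norm_eq_abs, abs_of_nonneg h0]
  exact h1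

private theorem continuous_circ {G : ℂ → ℂ} (hG : DifferentiableOn ℂ G Dk) {r : ℝ}
    (h0 : 0 ≤ r) (h1 : r < 1) :
    Continuous fun θ : ℝ => G ((r : ℂ) * Complex.exp (θ * Complex.I)) :=
  hG.continuousOn.comp_continuous (by fun_prop) (mem_Dk_of h0 h1)

private theorem integral_exp_int (k : ℤ) :
    ∫ θ in (0 : ℝ)..(2 * Real.pi), Complex.exp ((k : ℂ) * Complex.I * θ) =
      if k = 0 then 2 * (Real.pi : ℂ) else 0 := by
  split_ifs with hk
  · subst hk
    simp
  · have hc : (k : ℂ) * Complex.I ≠ 0 :=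
      mul_ne_zero (Int.cast_ne_zero.2 hk) Complex.I_ne_zero
    rw [integral_exp_mul_complex hc]
    have h1 : Complex.exp ((k : ℂ) * Complex.I * ((2 * Real.pi : ℝ) : ℂ)) = 1 := by
      rw [Complex.exp_eq_one_iff]
      exact ⟨k, by push_cast; ring⟩
    rw [h1]
    simp

private theorem term_eq (a : ℂ) (r θ : ℝ) (m n : ℕ) :
    a * ((r : ℂ) * Complex.exp (θ * Complex.I)) ^ m * Complex.exp (-(n : ℂ) * Complex.I * θ) =
      a * (r : ℂ) ^ m * Complex.exp ((((m : ℤ) - (n : ℤ) : ℤ) : ℂ) * Complex.I * θ) := by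
  rw [mul_pow, ← Complex.exp_nat_mul]
  have h1 : Complex.exp ((((m : ℤ) - (n : ℤ) : ℤ) : ℂ) * Complex.I * θ) =
      Complex.exp ((m : ℂ) * (θ * Complex.I)) * Complex.exp (-(n : ℂ) * Complex.I * θ) := by
    rw [← Complex.exp_add]
    congr 1
    push_cast
    ring
  rw [h1]
  ring

private theorem norm_exp_I (n : ℕ) (θ : ℝ) :
    ‖Complex.exp (-(n : ℂ) * Complex.I * θ)‖ = 1 := by
  rw [Complex.norm_exp]
  have h1 : (-(n : ℂ) * Complex.I * θ).re = 0 := by
    simp
  rw [h1, Real.exp_zero]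

/-- the Fourier coefficients -/
private theorem fourier_disc {G : ℂ → ℂ} (hG : DifferentiableOn ℂ G Dk) {r : ℝ} (h0 : 0 ≤ r)
    (h1 : r < 1) (n : ℕ) :
    ∫ θ in (0 : ℝ)..(2 * Real.pi), G (r * Complex.exp (θ * Complex.I)) *
      Complex.exp (-(n : ℂ) * Complex.I * θ) = 2 * (Real.pi : ℂ) * (coef n G * (r : ℂ) ^ n) := by
  have hs := summable_norm_tay hG h0 h1
  have hsum := intervalIntegral.hasSum_integral_of_dominated_convergence (μ := MeasureTheory.volume)
    (a := (0 : ℝ)) (b := 2 * Real.pi)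
    (F := fun (m : ℕ) (θ : ℝ) => coef m G * ((r : ℂ) * Complex.exp (θ * Complex.I)) ^ m *
      Complex.exp (-(n : ℂ) * Complex.I * θ))
    (f := fun θ : ℝ => G (r * Complex.exp (θ * Complex.I)) *
      Complex.exp (-(n : ℂ) * Complex.I * θ))
    (fun m _ => ‖coef m G‖ * r ^ m)
    (fun m => by
      apply Continuous.aestronglyMeasurable
      fun_prop)
    (fun m => by
      apply Filter.Eventually.of_forall
      intro θ _
      show ‖coef m G * ((r : ℂ) * Complex.exp (θ * Complex.I)) ^ m *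
        Complex.exp (-(n : ℂ) * Complex.I * θ)‖ ≤ ‖coef m G‖ * r ^ m
      rw [norm_mul, norm_exp_I, mul_one, norm_mul, norm_pow, norm_mul,
        Complex.norm_exp_ofReal_mul_I, mul_one, Complex.norm_real, Real.norm_eq_abs,
        abs_of_nonneg h0])
    (Filter.Eventually.of_forall fun θ _ => hs)
    (by
      apply Continuous.intervalIntegrable
      exact continuous_const)
    (by
      apply Filter.Eventually.of_forall
      intro θ _
      exact (hasSum_tay hG (mem_Dk_of h0 h1 θ)).mul_right _)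
  have hterm : ∀ m : ℕ, ∫ θ in (0 : ℝ)..(2 * Real.pi),
      coef m G * ((r : ℂ) * Complex.exp (θ * Complex.I)) ^ m *
        Complex.exp (-(n : ℂ) * Complex.I * θ) =
      if m = n then 2 * (Real.pi : ℂ) * (coef n G * (r : ℂ) ^ n) else 0 := by
    intro m
    simp only [term_eq]
    rw [intervalIntegral.integral_const_mul, integral_exp_int]
    by_cases hmn : m = n
    · subst hmn
      rw [if_pos (by ring), if_pos rfl]
      ring
    · rw [if_neg (by omega), if_neg hmn, mul_zero]
  simp only [hterm] at hsum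
  exact hsum.unique (hasSum_ite_eq n _)

theorem parseval_disc {G : ℂ → ℂ} (hG : DifferentiableOn ℂ G Dk) {r : ℝ} (h0 : 0 ≤ r)
    (h1 : r < 1) :
    HasSum (fun n : ℕ => ‖coef n G‖ ^ 2 * r ^ (2 * n))
      ((1 / (2 * Real.pi)) * ∫ θ in (0 : ℝ)..(2 * Real.pi),
        ‖G (r * Complex.exp (θ * Complex.I))‖ ^ 2) := by
  have hs := summable_norm_tay hG h0 h1
  have hcont := continuous_circ hG h0 h1
  set S : ℝ := ∑' n : ℕ, ‖coef n G‖ * r ^ n with hS
  have hnorm : ∀ (m : ℕ) (θ : ℝ), ‖coef m G * ((r : ℂ) * Complex.exp (θ * Complex.I)) ^ m‖ =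
      ‖coef m G‖ * r ^ m := by
    intro m θ
    rw [norm_mul, norm_pow, norm_mul, Complex.norm_exp_ofReal_mul_I, mul_one,
      Complex.norm_real, Real.norm_eq_abs, abs_of_nonneg h0]
  have hbd : ∀ θ : ℝ, ‖G (r * Complex.exp (θ * Complex.I))‖ ≤ S := by
    intro θ
    have h2 := hasSum_tay hG (mem_Dk_of h0 h1 θ)
    rw [← h2.tsum_eq, hS]
    have h3 : Summable fun n : ℕ =>
        ‖coef n G * ((r : ℂ) * Complex.exp (θ * Complex.I)) ^ n‖ := by
      simp only [hnorm]
      exact hs
    refine (norm_tsum_le_tsum_norm h3).trans (le_of_eq ?_)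
    simp only [hnorm]
  have hsum := intervalIntegral.hasSum_integral_of_dominated_convergence (μ := MeasureTheory.volume)
    (a := (0 : ℝ)) (b := 2 * Real.pi)
    (F := fun (m : ℕ) (θ : ℝ) => G (r * Complex.exp (θ * Complex.I)) *
      (starRingEnd ℂ) (coef m G * ((r : ℂ) * Complex.exp (θ * Complex.I)) ^ m))
    (f := fun θ : ℝ => G (r * Complex.exp (θ * Complex.I)) *
      (starRingEnd ℂ) (G (r * Complex.exp (θ * Complex.I))))
    (fun m _ => S * (‖coef m G‖ * r ^ m))
    (fun m => by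
      apply Continuous.aestronglyMeasurable
      apply Continuous.mul hcont
      apply Continuous.comp Complex.continuous_conj
      fun_prop)
    (fun m => by
      apply Filter.Eventually.of_forall
      intro θ _
      rw [norm_mul, RCLike.norm_conj, hnorm]
      apply mul_le_mul_of_nonneg_right (hbd θ)
      positivity)
    (Filter.Eventually.of_forall fun θ _ => hs.mul_left S)
    (by
      apply Continuous.intervalIntegrable
      exact continuous_const)
    (by
      apply Filter.Eventually.of_forall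
      intro θ _
      apply HasSum.mul_left
      exact (hasSum_tay hG (mem_Dk_of h0 h1 θ)).map (starRingEnd ℂ) Complex.continuous_conj)
  have hterm : ∀ m : ℕ, ∫ θ in (0 : ℝ)..(2 * Real.pi),
      G (r * Complex.exp (θ * Complex.I)) *
        (starRingEnd ℂ) (coef m G * ((r : ℂ) * Complex.exp (θ * Complex.I)) ^ m) =
      ((2 * Real.pi * (‖coef m G‖ ^ 2 * r ^ (2 * m)) : ℝ) : ℂ) := by
    intro m
    have h2 : ∀ θ : ℝ, G (r * Complex.exp (θ * Complex.I)) *
        (starRingEnd ℂ) (coef m G * ((r : ℂ) * Complex.exp (θ * Complex.I)) ^ m) =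
        ((starRingEnd ℂ) (coef m G) * (r : ℂ) ^ m) * (G (r * Complex.exp (θ * Complex.I)) *
          Complex.exp (-(m : ℂ) * Complex.I * θ)) := by
      intro θ
      have h3 : (starRingEnd ℂ) (Complex.exp (θ * Complex.I) ^ m) =
          Complex.exp (-(m : ℂ) * Complex.I * θ) := by
        rw [← Complex.exp_nat_mul, ← Complex.exp_conj]
        congr 1
        simp only [map_mul, Complex.conj_natCast, Complex.conj_ofReal, Complex.conj_I]
        ring
      rw [mul_pow, map_mul, map_mul, h3, map_pow, Complex.conj_ofReal]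
      ring
    simp only [h2]
    rw [intervalIntegral.integral_const_mul, fourier_disc hG h0 h1 m]
    have h4 : (starRingEnd ℂ) (coef m G) * coef m G = ((‖coef m G‖ ^ 2 : ℝ) : ℂ) := by
      rw [mul_comm, Complex.mul_conj, Complex.normSq_eq_norm_sq]
    push_cast at h4 ⊢
    rw [pow_mul']
    linear_combination (2 * (Real.pi : ℂ) * (r : ℂ) ^ m * (r : ℂ) ^ m) * h4
  simp only [hterm] at hsum
  have hf : ∀ θ : ℝ, G (r * Complex.exp (θ * Complex.I)) *
      (starRingEnd ℂ) (G (r * Complex.exp (θ * Complex.I))) =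
      ((‖G (r * Complex.exp (θ * Complex.I))‖ ^ 2 : ℝ) : ℂ) := by
    intro θ
    rw [Complex.mul_conj, Complex.normSq_eq_norm_sq]
  simp only [hf] at hsum
  rw [intervalIntegral.integral_ofReal] at hsum
  have h5 : HasSum (fun m : ℕ => 2 * Real.pi * (‖coef m G‖ ^ 2 * r ^ (2 * m)))
      (∫ θ in (0 : ℝ)..(2 * Real.pi), ‖G (r * Complex.exp (θ * Complex.I))‖ ^ 2) :=
    Complex.hasSum_ofReal.1 hsum
  have h6 := h5.mul_left (1 / (2 * Real.pi))
  have h7 : (fun m : ℕ => 1 / (2 * Real.pi) * (2 * Real.pi * (‖coef m G‖ ^ 2 * r ^ (2 * m)))) =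
      fun m : ℕ => ‖coef m G‖ ^ 2 * r ^ (2 * m) := by
    funext m
    have hpi := Real.pi_ne_zero
    field_simp
  rw [h7] at h6
  exact h6

end Pool.Agent.KIM.AL
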