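import Pool.Agent.KIM.AL3
import Pool.Agent.LOE.IDN

/-!
# KIM / AL5: branches for univalent functions

PROOFS.  `f ∈ S`: `deriv f z ≠ 0` on `Dk` by `Pool.Agent.LOE.deriv_ne_zero_of_injOn`
(`Dk = ball 0 1` open).  `dslope f 0` is holomorphic on `Dk` (`differentiableOn_dslope`), has the
value `deriv f 0 = 1` at `0` and `f z / z ≠ 0` at `z ≠ 0` (`f z = f 0 = 0` would contradict
injectivity).  Then `exists_branch` for `deriv f` and `dslope f 0`; `serP_eq_tay`, `serD_eq_tay`,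
`serD_add_eul`, `tay_mul`.
-/

set_option autoImplicit false

open PowerSeries Finset

namespace Pool.Agent.KIM.AL

open Pool.Agent.LOE (Dk coef)
open Pool.Agent.Helper42.KoebeMeans (ClassS koebe integralMean bestConstant)

theorem classS_deriv_ne_zero {f : ℂ → ℂ} (hf : ClassS f) {z : ℂ} (hz : z ∈ Dk) :
    deriv f z ≠ 0 :=
  Pool.Agent.LOE.deriv_ne_zero_of_injOn Metric.isOpen_ball hf.1 hf.2.1 hz

theorem classS_dslope_ne_zero {f : ℂ → ℂ} (hf : ClassS f) {z : ℂ} (hz : z ∈ Dk) :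
    dslope f 0 z ≠ 0 := by
  by_cases h0 : z = 0
  · rw [h0, dslope_same, hf.2.2.2]
    exact one_ne_zero
  · rw [dslope_of_ne f h0, slope_def_field, sub_zero, hf.2.2.1, sub_zero]
    refine div_ne_zero (fun h => h0 ?_) h0
    exact hf.2.1 hz (Metric.mem_ball_self one_pos) (by rw [h, hf.2.2.1])

private theorem al5_coef_one {f : ℂ → ℂ} (hf : ClassS f) : coef 1 f = 1 := by
  simp [coef, iteratedDeriv_one, hf.2.2.2]

theorem constantCoeff_serD {f : ℂ → ℂ} (hf : ClassS f) : constantCoeff (serD f) = 1 := by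
  rw [← coeff_zero_eq_constantCoeff_apply, serD, coeff_mk, zero_add]
  exact al5_coef_one hf

theorem constantCoeff_serP {f : ℂ → ℂ} (hf : ClassS f) : constantCoeff (serP f) = 1 := by
  rw [← coeff_zero_eq_constantCoeff_apply, serP, coeff_mk, zero_add, al5_coef_one hf]
  simp

private theorem al5_nhds : (Metric.ball (0 : ℂ) 1) ∈ nhds (0 : ℂ) :=
  Metric.ball_mem_nhds 0 one_pos

theorem exists_branch_deriv {f : ℂ → ℂ} (hf : ClassS f) (a : ℝ) :
    ∃ G : ℂ → ℂ, DifferentiableOn ℂ G Dk ∧ G 0 = 1 ∧ (∀ z ∈ Dk, ‖G z‖ = ‖deriv f z‖ ^ a) ∧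
      tay G = rp (serP f) (a : ℂ) := by
  obtain ⟨G, h1, h2, h3, -, h4⟩ := exists_branch (h := deriv f)
    (hf.1.deriv Metric.isOpen_ball) (fun z hz => classS_deriv_ne_zero hf hz) hf.2.2.2 a
  refine ⟨G, h1, h2, h3, ?_⟩
  rw [h4, serP_eq_tay]

theorem exists_branch_dslope {f : ℂ → ℂ} (hf : ClassS f) (a : ℝ) :
    ∃ G : ℂ → ℂ, DifferentiableOn ℂ G Dk ∧ G 0 = 1 ∧ (∀ z ∈ Dk, ‖G z‖ = ‖dslope f 0 z‖ ^ a) ∧
      tay G = rp (serD f) (a : ℂ) := by
  obtain ⟨G, h1, h2, h3, -, h4⟩ := exists_branch (h := dslope f 0)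
    ((Complex.differentiableOn_dslope al5_nhds).2 hf.1)
    (fun z hz => classS_dslope_ne_zero hf hz) (by rw [dslope_same, hf.2.2.2]) a
  refine ⟨G, h1, h2, h3, ?_⟩
  rw [h4, serD_eq_tay hf.1 hf.2.2.1]

theorem exists_branch_ph {f : ℂ → ℂ} (hf : ClassS f) (al be : ℝ) :
    ∃ G : ℂ → ℂ, DifferentiableOn ℂ G Dk ∧ G 0 = 1 ∧
      (∀ z ∈ Dk, ‖G z‖ = ‖dslope f 0 z‖ ^ al * ‖deriv f z‖ ^ be) ∧
      ∀ m, coef m G = cc al be f m := by
  obtain ⟨G1, h1, h2, h3, h4⟩ := exists_branch_dslope hf al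
  obtain ⟨G2, k1, k2, k3, k4⟩ := exists_branch_deriv hf be
  refine ⟨fun z => G1 z * G2 z, h1.mul k1, by simp [h2, k2], fun z hz => ?_, fun m => ?_⟩
  · simp only [norm_mul]
    rw [h3 z hz, k3 z hz]
  · rw [← coeff_tay, tay_mul h1 k1, h4, k4, cc, ph, serD_add_eul]

end Pool.Agent.KIM.AL
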