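import Pool.Agent.KIM.AL4
import Pool.Agent.KIM.AL5

/-!
# KIM / AL6: integral means as power series

PROOF.  `exists_branch_deriv` with `a = q`: `‖f'‖^(2q) = ‖G‖^2` on the circle of radius `r`
(`Real.rpow_mul`, `Real.rpow_natCast`), `parseval_disc`, and
`integralMean (2q) r f ^ (2q) = mean` (`Real.rpow_mul`, the mean is `≥ 0`, `2 q ≠ 0`).
-/

set_option autoImplicit false

open PowerSeries Finset

namespace Pool.Agent.KIM.AL

open Pool.Agent.LOE (Dk coef)
open Pool.Agent.Helper42.KoebeMeans (ClassS koebe integralMean bestConstant)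

theorem integralMean_hasSum {f : ℂ → ℂ} (hf : ClassS f) {q : ℝ} (hq : 0 < q) {r : ℝ}
    (h0 : 0 < r) (h1 : r < 1) :
    HasSum (fun n : ℕ => ‖coeff n (rp (serP f) (q : ℂ))‖ ^ 2 * r ^ (2 * n))
      (integralMean (2 * q) r f ^ (2 * q)) := by
  obtain ⟨G, h2, h3, h4, h5⟩ := exists_branch_deriv hf q
  have h6 := parseval_disc h2 h0.le h1
  have h7 : ∀ θ : ℝ, ‖G (r * Complex.exp (θ * Complex.I))‖ ^ 2 =
      ‖deriv f (r * Complex.exp (θ * Complex.I))‖ ^ (2 * q) := by
    intro θ
    have hz : (r : ℂ) * Complex.exp (θ * Complex.I) ∈ Dk := by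
      rw [Dk, mem_ball_zero_iff, norm_mul, Complex.norm_exp_ofReal_mul_I, mul_one,
        Complex.norm_real, Real.norm_of_nonneg h0.le]
      exact h1
    rw [h4 _ hz, ← Real.rpow_natCast, ← Real.rpow_mul (norm_nonneg _)]
    congr 1
    push_cast
    ring
  have h8 : integralMean (2 * q) r f ^ (2 * q) = (1 / (2 * Real.pi)) *
      ∫ θ in (0 : ℝ)..(2 * Real.pi), ‖G (r * Complex.exp (θ * Complex.I))‖ ^ 2 := by
    have h9 : ∫ θ in (0 : ℝ)..(2 * Real.pi), ‖G (r * Complex.exp (θ * Complex.I))‖ ^ 2 =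
        ∫ θ in (0 : ℝ)..(2 * Real.pi),
          ‖deriv f (r * Complex.exp (θ * Complex.I))‖ ^ (2 * q) := by
      apply intervalIntegral.integral_congr
      intro θ _
      exact h7 θ
    rw [h9, integralMean]
    have h10 : (0 : ℝ) ≤ (1 / (2 * Real.pi)) * ∫ θ in (0 : ℝ)..(2 * Real.pi),
          ‖deriv f (r * Complex.exp (θ * Complex.I))‖ ^ (2 * q) := by
      apply mul_nonneg (by positivity)
      apply intervalIntegral.integral_nonneg (by positivity)
      intro θ _
      positivity
    rw [← Real.rpow_mul h10, one_div_mul_cancel (by positivity), Real.rpow_one]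
  rw [h8]
  refine h6.congr_fun ?_
  intro n
  rw [← coeff_tay, h5]

theorem integralMean_pos {f : ℂ → ℂ} (hf : ClassS f) {q : ℝ} (hq : 0 < q) {r : ℝ}
    (h0 : 0 < r) (h1 : r < 1) : 0 < integralMean (2 * q) r f := by
  have h2 := integralMean_hasSum hf hq h0 h1
  have h3 : (1 : ℝ) ≤ integralMean (2 * q) r f ^ (2 * q) := by
    have h4 := h2.summable.le_tsum 0 (fun n _ => by positivity)
    rw [h2.tsum_eq] at h4
    simpa [constantCoeff_rp] using h4
  have h5 : 0 ≤ integralMean (2 * q) r f := by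
    rw [integralMean]
    apply Real.rpow_nonneg
    apply mul_nonneg (by positivity)
    apply intervalIntegral.integral_nonneg (by positivity)
    intro θ _
    positivity
  rcases h5.eq_or_lt with h6 | h6
  · rw [← h6, Real.zero_rpow (by positivity)] at h3
    linarith
  · exact h6

end Pool.Agent.KIM.AL
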