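import Pool.Agent.KIM.AL5
import Pool.Agent.Helper42.KoebeProof

/-!
# KIM / AL7: the Koebe function

PROOFS.  `koebe z = z / (1 - z)^2` is in `ClassS` (injective: `z (1-w)^2 = w (1-z)^2` iff
`(z - w)(1 - z w) = 0`).  `dslope koebe 0 z = 1 / (1 - z)^2` on `Dk`, `deriv koebe z =
(1 + z) / (1 - z)^3` (`Pool.Agent.Helper42.KoebeMeans.hasDerivAt_koebe`).  Hence
`serD koebe * (1 - X)^2 = 1`, `serP koebe * (1 - X)^3 = 1 + X` (`tay_mul`, `tay_congr`), i.e.
`serD koebe = rp (1 - X) (-2)`, `serP koebe = (1 + X) * rp (1 - X) (-3)` and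
`rp (serP koebe) q = rp (1 + X) q * rp (1 - X) (-3 q) = map ofReal (Kq q)` by `AL2`.
-/

set_option autoImplicit false

open PowerSeries Finset

namespace Pool.Agent.KIM.AL

open Pool.Agent.LOE (Dk coef)
open Pool.Agent.Helper42.KoebeMeans (ClassS koebe integralMean bestConstant)

private theorem al7_norm {z : ℂ} (hz : z ∈ Dk) : ‖z‖ < 1 := by
  unfold Pool.Agent.LOE.Dk at hz
  exact mem_ball_zero_iff.1 hz

private theorem al7_ne {z : ℂ} (hz : z ∈ Dk) : (1 : ℂ) - z ≠ 0 := by
  intro h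
  have h1 : z = 1 := (sub_eq_zero.1 h).symm
  have h2 := al7_norm hz
  rw [h1, norm_one] at h2
  exact lt_irrefl _ h2

private theorem al7_deriv {z : ℂ} (hz : z ∈ Dk) : deriv koebe z = (1 + z) / (1 - z) ^ 3 :=
  (Pool.Agent.Helper42.KoebeMeans.hasDerivAt_koebe (al7_norm hz)).deriv

theorem classS_koebe : ClassS koebe := by
  refine ⟨fun z hz => ?_, fun z hz w hw h => ?_, ?_, ?_⟩
  · exact (Pool.Agent.Helper42.KoebeMeans.hasDerivAt_koebe
      (al7_norm hz)).differentiableAt.differentiableWithinAt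
  · have h1 := al7_ne hz
    have h2 := al7_ne hw
    unfold Pool.Agent.Helper42.KoebeMeans.koebe at h
    rw [div_eq_div_iff (pow_ne_zero 2 h1) (pow_ne_zero 2 h2)] at h
    have h3 : (z - w) * (1 - z * w) = 0 := by linear_combination h
    rcases mul_eq_zero.1 h3 with h4 | h4
    · exact sub_eq_zero.1 h4
    · exfalso
      have h5 : z * w = 1 := (sub_eq_zero.1 h4).symm
      have h6 : ‖z‖ * ‖w‖ = 1 := by rw [← norm_mul, h5, norm_one]
      have h7 := al7_norm hz
      have h8 := al7_norm hw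
      have h9 : ‖z‖ * ‖w‖ < 1 := by
        have := norm_nonneg z
        have := norm_nonneg w
        nlinarith
      linarith
  · simp [Pool.Agent.Helper42.KoebeMeans.koebe]
  · rw [al7_deriv (Metric.mem_ball_self one_pos)]
    simp

private theorem al7_tay_one_sub : tay (fun z => 1 - z) = 1 - X := by
  apply PowerSeries.derivative.ext
  · rw [← tay_deriv]
    have h1 : deriv (fun z : ℂ => 1 - z) = fun _ => (-1 : ℂ) := by
      funext z
      exact ((hasDerivAt_id z).const_sub 1).deriv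
    rw [h1, tay_const, map_sub, PowerSeries.derivative_X]
    simp
  · rw [constantCoeff_tay]
    simp

private theorem al7_tay_one_add : tay (fun z => 1 + z) = 1 + X := by
  apply PowerSeries.derivative.ext
  · rw [← tay_deriv]
    have h1 : deriv (fun z : ℂ => 1 + z) = fun _ => (1 : ℂ) := by
      funext z
      exact ((hasDerivAt_id z).const_add 1).deriv
    rw [h1, tay_const, map_add, PowerSeries.derivative_X]
    simp
  · rw [constantCoeff_tay]
    simp

private theorem al7_cc : constantCoeff (1 - X : ℂ⟦X⟧) = 1 := by simp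

private theorem al7_cc' : constantCoeff (1 + X : ℂ⟦X⟧) = 1 := by simp

private theorem al7_rp_neg (n : ℕ) {g h : ℂ⟦X⟧} (e : g * (1 - X) ^ n = h) :
    g = h * rp (1 - X : ℂ⟦X⟧) (-(n : ℂ)) := by
  have h1 : rp (1 - X : ℂ⟦X⟧) (n : ℂ) * rp (1 - X : ℂ⟦X⟧) (-(n : ℂ)) = 1 := by
    rw [← rp_add al7_cc, add_neg_cancel, rp_zero al7_cc]
  rw [rp_nat al7_cc] at h1
  rw [← e, mul_assoc, h1, mul_one]

private theorem al7_diff1 : DifferentiableOn ℂ (fun z : ℂ => 1 - z) Dk :=
  (differentiableOn_const _).sub differentiableOn_id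

private theorem al7_diff2 : DifferentiableOn ℂ (fun z : ℂ => (1 - z) * (1 - z)) Dk :=
  al7_diff1.mul al7_diff1

private theorem al7_diff3 : DifferentiableOn ℂ (fun z : ℂ => (1 - z) * (1 - z) * (1 - z)) Dk :=
  al7_diff2.mul al7_diff1

theorem serD_koebe : serD koebe = rp (1 - X : ℂ⟦X⟧) (-2) := by
  have hd : DifferentiableOn ℂ (dslope koebe 0) Dk :=
    (Complex.differentiableOn_dslope (Metric.ball_mem_nhds (0 : ℂ) one_pos)).2 classS_koebe.1
  have h1 : serD koebe * (1 - X) ^ 2 = 1 := by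
    rw [serD_eq_tay classS_koebe.1 classS_koebe.2.2.1, pow_two, ← al7_tay_one_sub,
      ← tay_mul al7_diff1 al7_diff1, ← tay_mul hd al7_diff2]
    rw [← map_one (C (R := ℂ)), ← tay_const]
    refine tay_congr fun z hz => ?_
    by_cases h0 : z = 0
    · rw [h0, dslope_same, classS_koebe.2.2.2]
      simp
    · rw [dslope_of_ne koebe h0, slope_def_field, sub_zero, classS_koebe.2.2.1, sub_zero,
        Pool.Agent.Helper42.KoebeMeans.koebe]
      have := al7_ne hz
      field_simp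
  have h2 := al7_rp_neg 2 h1
  rw [one_mul] at h2
  exact_mod_cast h2

theorem serP_koebe : serP koebe = (1 + X) * rp (1 - X : ℂ⟦X⟧) (-3) := by
  have hd : DifferentiableOn ℂ (deriv koebe) Dk := classS_koebe.1.deriv Metric.isOpen_ball
  have h1 : serP koebe * (1 - X) ^ 3 = 1 + X := by
    rw [serP_eq_tay, pow_succ, pow_two, ← al7_tay_one_sub,
      ← tay_mul al7_diff1 al7_diff1, ← tay_mul al7_diff2 al7_diff1, ← tay_mul hd al7_diff3,
      ← al7_tay_one_add]
    refine tay_congr fun z hz => ?_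
    rw [al7_deriv hz]
    have := al7_ne hz
    field_simp
  have h2 := al7_rp_neg 3 h1
  exact_mod_cast h2

theorem bin_map (g b : ℝ) : PowerSeries.map Complex.ofRealHom (bin g b) =
    rp (1 + X : ℂ⟦X⟧) (g : ℂ) * rp (1 - X : ℂ⟦X⟧) (-(b : ℂ)) := by
  have h1 : constantCoeff (1 + X : ℝ⟦X⟧) = 1 := by simp
  have h2 : constantCoeff (1 - X : ℝ⟦X⟧) = 1 := by simp
  rw [bin, map_mul, ← rp_map Complex.ofRealHom h1, ← rp_map Complex.ofRealHom h2]
  simp

theorem coeff_rp_serP_koebe (q : ℝ) (n : ℕ) :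
    coeff n (rp (serP koebe) (q : ℂ)) = ((coeff n (Kq q) : ℝ) : ℂ) := by
  have h1 : ((coeff n (Kq q) : ℝ) : ℂ) =
      coeff n (PowerSeries.map Complex.ofRealHom (Kq q)) := by
    rw [coeff_map]
    rfl
  rw [h1, Kq, bin_map, serP_koebe, rp_mul al7_cc' (constantCoeff_rp _ _), rp_rp al7_cc]
  have h2 : (-3 : ℂ) * (q : ℂ) = -((3 * q : ℝ) : ℂ) := by
    push_cast
    ring
  rw [h2]

theorem cc_koebe (al be : ℝ) (m : ℕ) : cc al be koebe m = ((Vc al be m : ℝ) : ℂ) := by
  have h1 : ((Vc al be m : ℝ) : ℂ) =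
      coeff m (PowerSeries.map Complex.ofRealHom (bin be (2 * al + 3 * be))) := by
    rw [coeff_map, Vc]
    rfl
  have h2 : (-2 : ℂ) * (al : ℂ) + (-3 : ℂ) * (be : ℂ) = -((2 * al + 3 * be : ℝ) : ℂ) := by
    push_cast
    ring
  rw [h1, bin_map, cc, ph, serD_add_eul, serD_koebe, serP_koebe, rp_rp al7_cc,
    rp_mul al7_cc' (constantCoeff_rp _ _), rp_rp al7_cc, ← h2, rp_add al7_cc]
  congr 1
  ring

end Pool.Agent.KIM.AL
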