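import Pool.Agent.KIM.AL5

/-!
# KIM / AL8: dilations

PROOFS.  `dil rho f z = f (rho z) / rho`.  Holomorphic and injective on `Dk` because
`rho z ∈ Dk`; bounded because `rho z` stays in the compact disc `closedBall 0 rho` where `f` is
continuous.  `coef (n+1) (dil rho f) = rho ^ n * coef (n+1) f` by `coef_scale` (and
`coef n (g / c) = coef n g / c`), so `serD (dil rho f) = rescale rho (serD f)`,
`serP (dil rho f) = rescale rho (serP f)`; then `rp_rescale`, and `rescale` commutes with `eul`.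
-/

set_option autoImplicit false

open PowerSeries Finset

namespace Pool.Agent.KIM.AL

open Pool.Agent.LOE (Dk coef)
open Pool.Agent.Helper42.KoebeMeans (ClassS koebe integralMean bestConstant)

private theorem al8_mem {rho : ℝ} (h0 : 0 < rho) (h1 : rho < 1) {z : ℂ}
    (hz : z ∈ Metric.ball (0 : ℂ) 1) : (rho : ℂ) * z ∈ Metric.ball (0 : ℂ) 1 := by
  rw [mem_ball_zero_iff] at hz ⊢
  rw [norm_mul, Complex.norm_real, Real.norm_of_nonneg h0.le]
  nlinarith [norm_nonneg z]

theorem classS_dil {f : ℂ → ℂ} (hf : ClassS f) {rho : ℝ} (h0 : 0 < rho) (h1 : rho < 1) :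
    ClassS (dil rho f) := by
  have hr : (rho : ℂ) ≠ 0 := by exact_mod_cast h0.ne'
  refine ⟨?_, ?_, ?_, ?_⟩
  · refine DifferentiableOn.div_const ?_ _
    exact hf.1.comp (by fun_prop) fun z hz => al8_mem h0 h1 hz
  · intro z hz w hw h
    simp only [dil] at h
    rw [div_left_inj' hr] at h
    exact mul_left_cancel₀ hr (hf.2.1 (al8_mem h0 h1 hz) (al8_mem h0 h1 hw) h)
  · simp [dil, hf.2.2.1]
  · have h2 : deriv (dil rho f) 0 = deriv (fun z : ℂ => f (rho * z)) 0 / rho := by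
      unfold dil
      exact deriv_div_const _
    have h3 : deriv (fun z : ℂ => f (rho * z)) 0 = (rho : ℂ) • deriv f (rho * 0) :=
      deriv_comp_mul_left _ _ _
    rw [h2, h3, mul_zero, hf.2.2.2, smul_eq_mul, mul_one, div_self hr]

theorem bounded_dil {f : ℂ → ℂ} (hf : ClassS f) {rho : ℝ} (h0 : 0 < rho) (h1 : rho < 1) :
    ∃ M : ℝ, ∀ z ∈ Dk, ‖dil rho f z‖ ≤ M := by
  obtain ⟨C, hC⟩ := (isCompact_closedBall (0 : ℂ) rho).exists_bound_of_continuousOn
    (hf.1.continuousOn.mono (Metric.closedBall_subset_ball h1))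
  refine ⟨C / rho, fun z hz => ?_⟩
  have h2 : (rho : ℂ) * z ∈ Metric.closedBall (0 : ℂ) rho := by
    rw [Dk, mem_ball_zero_iff] at hz
    rw [mem_closedBall_zero_iff, norm_mul, Complex.norm_real, Real.norm_of_nonneg h0.le]
    nlinarith [norm_nonneg z]
  rw [dil, norm_div, Complex.norm_real, Real.norm_of_nonneg h0.le]
  exact div_le_div_of_nonneg_right (hC _ h2) h0.le

private theorem al8_coef {f : ℂ → ℂ} (hf : ClassS f) {rho : ℝ} (h0 : 0 < rho) (n : ℕ) :
    coef (n + 1) (dil rho f) = (rho : ℂ) ^ n * coef (n + 1) f := by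
  have hr : (rho : ℂ) ≠ 0 := by exact_mod_cast h0.ne'
  have h2 : coef (n + 1) (dil rho f) = coef (n + 1) (fun z => f (rho * z)) / rho := by
    have h3 : iteratedDeriv (n + 1) (dil rho f) 0 =
        iteratedDeriv (n + 1) (fun z : ℂ => f (rho * z)) 0 / rho := by
      have h4 := iteratedDeriv_div_const (n := n + 1) (x := (0 : ℂ))
        (fun z : ℂ => f (rho * z)) (rho : ℂ)
      exact h4
    rw [coef, h3, coef]
    ring
  rw [h2, coef_scale hf.1, pow_succ]
  field_simp

theorem serD_dil {f : ℂ → ℂ} (hf : ClassS f) {rho : ℝ} (h0 : 0 < rho) (h1 : rho < 1) :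
    serD (dil rho f) = rescale (rho : ℂ) (serD f) := by
  ext n
  rw [coeff_rescale, serD, serD, coeff_mk, coeff_mk, al8_coef hf h0]

theorem serP_dil {f : ℂ → ℂ} (hf : ClassS f) {rho : ℝ} (h0 : 0 < rho) (h1 : rho < 1) :
    serP (dil rho f) = rescale (rho : ℂ) (serP f) := by
  ext n
  rw [coeff_rescale, serP, serP, coeff_mk, coeff_mk, al8_coef hf h0]
  ring

theorem coeff_rp_serP_dil {f : ℂ → ℂ} (hf : ClassS f) {rho : ℝ} (h0 : 0 < rho) (h1 : rho < 1)
    (a : ℂ) (n : ℕ) :
    coeff n (rp (serP (dil rho f)) a) = (rho : ℂ) ^ n * coeff n (rp (serP f) a) := by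
  rw [serP_dil hf h0 h1, rp_rescale (constantCoeff_serP hf), coeff_rescale]

theorem cc_dil {f : ℂ → ℂ} (hf : ClassS f) {rho : ℝ} (h0 : 0 < rho) (h1 : rho < 1)
    (al be : ℝ) (m : ℕ) : cc al be (dil rho f) m = (rho : ℂ) ^ m * cc al be f m := by
  rw [cc, cc, ph, ph, serD_add_eul, serD_add_eul, serD_dil hf h0 h1, serP_dil hf h0 h1,
    rp_rescale (constantCoeff_serD hf), rp_rescale (constantCoeff_serP hf), ← map_mul,
    coeff_rescale]

end Pool.Agent.KIM.AL
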