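import Pool.Agent.KIM.AL6
import Pool.Agent.KIM.AL7
import Pool.Agent.KIM.AL8

/-!
# KIM / AL9: from the coefficient inequality for bounded functions to `C_lambda = 1`

PROOF.  Let `K r = ∑ C_n^2 r^(2n)`, `C_n = coeff n (Kq q)` (this is
`integralMean (2q) r koebe ^ (2q)` by `AL6`, `AL7`).  For `f ∈ S` and `0 < rho < 1` the hypothesis
for `dil rho f` and `AL8` give `∑ |d_n|^2 (rho r)^(2n) ≤ K r` for all `0 < r < 1`.  For every `N`
the finite sum `∑_{n<N} |d_n|^2 (rho r)^(2n) ≤ K r`; let `rho → 1`: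
`∑_{n<N} |d_n|^2 r^(2n) ≤ K r`, hence the same for the full sum, i.e.
`integralMean (2q) r f ≤ integralMean (2q) r koebe` (`Real.rpow_le_rpow_iff`), all ratios are
`≤ 1`, and the ratio is `1` for `f = koebe`.
-/

set_option autoImplicit false

open PowerSeries Finset

namespace Pool.Agent.KIM.AL

open Pool.Agent.LOE (Dk coef)
open Pool.Agent.Helper42.KoebeMeans (ClassS koebe integralMean bestConstant)

theorem mean_le_koebe {q : ℝ} (hq : 0 < q)
    (h : ∀ f : ℂ → ℂ, ClassS f → (∃ M : ℝ, ∀ z ∈ Dk, ‖f z‖ ≤ M) → ∀ r : ℝ, 0 < r → r < 1 →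
      ∑' n : ℕ, ‖coeff n (rp (serP f) (q : ℂ))‖ ^ 2 * r ^ (2 * n) ≤
        ∑' n : ℕ, (coeff n (Kq q)) ^ 2 * r ^ (2 * n))
    {f : ℂ → ℂ} (hf : ClassS f) {r : ℝ} (h0 : 0 < r) (h1 : r < 1) :
    integralMean (2 * q) r f ≤ integralMean (2 * q) r koebe := by
  have hk := integralMean_hasSum classS_koebe hq h0 h1
  have hf1 := integralMean_hasSum hf hq h0 h1
  have hk2 : (fun n : ℕ => ‖coeff n (rp (serP koebe) (q : ℂ))‖ ^ 2 * r ^ (2 * n)) =
      fun n : ℕ => (coeff n (Kq q)) ^ 2 * r ^ (2 * n) := by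
    funext n
    rw [coeff_rp_serP_koebe, Complex.norm_real, Real.norm_eq_abs, sq_abs]
  rw [hk2] at hk
  have hpos := integralMean_pos hf hq h0 h1
  have hposk := integralMean_pos classS_koebe hq h0 h1
  refine (Real.rpow_le_rpow_iff hpos.le hposk.le (show 0 < 2 * q by positivity)).mp ?_
  refine le_of_tendsto' hf1.tendsto_sum_nat fun N => ?_
  have key : ∀ rho : ℝ, 0 < rho → rho < 1 →
      ∑ n ∈ range N, (rho ^ n * ‖coeff n (rp (serP f) (q : ℂ))‖) ^ 2 * r ^ (2 * n) ≤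
        integralMean (2 * q) r koebe ^ (2 * q) := by
    intro rho g0 g1
    have h2 := h (dil rho f) (classS_dil hf g0 g1) (bounded_dil hf g0 g1) r h0 h1
    rw [hk.tsum_eq] at h2
    have h3 := (integralMean_hasSum (classS_dil hf g0 g1) hq h0 h1).summable
    have h4 := h3.sum_le_tsum (range N) (fun n _ => by positivity)
    refine le_trans (le_of_eq ?_) (h4.trans h2)
    refine Finset.sum_congr rfl fun n _ => ?_
    rw [coeff_rp_serP_dil hf g0 g1, norm_mul, norm_pow, Complex.norm_real,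
      Real.norm_of_nonneg g0.le]
  have hc : Filter.Tendsto (fun rho : ℝ =>
      ∑ n ∈ range N, (rho ^ n * ‖coeff n (rp (serP f) (q : ℂ))‖) ^ 2 * r ^ (2 * n))
      (nhdsWithin 1 (Set.Iio 1))
      (nhds (∑ n ∈ range N, ((1 : ℝ) ^ n * ‖coeff n (rp (serP f) (q : ℂ))‖) ^ 2 * r ^ (2 * n))) := by
    refine Filter.Tendsto.mono_left ?_ nhdsWithin_le_nhds
    exact (Continuous.tendsto (by fun_prop) (1 : ℝ))
  have hc2 := le_of_tendsto hc (b := integralMean (2 * q) r koebe ^ (2 * q)) ?_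
  · simpa using hc2
  · filter_upwards [Ioo_mem_nhdsLT (show (0 : ℝ) < 1 by norm_num)] with rho hrho
    exact key rho hrho.1 hrho.2

theorem bestConstant_eq_one {q : ℝ} (hq : 0 < q)
    (h : ∀ f : ℂ → ℂ, ClassS f → (∃ M : ℝ, ∀ z ∈ Dk, ‖f z‖ ≤ M) → ∀ r : ℝ, 0 < r → r < 1 →
      ∑' n : ℕ, ‖coeff n (rp (serP f) (q : ℂ))‖ ^ 2 * r ^ (2 * n) ≤
        ∑' n : ℕ, (coeff n (Kq q)) ^ 2 * r ^ (2 * n)) :
    bestConstant (2 * q) = 1 := by
  apply le_antisymm
  · unfold bestConstant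
    refine iSup_le fun f => iSup_le fun hf => iSup_le fun r => iSup_le fun hr => ?_
    refine ENNReal.div_le_of_le_mul ?_
    rw [one_mul]
    exact ENNReal.ofReal_le_ofReal (mean_le_koebe hq h hf hr.1 hr.2)
  · unfold bestConstant
    have hr : (1 / 2 : ℝ) ∈ Set.Ioo (0 : ℝ) 1 := by constructor <;> norm_num
    refine le_trans ?_ (le_iSup_of_le koebe (le_iSup_of_le classS_koebe
      (le_iSup_of_le (1 / 2 : ℝ) (le_iSup_of_le hr le_rfl))))
    have hp := integralMean_pos classS_koebe hq hr.1 hr.2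
    rw [ENNReal.div_self]
    · exact (ENNReal.ofReal_pos.mpr hp).ne'
    · exact ENNReal.ofReal_ne_top

end Pool.Agent.KIM.AL
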