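import Pool.Agent.KIM.Defs
import Pool.Agent.Helper42.KoebeDefs

/-!
# KIM / AL (analytic link): definitions
-/

set_option autoImplicit false

open PowerSeries Finset

namespace Pool.Agent.KIM.AL

open Pool.Agent.LOE (Dk coef)
open Pool.Agent.Helper42.KoebeMeans (ClassS koebe integralMean bestConstant)

/-- The Taylor series of `h` at `0`. -/
noncomputable def tay (h : ℂ → ℂ) : ℂ⟦X⟧ := PowerSeries.mk fun n => coef n h

theorem coeff_tay (h : ℂ → ℂ) (n : ℕ) : coeff n (tay h) = coef n h := by simp [tay]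

/-- Dilation of `f`. -/
noncomputable def dil (rho : ℝ) (f : ℂ → ℂ) : ℂ → ℂ := fun z => f (rho * z) / rho

end Pool.Agent.KIM.AL
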