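import Pool.Agent.KIM.PNN

/-!
# KIM / PBN: the series `bin g b = (1 + z)^g (1 - z)^(-b)`

* `eul_bin`: from `rp_eul` for `1 + X` (`(1 + X) * eul (rp (1+X) g) = C g * X * rp (1+X) g`) and for
  `1 - X` (`(1 - X) * eul (rp (1-X) (-b)) = C b * X * rp (1-X) (-b)`), product rule `eul_mul`.
* `eul_bin'`: the logarithmic derivative `R = mk (fun n => if n = 0 then 0 else b - g (-1)^n)`
  (= `g z/(1+z) + b z/(1-z)`): check `(1 - X^2) * R = C g * X * (1 - X) + C b * X * (1 + X)`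
  coefficientwise and cancel `1 - X^2`.
* `NN_bin`: `b - g (-1)^n ≥ b - |g| ≥ 0`, `NN_of_eul`; `pos_bin`: `pos_of_eul`.
* `bin_mul`: `rp_add`.
* `mono_bin`: `(1 - X) * bin g b = bin g (b - 1)` has nonnegative coefficients.
-/

set_option autoImplicit false

open PowerSeries Finset

namespace Pool.Agent.KIM

theorem PBN_ca : constantCoeff (1 + X : ℝ⟦X⟧) = 1 := by simp

theorem PBN_cs : constantCoeff (1 - X : ℝ⟦X⟧) = 1 := by simp

theorem constantCoeff_bin (g b : ℝ) : constantCoeff (bin g b) = 1 := by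
  unfold bin
  rw [map_mul, constantCoeff_rp, constantCoeff_rp, one_mul]

theorem coeff_zero_bin (g b : ℝ) : coeff 0 (bin g b) = 1 := by
  rw [coeff_zero_eq_constantCoeff_apply, constantCoeff_bin]

theorem bin_mul (g b g' b' : ℝ) : bin g b * bin g' b' = bin (g + g') (b + b') := by
  unfold bin
  rw [rp_add PBN_ca, neg_add, rp_add PBN_cs]
  ring

theorem bin_zero_zero : bin 0 0 = 1 := by
  unfold bin
  rw [neg_zero, rp_zero PBN_ca, rp_zero PBN_cs, one_mul]

theorem bin_one_zero : bin 1 0 = 1 + X := by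
  unfold bin
  rw [neg_zero, rp_one PBN_ca, rp_zero PBN_cs, mul_one]

theorem bin_zero_neg_one : bin 0 (-1) = 1 - X := by
  unfold bin
  rw [neg_neg, rp_zero PBN_ca, rp_one PBN_cs, one_mul]

theorem one_add_mul_bin (g b : ℝ) : (1 + X) * bin g b = bin (g + 1) b := by
  rw [← bin_one_zero, bin_mul, zero_add, add_comm]

theorem one_sub_mul_bin (g b : ℝ) : (1 - X) * bin g b = bin g (b - 1) := by
  rw [← bin_zero_neg_one, bin_mul, zero_add, neg_add_eq_sub]

theorem eul_bin (g b : ℝ) : (1 - X ^ 2) * eul (bin g b) =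
    (C g * X * (1 - X) + C b * X * (1 + X)) * bin g b := by
  have h1 := rp_eul PBN_ca g
  have h2 := rp_eul PBN_cs (-b)
  rw [eul_add, eul_one, eul_X, zero_add] at h1
  rw [eul_sub, eul_one, eul_X, zero_sub, map_neg] at h2
  unfold bin
  rw [eul_mul]
  linear_combination (1 - X) * rp (1 - X : ℝ⟦X⟧) (-b) * h1 + (1 + X) * rp (1 + X : ℝ⟦X⟧) g * h2

theorem PBN_ne : (1 - X ^ 2 : ℝ⟦X⟧) ≠ 0 := by
  intro h
  have h1 := congrArg constantCoeff h
  simp at h1

theorem PBN_R (g b : ℝ) : (1 - X ^ 2) * (PowerSeries.mk fun n => if n = 0 then 0 else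
    b - g * (-1) ^ n : ℝ⟦X⟧) = C g * X * (1 - X) + C b * X * (1 + X) := by
  have e1 : (1 - X ^ 2) * (PowerSeries.mk fun n => if n = 0 then 0 else
      b - g * (-1) ^ n : ℝ⟦X⟧) = (PowerSeries.mk fun n => if n = 0 then 0 else
      b - g * (-1) ^ n : ℝ⟦X⟧) - X ^ 2 * (PowerSeries.mk fun n => if n = 0 then 0 else
      b - g * (-1) ^ n : ℝ⟦X⟧) := by ring
  have e2 : (C g * X * (1 - X) + C b * X * (1 + X) : ℝ⟦X⟧) = C (g + b) * X + C (b - g) * X ^ 2 := by
    rw [map_add, map_sub]; ring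
  rw [e1, e2]
  ext n
  rw [map_sub, map_add, coeff_mk, coeff_C_mul, coeff_C_mul, coeff_X, coeff_X_pow,
    coeff_X_pow_mul']
  rcases n with _ | _ | _ | n
  · simp
  · simp; ring
  · simp
  · have c0 : ¬ (n + 1 + 1 + 1 = 0) := by omega
    have c1 : 2 ≤ n + 1 + 1 + 1 := by omega
    have c2 : ¬ (n + 1 + 1 + 1 = 1) := by omega
    have c3 : ¬ (n + 1 + 1 + 1 = 2) := by omega
    have e3 : n + 1 + 1 + 1 - 2 = n + 1 := by omega
    have c4 : ¬ (n + 1 = 0) := by omega
    rw [if_neg c0, if_pos c1, if_neg c2, if_neg c3, e3, coeff_mk, if_neg c4]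
    ring

theorem eul_bin' (g b : ℝ) : eul (bin g b) =
    (PowerSeries.mk fun n => if n = 0 then 0 else b - g * (-1) ^ n) * bin g b := by
  apply mul_left_cancel₀ PBN_ne
  rw [eul_bin, ← mul_assoc, PBN_R]

theorem PBN_abs (g : ℝ) (n : ℕ) : g * (-1) ^ n ≤ |g| := by
  rcases neg_one_pow_eq_or ℝ n with h | h
  · rw [h, mul_one]; exact le_abs_self g
  · rw [h, mul_neg_one]; exact neg_le_abs g

theorem NN_bin {g b : ℝ} (h : |g| ≤ b) : NN (bin g b) := by
  refine NN_of_eul (constantCoeff_bin g b) (fun n => ?_) (eul_bin' g b)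
  rw [coeff_mk]
  split_ifs
  · exact le_rfl
  · have := PBN_abs g n
    linarith

theorem pos_bin {g b : ℝ} (h : |g| < b) (n : ℕ) : 0 < coeff n (bin g b) := by
  refine pos_of_eul (constantCoeff_bin g b) (fun n hn => ?_) (eul_bin' g b) n
  rw [coeff_mk, if_neg (by omega)]
  have := PBN_abs g n
  linarith

theorem mono_bin {g b : ℝ} (h : |g| ≤ b - 1) : Monotone fun n => coeff n (bin g b) := by
  apply monotone_nat_of_le_succ
  intro n
  have h1 := NN_bin h (n + 1)
  rw [← one_sub_mul_bin, sub_mul, one_mul, map_sub, coeff_succ_X_mul] at h1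
  linarith

end Pool.Agent.KIM
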