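import Pool.Agent.KIM.ANB
import Pool.Agent.KIM.PBN
import Pool.Agent.KIM.AL9
import Pool.Agent.Helper42.KoebeDefs

/-!
# KIM / ANA: the analytic link (helper52)
-/

set_option autoImplicit false

open PowerSeries Finset
open Pool.Agent.Helper42.KoebeMeans

namespace Pool.Agent.KIM

theorem hasSum_mean {f : ℂ → ℂ} (hf : ClassS f) {q : ℝ} (hq : 0 < q) {r : ℝ} (h0 : 0 < r)
    (h1 : r < 1) : HasSum (fun n => ‖coeff n (rp (serP f) (q : ℂ))‖ ^ 2 * r ^ (2 * n))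
      (integralMean (2 * q) r f ^ (2 * q)) := AL.integralMean_hasSum hf hq h0 h1

theorem hasSum_mean_koebe {q : ℝ} (hq : 0 < q) {r : ℝ} (h0 : 0 < r)
    (h1 : r < 1) : HasSum (fun n => (coeff n (Kq q)) ^ 2 * r ^ (2 * n))
      (integralMean (2 * q) r koebe ^ (2 * q)) := by
  have h := AL.integralMean_hasSum AL.classS_koebe hq h0 h1
  simp only [AL.coeff_rp_serP_koebe, Complex.norm_real, Real.norm_eq_abs, sq_abs] at h
  exact h

theorem bestConstant_eq_one {q : ℝ} (hq : 0 < q)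
    (h : ∀ f : ℂ → ℂ, ClassS f → ∀ r : ℝ, 0 < r → r < 1 →
      ∑' n, ‖coeff n (rp (serP f) (q : ℂ))‖ ^ 2 * r ^ (2 * n) ≤
        ∑' n, (coeff n (Kq q)) ^ 2 * r ^ (2 * n)) : bestConstant (2 * q) = 1 :=
  AL.bestConstant_eq_one hq fun f hf _ r h0 h1 => h f hf r h0 h1

end Pool.Agent.KIM
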