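import Pool.Agent.KIM.RPB
import Pool.Agent.KIM.AL5

/-!
# KIM / ANB: holomorphic powers (helper52)
-/

set_option autoImplicit false

open PowerSeries Finset
open Pool.Agent.Helper42.KoebeMeans (ClassS)

namespace Pool.Agent.KIM

/-- A holomorphic branch of `h ^ a` on the disc and its Taylor series. -/
theorem exists_branch {h : ℂ → ℂ} (hd : DifferentiableOn ℂ h LOE.Dk)
    (h0 : ∀ z ∈ LOE.Dk, h z ≠ 0) (h1 : h 0 = 1) (a : ℝ) :
    ∃ G : ℂ → ℂ, DifferentiableOn ℂ G LOE.Dk ∧ G 0 = 1 ∧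
      (∀ z ∈ LOE.Dk, ‖G z‖ = ‖h z‖ ^ a) ∧
      (∀ n, LOE.coef n G = coeff n (rp (PowerSeries.mk fun n => LOE.coef n h) (a : ℂ))) := by
  obtain ⟨G, g1, g2, g3, -, g4⟩ := AL.exists_branch hd h0 h1 a
  refine ⟨G, g1, g2, g3, fun n => ?_⟩
  rw [← AL.coeff_tay, g4]
  rfl

theorem deriv_ne_zero_of_classS {f : ℂ → ℂ} (hf : ClassS f) {z : ℂ} (hz : z ∈ LOE.Dk) :
    deriv f z ≠ 0 := AL.classS_deriv_ne_zero hf hz

end Pool.Agent.KIM
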