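import Pool.Agent.KIM.Defs

/-!
# KIM / CEH: the certificate for `(f / z) ^ (1/2)` (`al = 1/2`, `be = 0`, all `V_m = 1`)

`Y_m = ∑_{n<m} (n + 1/2) b_n`, `Y_0 = 0`, `b_m = (Y_{m+1} - Y_m) / (m + 1/2)`.  With
`s_m = H_m`, `s'_m = H_m - G_m` and `2 Re (conj b_m Y_m) = (|Y_{m+1}|^2 - |Y_m|^2) / (m + 1/2) -
(m + 1/2) |b_m|^2`:
`Qf = ∑_m [(H_m - G_m + 2 m H_m - 2 H_m (m + 1/2)) |b_m|^2 +
  2 H_m / (m + 1/2) (|Y_{m+1}|^2 - |Y_m|^2)]
 = -∑_m G_m / (m + 1/2)^2 |Y_{m+1} - Y_m|^2 + 2 ∑_{m≥1} |Y_m|^2 (H_{m-1}/(m-1/2) - H_m/(m+1/2))`.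
For `m ≥ 1`, `ρ_m = m / (m + 1)`: `-|Y_{m+1} - Y_m|^2 = (1/ρ) |Y_m + ρ Y_{m+1}|^2 -
(1 + 1/ρ) |Y_m|^2 - (1 + ρ) |Y_{m+1}|^2`, `1 + 1/ρ = 2 (m + 1/2) / m`, `1 + ρ = 2 (m+1/2)/(m+1)`.
The coefficient of `|Y_m|^2` (`m ≥ 1`) is
`(2/m) [(m H_{m-1} - G_{m-1}) / (m - 1/2) - (m H_m + G_m) / (m + 1/2)] = 0` by `hG` and `hR`.
Hence `Qf = ∑_{1≤m≤N} G_m / (ρ_m (m + 1/2)^2) |Y_m + ρ_m Y_{m+1}|^2 ≥ 0`.
(Coefficient zero: with `hG`: `m H_{m-1} - G_{m-1} = m H_m + G_m - 2 R_m`, and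
`hR : m H_m + G_m = (2 m + 1) R_m`.)
-/

set_option autoImplicit false

open PowerSeries Finset

namespace Pool.Agent.KIM

private theorem ceh_step (m H G R R' : ℝ) (hm : 0 < m) (hR : m * H + G = (2 * m + 1) * R)
    (hR' : (m + 1) * H - G = (2 * m + 1) * R') (hG : 0 ≤ G) (x1 x2 y1 y2 : ℝ) :
    4 * R' / (m + 1) * ((y1 + (m + 1 / 2) * x1) ^ 2 + (y2 + (m + 1 / 2) * x2) ^ 2) -
      4 * R / m * (y1 ^ 2 + y2 ^ 2) ≤
    (H - G) * (x1 ^ 2 + x2 ^ 2) + 2 * H * (m * (x1 ^ 2 + x2 ^ 2) + 2 * (x1 * y1 + x2 * y2)) := by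
  have h1 : R = (m * H + G) / (2 * m + 1) := by
    rw [hR]; field_simp
  have h2 : R' = ((m + 1) * H - G) / (2 * m + 1) := by
    rw [hR']; field_simp
  have key : (H - G) * (x1 ^ 2 + x2 ^ 2) +
      2 * H * (m * (x1 ^ 2 + x2 ^ 2) + 2 * (x1 * y1 + x2 * y2)) -
      (4 * R' / (m + 1) * ((y1 + (m + 1 / 2) * x1) ^ 2 + (y2 + (m + 1 / 2) * x2) ^ 2) -
      4 * R / m * (y1 ^ 2 + y2 ^ 2)) =
      G * ((m + 1) / (m * (m + 1 / 2) ^ 2)) *
        ((y1 + m / (m + 1) * (y1 + (m + 1 / 2) * x1)) ^ 2 +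
         (y2 + m / (m + 1) * (y2 + (m + 1 / 2) * x2)) ^ 2) := by
    rw [h1, h2]
    have e1 : m + 1 ≠ 0 := by positivity
    have e2 : m ≠ 0 := by positivity
    have e3 : 2 * m + 1 ≠ 0 := by positivity
    have e4 : m + 1 / 2 ≠ 0 := by positivity
    field_simp
    ring
  have : 0 ≤ G * ((m + 1) / (m * (m + 1 / 2) ^ 2)) *
        ((y1 + m / (m + 1) * (y1 + (m + 1 / 2) * x1)) ^ 2 +
         (y2 + m / (m + 1) * (y2 + (m + 1 / 2) * x2)) ^ 2) := by positivity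
  linarith

theorem Qf_half_nonneg (N : ℕ) (H R G : ℕ → ℝ) (hH0 : ∀ m, N < m → H m = 0)
    (hG0 : ∀ m, N < m → G m = 0)
    (hR : ∀ m : ℕ, (m : ℝ) * H m + G m = (2 * (m : ℝ) + 1) * R m)
    (hG : ∀ m : ℕ, G (m + 1) + G m = ((m : ℝ) + 1) * H m -
      ((m : ℝ) + 1) * H (m + 1) + 2 * R (m + 1))
    (hGp : ∀ m, 1 ≤ m → m ≤ N → 0 ≤ G m) (b : ℕ → ℂ) :
    0 ≤ Qf N (1 / 2) 0 H (fun m => H m - G m) b := by
  have hR' : ∀ m : ℕ, ((m : ℝ) + 1) * H m - G m = (2 * (m : ℝ) + 1) * R (m + 1) := by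
    intro m
    have h1 := hR (m + 1)
    have h2 := hG m
    push_cast at h1
    linarith
  set Y : ℕ → ℂ := fun m => ∑ n ∈ range m, ((n : ℂ) + 1 / 2) * b n with hY
  have hYs : ∀ m, Y (m + 1) = Y m + ((m : ℂ) + 1 / 2) * b m := fun m => by
    simp only [hY, sum_range_succ]
  have main : ∀ M, M ≤ N + 1 → 4 * R M / (M : ℝ) * ‖Y M‖ ^ 2 ≤
      ∑ m ∈ range M, ((H m - G m) * ‖b m‖ ^ 2 + 2 * H m *
        ((starRingEnd ℂ) (b m) * ((m : ℂ) * b m + 2 * Y m)).re) := by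
    intro M
    induction M with
    | zero => intro _; simp
    | succ m ih =>
      intro hm
      have ih' := ih (by omega)
      rw [sum_range_succ, hYs]
      have hx : ‖b m‖ ^ 2 = (b m).re ^ 2 + (b m).im ^ 2 := by
        rw [Complex.sq_norm, Complex.normSq_apply]; ring
      have hy : ‖Y m‖ ^ 2 = (Y m).re ^ 2 + (Y m).im ^ 2 := by
        rw [Complex.sq_norm, Complex.normSq_apply]; ring
      have hy' : ‖Y m + ((m : ℂ) + 1 / 2) * b m‖ ^ 2 =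
          ((Y m).re + ((m : ℝ) + 1 / 2) * (b m).re) ^ 2 +
          ((Y m).im + ((m : ℝ) + 1 / 2) * (b m).im) ^ 2 := by
        rw [Complex.sq_norm, Complex.normSq_apply]
        have : ((m : ℂ) + 1 / 2) = (((m : ℝ) + 1 / 2 : ℝ) : ℂ) := by push_cast; ring
        rw [this, Complex.add_re, Complex.add_im, Complex.re_ofReal_mul, Complex.im_ofReal_mul]
        ring
      have hre : ((starRingEnd ℂ) (b m) * ((m : ℂ) * b m + 2 * Y m)).re =
          (m : ℝ) * ((b m).re ^ 2 + (b m).im ^ 2) +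
            2 * ((b m).re * (Y m).re + (b m).im * (Y m).im) := by
        have h2 : (2 : ℂ) = ((2 : ℝ) : ℂ) := by push_cast; rfl
        have h3 : (m : ℂ) = ((m : ℝ) : ℂ) := by push_cast; rfl
        rw [h2, h3, Complex.mul_re, Complex.add_re, Complex.add_im, Complex.re_ofReal_mul,
          Complex.im_ofReal_mul, Complex.re_ofReal_mul, Complex.im_ofReal_mul,
          Complex.conj_re, Complex.conj_im]
        ring
      rcases Nat.eq_zero_or_pos m with rfl | hpos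
      · have h0 : Y 0 = 0 := by simp [hY]
        have h1 := hR' 0
        rw [hy', hx, hre, h0]
        simp only [Nat.cast_zero, Complex.zero_re, Complex.zero_im, zero_add, range_zero,
          sum_empty, Nat.cast_one, one_mul, mul_zero, zero_mul] at h1 ⊢
        rw [← h1]
        nlinarith
      · have hs := ceh_step (m : ℝ) (H m) (G m) (R m) (R (m + 1)) (by exact_mod_cast hpos)
          (hR m) (hR' m) (hGp m hpos (by omega)) (b m).re (b m).im (Y m).re (Y m).im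
        rw [hy', hx, hre]
        rw [hy] at ih'
        push_cast
        linarith
  have hRN : R (N + 1) = 0 := by
    have h1 := hR (N + 1)
    rw [hH0 _ (Nat.lt_succ_self N), hG0 _ (Nat.lt_succ_self N)] at h1
    have h2 : (2 * ((N + 1 : ℕ) : ℝ) + 1) ≠ 0 := by positivity
    have h3 : (2 * ((N + 1 : ℕ) : ℝ) + 1) * R (N + 1) = 0 := by rw [← h1]; ring
    exact (mul_eq_zero.mp h3).resolve_left h2
  have hfin := main (N + 1) le_rfl
  rw [hRN] at hfin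
  have heq : Qf N (1 / 2) 0 H (fun m => H m - G m) b = ∑ m ∈ range (N + 1),
      ((H m - G m) * ‖b m‖ ^ 2 + 2 * H m *
        ((starRingEnd ℂ) (b m) * ((m : ℂ) * b m + 2 * Y m)).re) := by
    unfold Qf
    refine sum_congr rfl fun m _ => ?_
    have : ∑ n ∈ range m, ((n : ℂ) + ((1 / 2 : ℝ) : ℂ) + ((0 : ℝ) : ℂ) * ((m : ℂ) - n + 1)) * b n
        = Y m := by
      simp only [hY]
      refine sum_congr rfl fun n _ => ?_
      push_cast
      ring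
    rw [this]
  rw [heq]
  simpa using hfin

end Pool.Agent.KIM
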