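import Pool.Agent.KIM.Defs

/-!
# KIM / CEA: the quadratic form in terms of cumulative sums

`T_m = ∑_{n<m} b_n`, `W_m = ∑_{n<m} T_n` (so `T_0 = W_0 = W_1 = 0`, `b_m = T_{m+1} - T_m`,
`T_m = W_{m+1} - W_m`).

`∑_{n<m} (n + al + be (m - n + 1)) b_n = (m - 1 + al + 2 be) T_m + (be - 1) W_m`
(since `∑_{n<m} (m - 1 - n) b_n = W_m`; induction on `m`: both sides at `m + 1` minus both sides at
`m` are `(m + al + 2 be) b_m + be T_m`...).  Then use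
`4 Re (conj b_m T_m) = 2 (|T_{m+1}|^2 - |T_m|^2 - |b_m|^2)`,
`Re (conj b_m W_m) = Re (conj T_{m+1} W_{m+1}) - Re (conj T_{m+1} T_m) - Re (conj T_m W_m)`,
`2 Re (conj T_{m+1} T_m) = |T_{m+1}|^2 + |T_m|^2 - |b_m|^2`,
`2 Re (conj T_m W_m) = |W_{m+1}|^2 - |W_m|^2 - |T_m|^2` and summation by parts.  A good way to do
it: prove by induction on `M` the identity for the truncated sums `∑_{m < M}` with the
boundary terms (without using `s M = 0`), then specialise to `M = N + 1`.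
(Checked numerically.)
-/

set_option autoImplicit false

open PowerSeries Finset

namespace Pool.Agent.KIM

/-- `T_m`. -/
noncomputable def TT (b : ℕ → ℂ) (m : ℕ) : ℂ := ∑ n ∈ range m, b n

/-- `W_m`. -/
noncomputable def WW (b : ℕ → ℂ) (m : ℕ) : ℂ := ∑ n ∈ range m, TT b n

theorem CEA_icc1 (f : ℕ → ℝ) (N : ℕ) : ∑ m ∈ Icc 1 N, f m = ∑ m ∈ range N, f (m + 1) := by
  induction N with
  | zero => simp
  | succ N ih => rw [sum_Icc_succ_top (by omega), sum_range_succ, ih]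

theorem CEA_icc2 (f : ℕ → ℝ) (N : ℕ) : ∑ m ∈ Icc 2 (N + 1), f m = ∑ m ∈ range N, f (m + 2) := by
  induction N with
  | zero => simp
  | succ N ih => rw [sum_Icc_succ_top (by omega), sum_range_succ, ih]

theorem CEA_shift (f : ℕ → ℝ) (N : ℕ) (h0 : f 0 = 0) (hN : f (N + 1) = 0) :
    ∑ m ∈ range (N + 1), f (m + 1) = ∑ m ∈ range (N + 1), f m := by
  rw [sum_range_succ, hN, sum_range_succ' (fun m => f m), h0]

theorem CEA_TT_succ (b : ℕ → ℂ) (m : ℕ) : TT b (m + 1) = TT b m + b m := by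
  simp [TT, sum_range_succ]

theorem CEA_WW_succ (b : ℕ → ℂ) (m : ℕ) : WW b (m + 1) = WW b m + TT b m := by
  simp [WW, sum_range_succ]

theorem CEA_inner (al be : ℝ) (b : ℕ → ℂ) (m : ℕ) :
    ∑ n ∈ range m, ((n : ℂ) + al + be * ((m : ℂ) - n + 1)) * b n =
      ((m : ℂ) - 1 + al + 2 * be) * TT b m + ((be : ℂ) - 1) * WW b m := by
  induction m with
  | zero => simp [TT, WW]
  | succ m ih =>
    rw [sum_range_succ, CEA_TT_succ, CEA_WW_succ]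
    have h : ∑ n ∈ range m, ((n : ℂ) + al + be * (((m + 1 : ℕ) : ℂ) - n + 1)) * b n =
        ∑ n ∈ range m, ((n : ℂ) + al + be * ((m : ℂ) - n + 1)) * b n + be * TT b m := by
      rw [TT, mul_sum, ← sum_add_distrib]
      refine sum_congr rfl fun n _ => ?_
      push_cast
      ring
    rw [h, ih]
    push_cast
    ring

private theorem cea_sq (z : ℂ) : ‖z‖ ^ 2 = z.re ^ 2 + z.im ^ 2 := by
  rw [Complex.sq_norm, Complex.normSq_apply]; ring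

private theorem cea_term (m : ℕ) (al be s g : ℝ) (b T W : ℂ) :
    (2 * (al + be) * s - g) * ‖b‖ ^ 2 + 2 * s *
      ((starRingEnd ℂ) b * ((m : ℂ) * b +
        2 * (((m : ℂ) - 1 + al + 2 * be) * T + ((be : ℂ) - 1) * W))).re =
    -(g * ‖T + b - T‖ ^ 2) + (2 * (s * ((m : ℝ) + 1 + al)) * ‖T + b‖ ^ 2 -
      2 * (s * ((m : ℝ) - 1 + al + 2 * be)) * ‖T‖ ^ 2) +
      2 * (be - 1) * (s * (‖W + T + (T + b)‖ ^ 2 - 2 * ‖W + T‖ ^ 2 + ‖W‖ ^ 2)) := by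
  have h2 : (2 : ℂ) = ((2 : ℝ) : ℂ) := by push_cast; rfl
  have e1 : ((m : ℂ) - 1 + al + 2 * be) = (((m : ℝ) - 1 + al + 2 * be : ℝ) : ℂ) := by
    push_cast; ring
  have e2 : ((be : ℂ) - 1) = ((be - 1 : ℝ) : ℂ) := by push_cast; ring
  have e3 : (m : ℂ) = ((m : ℝ) : ℂ) := by push_cast; rfl
  rw [e1, e2, e3, h2]
  simp only [cea_sq, Complex.mul_re, Complex.mul_im, Complex.add_re, Complex.add_im,
    Complex.sub_re, Complex.sub_im, Complex.ofReal_re, Complex.ofReal_im, Complex.conj_re,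
    Complex.conj_im]
  ring

theorem Qf_TW (N : ℕ) (al be : ℝ) (s g : ℕ → ℝ) (hs : ∀ m, N < m → s m = 0) (b : ℕ → ℂ) :
    Qf N al be s (fun m => 2 * (al + be) * s m - g m) b =
    -(∑ m ∈ range (N + 1), g m * ‖TT b (m + 1) - TT b m‖ ^ 2) +
      2 * ∑ m ∈ Icc 1 (N + 1), (((m : ℝ) + al) * s (m - 1) - ((m : ℝ) - 1 + al + 2 * be) * s m) *
        ‖TT b m‖ ^ 2 +
      2 * (be - 1) * ∑ m ∈ Icc 2 (N + 2), (s (m - 2) - 2 * s (m - 1) + s m) * ‖WW b m‖ ^ 2 := by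
  have hT0 : TT b 0 = 0 := by simp [TT]
  have hW0 : WW b 0 = 0 := by simp [WW]
  have hW1 : WW b 1 = 0 := by simp [WW, TT]
  rw [CEA_icc1, CEA_icc2]
  have hQ : Qf N al be s (fun m => 2 * (al + be) * s m - g m) b =
      ∑ m ∈ range (N + 1), (-(g m * ‖TT b (m + 1) - TT b m‖ ^ 2) +
        (2 * (s m * ((m : ℝ) + 1 + al)) * ‖TT b (m + 1)‖ ^ 2 -
          2 * (s m * ((m : ℝ) - 1 + al + 2 * be)) * ‖TT b m‖ ^ 2) +
        2 * (be - 1) * (s m * (‖WW b (m + 2)‖ ^ 2 - 2 * ‖WW b (m + 1)‖ ^ 2 + ‖WW b m‖ ^ 2))) := by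
    unfold Qf
    refine sum_congr rfl fun m _ => ?_
    rw [CEA_inner, cea_term, CEA_TT_succ, CEA_WW_succ b (m + 1), CEA_WW_succ b m, CEA_TT_succ]
  rw [hQ, sum_add_distrib, sum_add_distrib, sum_sub_distrib, sum_neg_distrib]
  have hA : ∑ m ∈ range (N + 1), 2 * (s m * ((m : ℝ) - 1 + al + 2 * be)) * ‖TT b m‖ ^ 2 =
      ∑ m ∈ range (N + 1), 2 * (s (m + 1) * (((m + 1 : ℕ) : ℝ) - 1 + al + 2 * be)) *
        ‖TT b (m + 1)‖ ^ 2 := by
    symm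
    apply CEA_shift (fun m => 2 * (s m * ((m : ℝ) - 1 + al + 2 * be)) * ‖TT b m‖ ^ 2) N
    · simp [hT0]
    · simp [hs (N + 1) (Nat.lt_succ_self N)]
  have hB : ∑ m ∈ range (N + 1), s (m + 1) * ‖WW b (m + 2)‖ ^ 2 =
      ∑ m ∈ range (N + 1), s m * ‖WW b (m + 1)‖ ^ 2 := by
    apply CEA_shift (fun m => s m * ‖WW b (m + 1)‖ ^ 2) N
    · simp [hW1]
    · simp [hs (N + 1) (Nat.lt_succ_self N)]
  have hC1 : ∑ m ∈ range (N + 1), s (m + 2) * ‖WW b (m + 2)‖ ^ 2 =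
      ∑ m ∈ range (N + 1), s (m + 1) * ‖WW b (m + 1)‖ ^ 2 := by
    apply CEA_shift (fun m => s (m + 1) * ‖WW b (m + 1)‖ ^ 2) N
    · simp [hW1]
    · simp [hs (N + 2) (by omega)]
  have hC2 : ∑ m ∈ range (N + 1), s (m + 1) * ‖WW b (m + 1)‖ ^ 2 =
      ∑ m ∈ range (N + 1), s m * ‖WW b m‖ ^ 2 := by
    apply CEA_shift (fun m => s m * ‖WW b m‖ ^ 2) N
    · simp [hW0]
    · simp [hs (N + 1) (Nat.lt_succ_self N)]
  rw [hA, ← sum_sub_distrib, ← mul_sum]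
  have hD : ∑ m ∈ range (N + 1), s m * (‖WW b (m + 2)‖ ^ 2 - 2 * ‖WW b (m + 1)‖ ^ 2 +
      ‖WW b m‖ ^ 2) = ∑ m ∈ range (N + 1), (s (m + 2 - 2) - 2 * s (m + 2 - 1) + s (m + 2)) *
        ‖WW b (m + 2)‖ ^ 2 := by
    have l : ∑ m ∈ range (N + 1), s m * (‖WW b (m + 2)‖ ^ 2 - 2 * ‖WW b (m + 1)‖ ^ 2 +
        ‖WW b m‖ ^ 2) = ∑ m ∈ range (N + 1), s m * ‖WW b (m + 2)‖ ^ 2 -
        2 * ∑ m ∈ range (N + 1), s m * ‖WW b (m + 1)‖ ^ 2 +
        ∑ m ∈ range (N + 1), s m * ‖WW b m‖ ^ 2 := by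
      rw [mul_sum, ← sum_sub_distrib, ← sum_add_distrib]
      exact sum_congr rfl fun m _ => by ring
    have r : ∑ m ∈ range (N + 1), (s (m + 2 - 2) - 2 * s (m + 2 - 1) + s (m + 2)) *
        ‖WW b (m + 2)‖ ^ 2 = ∑ m ∈ range (N + 1), s m * ‖WW b (m + 2)‖ ^ 2 -
        2 * ∑ m ∈ range (N + 1), s (m + 1) * ‖WW b (m + 2)‖ ^ 2 +
        ∑ m ∈ range (N + 1), s (m + 2) * ‖WW b (m + 2)‖ ^ 2 := by
      rw [mul_sum, ← sum_sub_distrib, ← sum_add_distrib]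
      refine sum_congr rfl fun m _ => ?_
      rw [show m + 2 - 2 = m by omega, show m + 2 - 1 = m + 1 by omega]
      ring
    rw [l, r, hB, hC1, hC2]
  rw [hD]
  congr 1
  congr 1
  rw [mul_sum]
  refine sum_congr rfl fun m _ => ?_
  rw [show m + 1 - 1 = m by omega]
  push_cast
  ring

/-- One square completion: with `ρ = P_m / P_{m+1}`,
`-|T_{m+1} - T_m|^2 = (1/ρ) |T_m + ρ T_{m+1}|^2 - (1 + 1/ρ) |T_m|^2 - (1 + ρ) |T_{m+1}|^2` for
`m ≥ 1`, and `T_0 = 0` for the term `m = 0` (`P_0 = 0`). -/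
theorem sos_step (N : ℕ) (P G : ℕ → ℝ) (hP0 : P 0 = 0) (hP : ∀ m, 1 ≤ m → 0 < P m)
    (hG : G (N + 1) = 0) (T : ℕ → ℂ) (hT : T 0 = 0) :
    -(∑ m ∈ range (N + 1), G m / (P m + P (m + 1)) * ‖T (m + 1) - T m‖ ^ 2) =
    ∑ m ∈ Icc 1 N, G m * P (m + 1) / ((P m + P (m + 1)) * P m) *
        ‖T m + ((P m / P (m + 1) : ℝ) : ℂ) * T (m + 1)‖ ^ 2 -
      ∑ m ∈ Icc 1 (N + 1), (G m + G (m - 1)) / P m * ‖T m‖ ^ 2 := by
  have main : ∀ M : ℕ, -(∑ m ∈ range (M + 1), G m / (P m + P (m + 1)) * ‖T (m + 1) - T m‖ ^ 2) =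
    ∑ m ∈ Icc 1 M, G m * P (m + 1) / ((P m + P (m + 1)) * P m) *
        ‖T m + ((P m / P (m + 1) : ℝ) : ℂ) * T (m + 1)‖ ^ 2 -
      ∑ m ∈ Icc 1 (M + 1), (G m + G (m - 1)) / P m * ‖T m‖ ^ 2 +
      G (M + 1) / P (M + 1) * ‖T (M + 1)‖ ^ 2 := by
    intro M
    induction M with
    | zero =>
      simp only [zero_add, range_one, sum_singleton, hP0, hT, sub_zero, Icc_self, Nat.sub_self]
      have h1 := (hP 1 le_rfl).ne'
      rw [show Icc 1 0 = (∅ : Finset ℕ) from rfl, sum_empty]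
      field_simp
      ring
    | succ M ih =>
      rw [sum_Icc_succ_top (show 1 ≤ M + 1 by omega),
        sum_Icc_succ_top (show 1 ≤ M + 1 + 1 by omega), sum_range_succ, neg_add, ih]
      rw [show M + 1 + 1 - 1 = M + 1 by omega]
      have h1 := hP (M + 1) (by omega)
      have h2 := hP (M + 1 + 1) (by omega)
      have key : -(G (M + 1) / (P (M + 1) + P (M + 1 + 1)) *
          ‖T (M + 1 + 1) - T (M + 1)‖ ^ 2) =
          G (M + 1) * P (M + 1 + 1) / ((P (M + 1) + P (M + 1 + 1)) * P (M + 1)) *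
            ‖T (M + 1) + ((P (M + 1) / P (M + 1 + 1) : ℝ) : ℂ) * T (M + 1 + 1)‖ ^ 2 -
          G (M + 1) / P (M + 1 + 1) * ‖T (M + 1 + 1)‖ ^ 2 -
          G (M + 1) / P (M + 1) * ‖T (M + 1)‖ ^ 2 := by
        simp only [cea_sq, Complex.add_re, Complex.add_im, Complex.sub_re, Complex.sub_im,
          Complex.re_ofReal_mul, Complex.im_ofReal_mul]
        have e1 := h1.ne'
        have e2 := h2.ne'
        have e3 : P (M + 1) + P (M + 1 + 1) ≠ 0 := by positivity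
        field_simp
        ring
      rw [key]
      ring
  rw [main N, hG]
  simp

end Pool.Agent.KIM
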