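import Pool.Agent.KIM.KBN
import Pool.Agent.KIM.CEA

/-!
# KIM / CER: the sum of squares certificate

`s_m = H_m / V_m`, `g_m = G_m / V_m`, `s0 = al + be`; `V_m = P_m + P_{m+1}` (`Vc_eq`), everything
positive (`pos_bin`).
Step 1: `Qf_TW` with these `s, g`.
Step 2: `sos_step` with `P = Pc al be`, `T = TT b`:
`Qf = ∑_{1≤m≤N} (..)|T_m + ρ_m T_{m+1}|^2 + ∑_{1≤m≤N+1} c_m |T_m|^2 + 2 (be-1) ∑ ω_m |W_m|^2`,
`c_m P_m = 2 τ_m P_m - G_m - G_{m-1}`, `τ_m = (m + al) s_{m-1} - (m - 1 + al + 2 be) s_m`,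
`ω_m = s_{m-2} - 2 s_{m-1} + s_m`.
Step 3: `c_m P_m = -2 (be - 1) tc_{m-1}` for `m ≥ 1`: by `hG` (at `m - 1`)
`G_m + G_{m-1} = (m + 2 s0 - 1) H_{m-1} - m H_m - 2 (be - 1) R_m`, and by `K1` (at `n = m - 1`)
and `K3` (at `n = m - 1`).
Step 4: `sos_step` with `P' m = if m = 0 then 0 else pc (m - 1)`, `T' m = WW b (m + 1)`,
`G' m = 2 (be - 1) tc_m` (`m ≤ N`; `tc_{N+1} = 0`), since `P'_m + P'_{m+1} = P_{m+1}` (`Pc_eq`,
`Pc_one`, `pc_zero`) and `T_m = W_{m+1} - W_m`: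
`∑_{1≤m≤N+1} c_m |T_m|^2 = -∑_{0≤m≤N} G'_m / P_{m+1} |W_{m+2} - W_{m+1}|^2 = ∑_{1≤m≤N} (..) -
∑_{1≤m≤N+1} (G'_m + G'_{m-1}) / π_{m-1} |W_{m+1}|^2`, and
`tc_m + tc_{m-1} = π_{m-1} ω_{m+1}` for `m ≥ 1` (`R_m + R_{m+1} = H_m`, `V_m = π_m + 2 π_{m-1}
+ π_{m-2}`: `Vc_eq_pc`, `Vc_one_eq_pc`), which cancels `2 (be - 1) ∑ ω_m |W_m|^2`.
`Qf_nonneg`: all coefficients are nonnegative.
(The identity has been checked numerically.)
-/

set_option autoImplicit false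

open PowerSeries Finset

namespace Pool.Agent.KIM

/-- `μ_j H_j + ν_j H_{j+1} - R_{j+1}`. -/
noncomputable def tc (al be : ℝ) (H R : ℕ → ℝ) (j : ℕ) : ℝ :=
  pc al be j / Vc al be j * H j +
    (if j = 0 then 0 else pc al be (j - 1)) / Vc al be (j + 1) * H (j + 1) - R (j + 1)

theorem CER_Vc_pos {al be : ℝ} (h1 : 1 ≤ be) (h2 : be ≤ 2 * al + 3 * be - 1) (m : ℕ) :
    0 < Vc al be m := by
  unfold Vc
  apply pos_bin
  rw [abs_lt]
  constructor <;> linarith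

theorem CER_Pc_pos {al be : ℝ} (h1 : 1 ≤ be) (h2 : be ≤ 2 * al + 3 * be - 1) (m : ℕ) :
    0 < Pc al be (m + 1) := by
  unfold Pc
  apply pos_bin
  rw [abs_lt]
  constructor <;> linarith

theorem CER_pc_pos {al be : ℝ} (h1 : 1 ≤ be) (h2 : be ≤ 2 * al + 3 * be - 1) (m : ℕ) :
    0 < pc al be m := by
  unfold pc
  apply pos_bin
  rw [abs_lt]
  constructor <;> linarith

theorem CER_coef {al be : ℝ} (h1 : 1 ≤ be) (h2 : be ≤ 2 * al + 3 * be - 1) (H R G : ℕ → ℝ)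
    (hG : ∀ m : ℕ, G (m + 1) + G m = ((m : ℝ) + 2 * (al + be)) * H m -
      ((m : ℝ) + 1) * H (m + 1) - 2 * (be - 1) * R (m + 1)) (n : ℕ) :
    2 * (((n : ℝ) + 1 + al) * (H n / Vc al be n) -
        ((n : ℝ) + al + 2 * be) * (H (n + 1) / Vc al be (n + 1))) -
        (G (n + 1) + G n) / Pc al be (n + 1) =
      -(2 * (be - 1) * tc al be H R n / Pc al be (n + 1)) := by
  have hP := CER_Pc_pos h1 h2 n
  have hV := CER_Vc_pos h1 h2 n
  have hV' := CER_Vc_pos h1 h2 (n + 1)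
  have k1 := K1 al be n
  have k3 := K3 al be n
  have g := hG n
  unfold tc
  generalize (if n = 0 then 0 else pc al be (n - 1)) = q at k3 ⊢
  generalize Vc al be n = V at *
  generalize Vc al be (n + 1) = V' at *
  generalize Pc al be (n + 1) = P at *
  generalize pc al be n = p at *
  have hPne := hP.ne'
  have hVne := hV.ne'
  have hV'ne := hV'.ne'
  have a1 : 2 * ((n : ℝ) + 1 + al) * (H n / V) =
      (((n : ℝ) + 2 * (al + be)) * H n - 2 * (be - 1) * (p / V * H n)) / P := by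
    field_simp
    linear_combination (-H n) * k1
  have a2 : 2 * ((n : ℝ) + al + 2 * be) * (H (n + 1) / V') =
      (((n : ℝ) + 1) * H (n + 1) + 2 * (be - 1) * (q / V' * H (n + 1))) / P := by
    field_simp
    linear_combination (-H (n + 1)) * k3
  have a3 : 2 * (((n : ℝ) + 1 + al) * (H n / V) - ((n : ℝ) + al + 2 * be) * (H (n + 1) / V')) =
      2 * ((n : ℝ) + 1 + al) * (H n / V) - 2 * ((n : ℝ) + al + 2 * be) * (H (n + 1) / V') := by
    ring
  rw [a3, a1, a2, g]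
  ring

theorem CER_omega {al be : ℝ} (h1 : 1 ≤ be) (h2 : be ≤ 2 * al + 3 * be - 1) (H R : ℕ → ℝ)
    (hH : ∀ m, H m = R m + R (m + 1)) (n : ℕ) :
    tc al be H R (n + 1) + tc al be H R n = pc al be n * (H n / Vc al be n -
        2 * (H (n + 1) / Vc al be (n + 1)) + H (n + 2) / Vc al be (n + 2)) := by
  have hV' := (CER_Vc_pos h1 h2 (n + 1)).ne'
  have hv : Vc al be (n + 1) = pc al be (n + 1) + 2 * pc al be n +
      (if n = 0 then 0 else pc al be (n - 1)) := by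
    rcases n with _ | n
    · rw [Vc_one_eq_pc]; simp
    · rw [Vc_eq_pc]; simp
  have hr := hH (n + 1)
  unfold tc
  rw [show n + 1 - 1 = n by omega, if_neg (Nat.succ_ne_zero n)]
  generalize (if n = 0 then 0 else pc al be (n - 1)) = q at hv ⊢
  have hx : (pc al be (n + 1) + 2 * pc al be n + q) / Vc al be (n + 1) * H (n + 1) =
      H (n + 1) := by
    rw [← hv]; field_simp
  rw [show n + 1 + 1 = n + 2 by omega] at *
  linear_combination hx + hr

theorem Qf_eq (N : ℕ) {al be : ℝ} (h1 : 1 ≤ be) (h2 : be ≤ 2 * al + 3 * be - 1)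
    (H R G : ℕ → ℝ) (hR0 : ∀ m, N < m → R m = 0) (hG0 : ∀ m, N < m → G m = 0)
    (hH : ∀ m, H m = R m + R (m + 1))
    (hG : ∀ m : ℕ, G (m + 1) + G m = ((m : ℝ) + 2 * (al + be)) * H m -
      ((m : ℝ) + 1) * H (m + 1) - 2 * (be - 1) * R (m + 1)) (b : ℕ → ℂ) :
    Qf N al be (fun m => H m / Vc al be m)
      (fun m => 2 * (al + be) * (H m / Vc al be m) - G m / Vc al be m) b =
    ∑ m ∈ Icc 1 N, G m * Pc al be (m + 1) / (Vc al be m * Pc al be m) *
        ‖TT b m + ((Pc al be m / Pc al be (m + 1) : ℝ) : ℂ) * TT b (m + 1)‖ ^ 2 +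
      ∑ m ∈ Icc 2 (N + 1), 2 * (be - 1) * tc al be H R (m - 1) * pc al be (m - 1) /
        (Pc al be m * pc al be (m - 2)) *
        ‖WW b m + ((pc al be (m - 2) / pc al be (m - 1) : ℝ) : ℂ) * WW b (m + 1)‖ ^ 2 := by
  have hV : ∀ m, 0 < Vc al be m := fun m => CER_Vc_pos h1 h2 m
  have hP : ∀ m, 0 < Pc al be (m + 1) := fun m => CER_Pc_pos h1 h2 m
  have hp : ∀ m, 0 < pc al be m := fun m => CER_pc_pos h1 h2 m
  have hH0 : ∀ m, N < m → H m = 0 := fun m hm => by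
    rw [hH, hR0 m hm, hR0 (m + 1) (by omega), add_zero]
  have hT0 : TT b 0 = 0 := by simp [TT]
  have hW1 : WW b 1 = 0 := by simp [WW, TT]
  have e1 := Qf_TW N al be (fun m => H m / Vc al be m) (fun m => G m / Vc al be m)
    (fun m hm => by simp only [hH0 m hm, zero_div]) b
  have e2 := sos_step N (Pc al be) G rfl
    (fun m hm => by
      obtain ⟨k, rfl⟩ : ∃ k, m = k + 1 := ⟨m - 1, by omega⟩
      exact hP k) (hG0 (N + 1) (Nat.lt_succ_self N)) (TT b) hT0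
  set P' : ℕ → ℝ := fun m => if m = 0 then 0 else pc al be (m - 1) with hP'
  set G' : ℕ → ℝ := fun m => 2 * (be - 1) * tc al be H R m with hG'
  have hP's : ∀ m, P' (m + 1) = pc al be m := fun m => by simp [hP']
  have hP'0 : P' 0 = 0 := by simp [hP']
  have hPP : ∀ m, P' m + P' (m + 1) = Pc al be (m + 1) := by
    intro m
    rcases m with _ | m
    · rw [hP'0, hP's, pc_zero, zero_add, Pc_one]
    · rw [hP's, hP's, Pc_eq]
  have e4 := sos_step N P' G' hP'0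
    (fun m hm => by
      obtain ⟨k, rfl⟩ : ∃ k, m = k + 1 := ⟨m - 1, by omega⟩
      rw [hP's]; exact hp k)
    (by
      simp only [hG', tc]
      rw [hH0 (N + 1) (by omega), hH0 (N + 1 + 1) (by omega), hR0 (N + 1 + 1) (by omega)]
      simp) (fun m => WW b (m + 1)) (by simpa using hW1)
  have e2' : -(∑ m ∈ range (N + 1), G m / Vc al be m * ‖TT b (m + 1) - TT b m‖ ^ 2) =
      -(∑ m ∈ range (N + 1), G m / (Pc al be m + Pc al be (m + 1)) *
        ‖TT b (m + 1) - TT b m‖ ^ 2) := by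
    congr 1
    exact sum_congr rfl fun m _ => by rw [Vc_eq]
  have e3 : 2 * ∑ m ∈ Icc 1 (N + 1), (((m : ℝ) + al) * (H (m - 1) / Vc al be (m - 1)) -
        ((m : ℝ) - 1 + al + 2 * be) * (H m / Vc al be m)) * ‖TT b m‖ ^ 2 -
      ∑ m ∈ Icc 1 (N + 1), (G m + G (m - 1)) / Pc al be m * ‖TT b m‖ ^ 2 =
      -(∑ m ∈ range (N + 1), G' m / (P' m + P' (m + 1)) *
        ‖WW b (m + 1 + 1) - WW b (m + 1)‖ ^ 2) := by
    rw [CEA_icc1, CEA_icc1, mul_sum, ← sum_sub_distrib, ← sum_neg_distrib]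
    refine sum_congr rfl fun n _ => ?_
    rw [hPP, CEA_WW_succ b (n + 1), add_sub_cancel_left, show n + 1 - 1 = n by omega]
    have c := CER_coef h1 h2 H R G hG n
    rw [← hG'] at *
    have c' : 2 * ((((n + 1 : ℕ) : ℝ) + al) * (H n / Vc al be n) -
        (((n + 1 : ℕ) : ℝ) - 1 + al + 2 * be) * (H (n + 1) / Vc al be (n + 1))) -
        (G (n + 1) + G n) / Pc al be (n + 1) = -(G' n / Pc al be (n + 1)) := by
      rw [← c]; push_cast; ring
    linear_combination ‖TT b (n + 1)‖ ^ 2 * c'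
  have e5 : 2 * (be - 1) * ∑ m ∈ Icc 2 (N + 2), (H (m - 2) / Vc al be (m - 2) -
        2 * (H (m - 1) / Vc al be (m - 1)) + H m / Vc al be m) * ‖WW b m‖ ^ 2 =
      ∑ m ∈ Icc 1 (N + 1), (G' m + G' (m - 1)) / P' m * ‖WW b (m + 1)‖ ^ 2 := by
    rw [CEA_icc1, CEA_icc2, mul_sum]
    refine sum_congr rfl fun n _ => ?_
    rw [hP's, show n + 1 - 1 = n by omega, show n + 2 - 2 = n by omega,
      show n + 2 - 1 = n + 1 by omega]
    have c := CER_omega h1 h2 H R hH n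
    have hpn := (hp n).ne'
    have c' : (G' (n + 1) + G' n) / pc al be n = 2 * (be - 1) * (H n / Vc al be n -
        2 * (H (n + 1) / Vc al be (n + 1)) + H (n + 2) / Vc al be (n + 2)) := by
      simp only [hG']
      rw [← mul_add, c]
      field_simp
    rw [c']
    ring
  have e6 : ∑ m ∈ Icc 1 N, G' m * P' (m + 1) / ((P' m + P' (m + 1)) * P' m) *
        ‖WW b (m + 1) + ((P' m / P' (m + 1) : ℝ) : ℂ) * WW b (m + 1 + 1)‖ ^ 2 =
      ∑ m ∈ Icc 2 (N + 1), 2 * (be - 1) * tc al be H R (m - 1) * pc al be (m - 1) /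
        (Pc al be m * pc al be (m - 2)) *
        ‖WW b m + ((pc al be (m - 2) / pc al be (m - 1) : ℝ) : ℂ) * WW b (m + 1)‖ ^ 2 := by
    rw [CEA_icc1, CEA_icc2]
    refine sum_congr rfl fun n _ => ?_
    rw [hPP, hP's, hP's, show n + 2 - 1 = n + 1 by omega, show n + 2 - 2 = n by omega]
  have e7 : ∑ m ∈ Icc 1 N, G m * Pc al be (m + 1) /
        ((Pc al be m + Pc al be (m + 1)) * Pc al be m) *
        ‖TT b m + ((Pc al be m / Pc al be (m + 1) : ℝ) : ℂ) * TT b (m + 1)‖ ^ 2 =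
      ∑ m ∈ Icc 1 N, G m * Pc al be (m + 1) / (Vc al be m * Pc al be m) *
        ‖TT b m + ((Pc al be m / Pc al be (m + 1) : ℝ) : ℂ) * TT b (m + 1)‖ ^ 2 :=
    sum_congr rfl fun m _ => by rw [Vc_eq]
  rw [e1, ← e6, ← e7]
  linarith

theorem Qf_nonneg (N : ℕ) {al be : ℝ} (h1 : 1 ≤ be) (h2 : be ≤ 2 * al + 3 * be - 1)
    (H R G : ℕ → ℝ) (hR0 : ∀ m, N < m → R m = 0) (hG0 : ∀ m, N < m → G m = 0)
    (hH : ∀ m, H m = R m + R (m + 1))
    (hG : ∀ m : ℕ, G (m + 1) + G m = ((m : ℝ) + 2 * (al + be)) * H m -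
      ((m : ℝ) + 1) * H (m + 1) - 2 * (be - 1) * R (m + 1))
    (hGp : ∀ m, 1 ≤ m → m ≤ N → 0 ≤ G m)
    (hC : be = 1 ∨ ∀ j, 1 ≤ j → j ≤ N → 0 ≤ tc al be H R j) (b : ℕ → ℂ) :
    0 ≤ Qf N al be (fun m => H m / Vc al be m)
      (fun m => 2 * (al + be) * (H m / Vc al be m) - G m / Vc al be m) b := by
  have hV : ∀ m, 0 < Vc al be m := fun m => CER_Vc_pos h1 h2 m
  have hP : ∀ m, 0 < Pc al be (m + 1) := fun m => CER_Pc_pos h1 h2 m
  have hp : ∀ m, 0 < pc al be m := fun m => CER_pc_pos h1 h2 m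
  rw [Qf_eq N h1 h2 H R G hR0 hG0 hH hG b]
  refine add_nonneg (sum_nonneg fun m hm => ?_) (sum_nonneg fun m hm => ?_)
  · rw [mem_Icc] at hm
    obtain ⟨k, rfl⟩ : ∃ k, m = k + 1 := ⟨m - 1, by omega⟩
    have := hGp (k + 1) hm.1 hm.2
    have := hP k
    have := hP (k + 1)
    have := hV (k + 1)
    positivity
  · rw [mem_Icc] at hm
    obtain ⟨k, rfl⟩ : ∃ k, m = k + 2 := ⟨m - 2, by omega⟩
    rw [show k + 2 - 1 = k + 1 by omega, show k + 2 - 2 = k by omega]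
    have a1 := hP (k + 1)
    have a2 := hp k
    have a3 := hp (k + 1)
    have a4 : 0 ≤ 2 * (be - 1) * tc al be H R (k + 1) := by
      rcases hC with h | h
      · rw [h]; simp
      · exact mul_nonneg (by linarith) (h (k + 1) (by omega) (by omega))
    positivity

end Pool.Agent.KIM
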