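import Pool.Agent.KIM.RPB

/-!
# KIM / DIL: dilations

`f_ρ(z) = f (ρ z) / ρ`.
* `classS_dil`: chain rule, injectivity.
* `dil_bdd`: `f` is continuous on the compact disc `closedBall 0 ρ ⊆ Dk`, so bounded there.
* `cc_dil`: the Taylor coefficients of `f_ρ` are `ρ^(n-1) a_n` (`coef n (f_ρ) = ρ^(n-1) coef n f`,
  `iteratedDeriv_comp_const_mul` or similar), so `serD f_ρ = rescale ρ (serD f)`, and
  `rescale_rp`, `rescale_eul`.
-/

set_option autoImplicit false

open PowerSeries Finset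
open Pool.Agent.Helper42.KoebeMeans (ClassS)

namespace Pool.Agent.KIM

/-- The dilation `z ↦ f (ρ z) / ρ`. -/
noncomputable def dil (rho : ℝ) (f : ℂ → ℂ) : ℂ → ℂ := fun z => f (rho * z) / rho

private theorem dil_memball {rho : ℝ} (h0 : 0 < rho) (h1 : rho < 1) {z : ℂ}
    (hz : z ∈ Metric.ball (0 : ℂ) 1) : (rho : ℂ) * z ∈ Metric.ball (0 : ℂ) 1 := by
  rw [mem_ball_zero_iff] at hz ⊢
  rw [norm_mul, Complex.norm_real, Real.norm_of_nonneg h0.le]
  calc rho * ‖z‖ ≤ rho * 1 := mul_le_mul_of_nonneg_left hz.le h0.le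
    _ < 1 := by linarith

private theorem dil_deriv (rho : ℝ) (hr : rho ≠ 0) (f : ℂ → ℂ) (z : ℂ) :
    deriv (dil rho f) z = deriv f (rho * z) := by
  have e : dil rho f = fun z => (rho : ℂ)⁻¹ * (f ((rho : ℂ) * z)) := by
    funext z
    rw [dil, div_eq_inv_mul]
  have hr' : (rho : ℂ) ≠ 0 := by exact_mod_cast hr
  rw [e, deriv_const_mul_field, deriv_comp_mul_left (rho : ℂ) f z, smul_eq_mul, ← mul_assoc,
    inv_mul_cancel₀ hr', one_mul]

theorem classS_dil {f : ℂ → ℂ} (hf : ClassS f) {rho : ℝ} (h0 : 0 < rho) (h1 : rho < 1) :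
    ClassS (dil rho f) := by
  have hr' : (rho : ℂ) ≠ 0 := by exact_mod_cast h0.ne'
  obtain ⟨hd, hi, hz, hd0⟩ := hf
  refine ⟨?_, ?_, ?_, ?_⟩
  · have h2 : DifferentiableOn ℂ (fun z : ℂ => (rho : ℂ) * z) (Metric.ball 0 1) :=
      (differentiable_id.const_mul _).differentiableOn
    exact (hd.comp h2 fun z hz => dil_memball h0 h1 hz).div_const _
  · intro z hz w hw h
    have h' : f (rho * z) = f (rho * w) := by
      have := congrArg (· * (rho : ℂ)) h
      simpa [dil, div_mul_cancel₀ _ hr'] using this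
    exact mul_left_cancel₀ hr' (hi (dil_memball h0 h1 hz) (dil_memball h0 h1 hw) h')
  · simp [dil, hz]
  · rw [dil_deriv rho h0.ne', mul_zero, hd0]

theorem dil_bdd {f : ℂ → ℂ} (hf : ClassS f) {rho : ℝ} (h0 : 0 < rho) (h1 : rho < 1) :
    ∃ B : ℝ, ∀ z ∈ LOE.Dk, ‖dil rho f z‖ ≤ B := by
  have hc : IsCompact (Metric.closedBall (0 : ℂ) rho) := isCompact_closedBall _ _
  have hsub : Metric.closedBall (0 : ℂ) rho ⊆ Metric.ball 0 1 := Metric.closedBall_subset_ball h1
  obtain ⟨B, hB⟩ := hc.exists_bound_of_continuousOn (hf.1.continuousOn.mono hsub)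
  refine ⟨B / rho, fun z hz => ?_⟩
  rw [dil, norm_div, Complex.norm_real, Real.norm_of_nonneg h0.le]
  refine div_le_div_of_nonneg_right (hB _ ?_) h0.le
  have hz' : ‖z‖ < 1 := mem_ball_zero_iff.1 hz
  rw [mem_closedBall_zero_iff, norm_mul, Complex.norm_real, Real.norm_of_nonneg h0.le]
  calc rho * ‖z‖ ≤ rho * 1 := mul_le_mul_of_nonneg_left hz'.le h0.le
    _ = rho := mul_one _

private theorem dil_iter (rho : ℝ) (f : ℂ → ℂ) (n : ℕ) :
    iteratedDeriv n (dil rho f) =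
      fun z => (rho : ℂ)⁻¹ * ((rho : ℂ) ^ n * iteratedDeriv n f (rho * z)) := by
  induction n with
  | zero =>
    funext z
    simp [dil, div_eq_inv_mul]
  | succ n ih =>
    rw [iteratedDeriv_succ, ih]
    funext z
    rw [deriv_const_mul_field, deriv_const_mul_field,
      deriv_comp_mul_left (rho : ℂ) (iteratedDeriv n f) z, iteratedDeriv_succ, smul_eq_mul]
    ring

private theorem dil_coef {rho : ℝ} (h0 : 0 < rho) (f : ℂ → ℂ) (n : ℕ) :
    LOE.coef (n + 1) (dil rho f) = (rho : ℂ) ^ n * LOE.coef (n + 1) f := by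
  have hr' : (rho : ℂ) ≠ 0 := by exact_mod_cast h0.ne'
  rw [LOE.coef, LOE.coef, dil_iter]
  simp only [mul_zero]
  rw [pow_succ]
  field_simp

theorem serD_dil {f : ℂ → ℂ} (hf : ClassS f) {rho : ℝ} (h0 : 0 < rho) (h1 : rho < 1) :
    serD (dil rho f) = rescale (rho : ℂ) (serD f) := by
  ext n
  rw [coeff_rescale, serD, serD, coeff_mk, coeff_mk, dil_coef h0]

theorem constantCoeff_serD {f : ℂ → ℂ} (hf : ClassS f) : constantCoeff (serD f) = 1 := by
  rw [← coeff_zero_eq_constantCoeff_apply, serD, coeff_mk, LOE.coef, zero_add, iteratedDeriv_one,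
    hf.2.2.2]
  simp

theorem cc_dil {f : ℂ → ℂ} (hf : ClassS f) {rho : ℝ} (h0 : 0 < rho) (h1 : rho < 1)
    (al be : ℝ) (m : ℕ) : cc al be (dil rho f) m = (rho : ℂ) ^ m * cc al be f m := by
  have hc := constantCoeff_serD hf
  have hc2 : constantCoeff (serD f + eul (serD f)) = 1 := by
    rw [map_add, hc, ← coeff_zero_eq_constantCoeff_apply, coeff_eul]
    simp
  rw [cc, cc, ph, ph, serD_dil hf h0 h1, ← rescale_eul, ← map_add, ← rescale_rp hc,
    ← rescale_rp hc2, ← map_mul, coeff_rescale]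

end Pool.Agent.KIM
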