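import Pool.Agent.KIM.KBN

/-!
# KIM / SDM: the scalars `μ_j + ν_j ≥ 1/2`, `μ_j - ν_j ≥ 0`

`δ_m = [z^m] bin g b`, `g = be - 2`, `b = 2 al + 3 be - 1 ≥ |g|`, so `δ_m ≥ 0` (`NN_bin`);
`π = δ / (1 - z)`: `π_m - π_{m-1} = δ_m`.  From `eul_bin` (coefficient `m + 1`):
`(m + 1) δ_{m+1} - (m - 1) δ_{m-1} = (g + b) δ_m + (b - g) δ_{m-1}` (so a three term recursion) and
`2 b π_m = (m + 2 b) δ_m + (m - 1 + b - g) δ_{m-1}`  (prove by induction on `m` from the three term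
recursion and `π_{m+1} = π_m + δ_{m+1}`).
With `V_m = 4 π_m - 3 δ_m - δ_{m-1}`, `V_{m+1} = 4 π_m + δ_{m+1} - δ_m`, `π_{m-1} = π_m - δ_m`:
`2 b (m + 1) (π_m V_{m+1} + π_{m-1} V_m - V_m V_{m+1} / 2) =
  [m (2 b - g) + b (b + g + 3)] δ_m^2 + [m (2 b + 2) + b^2 + 3 b + g + g^2] δ_m δ_{m-1}
    + (m - 1 + b - g) (g + 2) δ_{m-1}^2 ≥ 0`.
(For `m = 0` read `δ_{-1} = 0`.)
`μ - ν ≥ 0`: `π` and `V` are nondecreasing (`mono_bin`) and nonnegative.
-/

set_option autoImplicit false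

open PowerSeries Finset

namespace Pool.Agent.KIM

theorem SDM_rec (g b : ℝ) (n : ℕ) : ((n : ℝ) + 2) * coeff (n + 2) (bin g b) =
    (g + b) * coeff (n + 1) (bin g b) + ((n : ℝ) + b - g) * coeff n (bin g b) := by
  have h := congrArg (coeff (n + 2)) (eul_bin g b)
  have e1 : (1 - X ^ 2) * eul (bin g b) = eul (bin g b) - X ^ 2 * eul (bin g b) := by ring
  have e2 : (C g * X * (1 - X) + C b * X * (1 + X)) * bin g b =
      C (g + b) * (X * bin g b) + C (b - g) * (X ^ 2 * bin g b) := by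
    rw [map_add, map_sub]; ring
  rw [e1, e2, map_sub, map_add, coeff_C_mul, coeff_C_mul, coeff_X_pow_mul, coeff_X_pow_mul,
    coeff_succ_X_mul, coeff_eul, coeff_eul] at h
  push_cast at h
  linarith

theorem SDM_one (g b : ℝ) : coeff 1 (bin g b) = g + b := by
  have h := congrArg (coeff (0 + 1)) (eul_bin g b)
  have e1 : (1 - X ^ 2) * eul (bin g b) = eul (bin g b) - X * (X * eul (bin g b)) := by ring
  have e2 : (C g * X * (1 - X) + C b * X * (1 + X)) * bin g b =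
      C (g + b) * (X * bin g b) + C (b - g) * (X * (X * bin g b)) := by
    rw [map_add, map_sub]; ring
  rw [e1, e2, map_sub, map_add, coeff_C_mul, coeff_C_mul, coeff_succ_X_mul, coeff_succ_X_mul,
    coeff_succ_X_mul, coeff_eul, coeff_zero_X_mul, coeff_zero_X_mul, coeff_zero_bin] at h
  push_cast at h
  linarith

theorem SDM_pi (g b : ℝ) (n : ℕ) : coeff (n + 1) (bin g (b + 1)) =
    coeff n (bin g (b + 1)) + coeff (n + 1) (bin g b) := by
  have h1 : bin g b = (1 - X) * bin g (b + 1) := by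
    rw [one_sub_mul_bin]; congr 1; ring
  have h2 := congrArg (coeff (n + 1)) h1
  rw [sub_mul, one_mul, map_sub, coeff_succ_X_mul] at h2
  linarith

theorem SDM_two (g b : ℝ) (n : ℕ) : 2 * b * coeff (n + 1) (bin g (b + 1)) =
    ((n : ℝ) + 1 + 2 * b) * coeff (n + 1) (bin g b) +
      ((n : ℝ) + b - g) * coeff n (bin g b) := by
  induction n with
  | zero =>
    rw [SDM_pi, zero_add, SDM_one, coeff_zero_bin, coeff_zero_bin]
    push_cast
    ring
  | succ n ih =>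
    rw [SDM_pi, mul_add, ih]
    have h := SDM_rec g b n
    push_cast
    linarith

theorem SDM_V (al be : ℝ) (n : ℕ) : Vc al be (n + 1) = 4 * pc al be (n + 1) -
    3 * coeff (n + 1) (bin (be - 2) (2 * al + 3 * be - 1)) -
    coeff n (bin (be - 2) (2 * al + 3 * be - 1)) := by
  have h0 : 2 * al + 3 * be - 1 + 1 = 2 * al + 3 * be := by ring
  have h1 := SDM_pi (be - 2) (2 * al + 3 * be - 1) n
  rw [h0] at h1
  have h2 : pc al be (n + 1) = pc al be n +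
      coeff (n + 1) (bin (be - 2) (2 * al + 3 * be - 1)) := h1
  cases n with
  | zero =>
    rw [zero_add] at h2 ⊢
    rw [Vc_one_eq_pc, h2, pc_zero, coeff_zero_bin]
    ring
  | succ n =>
    have h3 := SDM_pi (be - 2) (2 * al + 3 * be - 1) n
    rw [h0] at h3
    have h4 : pc al be (n + 1) = pc al be n +
        coeff (n + 1) (bin (be - 2) (2 * al + 3 * be - 1)) := h3
    have h5 := Vc_eq_pc al be n
    have e1 : n + 1 + 1 = n + 2 := rfl
    rw [e1] at h2 ⊢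
    linarith

theorem SDM_abs {al be : ℝ} (h1 : 1 ≤ be) (h2 : be ≤ 2 * al + 3 * be - 1) :
    |be - 2| ≤ 2 * al + 3 * be - 1 := by
  rw [abs_le]
  constructor <;> linarith

theorem SDM_Vpos {al be : ℝ} (h1 : 1 ≤ be) (h2 : be ≤ 2 * al + 3 * be - 1) (j : ℕ) :
    0 < Vc al be j := by
  refine pos_bin ?_ j
  rw [abs_of_nonneg (by linarith)]
  linarith

theorem SDM_ppos {al be : ℝ} (h1 : 1 ≤ be) (h2 : be ≤ 2 * al + 3 * be - 1) (j : ℕ) :
    0 ≤ pc al be j := by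
  refine NN_bin ?_ j
  have := SDM_abs h1 h2
  linarith

/-- `μ_j + ν_j ≥ 1 / 2` for `j ≥ 1`. -/
theorem half_le_mu_add_nu {al be : ℝ} (h1 : 1 ≤ be) (h2 : be ≤ 2 * al + 3 * be - 1) (j : ℕ)
    (hj : 1 ≤ j) : 1 / 2 ≤ pc al be j / Vc al be j + pc al be (j - 1) / Vc al be (j + 1) := by
  obtain ⟨n, rfl⟩ : ∃ n, j = n + 1 := ⟨j - 1, by omega⟩
  have hV1 := SDM_Vpos h1 h2 (n + 1)
  have hV2 := SDM_Vpos h1 h2 (n + 1 + 1)
  rw [Nat.add_sub_cancel, div_add_div _ _ hV1.ne' hV2.ne', div_le_div_iff₀ two_pos (by positivity)]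
  have h0 : 2 * al + 3 * be - 1 + 1 = 2 * al + 3 * be := by ring
  have hb := SDM_two (be - 2) (2 * al + 3 * be - 1) n
  have hp := SDM_pi (be - 2) (2 * al + 3 * be - 1) n
  have hp' := SDM_pi (be - 2) (2 * al + 3 * be - 1) (n + 1)
  have hr := SDM_rec (be - 2) (2 * al + 3 * be - 1) n
  have hv := SDM_V al be n
  have hv' := SDM_V al be (n + 1)
  rw [h0] at hb hp hp'
  have q0 : pc al be (n + 1) = coeff (n + 1) (bin (be - 2) (2 * al + 3 * be)) := rfl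
  have q1 : pc al be n = coeff n (bin (be - 2) (2 * al + 3 * be)) := rfl
  have q2 : pc al be (n + 1 + 1) = coeff (n + 1 + 1) (bin (be - 2) (2 * al + 3 * be)) := rfl
  have hd0 := NN_bin (SDM_abs h1 h2) n
  have hd1 := NN_bin (SDM_abs h1 h2) (n + 1)
  have hn : (0 : ℝ) ≤ n := Nat.cast_nonneg n
  rw [← q0] at hb hp hp'
  rw [← q1] at hp
  rw [← q2] at hp'
  have e1 : n + 1 + 1 = n + 2 := rfl
  rw [e1] at hp' hv' ⊢
  generalize coeff n (bin (be - 2) (2 * al + 3 * be - 1)) = D0 at *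
  generalize coeff (n + 1) (bin (be - 2) (2 * al + 3 * be - 1)) = D1 at *
  generalize coeff (n + 2) (bin (be - 2) (2 * al + 3 * be - 1)) = D2 at *
  rw [hv, hv', hp']
  have hpn : pc al be n = pc al be (n + 1) - D1 := by linarith
  rw [hpn]
  generalize pc al be (n + 1) = p at *
  obtain ⟨b, hbb⟩ : ∃ b, b = 2 * al + 3 * be - 1 := ⟨_, rfl⟩
  obtain ⟨g, hg⟩ : ∃ g, g = be - 2 := ⟨_, rfl⟩
  rw [← hbb, ← hg] at hb hr
  have hb1 : 1 ≤ b := by linarith
  have hgb : g + 2 ≤ b := by linarith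
  have hg1 : -1 ≤ g := by linarith
  have key : 2 * b * ((n : ℝ) + 2) * ((p * (4 * (p + D2) - 3 * D2 - D1) +
      (4 * p - 3 * D1 - D0) * (p - D1)) * 2 - 1 * ((4 * p - 3 * D1 - D0) *
        (4 * (p + D2) - 3 * D2 - D1))) = 2 * ((((n : ℝ) + 1) * (2 * b - g) + b * (b + g + 3)) * D1 ^ 2
      + (((n : ℝ) + 1) * (2 * b + 2) + b ^ 2 + 3 * b + g + g ^ 2) * (D1 * D0) +
      ((n : ℝ) + b - g) * (g + 2) * D0 ^ 2) := by
    linear_combination 2 * ((n : ℝ) + 2) * (D0 - D2) * hb + 2 * (b * (3 * D1 + D0) -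
      (((n : ℝ) + 1 + 2 * b) * D1 + ((n : ℝ) + b - g) * D0)) * hr
  have hrhs : 0 ≤ 2 * ((((n : ℝ) + 1) * (2 * b - g) + b * (b + g + 3)) * D1 ^ 2
      + (((n : ℝ) + 1) * (2 * b + 2) + b ^ 2 + 3 * b + g + g ^ 2) * (D1 * D0) +
      ((n : ℝ) + b - g) * (g + 2) * D0 ^ 2) := by
    have t1 : 0 ≤ ((n : ℝ) + 1) * (2 * b - g) + b * (b + g + 3) := by
      have := mul_nonneg (by linarith : (0 : ℝ) ≤ (n : ℝ) + 1) (by linarith : 0 ≤ 2 * b - g)
      have := mul_nonneg (by linarith : (0 : ℝ) ≤ b) (by linarith : 0 ≤ b + g + 3)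
      linarith
    have t2 : 0 ≤ ((n : ℝ) + 1) * (2 * b + 2) + b ^ 2 + 3 * b + g + g ^ 2 := by
      have := mul_nonneg (by linarith : (0 : ℝ) ≤ (n : ℝ) + 1) (by linarith : 0 ≤ 2 * b + 2)
      nlinarith [sq_nonneg g, sq_nonneg b]
    have t3 : 0 ≤ ((n : ℝ) + b - g) * (g + 2) :=
      mul_nonneg (by linarith) (by linarith)
    have t4 := mul_nonneg t1 (sq_nonneg D1)
    have t5 := mul_nonneg t2 (mul_nonneg hd1 hd0)
    have t6 := mul_nonneg t3 (sq_nonneg D0)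
    linarith
  rw [← key] at hrhs
  have hpos : 0 < 2 * b * ((n : ℝ) + 2) := by positivity
  have := nonneg_of_mul_nonneg_right hrhs hpos
  linarith

/-- `ν_j ≤ μ_j` for `j ≥ 1`. -/
theorem nu_le_mu {al be : ℝ} (h1 : 1 ≤ be) (h2 : be ≤ 2 * al + 3 * be - 1) (j : ℕ)
    (hj : 1 ≤ j) : pc al be (j - 1) / Vc al be (j + 1) ≤ pc al be j / Vc al be j := by
  have hV1 := SDM_Vpos h1 h2 j
  have m1 : Monotone fun n => pc al be n := mono_bin (SDM_abs h1 h2)
  have m2 : Monotone fun n => Vc al be n := by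
    refine mono_bin ?_
    rw [abs_of_nonneg (by linarith)]
    exact h2
  have a1 : pc al be (j - 1) ≤ pc al be j := m1 (Nat.sub_le j 1)
  have a2 : Vc al be j ≤ Vc al be (j + 1) := m2 (Nat.le_succ j)
  exact div_le_div₀ (SDM_ppos h1 h2 j) a1 hV1 a2

end Pool.Agent.KIM
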