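import Pool.Agent.KIM.SWA
import Pool.Agent.KIM.PBN

/-!
# KIM / SGM: identities between `hS`, `rS`, `gS`

Write `κ = kap al be`, `s0 = al + be`, `a' = 2 al + 3 be`.  From `rp_eul` and `eul_W`
(`(1 + W) eul W = W (1 - W)`):
`(1 + W)^2 eul κ = κ (-a' W (1 + W) - be W (1 - W))`, and `(1 + W) eul (W^m) = m W^m (1 - W)`.
* `gS_eq`: `(1 + W)^2 gS_m = κ W^m (m (1 - W^2) + 2 s0 + 2 al W)`.
* `rS_add`: `(1 + W) rp (1 + W) (-1) = 1`.
* `gS_add`: `gS_{m+1} + gS_m = (m + 2 s0) hS_m - (m + 1) hS_{m+1} - 2 (be - 1) rS_{m+1}`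
  (multiply by `(1 + W)^2`; not a zero divisor).
* `half_rS`: for `al = 1/2`, `be = 0`: `m hS_m + gS_m = (2 m + 1) rS_m`.
* `gS_three`: the form used for positivity, for `be ≥ 1`, `a = -al`:
  `gS_m = (2 be - 4 a) κ W^m (1+W)^(-2) + m κ W^m (1-W)(1+W)^(-1) + 2 a κ W^m (1-W)(1+W)^(-2)`.
* `tS_three`: `κ W^j (μ + ν W - W/(1+W)) =
  κ W^j ((1-W)^2/(4(1+W)) + ((μ+ν)/2 - 1/4)(1+W) + ((μ-ν)/2)(1-W))`.
-/

set_option autoImplicit false

open PowerSeries Finset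

namespace Pool.Agent.KIM

theorem constantCoeff_kap (al be : ℝ) : constantCoeff (kap al be) = 1 := by
  rw [kap, map_mul, constantCoeff_rp, constantCoeff_rp, one_mul]

namespace SGM_

private theorem eul_one_sub_W : eul (1 - W) = - eul W := by
  rw [eul_sub, eul_one, zero_sub]

private theorem eul_one_add_W : eul (1 + W) = eul W := by
  rw [eul_add, eul_one, zero_add]

private theorem eul_kap (al be : ℝ) : (1 + W) ^ 2 * eul (kap al be) =
    kap al be * (-(C (2 * al + 3 * be)) * W * (1 + W) - C be * W * (1 - W)) := by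
  have hA := rp_eul constantCoeff_one_sub_W (2 * al + 3 * be)
  have hB := rp_eul constantCoeff_one_add_W (-be)
  rw [eul_one_sub_W] at hA
  rw [eul_one_add_W] at hB
  have hW := eul_W
  have hne : (1 - W : ℝ⟦X⟧) ≠ 0 := ne_zero_of_one constantCoeff_one_sub_W
  apply mul_left_cancel₀ hne
  rw [kap, eul_mul]
  have hCneg : (C (-be) : ℝ⟦X⟧) = - C be := map_neg C be
  rw [hCneg] at hB
  generalize rp (1 - W) (2 * al + 3 * be) = A at *
  generalize rp (1 + W) (-be) = B at *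
  generalize (C (2 * al + 3 * be) : ℝ⟦X⟧) = a' at *
  generalize (C be : ℝ⟦X⟧) = b' at *
  linear_combination ((1 + W) ^ 2 * B) * hA + ((1 - W) * (1 + W) * A) * hB -
    ((1 + W) * a' * A * B + (1 - W) * b' * A * B) * hW

private theorem eul_W_pow (m : ℕ) : (1 + W) * eul (W ^ m) = C (m : ℝ) * W ^ m * (1 - W) := by
  induction m with
  | zero => simp [eul_one]
  | succ m ih =>
    rw [pow_succ, eul_mul]
    have hW := eul_W
    have hC : (C ((m + 1 : ℕ) : ℝ) : ℝ⟦X⟧) = C (m : ℝ) + 1 := by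
      rw [Nat.cast_add, Nat.cast_one, map_add, map_one]
    rw [hC]
    linear_combination W * ih + W ^ m * hW

private theorem inv_mul : rp (1 + W) (-1) * (1 + W) = 1 :=
  rp_neg_one_mul constantCoeff_one_add_W

private theorem rp_neg_two : rp (1 + W) (-2 : ℝ) = rp (1 + W) (-1) * rp (1 + W) (-1) := by
  rw [← rp_add constantCoeff_one_add_W]
  norm_num

private theorem ne_W : (1 + W : ℝ⟦X⟧) ≠ 0 := ne_zero_of_one constantCoeff_one_add_W

private theorem ne_W2 : ((1 + W) ^ 2 : ℝ⟦X⟧) ≠ 0 := pow_ne_zero 2 ne_W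

end SGM_

open SGM_

theorem gS_eq (al be : ℝ) (m : ℕ) : (1 + W) ^ 2 * gS al be m =
    hS al be m * (C (m : ℝ) * (1 - W ^ 2) + C (2 * (al + be)) + C (2 * al) * W) := by
  rw [gS, hS, eul_mul]
  have h1 := eul_kap al be
  have h2 := eul_W_pow m
  have c1 : (C (2 * (al + be)) : ℝ⟦X⟧) = 2 * (C al + C be) := by
    rw [map_mul, map_add, map_ofNat]
  have c2 : (C (2 * al) : ℝ⟦X⟧) = 2 * C al := by rw [map_mul, map_ofNat]
  have c3 : (C (2 * al + 3 * be) : ℝ⟦X⟧) = 2 * C al + 3 * C be := by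
    rw [map_add, map_mul, map_mul, map_ofNat, map_ofNat]
  rw [c3] at h1
  rw [c1, c2]
  linear_combination W ^ m * h1 + kap al be * (1 + W) * h2

theorem rS_add (al be : ℝ) (m : ℕ) : hS al be m = rS al be m + rS al be (m + 1) := by
  rw [rS, rS, hS, pow_succ]
  linear_combination (-(kap al be * W ^ m)) * inv_mul

theorem gS_add (al be : ℝ) (m : ℕ) : gS al be (m + 1) + gS al be m =
    C ((m : ℝ) + 2 * (al + be)) * hS al be m - C ((m : ℝ) + 1) * hS al be (m + 1) -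
      C (2 * (be - 1)) * rS al be (m + 1) := by
  apply mul_left_cancel₀ ne_W2
  have h1 := gS_eq al be m
  have h2 := gS_eq al be (m + 1)
  have hI := inv_mul
  have c1 : (C (2 * (al + be)) : ℝ⟦X⟧) = 2 * (C al + C be) := by
    rw [map_mul, map_add, map_ofNat]
  have c2 : (C (2 * al) : ℝ⟦X⟧) = 2 * C al := by rw [map_mul, map_ofNat]
  have c3 : (C ((m : ℝ) + 2 * (al + be)) : ℝ⟦X⟧) = C (m : ℝ) + 2 * (C al + C be) := by
    rw [map_add, c1]
  have c4 : (C ((m : ℝ) + 1) : ℝ⟦X⟧) = C (m : ℝ) + 1 := by rw [map_add, map_one]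
  have c5 : (C (2 * (be - 1)) : ℝ⟦X⟧) = 2 * (C be - 1) := by
    rw [map_mul, map_sub, map_ofNat, map_one]
  have c6 : (C ((m + 1 : ℕ) : ℝ) : ℝ⟦X⟧) = C (m : ℝ) + 1 := by
    rw [Nat.cast_add, Nat.cast_one, c4]
  rw [c1, c2] at h1
  rw [c1, c2, c6] at h2
  rw [c3, c4, c5, rS]
  rw [hS] at *
  rw [hS] at *
  linear_combination h1 + h2 +
    2 * (C be - 1) * kap al be * W ^ (m + 1) * (1 + W) * hI

theorem half_rS (m : ℕ) : C (m : ℝ) * hS (1 / 2) 0 m + gS (1 / 2) 0 m =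
    C (2 * (m : ℝ) + 1) * rS (1 / 2) 0 m := by
  apply mul_left_cancel₀ ne_W2
  have h1 := gS_eq (1 / 2) 0 m
  have hI := inv_mul
  have c1 : (C (2 * ((1 : ℝ) / 2 + 0)) : ℝ⟦X⟧) = 1 := by norm_num
  have c2 : (C (2 * ((1 : ℝ) / 2)) : ℝ⟦X⟧) = 1 := by norm_num
  have c3 : (C (2 * (m : ℝ) + 1) : ℝ⟦X⟧) = 2 * C (m : ℝ) + 1 := by
    rw [map_add, map_mul, map_ofNat, map_one]
  rw [c1, c2] at h1
  rw [c3, rS]
  rw [hS] at *
  linear_combination h1 -
    (2 * C (m : ℝ) + 1) * kap (1 / 2) 0 * W ^ m * (1 + W) * hI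

theorem gS_three (al be : ℝ) (m : ℕ) : gS al be m =
    C (2 * be + 4 * al) * (kap al be * W ^ m * rp (1 + W) (-2)) +
      C (m : ℝ) * (kap al be * W ^ m * ((1 - W) * rp (1 + W) (-1))) +
      C (-2 * al) * (kap al be * W ^ m * ((1 - W) * rp (1 + W) (-2))) := by
  apply mul_left_cancel₀ ne_W2
  have h1 := gS_eq al be m
  have hI := inv_mul
  have c1 : (C (2 * (al + be)) : ℝ⟦X⟧) = 2 * (C al + C be) := by
    rw [map_mul, map_add, map_ofNat]
  have c2 : (C (2 * al) : ℝ⟦X⟧) = 2 * C al := by rw [map_mul, map_ofNat]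
  have c3 : (C (2 * be + 4 * al) : ℝ⟦X⟧) = 2 * C be + 4 * C al := by
    rw [map_add, map_mul, map_mul, map_ofNat, map_ofNat]
  have c4 : (C (-2 * al) : ℝ⟦X⟧) = - (2 * C al) := by
    rw [neg_mul, map_neg, c2]
  rw [c1, c2] at h1
  rw [c3, c4, rp_neg_two]
  rw [hS] at h1
  generalize rp (1 + W) (-1 : ℝ) = I at *
  have hI2 : I * I * (1 + W) ^ 2 = 1 := by
    linear_combination (I * (1 + W) + 1) * hI
  linear_combination h1 - (2 * C be + 4 * C al) * kap al be * W ^ m * hI2 -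
    C (m : ℝ) * kap al be * W ^ m * (1 - W) * (1 + W) * hI +
    2 * C al * kap al be * W ^ m * (1 - W) * hI2

theorem gS_two (al be : ℝ) (m : ℕ) : gS al be m =
    C (2 * (al + be)) * (kap al be * W ^ m * rp (1 + W) (-2)) +
      C (2 * al) * (kap al be * W ^ (m + 1) * rp (1 + W) (-2)) +
      C (m : ℝ) * (kap al be * W ^ m * ((1 - W) * rp (1 + W) (-1))) := by
  apply mul_left_cancel₀ ne_W2
  have h1 := gS_eq al be m
  have hI := inv_mul
  have c1 : (C (2 * (al + be)) : ℝ⟦X⟧) = 2 * (C al + C be) := by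
    rw [map_mul, map_add, map_ofNat]
  have c2 : (C (2 * al) : ℝ⟦X⟧) = 2 * C al := by rw [map_mul, map_ofNat]
  rw [c1, c2] at h1 ⊢
  rw [rp_neg_two]
  rw [hS] at h1
  generalize rp (1 + W) (-1 : ℝ) = I at *
  have hI2 : I * I * (1 + W) ^ 2 = 1 := by
    linear_combination (I * (1 + W) + 1) * hI
  linear_combination h1 - 2 * (C al + C be) * kap al be * W ^ m * hI2 -
    C (m : ℝ) * kap al be * W ^ m * (1 - W) * (1 + W) * hI -
    2 * C al * kap al be * W ^ (m + 1) * hI2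

theorem tS_three (al be : ℝ) (j : ℕ) (mu nu : ℝ) :
    C mu * hS al be j + C nu * hS al be (j + 1) - rS al be (j + 1) =
    C (1 / 4) * (kap al be * W ^ j * ((1 - W) ^ 2 * rp (1 + W) (-1))) +
      C ((mu + nu) / 2 - 1 / 4) * (kap al be * W ^ j * (1 + W)) +
      C ((mu - nu) / 2) * (kap al be * W ^ j * (1 - W)) := by
  apply mul_left_cancel₀ ne_W
  have hI := inv_mul
  have c1 : (C ((mu + nu) / 2 - 1 / 4) : ℝ⟦X⟧) =
      2 * C (1 / 4) * (C mu + C nu) - C (1 / 4) := by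
    rw [show (mu + nu) / 2 - 1 / 4 = 2 * (1 / 4) * (mu + nu) - 1 / 4 by ring,
      map_sub, map_mul, map_mul, map_ofNat, map_add]
  have c2 : (C ((mu - nu) / 2) : ℝ⟦X⟧) = 2 * C (1 / 4) * (C mu - C nu) := by
    rw [show (mu - nu) / 2 = 2 * (1 / 4) * (mu - nu) by ring,
      map_mul, map_mul, map_ofNat, map_sub]
  have c3 : 4 * (C (1 / 4) : ℝ⟦X⟧) = 1 := by
    rw [← map_ofNat (C (R := ℝ)) 4, ← map_mul]
    norm_num
  rw [c1, c2, rS, hS, hS, pow_succ]
  generalize (C (1 / 4 : ℝ) : ℝ⟦X⟧) = qq at *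
  generalize rp (1 + W) (-1 : ℝ) = I at *
  linear_combination (-(kap al be * W ^ j * W) - qq * kap al be * W ^ j * (1 - W) ^ 2) * hI -
    (kap al be * W ^ j * ((1 + W) * (C mu + C nu * W) - W)) * c3

end Pool.Agent.KIM
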