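import Pool.Agent.KIM.SSY
import Pool.Agent.KIM.PBN

/-!
# KIM / SLF: the functionals `Lf q N y F = [z ^ N] K ^ q F(y k(z))`

* linear in `F`; by `coeff_mul_Sy` a polynomial in `y`:
  `Lf q N y F = ∑_{n ≤ N} (coeff n F) y ^ n [z ^ N](K ^ q k0 ^ n)`.
* `hasDerivAt_Lf`: differentiate `(exp (-t)) ^ n`; `coeff n (eul F) = n * coeff n F`.
* `Lf_of_lt`: if `F = X ^ m * F'`... : `W ^ m` is divisible by `X ^ m`, so the coefficients
  `n < m` of `hS al be m`, `rS al be m`, `gS al be m` vanish; for `N < m` all `n ≤ N < m`.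
* `Lf_one_hS`: `Sy 1 W = X`, so `Sy 1 (hS al be m) =
  rp (1 - X) (2 al + 3 be) * rp (1 + X) (-be) * X ^ m` and `Kq q` times it is
  `bin (q - be) (3 q - (2 al + 3 be)) * X ^ m`.
* `Lf_zero`: `Sy 0 F = C (constantCoeff F)`.
* `continuous_Lf`: polynomial in `y`.
-/

set_option autoImplicit false

open PowerSeries Finset

namespace Pool.Agent.KIM

private theorem slf_X_dvd_W : (X : ℝ⟦X⟧) ∣ W := by
  rw [X_dvd_iff]
  exact constantCoeff_W

private theorem slf_coeff {m n : ℕ} (h : n < m) (F G : ℝ⟦X⟧) : coeff n (F * W ^ m * G) = 0 := by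
  have h1 : (X : ℝ⟦X⟧) ^ m ∣ F * W ^ m * G :=
    Dvd.dvd.mul_right (Dvd.dvd.mul_left (pow_dvd_pow_of_dvd slf_X_dvd_W m) _) _
  exact X_pow_dvd_iff.1 h1 n h

theorem Lf_add (q : ℝ) (N : ℕ) (y : ℝ) (F G : ℝ⟦X⟧) :
    Lf q N y (F + G) = Lf q N y F + Lf q N y G := by
  simp only [Lf, Sy_add, mul_add, map_add]

theorem Lf_sub (q : ℝ) (N : ℕ) (y : ℝ) (F G : ℝ⟦X⟧) :
    Lf q N y (F - G) = Lf q N y F - Lf q N y G := by
  simp only [Lf, Sy_sub, mul_sub, map_sub]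

theorem Lf_C_mul (q : ℝ) (N : ℕ) (y c : ℝ) (F : ℝ⟦X⟧) :
    Lf q N y (C c * F) = c * Lf q N y F := by
  rw [Lf, Lf, Sy_mul, Sy_C, mul_left_comm, coeff_C_mul]

theorem Lf_eq_sum (q : ℝ) (N : ℕ) (y : ℝ) (F : ℝ⟦X⟧) : Lf q N y F =
    ∑ n ∈ range (N + 1), coeff n F * y ^ n * coeff N (Kq q * k0 ^ n) := by
  exact coeff_mul_Sy y F (Kq q) N

theorem continuous_Lf (q : ℝ) (N : ℕ) (F : ℝ⟦X⟧) : Continuous fun y => Lf q N y F := by
  simp_rw [Lf_eq_sum]
  refine continuous_finset_sum _ fun n _ => ?_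
  exact (continuous_const.mul (continuous_id.pow n)).mul continuous_const

theorem hasDerivAt_Lf (q : ℝ) (N : ℕ) (F : ℝ⟦X⟧) (t : ℝ) :
    HasDerivAt (fun t => Lf q N (Real.exp (-t)) F) (-Lf q N (Real.exp (-t)) (eul F)) t := by
  have h1 : ∀ n : ℕ, HasDerivAt (fun t : ℝ => Real.exp (-t) ^ n)
      (-((n : ℝ) * Real.exp (-t) ^ n)) t := by
    intro n
    have h2 : HasDerivAt (fun t : ℝ => Real.exp (-t)) (Real.exp (-t) * (-1)) t :=
      (Real.hasDerivAt_exp (-t)).comp t (hasDerivAt_neg t)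
    have h3 := h2.pow n
    refine h3.congr_deriv ?_
    cases n with
    | zero => simp
    | succ n =>
      rw [Nat.add_sub_cancel, pow_succ]
      ring
  simp_rw [Lf_eq_sum]
  have h2 : HasDerivAt (fun t : ℝ => ∑ n ∈ range (N + 1),
      coeff n F * Real.exp (-t) ^ n * coeff N (Kq q * k0 ^ n))
      (∑ n ∈ range (N + 1),
        coeff n F * (-((n : ℝ) * Real.exp (-t) ^ n)) * coeff N (Kq q * k0 ^ n)) t := by
    refine HasDerivAt.fun_sum fun n _ => ?_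
    exact ((h1 n).const_mul _).mul_const _
  refine h2.congr_deriv ?_
  rw [← Finset.sum_neg_distrib]
  refine sum_congr rfl fun n _ => ?_
  rw [coeff_eul]
  ring

theorem Lf_zero (q : ℝ) (N : ℕ) (F : ℝ⟦X⟧) :
    Lf q N 0 F = constantCoeff F * coeff N (Kq q) := by
  rw [Lf, Sy_zero, mul_comm, coeff_C_mul]

theorem Lf_hS_of_lt (q : ℝ) {N m : ℕ} (h : N < m) (y al be : ℝ) :
    Lf q N y (hS al be m) = 0 := by
  rw [Lf_eq_sum]
  refine sum_eq_zero fun n hn => ?_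
  have h1 : n < m := by have := mem_range.1 hn; omega
  have h2 := slf_coeff h1 (kap al be) 1
  rw [mul_one] at h2
  rw [hS, h2, zero_mul, zero_mul]

theorem Lf_rS_of_lt (q : ℝ) {N m : ℕ} (h : N < m) (y al be : ℝ) :
    Lf q N y (rS al be m) = 0 := by
  rw [Lf_eq_sum]
  refine sum_eq_zero fun n hn => ?_
  have h1 : n < m := by have := mem_range.1 hn; omega
  rw [rS, slf_coeff h1, zero_mul, zero_mul]

theorem Lf_gS_of_lt (q : ℝ) {N m : ℕ} (h : N < m) (y al be : ℝ) :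
    Lf q N y (gS al be m) = 0 := by
  rw [Lf_eq_sum]
  refine sum_eq_zero fun n hn => ?_
  have h1 : n < m := by have := mem_range.1 hn; omega
  have h2 := slf_coeff h1 (kap al be) 1
  rw [mul_one] at h2
  rw [gS, map_add, coeff_C_mul, coeff_eul, hS, h2, mul_zero, mul_zero, add_zero, zero_mul,
    zero_mul]

theorem Lf_one_hS (q : ℝ) {N m : ℕ} (h : m ≤ N) (al be : ℝ) :
    Lf q N 1 (hS al be m) = coeff (N - m) (bin (q - be) (3 * q - (2 * al + 3 * be))) := by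
  have hw : Sy 1 W = X := wy_one
  have hs : Sy 1 (hS al be m) = bin (-be) (-(2 * al + 3 * be)) * X ^ m := by
    rw [hS, kap, Sy_mul, Sy_mul, Sy_pow, Sy_rp 1 constantCoeff_one_sub_W,
      Sy_rp 1 constantCoeff_one_add_W, Sy_sub, Sy_add, Sy_one, hw, bin, neg_neg,
      mul_comm (rp (1 - X) (2 * al + 3 * be))]
  rw [Lf, hs, ← mul_assoc, Kq, bin_mul, coeff_mul_X_pow', if_pos h]
  have e1 : q + -be = q - be := by ring
  have e2 : 3 * q + -(2 * al + 3 * be) = 3 * q - (2 * al + 3 * be) := by ring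
  rw [e1, e2]

theorem constantCoeff_hS_zero (al be : ℝ) : constantCoeff (hS al be 0) = 1 := by
  rw [hS, pow_zero, mul_one, kap, map_mul, constantCoeff_rp, constantCoeff_rp, one_mul]

end Pool.Agent.KIM
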