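import Pool.Agent.KIM.PRI
import Pool.Agent.KIM.CER
import Pool.Agent.KIM.CEH
import Pool.Agent.KIM.SLF
import Pool.Agent.KIM.SGM
import Pool.Agent.KIM.DIL
import Pool.Agent.KIM.SDM

/-!
# KIM / APP: application of the principle to the certificates

Notation `Hm t = Lf q N (exp (-t)) (hS al be m)`, `Rm`, `Gm` the same with `rS`, `gS`.
* `cert_bounded`: `principle` with `s m t = Hm t / Vc al be m`,
  `s' m t = 2 (al + be) (Hm t / V_m) - Gm t / V_m` (`hasDerivAt_Lf`, `gS` definition: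
  `-Lf (eul (hS m)) = 2 (al + be) Hm - Gm`; continuity: `continuous_Lf` composed with `exp (-t)`).
  `hpos`: `Qf_nonneg` with `H, R, G` at `y = exp (-t) ∈ [0, 1]`: `rS_add`, `gS_add`,
  `Lf_*_of_lt`, linearity of `Lf`; `tc al be H R j = Lf q N y (tS al be j)`.  At `t = 0`:
  `y = 1`, `Lf_one_hS`.
* `cert_bound`: apply `cert_bounded` to `dil rho f` for `T → ∞` (`Lf q N (exp (-T)) (hS 0) →
  Lf q N 0 (hS 0) = coeff N (Kq q)` by `continuous_Lf`, `Lf_zero`, `constantCoeff_hS_zero`;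
  `dil_bdd`), then `rho → 1` (`cc_dil`, finite sum).
* `cert_half`: the same with `Qf_half_nonneg` (`al = 1/2, be = 0`, `Vc (1/2) 0 m = 1`:
  `bin 0 1 = (1 - X)^(-1)`), using `half_rS`.
-/

set_option autoImplicit false

open PowerSeries Finset
open Pool.Agent.Helper42.KoebeMeans (ClassS)

namespace Pool.Agent.KIM

private theorem app_Vc_zero (al be : ℝ) : Vc al be 0 = 1 := by
  rw [Vc, bin, coeff_zero_eq_constantCoeff_apply, map_mul, constantCoeff_rp, constantCoeff_rp,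
    one_mul]

private theorem app_eul (q al be : ℝ) (N : ℕ) (y : ℝ) (m : ℕ) :
    -Lf q N y (eul (hS al be m)) = 2 * (al + be) * Lf q N y (hS al be m) -
      Lf q N y (gS al be m) := by
  rw [gS, Lf_add, Lf_C_mul]
  ring

private theorem app_cont (q : ℝ) (N : ℕ) (F : ℝ⟦X⟧) :
    Continuous fun t : ℝ => Lf q N (Real.exp (-t)) F :=
  (continuous_Lf q N F).comp (Real.continuous_exp.comp continuous_neg)

private theorem app_tc (q al be : ℝ) (N : ℕ) (y : ℝ) (j : ℕ) :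
    tc al be (fun m => Lf q N y (hS al be m)) (fun m => Lf q N y (rS al be m)) j =
      Lf q N y (tS al be j) := by
  rw [tS, Lf_sub, Lf_add, Lf_C_mul, Lf_C_mul, tc]

private theorem app_exp_one {t : ℝ} (ht : 0 ≤ t) : Real.exp (-t) ≤ 1 := by
  rw [Real.exp_le_one_iff]
  linarith

theorem cert_bounded (q al be : ℝ) (N : ℕ) (h1 : 1 ≤ be) (h2 : be ≤ 2 * al + 3 * be - 1)
    (hG : ∀ y : ℝ, 0 ≤ y → y ≤ 1 → ∀ m, 1 ≤ m → m ≤ N → 0 ≤ Lf q N y (gS al be m))
    (hC : be = 1 ∨ ∀ y : ℝ, 0 ≤ y → y ≤ 1 → ∀ j, 1 ≤ j → j ≤ N → 0 ≤ Lf q N y (tS al be j))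
    {f : ℂ → ℂ} (hf : ClassS f) {T : ℝ} (hT : 0 < T) (hb : ∀ z ∈ LOE.Dk, ‖f z‖ < Real.exp T) :
    ∑ m ∈ range (N + 1), coeff (N - m) (bin (q - be) (3 * q - (2 * al + 3 * be))) /
      Vc al be m * ‖cc al be f m‖ ^ 2 ≤ Lf q N (Real.exp (-T)) (hS al be 0) := by
  have main := principle N al be (fun m t => Lf q N (Real.exp (-t)) (hS al be m) / Vc al be m)
    (fun m t => 2 * (al + be) * (Lf q N (Real.exp (-t)) (hS al be m) / Vc al be m) -
      Lf q N (Real.exp (-t)) (gS al be m) / Vc al be m) hT ?_ ?_ ?_ hf hb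
  · have e0 : Lf q N (Real.exp (-T)) (hS al be 0) / Vc al be 0 =
        Lf q N (Real.exp (-T)) (hS al be 0) := by rw [app_Vc_zero, div_one]
    rw [← e0]
    refine le_of_eq_of_le (sum_congr rfl fun m hm => ?_) main
    have hm' : m ≤ N := by have := mem_range.1 hm; omega
    rw [← Lf_one_hS q hm' al be, neg_zero, Real.exp_zero]
  · intro m _ t
    refine ((hasDerivAt_Lf q N (hS al be m) t).div_const _).congr_deriv ?_
    rw [app_eul]
    ring
  · intro m _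
    exact (((app_cont q N _).div_const _).const_mul _).sub ((app_cont q N _).div_const _)
  · intro t ht g _ _ ka _
    have hy0 : 0 ≤ Real.exp (-t) := (Real.exp_pos _).le
    have hy1 : Real.exp (-t) ≤ 1 := app_exp_one ht.1
    refine Qf_nonneg N h1 h2 (fun m => Lf q N (Real.exp (-t)) (hS al be m))
      (fun m => Lf q N (Real.exp (-t)) (rS al be m)) (fun m => Lf q N (Real.exp (-t)) (gS al be m))
      (fun m hm => Lf_rS_of_lt q hm _ _ _) (fun m hm => Lf_gS_of_lt q hm _ _ _)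
      (fun m => ?_) (fun m => ?_) (fun m h3 h4 => hG _ hy0 hy1 m h3 h4) ?_ _
    · rw [← Lf_add, ← rS_add]
    · rw [← Lf_add, gS_add, Lf_sub, Lf_sub, Lf_C_mul, Lf_C_mul, Lf_C_mul]
    · rcases hC with h | h
      · exact Or.inl h
      · refine Or.inr fun j h3 h4 => ?_
        rw [app_tc]
        exact h _ hy0 hy1 j h3 h4

private theorem app_limit (q al be : ℝ) (N : ℕ) (w : ℕ → ℝ)
    (hbd : ∀ g : ℂ → ℂ, ClassS g → ∀ T : ℝ, 0 < T → (∀ z ∈ LOE.Dk, ‖g z‖ < Real.exp T) →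
      ∑ m ∈ range (N + 1), w m * ‖cc al be g m‖ ^ 2 ≤ Lf q N (Real.exp (-T)) (hS al be 0))
    {f : ℂ → ℂ} (hf : ClassS f) :
    ∑ m ∈ range (N + 1), w m * ‖cc al be f m‖ ^ 2 ≤ coeff N (Kq q) := by
  have step : ∀ rho : ℝ, 0 < rho → rho < 1 →
      ∑ m ∈ range (N + 1), w m * ‖(rho : ℂ) ^ m * cc al be f m‖ ^ 2 ≤ coeff N (Kq q) := by
    intro rho h0 h1
    obtain ⟨B, hB⟩ := dil_bdd hf h0 h1
    have hlim : Filter.Tendsto (fun T : ℝ => Lf q N (Real.exp (-T)) (hS al be 0)) Filter.atTop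
        (nhds (coeff N (Kq q))) := by
      have h3 : Filter.Tendsto (fun T : ℝ => Real.exp (-T)) Filter.atTop (nhds 0) :=
        Real.tendsto_exp_atBot.comp Filter.tendsto_neg_atTop_atBot
      have h4 := ((continuous_Lf q N (hS al be 0)).tendsto 0).comp h3
      rw [Lf_zero, constantCoeff_hS_zero, one_mul] at h4
      exact h4
    have hev : ∀ᶠ T : ℝ in Filter.atTop,
        ∑ m ∈ range (N + 1), w m * ‖(rho : ℂ) ^ m * cc al be f m‖ ^ 2 ≤
          Lf q N (Real.exp (-T)) (hS al be 0) := by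
      have h5 : ∀ᶠ T : ℝ in Filter.atTop, B < Real.exp T :=
        Real.tendsto_exp_atTop.eventually_gt_atTop B
      filter_upwards [h5, Filter.eventually_gt_atTop (0 : ℝ)] with T hT1 hT2
      have h6 := hbd (dil rho f) (classS_dil hf h0 h1) T hT2
        (fun z hz => lt_of_le_of_lt (hB z hz) hT1)
      simp_rw [cc_dil hf h0 h1] at h6
      exact h6
    exact ge_of_tendsto hlim hev
  have hcont : Continuous fun rho : ℝ =>
      ∑ m ∈ range (N + 1), w m * ‖(rho : ℂ) ^ m * cc al be f m‖ ^ 2 := by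
    refine continuous_finsetSum _ fun m _ => ?_
    exact continuous_const.mul
      (((Complex.continuous_ofReal.pow m).mul continuous_const).norm.pow 2)
  have ht : Filter.Tendsto (fun rho : ℝ =>
      ∑ m ∈ range (N + 1), w m * ‖(rho : ℂ) ^ m * cc al be f m‖ ^ 2) (nhdsWithin 1 (Set.Iio 1))
      (nhds (∑ m ∈ range (N + 1), w m * ‖cc al be f m‖ ^ 2)) := by
    have h7 := (hcont.tendsto 1).mono_left (nhdsWithin_le_nhds (s := Set.Iio (1 : ℝ)))
    simpa using h7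
  refine le_of_tendsto ht ?_
  have h8 : Set.Ioo (0 : ℝ) 1 ∈ nhdsWithin (1 : ℝ) (Set.Iio 1) :=
    Ioo_mem_nhdsLT one_pos
  filter_upwards [h8] with rho hr
  exact step rho hr.1 hr.2

theorem cert_bound (q al be : ℝ) (N : ℕ) (h1 : 1 ≤ be) (h2 : be ≤ 2 * al + 3 * be - 1)
    (hG : ∀ y : ℝ, 0 ≤ y → y ≤ 1 → ∀ m, 1 ≤ m → m ≤ N → 0 ≤ Lf q N y (gS al be m))
    (hC : be = 1 ∨ ∀ y : ℝ, 0 ≤ y → y ≤ 1 → ∀ j, 1 ≤ j → j ≤ N → 0 ≤ Lf q N y (tS al be j))
    {f : ℂ → ℂ} (hf : ClassS f) :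
    ∑ m ∈ range (N + 1), coeff (N - m) (bin (q - be) (3 * q - (2 * al + 3 * be))) /
      Vc al be m * ‖cc al be f m‖ ^ 2 ≤ coeff N (Kq q) :=
  app_limit q al be N (fun m => coeff (N - m) (bin (q - be) (3 * q - (2 * al + 3 * be))) /
    Vc al be m) (fun _ hg _ hT hb => cert_bounded q al be N h1 h2 hG hC hg hT hb) hf

theorem cert_half (q : ℝ) (N : ℕ)
    (hG : ∀ y : ℝ, 0 ≤ y → y ≤ 1 → ∀ m, 1 ≤ m → m ≤ N → 0 ≤ Lf q N y (gS (1 / 2) 0 m))
    {f : ℂ → ℂ} (hf : ClassS f) :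
    ∑ m ∈ range (N + 1), coeff (N - m) (bin q (3 * q - 1)) * ‖cc (1 / 2) 0 f m‖ ^ 2 ≤
      coeff N (Kq q) := by
  refine app_limit q (1 / 2) 0 N (fun m => coeff (N - m) (bin q (3 * q - 1)))
    (fun g hg T hT hb => ?_) hf
  have main := principle N (1 / 2) 0 (fun m t => Lf q N (Real.exp (-t)) (hS (1 / 2) 0 m))
    (fun m t => Lf q N (Real.exp (-t)) (hS (1 / 2) 0 m) -
      Lf q N (Real.exp (-t)) (gS (1 / 2) 0 m)) hT ?_ ?_ ?_ hg hb
  · refine le_of_eq_of_le (sum_congr rfl fun m hm => ?_) main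
    have hm' : m ≤ N := by have := mem_range.1 hm; omega
    have e := Lf_one_hS q hm' (1 / 2) 0
    rw [show q - (0 : ℝ) = q by ring,
      show 3 * q - (2 * (1 / 2) + 3 * (0 : ℝ)) = 3 * q - 1 by ring] at e
    simp only [neg_zero, Real.exp_zero]
    rw [e]
  · intro m _ t
    refine (hasDerivAt_Lf q N (hS (1 / 2) 0 m) t).congr_deriv ?_
    rw [app_eul]
    ring
  · intro m _
    exact (app_cont q N _).sub (app_cont q N _)
  · intro t ht g _ _ ka _
    have hy0 : 0 ≤ Real.exp (-t) := (Real.exp_pos _).le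
    have hy1 : Real.exp (-t) ≤ 1 := app_exp_one ht.1
    refine Qf_half_nonneg N (fun m => Lf q N (Real.exp (-t)) (hS (1 / 2) 0 m))
      (fun m => Lf q N (Real.exp (-t)) (rS (1 / 2) 0 m))
      (fun m => Lf q N (Real.exp (-t)) (gS (1 / 2) 0 m))
      (fun m hm => Lf_hS_of_lt q hm _ _ _) (fun m hm => Lf_gS_of_lt q hm _ _ _)
      (fun m => ?_) (fun m => ?_) (fun m h3 h4 => hG _ hy0 hy1 m h3 h4) _
    · rw [← Lf_C_mul, ← Lf_add, half_rS, Lf_C_mul]
    · rw [← Lf_add, gS_add, Lf_sub, Lf_sub, Lf_C_mul, Lf_C_mul, Lf_C_mul]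
      ring

end Pool.Agent.KIM
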