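import Pool.Agent.KIM.MNA

/-!
# KIM / PHT: `(h / (1 - z)^2)^θ` has nonnegative coefficients, `h = (1+z)(1-w)/((1-z)(1+w))`

Let `f = Mn y (-3) 1 1 (-1)`, `x = 1 - 2 y ∈ [-1, 1]`, `D2 = (1-X)^2 + 4 y X = 1 - 2 x X + X^2`.
By `eul_Mn` (`a = -3, b = 1, c = 1, d = -1`), dividing by `(1 + w)^2` with the help of `wy_DD`
(`(1+w) + (1-w) = 2`, `2 w (1+X)^2 = 2 y X (1+w)^2 (1+X)^2 / D2`):
`(1 - X)(1 + X) D2 eul f = (3 X (1+X) D2 + X (1-X) D2 - 2 y X (1+X)^2) f`.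
Let `R = mk (fun N => if N = 0 then 0 else 2 - (-1)^N + cos (N φ))`, `φ = arccos x`.  Since
`cos ((N+1) φ) + cos ((N-1) φ) = 2 x cos (N φ)`:
`D2 * mk (fun N => if N = 0 then 0 else cos (N φ)) = X (x - X)`, and
`(1 - X) * mk (if N = 0 then 0 else 2) = 2 X`, `(1 + X) * mk (if N = 0 then 0 else -(-1)^N) = X`, so
`(1-X)(1+X) D2 R = 2 X (1+X) D2 + X (1-X) D2 + X (x - X)(1-X)(1+X)`
`= 3 X (1+X) D2 + X (1-X) D2 - 2 y X (1+X)^2`  (because `D2 - (x - X)(1 - X) = 2 y (1 + X)`).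
Cancel: `eul f = R * f`, `R ≥ 0`: `NN_rp_of_eul` and `Mn_rp`.
-/

set_option autoImplicit false

open PowerSeries Finset

namespace Pool.Agent.KIM

private noncomputable def phtc (ph : ℝ) : ℝ⟦X⟧ :=
  PowerSeries.mk fun N => if N = 0 then 0 else Real.cos (N * ph)

private noncomputable def pht1 : ℝ⟦X⟧ :=
  PowerSeries.mk fun N => if N = 0 then 0 else -(-1 : ℝ) ^ N

private noncomputable def pht2 : ℝ⟦X⟧ :=
  PowerSeries.mk fun N => if N = 0 then 0 else 2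

private theorem pht2_eq : (1 - X) * pht2 = 2 * X := by
  ext n
  have e : (2 * X : ℝ⟦X⟧) = C 2 * X := by rw [map_ofNat]
  rw [e, sub_mul, one_mul, map_sub, coeff_C_mul]
  rcases n with _ | _ | n
  · simp [pht2]
  · rw [coeff_succ_X_mul]; simp [pht2, coeff_X]
  · rw [coeff_succ_X_mul]; simp [pht2, coeff_X]

private theorem pht1_eq : (1 + X) * pht1 = X := by
  ext n
  rw [add_mul, one_mul, map_add]
  rcases n with _ | _ | n
  · simp [pht1]
  · rw [coeff_succ_X_mul]; simp [pht1, coeff_X]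
  · rw [coeff_succ_X_mul]; simp [pht1, coeff_X, pow_succ]

private theorem phtc_eq (ph : ℝ) : (1 - C (2 * Real.cos ph) * X + X ^ 2) * phtc ph =
    X * (C (Real.cos ph) - X) := by
  have e1 : (1 - C (2 * Real.cos ph) * X + X ^ 2) * phtc ph =
      phtc ph - C (2 * Real.cos ph) * (X * phtc ph) + X * (X * phtc ph) := by ring
  have e2 : X * (C (Real.cos ph) - X) = C (Real.cos ph) * X - X * X := by ring
  rw [e1, e2]
  ext n
  rw [map_add, map_sub, map_sub, coeff_C_mul, coeff_C_mul]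
  rcases n with _ | _ | _ | n
  · simp [phtc]
  · rw [coeff_succ_X_mul, coeff_succ_X_mul, coeff_succ_X_mul]
    simp [phtc]
  · rw [coeff_succ_X_mul, coeff_succ_X_mul, coeff_succ_X_mul, coeff_succ_X_mul]
    have h := Real.cos_two_mul ph
    simp [phtc, coeff_X]
    rw [h]
    ring
  · rw [coeff_succ_X_mul, coeff_succ_X_mul, coeff_succ_X_mul, coeff_succ_X_mul]
    have h1 := Real.cos_add (((n : ℝ) + 2) * ph) ph
    have h2 := Real.cos_sub (((n : ℝ) + 2) * ph) ph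
    have h3 : ((n : ℝ) + 2) * ph + ph = ((n : ℝ) + 3) * ph := by ring
    have h4 : ((n : ℝ) + 2) * ph - ph = ((n : ℝ) + 1) * ph := by ring
    rw [h3] at h1
    rw [h4] at h2
    simp only [phtc, coeff_mk, coeff_X]
    have h5 : ((n + 1 + 1 + 1 : ℕ) : ℝ) = (n : ℝ) + 3 := by push_cast; ring
    have h6 : ((n + 1 + 1 : ℕ) : ℝ) = (n : ℝ) + 2 := by push_cast; ring
    have h7 : ((n + 1 : ℕ) : ℝ) = (n : ℝ) + 1 := by push_cast; ring
    rw [if_neg (by omega), if_neg (by omega), if_neg (by omega), if_neg (by omega),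
      if_neg (by omega), h5, h6, h7]
    linear_combination h1 + h2

theorem NN_ht {y : ℝ} (h0 : 0 ≤ y) (h1 : y ≤ 1) {th : ℝ} (hth : 0 ≤ th) :
    NN (Mn y (-3 * th) th th (-th)) := by
  set x : ℝ := 1 - 2 * y with hx
  set ph : ℝ := Real.arccos x with hph
  have hc : Real.cos ph = x := Real.cos_arccos (by rw [hx]; linarith) (by rw [hx]; linarith)
  set f := Mn y (-3) 1 1 (-1) with hf
  have hf1 : constantCoeff f = 1 := constantCoeff_Mn y (-3) 1 1 (-1)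
  set R : ℝ⟦X⟧ := pht2 + pht1 + phtc ph with hR
  have hNN : NN R := by
    intro n
    rw [hR, map_add, map_add]
    simp only [pht2, pht1, phtc, coeff_mk]
    split_ifs with hn
    · simp
    · have h2 := Real.neg_one_le_cos (n * ph)
      rcases neg_one_pow_eq_or ℝ n with h3 | h3 <;> rw [h3] <;> linarith
  have h2 := pht2_eq
  have h3 := pht1_eq
  have h4 := phtc_eq ph
  rw [hc] at h4
  have h5 := wy_DD y
  have h6 := eul_Mn y (-3) 1 1 (-1)
  rw [← hf] at h6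
  have c1 : (C (2 * x) : ℝ⟦X⟧) = 2 - 4 * C y := by
    rw [hx, show 2 * (1 - 2 * y) = 2 - 4 * y by ring, map_sub, map_mul, map_ofNat, map_ofNat]
  have c2 : (C x : ℝ⟦X⟧) = 1 - 2 * C y := by
    rw [hx, map_sub, map_mul, map_ofNat, map_one]
  have c3 : (C (4 * y) : ℝ⟦X⟧) = 4 * C y := by rw [map_mul, map_ofNat]
  have c4 : (C (-(-3 : ℝ)) : ℝ⟦X⟧) = 3 := by rw [neg_neg, map_ofNat]
  have c5 : (C (-1 : ℝ) : ℝ⟦X⟧) = -1 := by rw [map_neg, map_one]
  have c6 : (C (1 : ℝ) : ℝ⟦X⟧) = 1 := map_one C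
  rw [c1, c2] at h4
  rw [c3] at h5
  rw [c4, c5, c6] at h6
  have hRe : (1 - X) * (1 + X) * ((1 - X) ^ 2 + 4 * C y * X) * R =
      3 * X * (1 + X) * ((1 - X) ^ 2 + 4 * C y * X) +
        X * (1 - X) * ((1 - X) ^ 2 + 4 * C y * X) - 2 * C y * X * (1 + X) ^ 2 := by
    rw [hR]
    linear_combination ((1 + X) * ((1 - X) ^ 2 + 4 * C y * X)) * h2 +
      ((1 - X) * ((1 - X) ^ 2 + 4 * C y * X)) * h3 + ((1 - X) * (1 + X)) * h4
  have hEq : eul f = R * f := by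
    have n1 : (1 - X : ℝ⟦X⟧) ≠ 0 := ne_zero_of_one (by simp)
    have n2 : (1 + X : ℝ⟦X⟧) ≠ 0 := ne_zero_of_one (by simp)
    have n3 : ((1 - X) ^ 2 + 4 * C y * X : ℝ⟦X⟧) ≠ 0 := ne_zero_of_one (by simp)
    have n4 : (1 + wy y) ≠ 0 := ne_zero_of_one (by rw [map_add, constantCoeff_wy]; simp)
    apply mul_left_cancel₀ (mul_ne_zero (mul_ne_zero (mul_ne_zero n1 n2) n3) (pow_ne_zero 2 n4))
    linear_combination ((1 - X) ^ 2 + 4 * C y * X) * h6 - (2 * (1 + X) ^ 2 * f) * h5 -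
      ((1 + wy y) ^ 2 * f) * hRe
  have h7 := NN_rp_of_eul hf1 hNN hEq hth
  rw [hf, Mn_rp] at h7
  have e1 : 1 * th = th := one_mul th
  have e2 : -1 * th = -th := by ring
  rw [e1, e2] at h7
  exact h7

end Pool.Agent.KIM
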