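import Pool.Agent.KIM.PAG
import Pool.Agent.KIM.PHT
import Pool.Agent.KIM.SDM

/-!
# KIM / PRD: positivity of all the series of the certificates (`q ≥ 2`, and `al = 1/2, be = 0`)

By `gS_three` / `gS_two` / `tS_three`, `Sy_add`, `Sy_mul`, `Sy_C` and `Kq_Sy_mono` (with
`rp (1 + W) 0 = 1`, `i = 0, 1, 2`) every series is a sum of terms
`C (≥ 0) * C (y ^ m) * X ^ m * Mn y (..)`, and every monomial is a product
(`Mn_mul`; compare exponents by `ring`/`linarith`) of the nonnegative ones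
 `AG γ = Mn y (-2γ-2) 0 (2γ+1) (-1)` (`NN_ag`), `F γ = Mn y (-2γ-3) 1 (2γ+2) (-2)` (`NN_fg`),
 `HT θ = Mn y (-3θ) θ θ (-θ)` (`NN_ht`), `B g b = Mn y (-b) g 0 0 = bin g b`
 (`NN_bin` for `|g| ≤ b`; also `B 1 0 = 1 + X`), `h1 = Mn y (-2) 1 1 (-1) = B 1 0 * AG 0`
 (`mono_h1`, its powers `NN.pow`, `Mn_pow`).
Let `q = 2 + j + θ`, `be = 1 + j + θ`, `al = -(j/2 + θ)`, so `2 al + 3 be = 3 + 2 j + θ`.
* `NN_gv`: coefficients `2 be + 4 al = 2 - 2 θ`, `m`, `-2 al = j + 2 θ` with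
  (i) `κ w^m (1+w)^(-2)`: `AG (m + j/2) * HT θ * h1^(j+2)`;
  (ii) `κ w^m (1-w)(1+w)^(-1)`: `AG (m + j/2 + 1) * B 1 0 * HT θ * h1^(j+1)`;
  (iii) `κ w^m (1-w)(1+w)^(-2)`: `F (m + j/2 + 1/2) * HT θ * h1^(j+1)`.
* `NN_hv`: `κ w^m`: `AG (m + j/2 + 1) * B 2 2 * HT θ * h1^j`.
* `NN_cv` (`i ≥ 1`; `tS_three` with `mu = π_i / V_i`, `nu = π_{i-1} / V_{i+1}`):
  (i) `(1/4) κ w^i (1-w)^2 (1+w)^(-1)`: `F (i + j/2 + 3/2) * B 1 0 * HT θ * h1^j`;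
  (ii) coefficient `(μ+ν)/2 - 1/4 ≥ 0` (`half_le_mu_add_nu`):
  `κ w^i (1+w) = hS_i + hS_{i+1}`, `NN_hv`;
  (iii) coefficient `(μ-ν)/2 ≥ 0` (`nu_le_mu`),
  `κ w^i (1-w)`: `AG (i + j/2 + 3/2) * B 1 0 * B 1 1 * HT θ * h1^j`.
* `NN_gu` (`al = j/2 + θ`, `be = 1`, `2 al + 3 be = 3 + j + 2 θ`): `gS_two` with coefficients
  `2 (al + be)`, `2 al`, `m`: `κ w^m (1+w)^(-2)`: `F (m + al) * h1 * B (j+θ) (1+2j+θ)`, the same
  with `m + 1` in place of `m`;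
  `κ w^m (1-w)(1+w)^(-1)`: `F (m + 1 + al) * B (1+j+θ) (1+2j+θ)`.
* `NN_gh` (`al = 1/2`, `be = 0`, `2 al + 3 be = 1`, `q ≥ 1`): `gS_two` with coefficients
  `1, 1, m`; `κ w^m (1+w)^(-2) + κ w^(m+1) (1+w)^(-2) = κ w^m (1+w)^(-1)`:
  `AG m * B 1 1 * B (q-1) (3q-3)`, and `κ w^m (1-w)(1+w)^(-1)`:
  `AG (m+1/2) * B 1 0 * B (q-1) (3q-3)`.
-/

set_option autoImplicit false

open PowerSeries Finset

namespace Pool.Agent.KIM

theorem Mn_pow (y a b c d : ℝ) (n : ℕ) :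
    (Mn y a b c d) ^ n = Mn y (n * a) (n * b) (n * c) (n * d) := by
  induction n with
  | zero => simp [Mn_zero]
  | succ n ih =>
    rw [pow_succ, ih, Mn_mul]
    push_cast
    congr 1 <;> ring

namespace PRD_

/-- `B g b`. -/
private theorem NN_B (y : ℝ) {g b : ℝ} (h : |g| ≤ b) : NN (Mn y (-b) g 0 0) := by
  rw [Mn_bin]
  exact NN_bin h

private theorem NN_B10 (y : ℝ) : NN (Mn y 0 1 0 0) := by
  have h := Mn_bin y 1 0
  rw [neg_zero, bin_one_zero] at h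
  rw [h]
  exact NN_one.add NN_X

private theorem NN_B11 (y : ℝ) : NN (Mn y (-1) 1 0 0) := NN_B y (by norm_num)

private theorem NN_B22 (y : ℝ) : NN (Mn y (-2) 2 0 0) := NN_B y (by norm_num)

private theorem NN_ht' {y : ℝ} (h0 : 0 ≤ y) (h1 : y ≤ 1) {th : ℝ} (hth : 0 ≤ th) :
    NN (Mn y (-3 * th) th th (-th)) := NN_ht h0 h1 hth

private theorem NN_term {y : ℝ} (h0 : 0 ≤ y) {q al be s : ℝ} {m i : ℕ}
    (h : NN (Mn y (-3 * q - 2 * m) q (2 * al + 3 * be + 2 * m + i) (-be + s))) :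
    NN (Kq q * Sy y (kap al be * W ^ m * ((1 - W) ^ i * rp (1 + W) s))) := by
  rw [Kq_Sy_mono]
  exact ((NN_C (pow_nonneg h0 m)).mul (NN_X.pow m)).mul h

private theorem rp0 : rp (1 + W) (0 : ℝ) = 1 := rp_zero constantCoeff_one_add_W

private theorem Kq_add (q y : ℝ) (F G : ℝ⟦X⟧) :
    Kq q * Sy y (F + G) = Kq q * Sy y F + Kq q * Sy y G := by
  rw [Sy_add, mul_add]

private theorem Kq_C (q y c : ℝ) (F : ℝ⟦X⟧) :
    Kq q * Sy y (C c * F) = C c * (Kq q * Sy y F) := by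
  rw [Sy_mul, Sy_C]
  ring

/-- shape `κ w^m (1+w)^s`. -/
private theorem NN_t0 {y : ℝ} (h0 : 0 ≤ y) {q al be s : ℝ} {m : ℕ}
    (h : NN (Mn y (-3 * q - 2 * m) q (2 * al + 3 * be + 2 * m) (-be + s))) :
    NN (Kq q * Sy y (kap al be * W ^ m * rp (1 + W) s)) := by
  have := NN_term (i := 0) (m := m) (q := q) (al := al) (be := be) (s := s) h0
    (by rw [Nat.cast_zero, add_zero]; exact h)
  rwa [pow_zero, one_mul] at this

/-- shape `κ w^m (1-w) (1+w)^s`. -/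
private theorem NN_t1 {y : ℝ} (h0 : 0 ≤ y) {q al be s : ℝ} {m : ℕ}
    (h : NN (Mn y (-3 * q - 2 * m) q (2 * al + 3 * be + 2 * m + 1) (-be + s))) :
    NN (Kq q * Sy y (kap al be * W ^ m * ((1 - W) * rp (1 + W) s))) := by
  have := NN_term (i := 1) (m := m) (q := q) (al := al) (be := be) (s := s) h0
    (by rw [Nat.cast_one]; exact h)
  rwa [pow_one] at this

/-- shape `κ w^m (1-w)^2 (1+w)^s`. -/
private theorem NN_t2 {y : ℝ} (h0 : 0 ≤ y) {q al be s : ℝ} {m : ℕ}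
    (h : NN (Mn y (-3 * q - 2 * m) q (2 * al + 3 * be + 2 * m + 2) (-be + s))) :
    NN (Kq q * Sy y (kap al be * W ^ m * ((1 - W) ^ 2 * rp (1 + W) s))) := by
  exact NN_term (i := 2) (m := m) (q := q) (al := al) (be := be) (s := s) h0
    (by rw [Nat.cast_ofNat]; exact h)

/-- shape `κ w^m`. -/
private theorem NN_h0 {y : ℝ} (h0 : 0 ≤ y) {q al be : ℝ} {m : ℕ}
    (h : NN (Mn y (-3 * q - 2 * m) q (2 * al + 3 * be + 2 * m) (-be))) :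
    NN (Kq q * Sy y (hS al be m)) := by
  have := NN_t0 (m := m) (q := q) (al := al) (be := be) (s := 0) h0
    (by rw [add_zero]; exact h)
  rwa [rp0, mul_one] at this

/-- shape `κ w^m (1-w)`. -/
private theorem NN_h1' {y : ℝ} (h0 : 0 ≤ y) {q al be : ℝ} {m : ℕ}
    (h : NN (Mn y (-3 * q - 2 * m) q (2 * al + 3 * be + 2 * m + 1) (-be))) :
    NN (Kq q * Sy y (kap al be * W ^ m * (1 - W))) := by
  have := NN_t1 (m := m) (q := q) (al := al) (be := be) (s := 0) h0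
    (by rw [add_zero]; exact h)
  rwa [rp0, mul_one] at this

end PRD_

open PRD_

theorem NN_h1 {y : ℝ} (h0 : 0 ≤ y) (h1 : y ≤ 1) : NN (Mn y (-2) 1 1 (-1)) := by
  have h : Mn y (-2) 1 1 (-1) = Mn y 0 1 0 0 * Mn y (-2 * 0 - 2) 0 (2 * 0 + 1) (-1) := by
    rw [Mn_mul]
    congr 1 <;> ring
  rw [h]
  exact (NN_B10 y).mul (NN_ag h0 h1 le_rfl)

theorem NN_hv (j : ℕ) {th y : ℝ} (ht0 : 0 ≤ th) (ht1 : th ≤ 1) (h0 : 0 ≤ y) (h1 : y ≤ 1)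
    (m : ℕ) : NN (Kq (2 + j + th) * Sy y (hS (-(j / 2 + th)) (1 + j + th) m)) := by
  have _ := ht1
  apply NN_h0 h0
  have hga : (0 : ℝ) ≤ m + j / 2 + 1 := by positivity
  have h : Mn y (-3 * (2 + j + th) - 2 * m) (2 + j + th)
      (2 * (-(j / 2 + th)) + 3 * (1 + j + th) + 2 * m) (-(1 + j + th)) =
      Mn y (-2 * (m + j / 2 + 1) - 2) 0 (2 * (m + j / 2 + 1) + 1) (-1) * Mn y (-2) 2 0 0 *
        Mn y (-3 * th) th th (-th) * (Mn y (-2) 1 1 (-1)) ^ j := by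
    rw [Mn_pow, Mn_mul, Mn_mul, Mn_mul]
    congr 1 <;> ring
  rw [h]
  exact (((NN_ag h0 h1 hga).mul (NN_B22 y)).mul (NN_ht' h0 h1 ht0)).mul ((NN_h1 h0 h1).pow j)

theorem NN_gv (j : ℕ) {th y : ℝ} (ht0 : 0 ≤ th) (ht1 : th ≤ 1) (h0 : 0 ≤ y) (h1 : y ≤ 1)
    (m : ℕ) : NN (Kq (2 + j + th) * Sy y (gS (-(j / 2 + th)) (1 + j + th) m)) := by
  rw [gS_three, Kq_add, Kq_add, Kq_C, Kq_C, Kq_C]
  refine ((NN.C_mul ?_ (NN_t0 h0 ?_)).add (NN.C_mul ?_ (NN_t1 h0 ?_))).add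
    (NN.C_mul ?_ (NN_t1 h0 ?_))
  · linarith
  · have hga : (0 : ℝ) ≤ m + j / 2 := by positivity
    have h : Mn y (-3 * (2 + j + th) - 2 * m) (2 + j + th)
        (2 * (-(j / 2 + th)) + 3 * (1 + j + th) + 2 * m) (-(1 + j + th) + -2) =
        Mn y (-2 * (m + j / 2) - 2) 0 (2 * (m + j / 2) + 1) (-1) *
          Mn y (-3 * th) th th (-th) * (Mn y (-2) 1 1 (-1)) ^ (j + 2) := by
      rw [Mn_pow, Mn_mul, Mn_mul]
      push_cast
      congr 1 <;> ring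
    rw [h]
    exact ((NN_ag h0 h1 hga).mul (NN_ht' h0 h1 ht0)).mul ((NN_h1 h0 h1).pow (j + 2))
  · positivity
  · have hga : (0 : ℝ) ≤ m + j / 2 + 1 := by positivity
    have h : Mn y (-3 * (2 + j + th) - 2 * m) (2 + j + th)
        (2 * (-(j / 2 + th)) + 3 * (1 + j + th) + 2 * m + 1) (-(1 + j + th) + -1) =
        Mn y (-2 * (m + j / 2 + 1) - 2) 0 (2 * (m + j / 2 + 1) + 1) (-1) * Mn y 0 1 0 0 *
          Mn y (-3 * th) th th (-th) * (Mn y (-2) 1 1 (-1)) ^ (j + 1) := by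
      rw [Mn_pow, Mn_mul, Mn_mul, Mn_mul]
      push_cast
      congr 1 <;> ring
    rw [h]
    exact (((NN_ag h0 h1 hga).mul (NN_B10 y)).mul (NN_ht' h0 h1 ht0)).mul
      ((NN_h1 h0 h1).pow (j + 1))
  · have : (0 : ℝ) ≤ j := by positivity
    linarith
  · have hga : (0 : ℝ) ≤ m + j / 2 + 1 / 2 := by positivity
    have h : Mn y (-3 * (2 + j + th) - 2 * m) (2 + j + th)
        (2 * (-(j / 2 + th)) + 3 * (1 + j + th) + 2 * m + 1) (-(1 + j + th) + -2) =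
        Mn y (-2 * (m + j / 2 + 1 / 2) - 3) 1 (2 * (m + j / 2 + 1 / 2) + 2) (-2) *
          Mn y (-3 * th) th th (-th) * (Mn y (-2) 1 1 (-1)) ^ (j + 1) := by
      rw [Mn_pow, Mn_mul, Mn_mul]
      push_cast
      congr 1 <;> ring
    rw [h]
    exact ((NN_fg h0 h1 hga).mul (NN_ht' h0 h1 ht0)).mul ((NN_h1 h0 h1).pow (j + 1))

theorem NN_cv (j : ℕ) {th y : ℝ} (ht0 : 0 ≤ th) (ht1 : th ≤ 1) (h0 : 0 ≤ y) (h1 : y ≤ 1)
    (i : ℕ) (hi : 1 ≤ i) : NN (Kq (2 + j + th) * Sy y (tS (-(j / 2 + th)) (1 + j + th) i)) := by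
  have hj : (0 : ℝ) ≤ j := by positivity
  have hb1 : (1 : ℝ) ≤ 1 + j + th := by linarith
  have hb2 : (1 : ℝ) + j + th ≤ 2 * (-(j / 2 + th)) + 3 * (1 + j + th) - 1 := by linarith
  have hhalf := half_le_mu_add_nu hb1 hb2 i hi
  have hle := nu_le_mu hb1 hb2 i hi
  have hi0 : i ≠ 0 := by omega
  rw [tS, if_neg hi0]
  generalize pc (-(j / 2 + th)) (1 + j + th) i / Vc (-(j / 2 + th)) (1 + j + th) i = mu at *
  generalize pc (-(j / 2 + th)) (1 + j + th) (i - 1) /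
    Vc (-(j / 2 + th)) (1 + j + th) (i + 1) = nu at *
  have hf : kap (-(j / 2 + th)) (1 + j + th) * W ^ i * (1 + W) =
      hS (-(j / 2 + th)) (1 + j + th) i + hS (-(j / 2 + th)) (1 + j + th) (i + 1) := by
    rw [hS, hS, pow_succ]
    ring
  rw [tS_three, Kq_add, Kq_add, Kq_C, Kq_C, Kq_C, hf, Kq_add]
  refine ((NN.C_mul (by norm_num) (NN_t2 h0 ?_)).add (NN.C_mul (by linarith)
    ((NN_hv j ht0 ht1 h0 h1 i).add (NN_hv j ht0 ht1 h0 h1 (i + 1))))).add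
    (NN.C_mul (by linarith) (NN_h1' h0 ?_))
  · have hga : (0 : ℝ) ≤ i + j / 2 + 3 / 2 := by positivity
    have h : Mn y (-3 * (2 + j + th) - 2 * i) (2 + j + th)
        (2 * (-(j / 2 + th)) + 3 * (1 + j + th) + 2 * i + 2) (-(1 + j + th) + -1) =
        Mn y (-2 * (i + j / 2 + 3 / 2) - 3) 1 (2 * (i + j / 2 + 3 / 2) + 2) (-2) *
          Mn y 0 1 0 0 * Mn y (-3 * th) th th (-th) * (Mn y (-2) 1 1 (-1)) ^ j := by
      rw [Mn_pow, Mn_mul, Mn_mul, Mn_mul]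
      congr 1 <;> ring
    rw [h]
    exact (((NN_fg h0 h1 hga).mul (NN_B10 y)).mul (NN_ht' h0 h1 ht0)).mul
      ((NN_h1 h0 h1).pow j)
  · have hga : (0 : ℝ) ≤ i + j / 2 + 3 / 2 := by positivity
    have h : Mn y (-3 * (2 + j + th) - 2 * i) (2 + j + th)
        (2 * (-(j / 2 + th)) + 3 * (1 + j + th) + 2 * i + 1) (-(1 + j + th)) =
        Mn y (-2 * (i + j / 2 + 3 / 2) - 2) 0 (2 * (i + j / 2 + 3 / 2) + 1) (-1) *
          Mn y 0 1 0 0 * Mn y (-1) 1 0 0 *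
          Mn y (-3 * th) th th (-th) * (Mn y (-2) 1 1 (-1)) ^ j := by
      rw [Mn_pow, Mn_mul, Mn_mul, Mn_mul, Mn_mul]
      congr 1 <;> ring
    rw [h]
    exact ((((NN_ag h0 h1 hga).mul (NN_B10 y)).mul (NN_B11 y)).mul (NN_ht' h0 h1 ht0)).mul
      ((NN_h1 h0 h1).pow j)

namespace PRD_

private theorem NN_gu_aux (j : ℕ) {th y : ℝ} (ht0 : 0 ≤ th) (h0 : 0 ≤ y) (h1 : y ≤ 1) (m : ℕ) :
    NN (Kq (2 + j + th) * Sy y (kap (j / 2 + th) 1 * W ^ m * rp (1 + W) (-2))) := by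
  apply NN_t0 h0
  have hga : (0 : ℝ) ≤ m + (j / 2 + th) := by positivity
  have hj : (0 : ℝ) ≤ j := by positivity
  have hB : |(j : ℝ) + th| ≤ 1 + 2 * j + th := by
    rw [abs_of_nonneg (by positivity)]
    linarith
  have h : Mn y (-3 * (2 + j + th) - 2 * m) (2 + j + th)
      (2 * (j / 2 + th) + 3 * 1 + 2 * m) (-1 + -2) =
      Mn y (-2 * (m + (j / 2 + th)) - 3) 1 (2 * (m + (j / 2 + th)) + 2) (-2) *
        Mn y (-2) 1 1 (-1) * Mn y (-(1 + 2 * j + th)) (j + th) 0 0 := by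
    rw [Mn_mul, Mn_mul]
    congr 1 <;> ring
  rw [h]
  exact ((NN_fg h0 h1 hga).mul (NN_h1 h0 h1)).mul (NN_B y hB)

end PRD_

theorem NN_gu (j : ℕ) {th y : ℝ} (ht0 : 0 ≤ th) (ht1 : th ≤ 1) (h0 : 0 ≤ y) (h1 : y ≤ 1)
    (m : ℕ) : NN (Kq (2 + j + th) * Sy y (gS (j / 2 + th) 1 m)) := by
  have _ := ht1
  have hj : (0 : ℝ) ≤ j := by positivity
  rw [gS_two, Kq_add, Kq_add, Kq_C, Kq_C, Kq_C]
  refine ((NN.C_mul (by positivity) (NN_gu_aux j ht0 h0 h1 m)).add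
    (NN.C_mul (by positivity) (NN_gu_aux j ht0 h0 h1 (m + 1)))).add
    (NN.C_mul (by positivity) (NN_t1 h0 ?_))
  have hga : (0 : ℝ) ≤ m + 1 + (j / 2 + th) := by positivity
  have hB : |1 + (j : ℝ) + th| ≤ 1 + 2 * j + th := by
    rw [abs_of_nonneg (by positivity)]
    linarith
  have h : Mn y (-3 * (2 + j + th) - 2 * m) (2 + j + th)
      (2 * (j / 2 + th) + 3 * 1 + 2 * m + 1) (-1 + -1) =
      Mn y (-2 * (m + 1 + (j / 2 + th)) - 3) 1 (2 * (m + 1 + (j / 2 + th)) + 2) (-2) *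
        Mn y (-(1 + 2 * j + th)) (1 + j + th) 0 0 := by
    rw [Mn_mul]
    congr 1 <;> ring
  rw [h]
  exact (NN_fg h0 h1 hga).mul (NN_B y hB)

theorem NN_gh {q : ℝ} (hq : 1 ≤ q) {y : ℝ} (h0 : 0 ≤ y) (h1 : y ≤ 1) (m : ℕ) :
    NN (Kq q * Sy y (gS (1 / 2) 0 m)) := by
  have hB : |q - 1| ≤ 3 * q - 3 := by
    rw [abs_of_nonneg (by linarith)]
    linarith
  have hI : rp (1 + W) (-1 : ℝ) * (1 + W) = 1 := rp_neg_one_mul constantCoeff_one_add_W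
  have hI2 : rp (1 + W) (-2 : ℝ) = rp (1 + W) (-1) * rp (1 + W) (-1) := by
    rw [← rp_add constantCoeff_one_add_W]
    norm_num
  have c1 : (C (2 * ((1 : ℝ) / 2 + 0)) : ℝ⟦X⟧) = 1 := by norm_num
  have c2 : (C (2 * ((1 : ℝ) / 2)) : ℝ⟦X⟧) = 1 := by norm_num
  have hg : gS (1 / 2) 0 m = kap (1 / 2) 0 * W ^ m * rp (1 + W) (-1) +
      C (m : ℝ) * (kap (1 / 2) 0 * W ^ m * ((1 - W) * rp (1 + W) (-1))) := by
    rw [gS_two, c1, c2, hI2, pow_succ]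
    linear_combination (kap (1 / 2) 0 * W ^ m * rp (1 + W) (-1)) * hI
  rw [hg, Kq_add, Kq_C]
  refine (NN_t0 h0 ?_).add (NN.C_mul (by positivity) (NN_t1 h0 ?_))
  · have hga : (0 : ℝ) ≤ m := by positivity
    have h : Mn y (-3 * q - 2 * m) q (2 * (1 / 2) + 3 * 0 + 2 * m) (-0 + -1) =
        Mn y (-2 * m - 2) 0 (2 * m + 1) (-1) * Mn y (-1) 1 0 0 *
          Mn y (-(3 * q - 3)) (q - 1) 0 0 := by
      rw [Mn_mul, Mn_mul]
      congr 1 <;> ring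
    rw [h]
    exact ((NN_ag h0 h1 hga).mul (NN_B11 y)).mul (NN_B y hB)
  · have hga : (0 : ℝ) ≤ m + 1 / 2 := by positivity
    have h : Mn y (-3 * q - 2 * m) q (2 * (1 / 2) + 3 * 0 + 2 * m + 1) (-0 + -1) =
        Mn y (-2 * (m + 1 / 2) - 2) 0 (2 * (m + 1 / 2) + 1) (-1) * Mn y 0 1 0 0 *
          Mn y (-(3 * q - 3)) (q - 1) 0 0 := by
      rw [Mn_mul, Mn_mul]
      congr 1 <;> ring
    rw [h]
    exact ((NN_ag h0 h1 hga).mul (NN_B10 y)).mul (NN_B y hB)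

end Pool.Agent.KIM
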