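import Pool.Agent.KIM.APP
import Pool.Agent.KIM.PRD

/-!
# KIM / DOM: coefficient domination `(f')^q ≪ (k')^q` for `q ≥ 2`; the factor `(f/z)^(1/2)`

* `serD_add_eul`: `serD f + eul (serD f) = serP f` (`(n + 1) a_{n+1}`).
* `mul_ph`: `rp (serP f) q = ph al 1 (serD f) * ph (-al) (q - 1) (serD f)` (`rp_add`,
  `rp S al * rp S (-al) = 1`).
* `dom`: `q = 2 + j + θ` (`j = ⌊q⌋ - 2`, `θ = fract q`), `al = j/2 + θ`, `u = ph al 1 S`,
  `v = ph (-al) (q-1) S`; Koebe series `U = bin 1 (2 al + 3)`, `V = bin (q-1) (3 (q-1) - 2 al)`,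
  `U V = Kq q`.  Cauchy-Schwarz: `|∑ u_m v_{N-m}|^2 ≤
  (∑ V_{N-m} |u_m|^2 / U_m) (∑ U_{N-m} |v_m|^2 / V_m) ≤ (coeff N (Kq q))^2` by `cert_bound`
  (for `u`: `al, be = 1`; for `v`: `-al, q - 1`, `NN_gv`, `NN_cv`).
* `half_bound`: `cert_half` with `NN_gh`.
-/

set_option autoImplicit false

open PowerSeries Finset
open Pool.Agent.Helper42.KoebeMeans (ClassS)

namespace Pool.Agent.KIM

private theorem dom_cc_serD {f : ℂ → ℂ} (hf : ClassS f) : constantCoeff (serD f) = 1 := by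
  rw [← coeff_zero_eq_constantCoeff_apply]
  simp [serD, LOE.coef, hf.2.2.2]

private theorem dom_cc_serP {f : ℂ → ℂ} (hf : ClassS f) : constantCoeff (serP f) = 1 := by
  rw [← coeff_zero_eq_constantCoeff_apply]
  simp [serP, LOE.coef, hf.2.2.2]

theorem serD_add_eul (f : ℂ → ℂ) : serD f + eul (serD f) = serP f := by
  ext n
  rw [map_add, coeff_eul]
  simp only [serD, serP, coeff_mk]
  ring

theorem mul_ph {f : ℂ → ℂ} (hf : ClassS f) (al be al' be' q : ℝ) (h1 : al + al' = 0)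
    (h2 : be + be' = q) : rp (serP f) (q : ℂ) = ph al be (serD f) * ph al' be' (serD f) := by
  have hD := dom_cc_serD hf
  have hP := dom_cc_serP hf
  have e1 : (q : ℂ) = (be : ℂ) + (be' : ℂ) := by
    rw [← h2]; push_cast; ring
  have e2 : rp (serD f) ((al : ℂ) + (al' : ℂ)) = 1 := by
    have : (al : ℂ) + (al' : ℂ) = 0 := by
      exact_mod_cast congrArg (fun x : ℝ => (x : ℂ)) h1
    rw [this, rp_zero hD]
  rw [rp_add hD] at e2
  rw [e1, rp_add hP]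
  unfold ph
  rw [serD_add_eul]
  calc rp (serP f) (be : ℂ) * rp (serP f) (be' : ℂ)
      = (rp (serD f) (al : ℂ) * rp (serD f) (al' : ℂ)) *
        (rp (serP f) (be : ℂ) * rp (serP f) (be' : ℂ)) := by rw [e2, one_mul]
    _ = _ := by ring

private theorem dom_amgm {a b x y : ℝ} (hx : 0 < x) (hy : 0 < y) :
    a * b ≤ (y / x * a ^ 2 + x / y * b ^ 2) / 2 := by
  have h : 0 ≤ (y * a - x * b) ^ 2 / (x * y) := by positivity
  have e : (y * a - x * b) ^ 2 / (x * y) = y / x * a ^ 2 + x / y * b ^ 2 - 2 * (a * b) := by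
    field_simp
    ring
  rw [e] at h
  linarith

private theorem dom_aux (j : ℕ) {th : ℝ} (ht0 : 0 ≤ th) (ht1 : th ≤ 1) {f : ℂ → ℂ}
    (hf : ClassS f) (N : ℕ) :
    ‖coeff N (rp (serP f) ((2 + j + th : ℝ) : ℂ))‖ ≤ coeff N (Kq (2 + j + th)) := by
  have hj : (0 : ℝ) ≤ j := Nat.cast_nonneg j
  have hu := cert_bound (2 + j + th) (j / 2 + th) 1 N le_rfl (by linarith)
    (fun y h0 h1 m _ _ => NN_gu j ht0 ht1 h0 h1 m N) (Or.inl rfl) hf
  have hv := cert_bound (2 + j + th) (-(j / 2 + th)) (1 + j + th) N (by linarith)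
    (by linarith) (fun y h0 h1 m _ _ => NN_gv j ht0 ht1 h0 h1 m N)
    (Or.inr fun y h0 h1 i hi _ => NN_cv j ht0 ht1 h0 h1 i hi N) hf
  have e1 : bin (2 + j + th - 1) (3 * (2 + j + th) - (2 * (j / 2 + th) + 3 * 1)) =
      bin (1 + j + th) (2 * (-(j / 2 + th)) + 3 * (1 + j + th)) := by
    congr 1 <;> ring
  have e2 : bin (2 + j + th - (1 + j + th))
      (3 * (2 + j + th) - (2 * (-(j / 2 + th)) + 3 * (1 + j + th))) =
      bin 1 (2 * (j / 2 + th) + 3 * 1) := by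
    congr 1 <;> ring
  rw [e1] at hu
  rw [e2] at hv
  have hU : ∀ m, 0 < Vc (j / 2 + th) 1 m := by
    intro m
    apply pos_bin
    rw [abs_of_nonneg (by norm_num)]
    linarith
  have hV : ∀ m, 0 < Vc (-(j / 2 + th)) (1 + j + th) m := by
    intro m
    apply pos_bin
    rw [abs_of_nonneg (by linarith)]
    linarith
  have hm := mul_ph hf (j / 2 + th) 1 (-(j / 2 + th)) (1 + j + th) (2 + j + th) (by ring)
    (by ring)
  rw [hm, coeff_mul]
  have step : ∀ p ∈ antidiagonal N,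
      ‖coeff p.1 (ph (j / 2 + th) 1 (serD f)) *
        coeff p.2 (ph (-(j / 2 + th)) (1 + j + th) (serD f))‖ ≤
      (Vc (-(j / 2 + th)) (1 + j + th) p.2 / Vc (j / 2 + th) 1 p.1 *
          ‖cc (j / 2 + th) 1 f p.1‖ ^ 2 +
        Vc (j / 2 + th) 1 p.1 / Vc (-(j / 2 + th)) (1 + j + th) p.2 *
          ‖cc (-(j / 2 + th)) (1 + j + th) f p.2‖ ^ 2) / 2 := by
    intro p _
    rw [norm_mul]
    exact dom_amgm (hU p.1) (hV p.2)
  refine (norm_sum_le _ _).trans ((Finset.sum_le_sum step).trans ?_)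
  rw [← Finset.sum_div, Finset.sum_add_distrib]
  have s1 : ∑ p ∈ antidiagonal N, Vc (-(j / 2 + th)) (1 + j + th) p.2 /
      Vc (j / 2 + th) 1 p.1 * ‖cc (j / 2 + th) 1 f p.1‖ ^ 2 =
      ∑ m ∈ range (N + 1), coeff (N - m)
        (bin (1 + j + th) (2 * (-(j / 2 + th)) + 3 * (1 + j + th))) /
        Vc (j / 2 + th) 1 m * ‖cc (j / 2 + th) 1 f m‖ ^ 2 := by
    rw [Finset.Nat.sum_antidiagonal_eq_sum_range_succ (fun a b =>
      Vc (-(j / 2 + th)) (1 + j + th) b / Vc (j / 2 + th) 1 a *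
        ‖cc (j / 2 + th) 1 f a‖ ^ 2)]
    rfl
  have s2 : ∑ p ∈ antidiagonal N, Vc (j / 2 + th) 1 p.1 /
      Vc (-(j / 2 + th)) (1 + j + th) p.2 * ‖cc (-(j / 2 + th)) (1 + j + th) f p.2‖ ^ 2 =
      ∑ m ∈ range (N + 1), coeff (N - m) (bin 1 (2 * (j / 2 + th) + 3 * 1)) /
        Vc (-(j / 2 + th)) (1 + j + th) m *
        ‖cc (-(j / 2 + th)) (1 + j + th) f m‖ ^ 2 := by
    rw [← Finset.Nat.sum_antidiagonal_swap]
    simp only [Prod.fst_swap, Prod.snd_swap]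
    rw [Finset.Nat.sum_antidiagonal_eq_sum_range_succ
      (fun a b => Vc (j / 2 + th) 1 b / Vc (-(j / 2 + th)) (1 + j + th) a *
        ‖cc (-(j / 2 + th)) (1 + j + th) f a‖ ^ 2)]
    rfl
  rw [s1, s2]
  linarith

/-- Coefficient domination: `|[z^N] (f')^q| ≤ [z^N] (k')^q` for all real `q ≥ 2`. -/
theorem dom {q : ℝ} (hq : 2 ≤ q) {f : ℂ → ℂ} (hf : ClassS f) (N : ℕ) :
    ‖coeff N (rp (serP f) (q : ℂ))‖ ≤ coeff N (Kq q) := by
  have h0 : (0 : ℝ) ≤ q := by linarith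
  have h2 : 2 ≤ ⌊q⌋₊ := Nat.le_floor (by exact_mod_cast hq)
  obtain ⟨j, hj⟩ := Nat.exists_eq_add_of_le h2
  have hfl : (⌊q⌋₊ : ℝ) = 2 + j := by rw [hj]; push_cast; ring
  have hle := Nat.floor_le h0
  have hlt := Nat.lt_floor_add_one q
  have h := dom_aux j (th := q - (2 + j)) (by linarith) (by linarith) hf N
  have e : (2 + j + (q - (2 + j)) : ℝ) = q := by ring
  rw [e] at h
  exact h

theorem half_bound {q : ℝ} (hq : 1 ≤ q) (N : ℕ) {f : ℂ → ℂ} (hf : ClassS f) :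
    ∑ m ∈ range (N + 1), coeff (N - m) (bin q (3 * q - 1)) * ‖cc (1 / 2) 0 f m‖ ^ 2 ≤
      coeff N (Kq q) :=
  cert_half q N (fun _ h0 h1 m _ _ => NN_gh hq h0 h1 m N) hf

end Pool.Agent.KIM
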