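import Mathlib
import Pool.Agent.LOE.Defs

/-!
# KIM: integral means of derivatives of univalent functions.  Definitions
-/

set_option autoImplicit false

open PowerSeries Finset

namespace Pool.Agent.KIM

/-! ## Powers of power series with constant coefficient one -/

/-- Coefficients of `f ^ a` for a power series `f` with constant coefficient `1`. -/
noncomputable def rpc {k : Type*} [Field k] (f : k⟦X⟧) (a : k) : ℕ → k
  | 0 => 1
  | n + 1 => (∑ i : Fin (n + 1),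
      (a * ((n + 1 - (i : ℕ) : ℕ) : k) - ((i : ℕ) : k)) * coeff (n + 1 - (i : ℕ)) f *
        rpc f a (i : ℕ)) / ((n : k) + 1)
decreasing_by exact i.2

/-- The power `f ^ a` of a power series with constant coefficient `1`: the unique power series
`g` with constant coefficient `1` and `f g' = a f' g`. -/
noncomputable def rp {k : Type*} [Field k] (f : k⟦X⟧) (a : k) : k⟦X⟧ := PowerSeries.mk (rpc f a)

/-- The Euler derivation `X d/dX`. -/
noncomputable def eul {k : Type*} [CommRing k] (f : k⟦X⟧) : k⟦X⟧ := X * d⁄dX k f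

/-! ## The functionals of a univalent function -/

/-- The Taylor series of `g z / z` at `0` (for `g 0 = 0`). -/
noncomputable def serD (g : ℂ → ℂ) : ℂ⟦X⟧ := PowerSeries.mk fun n => LOE.coef (n + 1) g

/-- The Taylor series of `g'` at `0`. -/
noncomputable def serP (g : ℂ → ℂ) : ℂ⟦X⟧ :=
  PowerSeries.mk fun n => ((n : ℂ) + 1) * LOE.coef (n + 1) g

/-- The series `S ^ al * (S + X S') ^ be`; for `S = g / z` it is `(g / z) ^ al * (g') ^ be`. -/
noncomputable def ph (al be : ℝ) (S : ℂ⟦X⟧) : ℂ⟦X⟧ := rp S (al : ℂ) * rp (S + eul S) (be : ℂ)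

/-- Coefficients of `(g / z) ^ al * (g') ^ be`. -/
noncomputable def cc (al be : ℝ) (g : ℂ → ℂ) (m : ℕ) : ℂ := coeff m (ph al be (serD g))

/-- The quadratic form: derivative of `∑ s_m |b_m|^2` along the Loewner flow. -/
noncomputable def Qf (N : ℕ) (al be : ℝ) (s s' : ℕ → ℝ) (b : ℕ → ℂ) : ℝ :=
  ∑ m ∈ range (N + 1), (s' m * ‖b m‖ ^ 2 + 2 * s m *
    ((starRingEnd ℂ) (b m) * ((m : ℂ) * b m +
      2 * ∑ n ∈ range m, ((n : ℂ) + al + be * ((m : ℂ) - n + 1)) * b n)).re)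

/-! ## Koebe series -/

/-- `(1 + z) ^ g * (1 - z) ^ (-b)`. -/
noncomputable def bin (g b : ℝ) : ℝ⟦X⟧ := rp (1 + X : ℝ⟦X⟧) g * rp (1 - X : ℝ⟦X⟧) (-b)

/-- `K ^ q`, where `K = k' = (1 + z) / (1 - z) ^ 3`. -/
noncomputable def Kq (q : ℝ) : ℝ⟦X⟧ := bin q (3 * q)

/-- `V_m`: coefficients of `(k / z) ^ al * (k') ^ be`. -/
noncomputable def Vc (al be : ℝ) (m : ℕ) : ℝ := coeff m (bin be (2 * al + 3 * be))

/-- `π_m = [z ^ m] (1 + z) ^ (be - 2) (1 - z) ^ (-(2 al + 3 be))`. -/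
noncomputable def pc (al be : ℝ) (m : ℕ) : ℝ := coeff m (bin (be - 2) (2 * al + 3 * be))

/-- `P_m = [z ^ (m - 1)] (1 + z) ^ (be - 1) (1 - z) ^ (-(2 al + 3 be))`, `P_0 = 0`. -/
noncomputable def Pc (al be : ℝ) : ℕ → ℝ
  | 0 => 0
  | m + 1 => coeff m (bin (be - 1) (2 * al + 3 * be))

/-! ## The Koebe flow in power series -/

/-- `k(z) = z / (1 - z) ^ 2 = ∑ n z ^ n`. -/
noncomputable def k0 : ℝ⟦X⟧ := PowerSeries.mk fun n => (n : ℝ)

/-- The inverse of `k`: `W = u (1 - W) ^ 2`, `W = 1 - C(-u)` with the Catalan series `C`. -/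
noncomputable def W : ℝ⟦X⟧ :=
  1 - rescale (-1 : ℝ) (PowerSeries.map (Nat.castRingHom ℝ) catalanSeries)

/-- Substitution `u = y k(z)`. -/
noncomputable def Sy (y : ℝ) (F : ℝ⟦X⟧) : ℝ⟦X⟧ := PowerSeries.subst (C y * k0 : ℝ⟦X⟧) F

/-- `w_y(z)`: the Koebe flow, `k(w_y(z)) = y k(z)`. -/
noncomputable def wy (y : ℝ) : ℝ⟦X⟧ := Sy y W

/-- `κ = (1 - w) ^ (2 al + 3 be) (1 + w) ^ (-be)`, in the variable `u`. -/
noncomputable def kap (al be : ℝ) : ℝ⟦X⟧ := rp (1 - W) (2 * al + 3 * be) * rp (1 + W) (-be)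

/-- `κ w ^ m`. -/
noncomputable def hS (al be : ℝ) (m : ℕ) : ℝ⟦X⟧ := kap al be * W ^ m

/-- `κ w ^ m / (1 + w)`. -/
noncomputable def rS (al be : ℝ) (m : ℕ) : ℝ⟦X⟧ := kap al be * W ^ m * rp (1 + W) (-1)

/-- `γ_m = 2 (al + be) κ w ^ m + u d/du (κ w ^ m)`. -/
noncomputable def gS (al be : ℝ) (m : ℕ) : ℝ⟦X⟧ :=
  C (2 * (al + be)) * hS al be m + eul (hS al be m)

/-- `L_{N,y}(F) = [z ^ N] K ^ q F(u = y k(z))`. -/
noncomputable def Lf (q : ℝ) (N : ℕ) (y : ℝ) (F : ℝ⟦X⟧) : ℝ := coeff N (Kq q * Sy y F)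

/-- `τ_j`: the expression of condition (C). -/
noncomputable def tS (al be : ℝ) (j : ℕ) : ℝ⟦X⟧ :=
  C (pc al be j / Vc al be j) * hS al be j +
    C ((if j = 0 then 0 else pc al be (j - 1)) / Vc al be (j + 1)) * hS al be (j + 1) -
    rS al be (j + 1)

/-- Nonnegative coefficients. -/
def NN (f : ℝ⟦X⟧) : Prop := ∀ n, 0 ≤ coeff n f

end Pool.Agent.KIM
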