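import Pool.Agent.KIM.DOM
import Pool.Agent.KIM.ANA

/-!
# KIM / FIN: `C_λ = 1` for `λ ≥ 4`

`bestConstant_eq_one` with `q = λ / 2 ≥ 2` and `dom` (both sums converge: `hasSum_mean`,
`hasSum_mean_koebe`; `Summable.tsum_le_tsum`; `coeff N (Kq q) ≥ 0` by `NN_bin`).
-/

set_option autoImplicit false

open PowerSeries Finset
open Pool.Agent.Helper42.KoebeMeans

namespace Pool.Agent.KIM

theorem bestConstant_of_four_le {lam : ℝ} (h : 4 ≤ lam) : bestConstant lam = 1 := by
  have hq : (2 : ℝ) ≤ lam / 2 := by linarith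
  have hq0 : (0 : ℝ) < lam / 2 := by linarith
  have key := bestConstant_eq_one (q := lam / 2) hq0 (fun f hf r h0 h1 => by
    refine Summable.tsum_le_tsum (fun n => ?_) (hasSum_mean hf hq0 h0 h1).summable
      (hasSum_mean_koebe hq0 h0 h1).summable
    have hd := dom hq hf n
    have hr : (0 : ℝ) ≤ r ^ (2 * n) := by positivity
    exact mul_le_mul_of_nonneg_right (pow_le_pow_left₀ (norm_nonneg _) hd 2) hr)
  have e : 2 * (lam / 2) = lam := by ring
  rwa [e] at key

end Pool.Agent.KIM
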