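import Pool.Agent.KIM.PBN

/-!
# KIM / KBN: identities between `V_m`, `P_m`, `π_m`

Put `a' = 2 al + 3 be`, `Π = bin (be - 2) a'`, `P = (1 + X) Π = bin (be - 1) a'`,
`V = (1 + X)^2 Π = bin be a'` (`one_add_mul_bin`).
* `Vc_eq`, `Pc_eq`, `Vc_eq_pc`: coefficients of `V = (1 + X) P`, `P = (1 + X) Π`,
  `V = (1 + X)^2 Π`.
* `K3`: coefficient `m` of `eul V = 2 X (eul + (al + 2 be)) P - 2 (be - 1) X^2 Π`.
* `K1`: coefficient `n` of `(eul + 2 (al + be)) V = 2 (eul + (1 + al)) P + 2 (be - 1) Π`.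
  Both: multiply by `(1 - X)` (cancel at the end), `eul_bin` for `Π`:
  `(1 - X^2) eul Π = (C (be - 2) X (1 - X) + C a' X (1 + X)) Π`, product rule; `ring`.
-/

set_option autoImplicit false

open PowerSeries Finset

namespace Pool.Agent.KIM

theorem KBN_P (be a : ℝ) : bin (be - 1) a = (1 + X) * bin (be - 2) a := by
  rw [one_add_mul_bin]
  congr 1
  ring

theorem KBN_V (be a : ℝ) : bin be a = (1 + X) * bin (be - 1) a := by
  rw [one_add_mul_bin, sub_add_cancel]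

theorem KBN_succ (f : ℝ⟦X⟧) (n : ℕ) : coeff (n + 1) ((1 + X) * f) =
    coeff (n + 1) f + coeff n f := by
  rw [add_mul, one_mul, map_add, coeff_succ_X_mul]

theorem Vc_zero (al be : ℝ) : Vc al be 0 = 1 := coeff_zero_bin _ _

theorem Pc_one (al be : ℝ) : Pc al be 1 = 1 := coeff_zero_bin _ _

theorem pc_zero (al be : ℝ) : pc al be 0 = 1 := coeff_zero_bin _ _

theorem Vc_eq (al be : ℝ) (m : ℕ) : Vc al be m = Pc al be m + Pc al be (m + 1) := by
  cases m with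
  | zero =>
    rw [Vc_zero]
    show (1 : ℝ) = 0 + coeff 0 (bin (be - 1) (2 * al + 3 * be))
    rw [coeff_zero_bin, zero_add]
  | succ m =>
    unfold Vc
    show _ = coeff m (bin (be - 1) (2 * al + 3 * be)) +
      coeff (m + 1) (bin (be - 1) (2 * al + 3 * be))
    rw [KBN_V be, KBN_succ, add_comm]

theorem Pc_eq (al be : ℝ) (m : ℕ) : Pc al be (m + 2) = pc al be m + pc al be (m + 1) := by
  unfold pc
  show coeff (m + 1) (bin (be - 1) (2 * al + 3 * be)) = _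
  rw [KBN_P be, KBN_succ, add_comm]

theorem Pc_succ_one (al be : ℝ) : Pc al be (0 + 1) = pc al be 0 := by
  rw [zero_add, Pc_one, pc_zero]

theorem Vc_eq_pc (al be : ℝ) (m : ℕ) :
    Vc al be (m + 2) = pc al be (m + 2) + 2 * pc al be (m + 1) + pc al be m := by
  rw [Vc_eq, Pc_eq, Pc_eq]
  ring

theorem Vc_one_eq_pc (al be : ℝ) : Vc al be 1 = pc al be 1 + 2 * pc al be 0 := by
  rw [Vc_eq, Pc_eq, Pc_one, pc_zero]
  ring

theorem KBN_C2 : (C (2 : ℝ) : ℝ⟦X⟧) = 2 := map_ofNat C 2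

theorem KBN_C3 : (C (3 : ℝ) : ℝ⟦X⟧) = 3 := map_ofNat C 3

theorem KBN_K1 (al be : ℝ) : eul (bin be (2 * al + 3 * be)) +
    C (2 * (al + be)) * bin be (2 * al + 3 * be) =
    2 * eul (bin (be - 1) (2 * al + 3 * be)) +
      C (2 * (1 + al)) * bin (be - 1) (2 * al + 3 * be) +
      C (2 * (be - 1)) * bin (be - 2) (2 * al + 3 * be) := by
  apply mul_left_cancel₀ PBN_ne
  have h1 := eul_bin be (2 * al + 3 * be)
  have h2 := eul_bin (be - 1) (2 * al + 3 * be)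
  have h3 := KBN_P be (2 * al + 3 * be)
  have h4 : bin be (2 * al + 3 * be) = (1 + X) * ((1 + X) * bin (be - 2) (2 * al + 3 * be)) := by
    rw [← h3, KBN_V be]
  obtain ⟨eV, heV⟩ : ∃ e, e = eul (bin be (2 * al + 3 * be)) := ⟨_, rfl⟩
  obtain ⟨eP, heP⟩ : ∃ e, e = eul (bin (be - 1) (2 * al + 3 * be)) := ⟨_, rfl⟩
  rw [← heV] at h1 ⊢
  rw [← heP] at h2 ⊢
  rw [h4] at h1 ⊢
  rw [h3] at h2 ⊢
  simp only [map_add, map_mul, map_sub, map_one, KBN_C2, KBN_C3] at h1 h2 ⊢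
  linear_combination h1 - 2 * h2

theorem KBN_K3 (al be : ℝ) : eul (bin be (2 * al + 3 * be)) =
    2 * (X * eul (bin (be - 1) (2 * al + 3 * be))) +
      C (2 * (al + 2 * be)) * (X * bin (be - 1) (2 * al + 3 * be)) -
      C (2 * (be - 1)) * (X ^ 2 * bin (be - 2) (2 * al + 3 * be)) := by
  apply mul_left_cancel₀ PBN_ne
  have h1 := eul_bin be (2 * al + 3 * be)
  have h2 := eul_bin (be - 1) (2 * al + 3 * be)
  have h3 := KBN_P be (2 * al + 3 * be)
  have h4 : bin be (2 * al + 3 * be) = (1 + X) * ((1 + X) * bin (be - 2) (2 * al + 3 * be)) := by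
    rw [← h3, KBN_V be]
  obtain ⟨eV, heV⟩ : ∃ e, e = eul (bin be (2 * al + 3 * be)) := ⟨_, rfl⟩
  obtain ⟨eP, heP⟩ : ∃ e, e = eul (bin (be - 1) (2 * al + 3 * be)) := ⟨_, rfl⟩
  rw [← heV] at h1 ⊢
  rw [← heP] at h2 ⊢
  rw [h4] at h1
  rw [h3] at h2 ⊢
  simp only [map_add, map_mul, map_sub, map_one, KBN_C2, KBN_C3] at h1 h2 ⊢
  linear_combination h1 - 2 * X * h2

/-- `(n + 2 s0) V_n = 2 (n + 1 + al) P_{n+1} + 2 (be - 1) π_n`. -/
theorem K1 (al be : ℝ) (n : ℕ) : ((n : ℝ) + 2 * (al + be)) * Vc al be n =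
    2 * ((n : ℝ) + 1 + al) * Pc al be (n + 1) + 2 * (be - 1) * pc al be n := by
  have h := congrArg (coeff n) (KBN_K1 al be)
  rw [← KBN_C2] at h
  simp only [map_add, coeff_C_mul, coeff_eul] at h
  have e1 : Pc al be (n + 1) = coeff n (bin (be - 1) (2 * al + 3 * be)) := rfl
  rw [e1]
  unfold Vc pc
  linarith

/-- `m V_m = 2 (m - 1 + al + 2 be) P_m - 2 (be - 1) π_{m-2}`, `m = n + 1`; here
`π_{-1} = 0`. -/
theorem K3 (al be : ℝ) (n : ℕ) : ((n : ℝ) + 1) * Vc al be (n + 1) =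
    2 * ((n : ℝ) + al + 2 * be) * Pc al be (n + 1) -
      2 * (be - 1) * (if n = 0 then 0 else pc al be (n - 1)) := by
  have h := congrArg (coeff (n + 1)) (KBN_K3 al be)
  have e2 : (2 : ℝ⟦X⟧) * (X * eul (bin (be - 1) (2 * al + 3 * be))) =
      C (2 : ℝ) * (X * eul (bin (be - 1) (2 * al + 3 * be))) := by rw [KBN_C2]
  rw [e2] at h
  simp only [map_add, map_sub, coeff_C_mul, coeff_eul, coeff_succ_X_mul] at h
  have e1 : Pc al be (n + 1) = coeff n (bin (be - 1) (2 * al + 3 * be)) := rfl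
  rw [e1]
  have e3 : coeff (n + 1) (X ^ 2 * bin (be - 2) (2 * al + 3 * be)) =
      (if n = 0 then 0 else pc al be (n - 1)) := by
    rw [coeff_X_pow_mul']
    rcases n with _ | n
    · simp
    · have c1 : 2 ≤ n + 1 + 1 := by omega
      have c2 : n + 1 + 1 - 2 = n + 1 - 1 := by omega
      have c3 : ¬ (n + 1 = 0) := by omega
      rw [if_pos c1, if_neg c3, c2]
      rfl
  rw [e3] at h
  push_cast at h
  unfold Vc
  linarith

end Pool.Agent.KIM
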