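import Pool.Agent.KIM.Defs

/-!
# KIM / LIMA: bounded functions of class S: lower bound for `g z / z`, upper bound for `g'`
-/

set_option autoImplicit false

open Metric Set Filter Topology
open Pool.Agent.Helper42.KoebeMeans

namespace Pool.Agent.KIM.LIM

theorem norm_dslope_le_of_bdd {g : ℂ → ℂ} (hg : ClassS g) {C : ℝ}
    (hC : ∀ z ∈ LOE.Dk, ‖g z‖ < C) {z : ℂ} (hz : z ∈ LOE.Dk) : ‖dslope g 0 z‖ ≤ C := by
  have h1 : MapsTo g (ball 0 1) (closedBall (g 0) C) := by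
    intro w hw
    rw [hg.2.2.1, mem_closedBall_zero_iff]
    exact (hC w hw).le
  have h2 := Complex.norm_dslope_le_div_of_mapsTo_ball hg.1 h1 hz
  simpa using h2

theorem near_zero {g : ℂ → ℂ} (hg : ClassS g) {C : ℝ}
    (hC : ∀ z ∈ LOE.Dk, ‖g z‖ < C) {z : ℂ} (hz : z ∈ LOE.Dk) :
    ‖dslope g 0 z - 1‖ ≤ (C + 2) * ‖z‖ := by
  have h0 : (0 : ℂ) ∈ LOE.Dk := by simp [LOE.Dk]
  have hd0 : dslope g 0 0 = 1 := by rw [dslope_same, hg.2.2.2]
  have hdiff : DifferentiableOn ℂ (dslope g 0) (ball 0 1) :=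
    (Complex.differentiableOn_dslope (ball_mem_nhds (0 : ℂ) one_pos)).2 hg.1
  have hCpos : 0 < C := lt_of_le_of_lt (norm_nonneg _) (hC 0 h0)
  have h1 : MapsTo (dslope g 0) (ball 0 1) (closedBall (dslope g 0 0) (C + 2)) := by
    intro w hw
    rw [hd0, mem_closedBall, dist_eq_norm]
    have h2 := norm_dslope_le_of_bdd hg hC hw
    calc ‖dslope g 0 w - 1‖ ≤ ‖dslope g 0 w‖ + ‖(1 : ℂ)‖ := norm_sub_le _ _
      _ ≤ C + 1 := by simpa using h2
      _ ≤ C + 2 := by linarith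
  have h2 := Complex.dist_le_div_mul_dist_of_mapsTo_ball hdiff h1 hz
  rw [hd0, dist_eq_norm, dist_zero_right, div_one] at h2
  exact h2

/-- Lower bound. -/
theorem lower_bdd {C : ℝ} (hC0 : 0 < C) : ∃ c : ℝ, 0 < c ∧ ∀ g : ℂ → ℂ, ClassS g →
    (∀ z ∈ LOE.Dk, ‖g z‖ < C) → ∀ z ∈ LOE.Dk, c ≤ ‖dslope g 0 z‖ := by
  set ρ : ℝ := 1 / (2 * (C + 2)) with hρ
  have hρ0 : 0 < ρ := by positivity
  have hρ1 : ρ < 1 := by
    rw [hρ, div_lt_one (by positivity)]
    linarith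
  refine ⟨ρ / 4, by positivity, fun g hg hC z hz => ?_⟩
  have hnear : ∀ w : ℂ, ‖w‖ ≤ ρ → 1 / 2 ≤ ‖dslope g 0 w‖ := by
    intro w hw
    have hwD : w ∈ LOE.Dk := by
      unfold LOE.Dk
      rw [mem_ball_zero_iff]
      linarith
    have h1 := near_zero hg hC hwD
    have h2 : (C + 2) * ‖w‖ ≤ 1 / 2 := by
      calc (C + 2) * ‖w‖ ≤ (C + 2) * ρ := by gcongr
        _ = 1 / 2 := by rw [hρ]; field_simp
    have h3 : ‖(1 : ℂ)‖ ≤ ‖dslope g 0 w‖ + ‖dslope g 0 w - 1‖ := by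
      have h4 : (1 : ℂ) = dslope g 0 w - (dslope g 0 w - 1) := by ring
      calc ‖(1 : ℂ)‖ = ‖dslope g 0 w - (dslope g 0 w - 1)‖ := by rw [← h4]
        _ ≤ _ := norm_sub_le _ _
    rw [norm_one] at h3
    linarith
  by_cases hzρ : ‖z‖ ≤ ρ
  · have := hnear z hzρ
    linarith
  push Not at hzρ
  have hz1 : ‖z‖ < 1 := by
    have := hz
    unfold LOE.Dk at this
    rwa [mem_ball_zero_iff] at this
  have hz0 : z ≠ 0 := by
    intro h
    rw [h, norm_zero] at hzρ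
    linarith
  have hds : ∀ w : ℂ, w ≠ 0 → ‖g w‖ = ‖w‖ * ‖dslope g 0 w‖ := by
    intro w hw
    rw [dslope_of_ne _ hw, slope_def_field, hg.2.2.1]
    simp only [sub_zero, norm_div]
    field_simp [norm_ne_zero_iff.2 hw]
  -- the image of the small ball
  have himg : ball (g 0) (ρ / 2 / 2) ⊆ g '' closedBall 0 ρ := by
    refine DiffContOnCl.ball_subset_image_closedBall ?_ hρ0 ?_ ?_
    · refine DifferentiableOn.diffContOnCl (hg.1.mono ?_)
      rw [closure_ball (0 : ℂ) hρ0.ne']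
      exact closedBall_subset_ball hρ1
    · intro w hw
      rw [mem_sphere_zero_iff_norm] at hw
      have hw0 : w ≠ 0 := by
        intro h
        rw [h, norm_zero] at hw
        linarith
      rw [hg.2.2.1, sub_zero, hds w hw0, hw]
      have := hnear w hw.le
      nlinarith
    · have h6 : ∀ᶠ w in 𝓝[≠] (0 : ℂ), g w ≠ g 0 := by
        have h7 : ∀ᶠ w in 𝓝[≠] (0 : ℂ), w ∈ ball (0 : ℂ) 1 :=
          nhdsWithin_le_nhds (ball_mem_nhds (0 : ℂ) one_pos)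
        filter_upwards [h7, self_mem_nhdsWithin] with w hw hw0 hgw
        exact hw0 (hg.2.1 hw (mem_ball_self one_pos) hgw)
      exact h6.frequently.filter_mono nhdsWithin_le_nhds
  have hgz : ρ / 4 ≤ ‖g z‖ := by
    by_contra hlt
    push Not at hlt
    have h1 : g z ∈ ball (g 0) (ρ / 2 / 2) := by
      rw [hg.2.2.1, mem_ball_zero_iff]
      linarith
    obtain ⟨w, hw, hwz⟩ := himg h1
    rw [mem_closedBall_zero_iff] at hw
    have hwD : w ∈ ball (0 : ℂ) 1 := by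
      rw [mem_ball_zero_iff]
      linarith
    have := hg.2.1 hwD hz hwz
    rw [this] at hw
    linarith
  rw [hds z hz0] at hgz
  have h5 : ‖z‖ * ‖dslope g 0 z‖ ≤ 1 * ‖dslope g 0 z‖ := by gcongr
  linarith

end Pool.Agent.KIM.LIM
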