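import Pool.Agent.KIM.Defs
import Pool.Agent.LOE.VEL

/-!
# KIM / LIMB: Taylor series of functions holomorphic on the disc, real powers
-/

set_option autoImplicit false

open Metric Set Filter Topology PowerSeries

namespace Pool.Agent.KIM.LIM

/-- Taylor series at `0`. -/
noncomputable def ser (h : ℂ → ℂ) : ℂ⟦X⟧ := PowerSeries.mk fun n => LOE.coef n h

theorem coeff_ser (h : ℂ → ℂ) (n : ℕ) : coeff n (ser h) = LOE.coef n h := coeff_mk _ _

theorem Dk_nhds : LOE.Dk ∈ 𝓝 (0 : ℂ) := by
  unfold LOE.Dk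
  exact Metric.ball_mem_nhds 0 one_pos

theorem ser_congr {f g : ℂ → ℂ} (h : ∀ z ∈ LOE.Dk, f z = g z) : ser f = ser g := by
  ext n
  rw [coeff_ser, coeff_ser]
  unfold LOE.coef
  have h1 : f =ᶠ[𝓝 0] g := by
    filter_upwards [Dk_nhds] with z hz using h z hz
  rw [h1.iteratedDeriv_eq n]

theorem ser_mul {g p : ℂ → ℂ} (hg : DifferentiableOn ℂ g LOE.Dk)
    (hp : DifferentiableOn ℂ p LOE.Dk) : ser (fun z => g z * p z) = ser g * ser p := by
  ext n
  rw [coeff_ser, LOE.coef_mul hg hp, coeff_mul, Finset.Nat.sum_antidiagonal_eq_sum_range_succ_mk]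
  refine Finset.sum_congr rfl fun i _ => ?_
  rw [coeff_ser, coeff_ser]

theorem ser_add {g p : ℂ → ℂ} (hg : DifferentiableOn ℂ g LOE.Dk)
    (hp : DifferentiableOn ℂ p LOE.Dk) : ser (fun z => g z + p z) = ser g + ser p := by
  ext n
  rw [coeff_ser, LOE.coef_add hg hp, map_add, coeff_ser, coeff_ser]

theorem ser_smul {g : ℂ → ℂ} (hg : DifferentiableOn ℂ g LOE.Dk) (c : ℂ) :
    ser (fun z => c * g z) = C c * ser g := by
  ext n
  rw [coeff_ser, LOE.coef_smul hg, coeff_C_mul, coeff_ser]

theorem ser_const (c : ℂ) : ser (fun _ => c) = C c := by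
  ext n
  rw [coeff_ser, coeff_C]
  unfold LOE.coef
  rw [iteratedDeriv_const]
  split_ifs with h
  · subst h
    simp
  · simp

theorem ser_id : ser (fun z => z) = X := by
  ext n
  rw [coeff_ser, coeff_X]
  unfold LOE.coef
  rw [iteratedDeriv_fun_id_zero]
  split_ifs with h
  · subst h
    simp
  · simp

theorem coeff_eul {k : Type*} [CommRing k] (f : k⟦X⟧) (n : ℕ) :
    coeff n (eul f) = (n : k) * coeff n f := by
  unfold eul
  rcases n with _ | n
  · simp
  · rw [coeff_succ_X_mul, coeff_derivative]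
    push_cast
    ring

theorem ser_eul {g : ℂ → ℂ} (hg : DifferentiableOn ℂ g LOE.Dk) :
    ser (fun z => z * deriv g z) = eul (ser g) := by
  ext n
  rw [coeff_ser, LOE.coef_zderiv hg, coeff_eul, coeff_ser]

theorem ser_pow {g : ℂ → ℂ} (hg : DifferentiableOn ℂ g LOE.Dk) (m : ℕ) :
    ser (fun z => g z ^ m) = ser g ^ m := by
  induction m with
  | zero =>
    simp only [pow_zero]
    rw [ser_const]
    simp
  | succ m ih =>
    have h1 : ser (fun z => g z ^ (m + 1)) = ser (fun z => g z ^ m * g z) := by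
      congr 1
    have h2 : DifferentiableOn ℂ (fun z => g z ^ m) LOE.Dk := hg.pow m
    rw [h1, ser_mul h2 hg, ih, pow_succ]

theorem constantCoeff_ser (g : ℂ → ℂ) : constantCoeff (ser g) = g 0 := by
  rw [← coeff_zero_eq_constantCoeff_apply, coeff_ser]
  simp [LOE.coef]

/-- Uniqueness of the power. -/
theorem lim_rp_unique {k : Type*} [Field k] [CharZero k] {f g : k⟦X⟧} {a : k}
    (hf : constantCoeff f = 1) (hg : constantCoeff g = 1)
    (h : f * eul g = C a * eul f * g) : g = rp f a := by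
  have key : ∀ n, coeff n g = rpc f a n := by
    intro n
    induction n using Nat.strong_induction_on with
    | _ n ih =>
      rcases n with _ | n
      · rw [rpc, coeff_zero_eq_constantCoeff_apply, hg]
      · have h0 : eul g * f = C a * (g * eul f) := by
          rw [mul_comm, h]
          ring
        have h1 := congrArg (coeff (n + 1)) h0
        rw [coeff_C_mul, coeff_mul, coeff_mul,
          Finset.Nat.sum_antidiagonal_eq_sum_range_succ_mk,
          Finset.Nat.sum_antidiagonal_eq_sum_range_succ_mk,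
          Finset.sum_range_succ, Finset.sum_range_succ (n := n + 1)] at h1
        have hn : ((n : k) + 1) ≠ 0 := by exact_mod_cast n.succ_ne_zero
        rw [rpc, eq_div_iff hn, Finset.sum_fin_eq_sum_range]
        have h2 : ∀ i ∈ Finset.range (n + 1), (if h : i < n + 1 then
            (a * ((n + 1 - i : ℕ) : k) - (i : k)) * coeff (n + 1 - i) f * rpc f a i else 0) =
            a * (coeff i g * coeff (n + 1 - i) (eul f)) -
              coeff i (eul g) * coeff (n + 1 - i) f := by
          intro i hi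
          have hi' := Finset.mem_range.1 hi
          rw [dif_pos hi', ← ih i hi', coeff_eul, coeff_eul]
          ring
        rw [Finset.sum_congr rfl h2, Finset.sum_sub_distrib, ← Finset.mul_sum]
        simp only [Nat.sub_self, coeff_zero_eq_constantCoeff_apply, hf, mul_one, coeff_eul] at h1 ⊢
        rw [Nat.cast_zero, mul_zero, add_zero] at h1
        push_cast at h1 ⊢
        linear_combination h1
  ext n
  rw [key, rp, coeff_mk]

/-- Real powers of a function with values in the slit plane. -/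
theorem ser_cpow {h : ℂ → ℂ} (hh : DifferentiableOn ℂ h LOE.Dk) (h0 : h 0 = 1)
    (hs : ∀ z ∈ LOE.Dk, h z ∈ Complex.slitPlane) (a : ℂ) :
    ser (fun z => h z ^ a) = rp (ser h) a := by
  have hD : IsOpen LOE.Dk := by
    unfold LOE.Dk
    exact isOpen_ball
  have hG : DifferentiableOn ℂ (fun z => h z ^ a) LOE.Dk := fun z hz =>
    ((hh z hz).cpow (differentiableWithinAt_const a) (hs z hz))
  refine lim_rp_unique ?_ ?_ ?_
  · rw [constantCoeff_ser, h0]
  · rw [constantCoeff_ser, h0, Complex.one_cpow]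
  have hh1 : DifferentiableOn ℂ (fun z => z * deriv h z) LOE.Dk :=
    differentiableOn_id.mul (hh.deriv hD)
  have hG1 : DifferentiableOn ℂ (fun z => z * deriv (fun z => h z ^ a) z) LOE.Dk :=
    differentiableOn_id.mul (hG.deriv hD)
  rw [← ser_eul hh, ← ser_eul hG, ← ser_smul hh1, ← ser_mul hh hG1, ← ser_mul (hh1.const_mul a) hG]
  refine ser_congr fun z hz => ?_
  have h1 : HasDerivAt h (deriv h z) z := (hh.differentiableAt (hD.mem_nhds hz)).hasDerivAt
  have h2 : HasDerivAt (fun z => h z ^ a) (a * h z ^ (a - 1) * deriv h z) z :=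
    h1.cpow_const (hs z hz)
  have h3 : h z ≠ 0 := Complex.slitPlane_ne_zero (hs z hz)
  rw [h2.deriv]
  have h4 : h z ^ a = h z ^ (a - 1) * h z := by
    rw [Complex.cpow_sub _ _ h3, Complex.cpow_one]
    field_simp
  rw [h4]
  ring

theorem coef_le {F : ℂ → ℂ} (hF : DifferentiableOn ℂ F LOE.Dk) {ρ : ℝ} (hρ : 0 < ρ) (hρ1 : ρ < 1)
    {C : ℝ} (hC : ∀ z : ℂ, ‖z‖ = ρ → ‖F z‖ ≤ C) (n : ℕ) : ‖LOE.coef n F‖ ≤ C / ρ ^ n := by
  have hd : DiffContOnCl ℂ F (ball 0 ρ) := by
    apply DifferentiableOn.diffContOnCl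
    rw [closure_ball _ hρ.ne']
    refine hF.mono ?_
    unfold LOE.Dk
    exact closedBall_subset_ball hρ1
  have h := Complex.norm_iteratedDeriv_le_of_forall_mem_sphere_norm_le (f := F) n hρ hd (C := C)
    (fun z hz => hC z (by simpa using hz))
  have hk : (0 : ℝ) < (n.factorial : ℝ) := by exact_mod_cast Nat.factorial_pos n
  rw [LOE.coef, norm_div, Complex.norm_natCast, div_le_iff₀ hk]
  calc ‖iteratedDeriv n F 0‖ ≤ n.factorial * C / ρ ^ n := h
    _ = C / ρ ^ n * n.factorial := by ring

end Pool.Agent.KIM.LIM
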