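import Pool.Agent.KIM.SWA

/-!
# KIM / SSY: the substitution `Sy y` (`u = y k(z)`)

`Sy y F = PowerSeries.subst (C y * k0) F`; `HasSubst (C y * k0)` by
`HasSubst.of_constantCoeff_zero'`.  The ring laws come from `coe_substAlgHom` and `map_add` etc.
* `eul_Sy`: `PowerSeries.derivative_subst` and `eul (C y * k0) * (1 - X) = C y * k0 * (1 + X)`.
* `coeff_mul_Sy`: `coeff_subst'` writes `coeff e (subst a F)` as a finsum over `d` of
  `coeff d F • coeff e (a ^ d)`; since `X ^ d ∣ a ^ d` only `d ≤ e` contribute.  An alternative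
  proof: both sides are additive in `F` and vanish if `X ^ (N+1) ∣ F` (then `(C y * k0)^(N+1)`
  divides `Sy y F`), so it is enough to take `F = X ^ n`.
* `Sy_one_W : Sy 1 W = X` by `eq_of_fix` with `p = k0`.
* `Sy_zero`: `C 0 * k0 = 0`, use `coeff_mul_Sy` with `G = 1`.
-/

set_option autoImplicit false

open PowerSeries Finset

namespace Pool.Agent.KIM

private theorem ssy_cc (y : ℝ) : constantCoeff (C y * k0 : ℝ⟦X⟧) = 0 := by
  rw [map_mul, constantCoeff_k0, mul_zero]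

private theorem ssy_hs (y : ℝ) : HasSubst (C y * k0 : ℝ⟦X⟧) :=
  HasSubst.of_constantCoeff_zero' (ssy_cc y)

theorem Sy_add (y : ℝ) (F G : ℝ⟦X⟧) : Sy y (F + G) = Sy y F + Sy y G :=
  subst_add (ssy_hs y) F G

theorem Sy_sub (y : ℝ) (F G : ℝ⟦X⟧) : Sy y (F - G) = Sy y F - Sy y G :=
  subst_sub (ssy_hs y) F G

theorem Sy_mul (y : ℝ) (F G : ℝ⟦X⟧) : Sy y (F * G) = Sy y F * Sy y G :=
  subst_mul (ssy_hs y) F G

theorem Sy_pow (y : ℝ) (F : ℝ⟦X⟧) (n : ℕ) : Sy y (F ^ n) = Sy y F ^ n :=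
  subst_pow (ssy_hs y) F n

theorem Sy_one (y : ℝ) : Sy y 1 = 1 := by
  show PowerSeries.subst (C y * k0 : ℝ⟦X⟧) (1 : ℝ⟦X⟧) = 1
  rw [← coe_substAlgHom (ssy_hs y), map_one]

theorem Sy_C (y c : ℝ) : Sy y (C c) = C c :=
  subst_C (a := (C y * k0 : ℝ⟦X⟧)) c

theorem Sy_X (y : ℝ) : Sy y X = C y * k0 :=
  subst_X (ssy_hs y)

theorem constantCoeff_Sy (y : ℝ) (F : ℝ⟦X⟧) : constantCoeff (Sy y F) = constantCoeff F := by
  have h := eq_X_mul_shift_add_const F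
  conv_lhs => rw [h]
  rw [Sy_add, Sy_mul, Sy_X, Sy_C, map_add, map_mul, ssy_cc, zero_mul, zero_add]
  simp

theorem Sy_rp (y : ℝ) {F : ℝ⟦X⟧} (hF : constantCoeff F = 1) (a : ℝ) :
    Sy y (rp F a) = rp (Sy y F) a :=
  subst_rp hF (ssy_cc y) a

theorem eul_Sy (y : ℝ) (F : ℝ⟦X⟧) : (1 - X) * eul (Sy y F) = (1 + X) * Sy y (eul F) := by
  have h1 : d⁄dX ℝ (Sy y F) = Sy y (d⁄dX ℝ F) * d⁄dX ℝ (C y * k0 : ℝ⟦X⟧) :=
    derivative_subst (ssy_hs y)
  have h2 : eul (C y * k0 : ℝ⟦X⟧) = C y * eul k0 := eul_C_mul y k0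
  have h3 : eul (Sy y F) = Sy y (d⁄dX ℝ F) * eul (C y * k0 : ℝ⟦X⟧) := by
    show X * d⁄dX ℝ (Sy y F) = Sy y (d⁄dX ℝ F) * (X * d⁄dX ℝ (C y * k0 : ℝ⟦X⟧))
    rw [h1]
    ring
  have h4 : Sy y (eul F) = C y * k0 * Sy y (d⁄dX ℝ F) := by
    show Sy y (X * d⁄dX ℝ F) = C y * k0 * Sy y (d⁄dX ℝ F)
    rw [Sy_mul, Sy_X]
  rw [h3, h4, h2]
  have h5 := eul_k0
  linear_combination (Sy y (d⁄dX ℝ F) * C y) * h5

private theorem ssy_sum (y : ℝ) (f : ℕ → ℝ⟦X⟧) (n : ℕ) :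
    Sy y (∑ i ∈ range n, f i) = ∑ i ∈ range n, Sy y (f i) := by
  induction n with
  | zero =>
    rw [sum_range_zero, sum_range_zero]
    have := Sy_C y 0
    rwa [map_zero] at this
  | succ n ih => rw [sum_range_succ, sum_range_succ, Sy_add, ih]

theorem coeff_mul_Sy (y : ℝ) (F G : ℝ⟦X⟧) (N : ℕ) : coeff N (G * Sy y F) =
    ∑ n ∈ range (N + 1), coeff n F * y ^ n * coeff N (G * k0 ^ n) := by
  obtain ⟨R, hR⟩ : ∃ R : ℝ⟦X⟧, F = X ^ (N + 1) * R + ∑ n ∈ range (N + 1), C (coeff n F) * X ^ n := by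
    refine ⟨mk fun i => coeff (i + (N + 1)) F, ?_⟩
    ext d
    rw [map_add, map_sum]
    have h1 : ∀ n, coeff d (C (coeff n F) * X ^ n) = if d = n then coeff n F else 0 := by
      intro n
      rw [coeff_C_mul, coeff_X_pow]
      split_ifs <;> simp
    simp only [h1]
    by_cases hd : d < N + 1
    · rw [coeff_X_pow_mul', if_neg (by omega), zero_add, Finset.sum_ite_eq, if_pos (mem_range.2 hd)]
    · rw [coeff_X_pow_mul', if_pos (by omega), coeff_mk, Finset.sum_ite_eq,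
        if_neg (by simpa using hd), add_zero]
      congr 2
      omega
  have hk : (X : ℝ⟦X⟧) ∣ k0 := by
    rw [X_dvd_iff]
    exact constantCoeff_k0
  have h2 : Sy y F = (C y * k0) ^ (N + 1) * Sy y R +
      ∑ n ∈ range (N + 1), C (coeff n F) * (C y * k0) ^ n := by
    conv_lhs => rw [hR]
    rw [Sy_add, Sy_mul, Sy_pow, Sy_X, ssy_sum]
    congr 1
    refine sum_congr rfl fun n _ => ?_
    rw [Sy_mul, Sy_C, Sy_pow, Sy_X]
  have h3 : coeff N (G * ((C y * k0) ^ (N + 1) * Sy y R)) = 0 := by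
    have h4 : (X : ℝ⟦X⟧) ^ (N + 1) ∣ G * ((C y * k0) ^ (N + 1) * Sy y R) :=
      Dvd.dvd.mul_left (Dvd.dvd.mul_right (pow_dvd_pow_of_dvd (Dvd.dvd.mul_left hk _) _) _) _
    exact X_pow_dvd_iff.1 h4 N (by omega)
  rw [h2, mul_add, map_add, h3, zero_add, mul_sum, map_sum]
  refine sum_congr rfl fun n _ => ?_
  have h5 : G * (C (coeff n F) * (C y * k0) ^ n) = C (coeff n F * y ^ n) * (G * k0 ^ n) := by
    rw [map_mul, map_pow]
    ring
  rw [h5, coeff_C_mul]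

theorem Sy_zero (F : ℝ⟦X⟧) : Sy 0 F = C (constantCoeff F) := by
  ext N
  have h := coeff_mul_Sy 0 F 1 N
  rw [one_mul] at h
  rw [h, sum_eq_single 0]
  · rw [pow_zero, pow_zero, mul_one, mul_one, coeff_one, coeff_C, coeff_zero_eq_constantCoeff]
    split_ifs <;> simp
  · intro n _ hn
    rw [zero_pow hn, mul_zero, zero_mul]
  · intro h
    simp at h

theorem wy_eq (y : ℝ) : wy y = C y * k0 * (1 - wy y) ^ 2 := by
  have h : Sy y W = Sy y (X * (1 - W) ^ 2) := congrArg (Sy y) W_eq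
  rw [Sy_mul, Sy_X, Sy_pow, Sy_sub, Sy_one] at h
  exact h

theorem wy_one : wy 1 = X := by
  refine eq_of_fix (p := k0) constantCoeff_k0 ?_ ?_
  · have h := wy_eq 1
    rwa [map_one, one_mul] at h
  · rw [mul_comm, k0_eq]

theorem constantCoeff_wy (y : ℝ) : constantCoeff (wy y) = 0 := by
  rw [wy, constantCoeff_Sy, constantCoeff_W]

theorem eul_wy (y : ℝ) : (1 - X) * (1 + wy y) * eul (wy y) =
    (1 + X) * wy y * (1 - wy y) := by
  have h1 : (1 - X) * eul (wy y) = (1 + X) * Sy y (eul W) := eul_Sy y W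
  have h2 : Sy y ((1 + W) * eul W) = Sy y (W * (1 - W)) := congrArg (Sy y) eul_W
  rw [Sy_mul, Sy_add, Sy_one, Sy_mul, Sy_sub, Sy_one] at h2
  have h3 : (1 + wy y) * Sy y (eul W) = wy y * (1 - wy y) := h2
  linear_combination (1 + wy y) * h1 + (1 + X) * h3

theorem coeff_Sy_subst_sq (y : ℝ) (G : ℝ⟦X⟧) : Sy y (G.subst (W ^ 2 : ℝ⟦X⟧)) =
    G.subst ((wy y) ^ 2 : ℝ⟦X⟧) := by
  have h1 : HasSubst (W ^ 2 : ℝ⟦X⟧) := HasSubst.of_constantCoeff_zero' (by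
    rw [map_pow, constantCoeff_W]
    norm_num)
  have h2 := subst_comp_subst_apply (R := ℝ) h1 (ssy_hs y) G
  have h3 : PowerSeries.subst (C y * k0 : ℝ⟦X⟧) (W ^ 2 : ℝ⟦X⟧) = (wy y) ^ 2 := Sy_pow y W 2
  rw [h3] at h2
  exact h2

end Pool.Agent.KIM
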