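import Pool.Agent.KIM.LIMB
import Pool.Agent.KIM.SSY

/-!
# KIM / LIMC: the Koebe flow as a holomorphic function
-/

set_option autoImplicit false

open Metric Set Filter Topology PowerSeries

namespace Pool.Agent.KIM.LIM

theorem mem_Dk {z : ℂ} : z ∈ LOE.Dk ↔ ‖z‖ < 1 := by
  unfold LOE.Dk
  exact mem_ball_zero_iff

theorem isOpen_Dk : IsOpen LOE.Dk := by
  unfold LOE.Dk
  exact isOpen_ball

theorem re_one_sub_pos {z : ℂ} (hz : ‖z‖ < 1) : 0 < (1 - z).re := by
  have h := Complex.re_le_norm z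
  simp only [Complex.sub_re, Complex.one_re]
  linarith

theorem re_one_add_pos {z : ℂ} (hz : ‖z‖ < 1) : 0 < (1 + z).re := by
  have h := (abs_le.1 (Complex.abs_re_le_norm z)).1
  simp only [Complex.add_re, Complex.one_re]
  linarith

theorem one_sub_slit {z : ℂ} (hz : ‖z‖ < 1) : 1 - z ∈ Complex.slitPlane :=
  Or.inl (re_one_sub_pos hz)

theorem one_add_slit {z : ℂ} (hz : ‖z‖ < 1) : 1 + z ∈ Complex.slitPlane :=
  Or.inl (re_one_add_pos hz)

theorem one_sub_ne {z : ℂ} (hz : ‖z‖ < 1) : 1 - z ≠ 0 :=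
  Complex.slitPlane_ne_zero (one_sub_slit hz)

theorem one_add_ne {z : ℂ} (hz : ‖z‖ < 1) : 1 + z ≠ 0 :=
  Complex.slitPlane_ne_zero (one_add_slit hz)

theorem re_cayley_pos {z : ℂ} (hz : ‖z‖ < 1) : 0 < ((1 + z) / (1 - z)).re := by
  have h1 : 1 - z ≠ 0 := one_sub_ne hz
  have h2 : 0 < Complex.normSq (1 - z) := Complex.normSq_pos.2 h1
  have h3 : z.re ^ 2 + z.im ^ 2 < 1 := by
    have h4 : Complex.normSq z < 1 := by
      rw [Complex.normSq_eq_norm_sq]
      have := norm_nonneg z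
      nlinarith
    rw [Complex.normSq_apply] at h4
    nlinarith
  rw [Complex.div_re]
  have h5 : (1 + z).re * (1 - z).re / Complex.normSq (1 - z) +
      (1 + z).im * (1 - z).im / Complex.normSq (1 - z) =
      (1 - (z.re ^ 2 + z.im ^ 2)) / Complex.normSq (1 - z) := by
    rw [← add_div]
    congr 1
    simp
    ring
  rw [h5]
  exact div_pos (by linarith) h2

theorem sq_slit {E : ℂ} (hE : 0 < E.re) : E ^ 2 ∈ Complex.slitPlane := by
  rw [Complex.mem_slitPlane_iff]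
  by_cases h : (E ^ 2).im = 0
  · left
    have h1 : (E ^ 2).im = 2 * E.re * E.im := by
      rw [sq, Complex.mul_im]
      ring
    rw [h1] at h
    have h2 : E.im = 0 := by
      rcases mul_eq_zero.1 h with h3 | h3
      · linarith
      · exact h3
    have h4 : (E ^ 2).re = E.re ^ 2 := by
      rw [sq, Complex.mul_re, h2]
      ring
    rw [h4]
    positivity
  · right
    exact h

/-- `1 + 4 y k(z)`. -/
noncomputable def Qy (y : ℝ) (z : ℂ) : ℂ := (1 - (y : ℂ)) + y * ((1 + z) / (1 - z)) ^ 2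

/-- Its square root. -/
noncomputable def Sq (y : ℝ) (z : ℂ) : ℂ := Complex.exp (Complex.log (Qy y z) / 2)

/-- The Koebe flow. -/
noncomputable def wz (y : ℝ) (z : ℂ) : ℂ := (Sq y z - 1) / (Sq y z + 1)

theorem Qy_slit {y : ℝ} (h0 : 0 ≤ y) (h1 : y ≤ 1) {z : ℂ} (hz : ‖z‖ < 1) :
    Qy y z ∈ Complex.slitPlane := by
  have h := Complex.starConvex_one_slitPlane (sq_slit (re_cayley_pos hz))
    (sub_nonneg.2 h1) h0 (by ring)
  unfold Qy
  convert h using 1
  simp

theorem Sq_sq {y : ℝ} (h0 : 0 ≤ y) (h1 : y ≤ 1) {z : ℂ} (hz : ‖z‖ < 1) :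
    Sq y z ^ 2 = Qy y z := by
  unfold Sq
  rw [← Complex.exp_nat_mul]
  have h : ((2 : ℕ) : ℂ) * (Complex.log (Qy y z) / 2) = Complex.log (Qy y z) := by
    push_cast
    ring
  rw [h, Complex.exp_log (Complex.slitPlane_ne_zero (Qy_slit h0 h1 hz))]

theorem re_Sq_pos {y : ℝ} (h0 : 0 ≤ y) (h1 : y ≤ 1) {z : ℂ} (hz : ‖z‖ < 1) :
    0 < (Sq y z).re := by
  unfold Sq
  rw [Complex.exp_re]
  have h2 : (Complex.log (Qy y z) / 2).im = Complex.arg (Qy y z) / 2 := by
    rw [Complex.div_ofNat_im, Complex.log_im]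
  rw [h2]
  have h3 := Complex.mem_slitPlane_iff_arg.1 (Qy_slit h0 h1 hz)
  have h4 := Complex.neg_pi_lt_arg (Qy y z)
  have h5 := lt_of_le_of_ne (Complex.arg_le_pi (Qy y z)) h3.1
  exact mul_pos (Real.exp_pos _) (Real.cos_pos_of_mem_Ioo ⟨by linarith, by linarith⟩)

theorem Sq_add_ne {y : ℝ} (h0 : 0 ≤ y) (h1 : y ≤ 1) {z : ℂ} (hz : ‖z‖ < 1) :
    Sq y z + 1 ≠ 0 := by
  intro h
  have h2 := congrArg Complex.re h
  have h3 := re_Sq_pos h0 h1 hz
  simp at h2
  linarith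

theorem norm_wz_lt {y : ℝ} (h0 : 0 ≤ y) (h1 : y ≤ 1) {z : ℂ} (hz : ‖z‖ < 1) :
    ‖wz y z‖ < 1 := by
  have h3 := re_Sq_pos h0 h1 hz
  have h2 := Sq_add_ne h0 h1 hz
  unfold wz
  rw [norm_div, div_lt_one (norm_pos_iff.2 h2)]
  have h4 : ‖Sq y z - 1‖ ^ 2 < ‖Sq y z + 1‖ ^ 2 := by
    rw [← Complex.normSq_eq_norm_sq, ← Complex.normSq_eq_norm_sq, Complex.normSq_apply,
      Complex.normSq_apply]
    simp
    nlinarith
  exact lt_of_pow_lt_pow_left₀ 2 (norm_nonneg _) h4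

theorem wz_eq {y : ℝ} (h0 : 0 ≤ y) (h1 : y ≤ 1) {z : ℂ} (hz : ‖z‖ < 1) :
    wz y z = y * (z / (1 - z) ^ 2) * (1 - wz y z) ^ 2 := by
  have h2 := Sq_add_ne h0 h1 hz
  have h3 := Sq_sq h0 h1 hz
  have h4 := one_sub_ne hz
  have h5 : (1 - z) ^ 2 * Qy y z = (1 - z) ^ 2 + 4 * y * z := by
    unfold Qy
    field_simp
    ring
  rw [← h3] at h5
  unfold wz
  field_simp
  linear_combination h5

theorem wz_zero (y : ℝ) : wz y 0 = 0 := by
  unfold wz Sq Qy
  simp

theorem Qy_diff (y : ℝ) : DifferentiableOn ℂ (Qy y) LOE.Dk := by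
  unfold Qy
  intro z hz
  have h := one_sub_ne (mem_Dk.1 hz)
  have h1 : DifferentiableAt ℂ (fun z : ℂ => (1 + z) / (1 - z)) z :=
    ((differentiableAt_const _).add differentiableAt_id).div
      ((differentiableAt_const _).sub differentiableAt_id) h
  exact ((differentiableAt_const _).add ((differentiableAt_const _).mul
    (h1.pow 2))).differentiableWithinAt

theorem Sq_diff {y : ℝ} (h0 : 0 ≤ y) (h1 : y ≤ 1) : DifferentiableOn ℂ (Sq y) LOE.Dk := by
  unfold Sq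
  exact (((Qy_diff y).clog fun z hz => Qy_slit h0 h1 (mem_Dk.1 hz)).div_const 2).cexp

theorem wz_diff {y : ℝ} (h0 : 0 ≤ y) (h1 : y ≤ 1) : DifferentiableOn ℂ (wz y) LOE.Dk := by
  unfold wz
  exact ((Sq_diff h0 h1).sub (differentiableOn_const _)).div
    ((Sq_diff h0 h1).add (differentiableOn_const _)) fun z hz => Sq_add_ne h0 h1 (mem_Dk.1 hz)

theorem wz_maps {y : ℝ} (h0 : 0 ≤ y) (h1 : y ≤ 1) {z : ℂ} (hz : ‖z‖ < 1) :
    ‖wz y z‖ ≤ ‖z‖ := by
  have hd := wz_diff h0 h1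
  unfold LOE.Dk at hd
  refine Complex.norm_le_norm_of_mapsTo_ball hd ?_ (wz_zero y) hz
  intro w hw
  rw [mem_closedBall_zero_iff]
  exact (norm_wz_lt h0 h1 (mem_ball_zero_iff.1 hw)).le

/-! ## Taylor series -/

theorem koebe_diff : DifferentiableOn ℂ (fun z : ℂ => z / (1 - z) ^ 2) LOE.Dk := by
  intro z hz
  have h := one_sub_ne (mem_Dk.1 hz)
  have h1 : DifferentiableAt ℂ (fun z : ℂ => 1 - z) z :=
    (differentiableAt_const _).sub differentiableAt_id
  have h2 : DifferentiableAt ℂ (fun z : ℂ => (1 - z) ^ 2) z := h1.pow 2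
  exact (DifferentiableAt.div differentiableAt_id h2 (pow_ne_zero 2 h)).differentiableWithinAt

theorem ser_one_sub : ser (fun z : ℂ => 1 - z) = 1 - X := by
  have h1 : ser (fun z : ℂ => 1 - z) = ser (fun z : ℂ => (fun _ => (1 : ℂ)) z + (-1) * z) := by
    congr 1
    ext z
    ring
  have hid : DifferentiableOn ℂ (fun z : ℂ => z) LOE.Dk := differentiableOn_id
  have hid2 : DifferentiableOn ℂ (fun z : ℂ => (-1) * z) LOE.Dk := hid.const_mul (-1)
  rw [h1, ser_add (differentiableOn_const _) hid2, ser_const, ser_smul hid, ser_id]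
  simp [sub_eq_add_neg]

theorem ser_one_add : ser (fun z : ℂ => 1 + z) = 1 + X := by
  have h1 : ser (fun z : ℂ => 1 + z) = ser (fun z : ℂ => (fun _ => (1 : ℂ)) z + z) := rfl
  have hid : DifferentiableOn ℂ (fun z : ℂ => z) LOE.Dk := differentiableOn_id
  rw [h1, ser_add (differentiableOn_const _) hid, ser_const, ser_id]
  simp

/-- Coefficients in `ℂ`. -/
noncomputable def toC : ℝ⟦X⟧ →+* ℂ⟦X⟧ := PowerSeries.map Complex.ofRealHom

theorem coeff_toC (F : ℝ⟦X⟧) (n : ℕ) : coeff n (toC F) = ((coeff n F : ℝ) : ℂ) := by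
  unfold toC
  rw [coeff_map]
  rfl

theorem toC_X : toC X = X := by
  unfold toC
  rw [map_X]

theorem toC_C (c : ℝ) : toC (C c) = C (c : ℂ) := by
  unfold toC
  rw [map_C]
  rfl

theorem constantCoeff_toC {F : ℝ⟦X⟧} (c : ℝ) (h : constantCoeff F = c) :
    constantCoeff (toC F) = (c : ℂ) := by
  rw [← coeff_zero_eq_constantCoeff_apply, coeff_toC, coeff_zero_eq_constantCoeff_apply, h]

theorem toC_rp {f : ℝ⟦X⟧} (hf : constantCoeff f = 1) (a : ℝ) :
    toC (rp f a) = rp (toC f) (a : ℂ) := by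
  unfold toC
  exact map_rp Complex.ofRealHom hf a

theorem one_sub_X_sq_ne : ((1 - X) ^ 2 : ℂ⟦X⟧) ≠ 0 := by
  intro h
  have h1 := congrArg constantCoeff h
  simp at h1

theorem ser_koebe : ser (fun z : ℂ => z / (1 - z) ^ 2) = toC k0 := by
  have h1 : (1 - X) ^ 2 * ser (fun z : ℂ => z / (1 - z) ^ 2) = X := by
    have hd : DifferentiableOn ℂ (fun z : ℂ => 1 - z) LOE.Dk :=
      (differentiableOn_const _).sub differentiableOn_id
    have hd2 : DifferentiableOn ℂ (fun z : ℂ => (1 - z) ^ 2) LOE.Dk := hd.pow 2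
    rw [← ser_one_sub, ← ser_pow hd, ← ser_mul hd2 koebe_diff, ← ser_id]
    refine ser_congr fun z hz => ?_
    have h := one_sub_ne (mem_Dk.1 hz)
    field_simp
  have h2 : (1 - X) ^ 2 * toC k0 = X := by
    have h3 := congrArg toC k0_eq
    rw [map_mul, map_pow, map_sub, map_one, toC_X] at h3
    exact h3
  exact mul_left_cancel₀ one_sub_X_sq_ne (h1.trans h2.symm)

theorem eq_of_fixC {p A B : ℂ⟦X⟧} (hp : constantCoeff p = 0) (hA : A = p * (1 - A) ^ 2)
    (hB : B = p * (1 - B) ^ 2) : A = B := by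
  have h1 : (A - B) * (1 + p * (2 - A - B)) = 0 := by
    have h2 : A - B = p * (1 - A) ^ 2 - p * (1 - B) ^ 2 := by rw [← hA, ← hB]
    linear_combination h2
  have h3 : (1 + p * (2 - A - B)) ≠ 0 := by
    intro h
    have h4 := congrArg constantCoeff h
    simp [hp] at h4
  exact sub_eq_zero.1 ((mul_eq_zero.1 h1).resolve_right h3)

theorem ser_wz {y : ℝ} (h0 : 0 ≤ y) (h1 : y ≤ 1) : ser (wz y) = toC (wy y) := by
  have hw := wz_diff h0 h1
  refine eq_of_fixC (p := C (y : ℂ) * toC k0) ?_ ?_ ?_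
  · rw [map_mul, constantCoeff_toC 0 constantCoeff_k0]
    simp
  · rw [← ser_koebe]
    have hd : DifferentiableOn ℂ (fun z => 1 - wz y z) LOE.Dk :=
      (differentiableOn_const _).sub hw
    have hk : DifferentiableOn ℂ (fun z : ℂ => (y : ℂ) * (z / (1 - z) ^ 2)) LOE.Dk :=
      koebe_diff.const_mul _
    have h2 : ser (fun z => 1 - wz y z) = 1 - ser (wz y) := by
      have h3 : ser (fun z => 1 - wz y z) =
          ser (fun z => (fun _ => (1 : ℂ)) z + (fun z => (-1) * wz y z) z) := by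
        congr 1
        ext z
        ring
      rw [h3, ser_add (differentiableOn_const _) (hw.const_mul _), ser_const, ser_smul hw]
      simp [sub_eq_add_neg]
    have hd2 : DifferentiableOn ℂ (fun z => (1 - wz y z) ^ 2) LOE.Dk := hd.pow 2
    rw [← h2, ← ser_pow hd, ← ser_smul koebe_diff, ← ser_mul hk hd2]
    exact ser_congr fun z hz => wz_eq h0 h1 (mem_Dk.1 hz)
  · have h2 := congrArg toC (wy_eq y)
    rw [map_mul, map_mul, map_pow, map_sub, map_one, toC_C] at h2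
    exact h2

end Pool.Agent.KIM.LIM
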