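import Pool.Agent.KIM.LIMC
import Pool.Agent.KIM.SLF
import Pool.Agent.KIM.SGM
import Pool.Agent.KIM.SDM

/-!
# KIM / LIMD: uniform bounds for the functionals `Lf`
-/

set_option autoImplicit false

open Metric Set Filter Topology PowerSeries

namespace Pool.Agent.KIM.LIM

/-- `(1 + z)^q (1 - z)^(-3q)`. -/
noncomputable def Kf (q : ℝ) (z : ℂ) : ℂ :=
  (1 + z) ^ ((q : ℝ) : ℂ) * (1 - z) ^ ((-(3 * q) : ℝ) : ℂ)

/-- `(1 - w)^(2 al + 3 be) (1 + w)^(-be)`. -/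
noncomputable def kf (al be y : ℝ) (z : ℂ) : ℂ :=
  (1 - wz y z) ^ ((2 * al + 3 * be : ℝ) : ℂ) * (1 + wz y z) ^ ((-be : ℝ) : ℂ)

/-- `(1 + w)^e`. -/
noncomputable def ef (e y : ℝ) (z : ℂ) : ℂ := (1 + wz y z) ^ ((e : ℝ) : ℂ)

theorem id_diff : DifferentiableOn ℂ (fun z : ℂ => z) LOE.Dk := differentiableOn_id

theorem one_sub_diff {g : ℂ → ℂ} (hg : DifferentiableOn ℂ g LOE.Dk) :
    DifferentiableOn ℂ (fun z : ℂ => 1 - g z) LOE.Dk :=
  (differentiableOn_const _).sub hg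

theorem one_add_diff {g : ℂ → ℂ} (hg : DifferentiableOn ℂ g LOE.Dk) :
    DifferentiableOn ℂ (fun z : ℂ => 1 + g z) LOE.Dk :=
  (differentiableOn_const _).add hg

theorem ser_one_sub' {g : ℂ → ℂ} (hg : DifferentiableOn ℂ g LOE.Dk) :
    ser (fun z => 1 - g z) = 1 - ser g := by
  have h3 : ser (fun z => 1 - g z) =
      ser (fun z => (fun _ => (1 : ℂ)) z + (fun z => (-1) * g z) z) := by
    congr 1
    ext z
    ring
  rw [h3, ser_add (differentiableOn_const _) (hg.const_mul _), ser_const, ser_smul hg]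
  simp [sub_eq_add_neg]

theorem ser_one_add' {g : ℂ → ℂ} (hg : DifferentiableOn ℂ g LOE.Dk) :
    ser (fun z => 1 + g z) = 1 + ser g := by
  have h3 : ser (fun z => 1 + g z) = ser (fun z => (fun _ => (1 : ℂ)) z + g z) := rfl
  rw [h3, ser_add (differentiableOn_const _) hg, ser_const]
  simp

theorem cpow_diff {h : ℂ → ℂ} (hh : DifferentiableOn ℂ h LOE.Dk)
    (hs : ∀ z ∈ LOE.Dk, h z ∈ Complex.slitPlane) (a : ℂ) :
    DifferentiableOn ℂ (fun z => h z ^ a) LOE.Dk := fun z hz =>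
  (hh z hz).cpow (differentiableWithinAt_const a) (hs z hz)

theorem Kf_diff (q : ℝ) : DifferentiableOn ℂ (Kf q) LOE.Dk := by
  unfold Kf
  exact (cpow_diff (one_add_diff id_diff) (fun z hz => one_add_slit (mem_Dk.1 hz)) _).mul
    (cpow_diff (one_sub_diff id_diff) (fun z hz => one_sub_slit (mem_Dk.1 hz)) _)

theorem ser_Kf (q : ℝ) : ser (Kf q) = toC (Kq q) := by
  unfold Kf Kq bin
  rw [ser_mul (cpow_diff (one_add_diff id_diff) (fun z hz => one_add_slit (mem_Dk.1 hz)) _)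
    (cpow_diff (one_sub_diff id_diff) (fun z hz => one_sub_slit (mem_Dk.1 hz)) _),
    ser_cpow (one_add_diff id_diff) (by simp) (fun z hz => one_add_slit (mem_Dk.1 hz)),
    ser_cpow (one_sub_diff id_diff) (by simp) (fun z hz => one_sub_slit (mem_Dk.1 hz)),
    ser_one_add, ser_one_sub, map_mul, toC_rp (by simp), toC_rp (by simp), map_add, map_sub,
    map_one, toC_X]

section flow

variable {y : ℝ} (h0 : 0 ≤ y) (h1 : y ≤ 1)

include h0 h1

theorem wz_one_sub_slit : ∀ z ∈ LOE.Dk, 1 - wz y z ∈ Complex.slitPlane := fun _ hz =>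
  one_sub_slit (norm_wz_lt h0 h1 (mem_Dk.1 hz))

theorem wz_one_add_slit : ∀ z ∈ LOE.Dk, 1 + wz y z ∈ Complex.slitPlane := fun _ hz =>
  one_add_slit (norm_wz_lt h0 h1 (mem_Dk.1 hz))

theorem kf_diff (al be : ℝ) : DifferentiableOn ℂ (kf al be y) LOE.Dk := by
  unfold kf
  exact (cpow_diff (one_sub_diff (wz_diff h0 h1)) (wz_one_sub_slit h0 h1) _).mul
    (cpow_diff (one_add_diff (wz_diff h0 h1)) (wz_one_add_slit h0 h1) _)

theorem ef_diff (e : ℝ) : DifferentiableOn ℂ (ef e y) LOE.Dk := by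
  unfold ef
  exact cpow_diff (one_add_diff (wz_diff h0 h1)) (wz_one_add_slit h0 h1) _

theorem ser_ef (e : ℝ) : ser (ef e y) = toC (Sy y (rp (1 + W) e)) := by
  unfold ef
  rw [ser_cpow (one_add_diff (wz_diff h0 h1)) (by simp [wz_zero]) (wz_one_add_slit h0 h1),
    ser_one_add' (wz_diff h0 h1), ser_wz h0 h1, Sy_rp y constantCoeff_one_add_W,
    toC_rp (by rw [constantCoeff_Sy, constantCoeff_one_add_W]), Sy_add, Sy_one, map_add, map_one]
  rfl

theorem ser_kf (al be : ℝ) : ser (kf al be y) = toC (Sy y (kap al be)) := by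
  unfold kf kap
  rw [ser_mul (cpow_diff (one_sub_diff (wz_diff h0 h1)) (wz_one_sub_slit h0 h1) _)
    (cpow_diff (one_add_diff (wz_diff h0 h1)) (wz_one_add_slit h0 h1) _), Sy_mul, map_mul]
  congr 1
  · rw [ser_cpow (one_sub_diff (wz_diff h0 h1)) (by simp [wz_zero]) (wz_one_sub_slit h0 h1),
      ser_one_sub' (wz_diff h0 h1), ser_wz h0 h1, Sy_rp y constantCoeff_one_sub_W,
      toC_rp (by rw [constantCoeff_Sy, constantCoeff_one_sub_W]), Sy_sub, Sy_one, map_sub,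
      map_one]
    rfl
  · exact ser_ef h0 h1 (-be)

/-- The basic bound. -/
theorem Lf_le_of_bound (q al be e : ℝ) {ρ A : ℝ} (hρ : 0 < ρ) (hρ1 : ρ < 1)
    (hA : ∀ z : ℂ, ‖z‖ = ρ → ‖Kf q z * (kf al be y z * ef e y z)‖ ≤ A) (m N : ℕ) :
    |Lf q N y (kap al be * W ^ m * rp (1 + W) e)| ≤ A * ρ ^ m / ρ ^ N := by
  have hw := wz_diff h0 h1
  have hwm : DifferentiableOn ℂ (fun z => wz y z ^ m) LOE.Dk := hw.pow m
  have hk := kf_diff h0 h1 al be
  have he := ef_diff h0 h1 e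
  have hkw : DifferentiableOn ℂ (fun z => kf al be y z * wz y z ^ m) LOE.Dk := hk.mul hwm
  have hkwe : DifferentiableOn ℂ (fun z => kf al be y z * wz y z ^ m * ef e y z) LOE.Dk :=
    hkw.mul he
  have hF : ser (fun z => Kf q z * (kf al be y z * wz y z ^ m * ef e y z)) =
      toC (Kq q * Sy y (kap al be * W ^ m * rp (1 + W) e)) := by
    rw [ser_mul (Kf_diff q) hkwe, ser_mul hkw he, ser_mul hk hwm, ser_pow hw, ser_Kf,
      ser_kf h0 h1, ser_ef h0 h1, ser_wz h0 h1, Sy_mul, Sy_mul, Sy_pow, map_mul, map_mul,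
      map_mul, map_pow]
    rfl
  have h2 := congrArg (coeff N) hF
  rw [coeff_ser, coeff_toC] at h2
  have h3 : ‖LOE.coef N (fun z => Kf q z * (kf al be y z * wz y z ^ m * ef e y z))‖ ≤
      A * ρ ^ m / ρ ^ N := by
    have hall : DifferentiableOn ℂ
        (fun z => Kf q z * (kf al be y z * wz y z ^ m * ef e y z)) LOE.Dk :=
      (Kf_diff q).mul hkwe
    refine coef_le hall hρ hρ1 ?_ N
    intro z hz
    have hz1 : ‖z‖ < 1 := by rw [hz]; exact hρ1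
    have h4 : Kf q z * (kf al be y z * wz y z ^ m * ef e y z) =
        Kf q z * (kf al be y z * ef e y z) * wz y z ^ m := by ring
    rw [h4, norm_mul, norm_pow]
    have h5 : ‖wz y z‖ ≤ ρ := by
      have := wz_maps h0 h1 hz1
      rwa [hz] at this
    have h6 := hA z hz
    have h7 : 0 ≤ A := (norm_nonneg _).trans h6
    gcongr
  rw [h2] at h3
  rwa [Complex.norm_real] at h3

end flow

/-! ## Compactness -/

theorem Qy_cont {ρ : ℝ} (hρ1 : ρ < 1) :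
    ContinuousOn (fun p : ℝ × ℂ => Qy p.1 p.2) (Icc 0 1 ×ˢ closedBall 0 ρ) := by
  have h : ∀ p : ℝ × ℂ, p ∈ Icc (0 : ℝ) 1 ×ˢ closedBall (0 : ℂ) ρ → 1 - p.2 ≠ 0 := by
    intro p hp
    refine one_sub_ne (lt_of_le_of_lt ?_ hρ1)
    exact mem_closedBall_zero_iff.1 hp.2
  unfold Qy
  have h1 : ContinuousOn (fun p : ℝ × ℂ => (1 + p.2) / (1 - p.2))
      (Icc 0 1 ×ˢ closedBall 0 ρ) :=
    ContinuousOn.div (by fun_prop) (by fun_prop) h
  have h2 : Continuous (fun p : ℝ × ℂ => ((p.1 : ℝ) : ℂ)) :=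
    Complex.continuous_ofReal.comp continuous_fst
  exact (continuousOn_const.sub h2.continuousOn).add (h2.continuousOn.mul (h1.pow 2))

theorem mem_dom {ρ : ℝ} (hρ1 : ρ < 1) {p : ℝ × ℂ}
    (hp : p ∈ Icc (0 : ℝ) 1 ×ˢ closedBall (0 : ℂ) ρ) : 0 ≤ p.1 ∧ p.1 ≤ 1 ∧ ‖p.2‖ < 1 :=
  ⟨hp.1.1, hp.1.2, lt_of_le_of_lt (mem_closedBall_zero_iff.1 hp.2) hρ1⟩

theorem Sq_cont {ρ : ℝ} (hρ1 : ρ < 1) :
    ContinuousOn (fun p : ℝ × ℂ => Sq p.1 p.2) (Icc 0 1 ×ˢ closedBall 0 ρ) := by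
  unfold Sq
  refine (((Qy_cont hρ1).clog ?_).div_const 2).cexp
  intro p hp
  obtain ⟨a, b, c⟩ := mem_dom hρ1 hp
  exact Qy_slit a b c

theorem wz_cont {ρ : ℝ} (hρ1 : ρ < 1) :
    ContinuousOn (fun p : ℝ × ℂ => wz p.1 p.2) (Icc 0 1 ×ˢ closedBall 0 ρ) := by
  unfold wz
  refine ((Sq_cont hρ1).sub continuousOn_const).div ((Sq_cont hρ1).add continuousOn_const) ?_
  intro p hp
  obtain ⟨a, b, c⟩ := mem_dom hρ1 hp
  exact Sq_add_ne a b c

theorem cpow_cont {ρ : ℝ} {h : ℝ × ℂ → ℂ}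
    (hh : ContinuousOn h (Icc (0 : ℝ) 1 ×ˢ closedBall (0 : ℂ) ρ))
    (hs : ∀ p ∈ Icc (0 : ℝ) 1 ×ˢ closedBall (0 : ℂ) ρ, h p ∈ Complex.slitPlane) (a : ℂ) :
    ContinuousOn (fun p => h p ^ a) (Icc (0 : ℝ) 1 ×ˢ closedBall (0 : ℂ) ρ) :=
  hh.cpow continuousOn_const hs

theorem exists_bound (q al be e : ℝ) {ρ : ℝ} (hρ1 : ρ < 1) :
    ∃ A : ℝ, 0 ≤ A ∧ ∀ y : ℝ, 0 ≤ y → y ≤ 1 → ∀ z : ℂ, ‖z‖ = ρ →
      ‖Kf q z * (kf al be y z * ef e y z)‖ ≤ A := by
  have hK : IsCompact (Icc (0 : ℝ) 1 ×ˢ closedBall (0 : ℂ) ρ) :=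
    isCompact_Icc.prod (isCompact_closedBall _ _)
  have hc : ContinuousOn (fun p : ℝ × ℂ => Kf q p.2 * (kf al be p.1 p.2 * ef e p.1 p.2))
      (Icc (0 : ℝ) 1 ×ˢ closedBall (0 : ℂ) ρ) := by
    unfold Kf kf ef
    have hw := wz_cont hρ1
    refine ContinuousOn.mul (ContinuousOn.mul (cpow_cont (by fun_prop) ?_ _)
      (cpow_cont (by fun_prop) ?_ _)) (ContinuousOn.mul (ContinuousOn.mul
      (cpow_cont (continuousOn_const.sub hw) ?_ _) (cpow_cont (continuousOn_const.add hw) ?_ _))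
      (cpow_cont (continuousOn_const.add hw) ?_ _))
    · intro p hp
      exact one_add_slit (mem_dom hρ1 hp).2.2
    · intro p hp
      exact one_sub_slit (mem_dom hρ1 hp).2.2
    · intro p hp
      obtain ⟨a, b, c⟩ := mem_dom hρ1 hp
      exact one_sub_slit (norm_wz_lt a b c)
    · intro p hp
      obtain ⟨a, b, c⟩ := mem_dom hρ1 hp
      exact one_add_slit (norm_wz_lt a b c)
    · intro p hp
      obtain ⟨a, b, c⟩ := mem_dom hρ1 hp
      exact one_add_slit (norm_wz_lt a b c)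
  obtain ⟨A, hA⟩ := hK.exists_bound_of_continuousOn hc
  refine ⟨max A 0, le_max_right _ _, fun y hy0 hy1 z hz => ?_⟩
  exact (hA (y, z) ⟨⟨hy0, hy1⟩, mem_closedBall_zero_iff.2 hz.le⟩).trans (le_max_left _ _)

/-- Uniform bound for the elementary series. -/
theorem Lf_bound_base (q al be e : ℝ) {ρ : ℝ} (hρ : 0 < ρ) (hρ1 : ρ < 1) :
    ∃ A : ℝ, 0 ≤ A ∧ ∀ y : ℝ, 0 ≤ y → y ≤ 1 → ∀ m N : ℕ,
      |Lf q N y (kap al be * W ^ m * rp (1 + W) e)| ≤ A * ρ ^ m / ρ ^ N := by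
  obtain ⟨A, hA0, hA⟩ := exists_bound q al be e hρ1
  exact ⟨A, hA0, fun y h0 h1 m N => Lf_le_of_bound h0 h1 q al be e hρ hρ1 (hA y h0 h1) m N⟩

theorem pow_le_one' {ρ : ℝ} (hρ : 0 < ρ) (hρ1 : ρ < 1) (m : ℕ) : ρ ^ m ≤ 1 :=
  pow_le_one₀ hρ.le hρ1.le

theorem nat_mul_pow_le {ρ : ℝ} (hρ : 0 < ρ) (hρ1 : ρ < 1) (m : ℕ) :
    (m : ℝ) * ρ ^ m ≤ 1 / (1 - ρ) := by
  have h1 : (m : ℝ) * ρ ^ m ≤ ∑ i ∈ Finset.range m, ρ ^ i := by
    have h2 : ∑ i ∈ Finset.range m, ρ ^ m ≤ ∑ i ∈ Finset.range m, ρ ^ i := by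
      refine Finset.sum_le_sum fun i hi => ?_
      exact pow_le_pow_of_le_one hρ.le hρ1.le (Finset.mem_range.1 hi).le
    simpa using h2
  refine h1.trans ?_
  rw [geom_sum_eq hρ1.ne]
  have h3 : 0 < 1 - ρ := by linarith
  rw [le_div_iff₀ h3]
  have h4 : (ρ ^ m - 1) / (ρ - 1) * (1 - ρ) = 1 - ρ ^ m := by
    have h5 : ρ - 1 ≠ 0 := by linarith
    field_simp
    ring
  rw [h4]
  have := pow_pos hρ m
  linarith

theorem pc_Vc {al be : ℝ} (h1 : 1 ≤ be) (h2 : be ≤ 2 * al + 3 * be - 1) :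
    (∀ m, 1 ≤ pc al be m) ∧ (∀ m, pc al be m ≤ pc al be (m + 1)) ∧
      (∀ m, pc al be m ≤ Vc al be m) ∧ (∀ m, pc al be m ≤ Vc al be (m + 2)) := by
  have hm : Monotone (pc al be) := by
    unfold pc
    exact mono_bin (by rw [abs_le]; constructor <;> linarith)
  have h1' : ∀ m, 1 ≤ pc al be m := fun m => by
    have := hm (Nat.zero_le m)
    rwa [pc_zero] at this
  refine ⟨h1', fun m => hm (Nat.le_succ m), ?_, ?_⟩
  · intro m
    rcases m with _ | _ | m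
    · rw [Vc_zero, pc_zero]
    · rw [Vc_one_eq_pc]
      have := h1' 0
      linarith
    · rw [Vc_eq_pc]
      have := h1' m
      have := h1' (m + 1)
      linarith
  · intro m
    rw [Vc_eq_pc]
    have := h1' (m + 1)
    have := h1' (m + 2)
    linarith

/-- Uniform bounds. -/
theorem Lf_bounds (q al be : ℝ) (h1 : 1 ≤ be) (h2 : be ≤ 2 * al + 3 * be - 1)
    {ρ : ℝ} (hρ : 0 < ρ) (hρ1 : ρ < 1) :
    ∃ A : ℝ, 0 ≤ A ∧ ∀ y : ℝ, 0 ≤ y → y ≤ 1 → ∀ m N : ℕ,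
      |Lf q N y (hS al be m)| ≤ A / ρ ^ N ∧ |Lf q N y (gS al be m)| ≤ A / ρ ^ N ∧
        |Lf q N y (tS al be m)| ≤ A / ρ ^ N := by
  obtain ⟨A0, hA0, H0⟩ := Lf_bound_base q al be 0 hρ hρ1
  obtain ⟨A1, hA1, H1⟩ := Lf_bound_base q al be (-1) hρ hρ1
  obtain ⟨A2, hA2, H2⟩ := Lf_bound_base q al be (-2) hρ hρ1
  have hq : 0 < 1 - ρ := by linarith
  set D : ℝ := 1 / (1 - ρ) with hD
  have hD0 : 0 < D := by positivity
  refine ⟨2 * A0 + A1 + (|2 * (al + be)| * A2 + |2 * al| * A2 + 2 * A1 * D) , by positivity, ?_⟩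
  intro y hy0 hy1 m N
  have hρN : 0 < ρ ^ N := pow_pos hρ N
  have hp : ∀ m, ρ ^ m ≤ 1 := pow_le_one' hρ hρ1
  -- elementary bounds
  have e0 : ∀ m, |Lf q N y (hS al be m)| ≤ A0 / ρ ^ N := by
    intro m
    have h := H0 y hy0 hy1 m N
    rw [rp_zero constantCoeff_one_add_W, mul_one] at h
    refine h.trans ?_
    gcongr
    have := hp m
    nlinarith
  have e1 : ∀ m, |Lf q N y (kap al be * W ^ m * rp (1 + W) (-1))| ≤ A1 * ρ ^ m / ρ ^ N :=
    fun m => H1 y hy0 hy1 m N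
  have e2 : ∀ m, |Lf q N y (kap al be * W ^ m * rp (1 + W) (-2))| ≤ A2 / ρ ^ N := by
    intro m
    refine (H2 y hy0 hy1 m N).trans ?_
    gcongr
    have := hp m
    nlinarith
  refine ⟨?_, ?_, ?_⟩
  · refine (e0 m).trans ?_
    refine div_le_div_of_nonneg_right ?_ hρN.le
    have : 0 ≤ |2 * (al + be)| * A2 + |2 * al| * A2 + 2 * A1 * D := by positivity
    linarith
  · rw [gS_two, Lf_add, Lf_add, Lf_C_mul, Lf_C_mul, Lf_C_mul]
    have h3 : kap al be * W ^ m * ((1 - W) * rp (1 + W) (-1)) =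
        kap al be * W ^ m * rp (1 + W) (-1) - kap al be * W ^ (m + 1) * rp (1 + W) (-1) := by
      rw [pow_succ]
      ring
    rw [h3, Lf_sub]
    have b1 := e2 m
    have b2 := e2 (m + 1)
    have b3 := e1 m
    have b4 := e1 (m + 1)
    have b5 : (m : ℝ) * |Lf q N y (kap al be * W ^ m * rp (1 + W) (-1)) -
        Lf q N y (kap al be * W ^ (m + 1) * rp (1 + W) (-1))| ≤ 2 * A1 * D / ρ ^ N := by
      have c1 : |Lf q N y (kap al be * W ^ m * rp (1 + W) (-1)) -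
        Lf q N y (kap al be * W ^ (m + 1) * rp (1 + W) (-1))| ≤ 2 * A1 * ρ ^ m / ρ ^ N := by
        refine (abs_sub _ _).trans ?_
        have c2 : A1 * ρ ^ (m + 1) / ρ ^ N ≤ A1 * ρ ^ m / ρ ^ N := by
          have : ρ ^ (m + 1) ≤ ρ ^ m := pow_le_pow_of_le_one hρ.le hρ1.le (Nat.le_succ m)
          gcongr
        have c3 : 2 * A1 * ρ ^ m / ρ ^ N = A1 * ρ ^ m / ρ ^ N + A1 * ρ ^ m / ρ ^ N := by ring
        linarith
      calc (m : ℝ) * |_| ≤ (m : ℝ) * (2 * A1 * ρ ^ m / ρ ^ N) := by gcongr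
        _ = 2 * A1 * ((m : ℝ) * ρ ^ m) / ρ ^ N := by ring
        _ ≤ 2 * A1 * D / ρ ^ N := by
          have := nat_mul_pow_le hρ hρ1 m
          gcongr
    calc |_| ≤ |2 * (al + be)| * (A2 / ρ ^ N) + |2 * al| * (A2 / ρ ^ N) +
          2 * A1 * D / ρ ^ N := by
          refine (abs_add_le _ _).trans (add_le_add ((abs_add_le _ _).trans (add_le_add ?_ ?_)) ?_)
          · rw [abs_mul]
            gcongr
          · rw [abs_mul]
            gcongr
          · rw [abs_mul, Nat.abs_cast]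
            exact b5
      _ = (|2 * (al + be)| * A2 + |2 * al| * A2 + 2 * A1 * D) / ρ ^ N := by ring
      _ ≤ _ := by
        refine div_le_div_of_nonneg_right ?_ hρN.le
        linarith
  · obtain ⟨v1, v2, v3, v4⟩ := pc_Vc h1 h2
    unfold tS
    rw [Lf_sub, Lf_add, Lf_C_mul, Lf_C_mul]
    have b1 := e0 m
    have b2 := e0 (m + 1)
    have b3 : |Lf q N y (rS al be (m + 1))| ≤ A1 / ρ ^ N := by
      refine (e1 (m + 1)).trans ?_
      gcongr
      have := hp (m + 1)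
      nlinarith
    have c1 : |pc al be m / Vc al be m| ≤ 1 := by
      have a1 := v1 m
      have a2 := v3 m
      rw [abs_of_nonneg (div_nonneg (by linarith) (by linarith)), div_le_one (by linarith)]
      exact a2
    have c2 : |(if m = 0 then 0 else pc al be (m - 1)) / Vc al be (m + 1)| ≤ 1 := by
      rcases m with _ | m
      · simp
      · rw [if_neg (Nat.succ_ne_zero m)]
        have a1 := v1 m
        have a2 := v4 m
        have a3 : m + 1 - 1 = m := rfl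
        rw [a3, abs_of_nonneg (div_nonneg (by linarith) (by linarith)), div_le_one (by linarith)]
        exact a2
    calc |_| ≤ 1 * (A0 / ρ ^ N) + 1 * (A0 / ρ ^ N) + A1 / ρ ^ N := by
          refine (abs_sub _ _).trans (add_le_add ((abs_add_le _ _).trans (add_le_add ?_ ?_)) b3)
          · rw [abs_mul]
            gcongr
          · rw [abs_mul]
            gcongr
      _ = (2 * A0 + A1) / ρ ^ N := by ring
      _ ≤ _ := by
        refine div_le_div_of_nonneg_right ?_ hρN.le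
        have : 0 ≤ |2 * (al + be)| * A2 + |2 * al| * A2 + 2 * A1 * D := by positivity
        linarith

end Pool.Agent.KIM.LIM
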