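import Pool.Agent.KIM.LIMA
import Pool.Agent.KIM.LIMC
import Pool.Agent.KIM.ANB

/-!
# KIM / LIME: uniform bounds for the coefficients `cc` of bounded functions of class S
-/

set_option autoImplicit false

open Metric Set Filter Topology PowerSeries
open Pool.Agent.Helper42.KoebeMeans (ClassS)

namespace Pool.Agent.KIM.LIM

theorem dslope_diff {g : ℂ → ℂ} (hg : ClassS g) : DifferentiableOn ℂ (dslope g 0) LOE.Dk := by
  unfold LOE.Dk
  exact (Complex.differentiableOn_dslope (ball_mem_nhds (0 : ℂ) one_pos)).2 hg.1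

theorem serD_eq {g : ℂ → ℂ} (hg : ClassS g) : serD g = ser (dslope g 0) := by
  have h1 : ser g = X * ser (dslope g 0) := by
    have hid : DifferentiableOn ℂ (fun z : ℂ => z) LOE.Dk := differentiableOn_id
    rw [← ser_id, ← ser_mul hid (dslope_diff hg)]
    refine ser_congr fun z _ => ?_
    have h2 := sub_smul_dslope g 0 z
    rw [hg.2.2.1] at h2
    simpa using h2.symm
  ext n
  have h3 := congrArg (coeff (n + 1)) h1
  rw [coeff_succ_X_mul, coeff_ser] at h3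
  rw [← h3]
  unfold serD
  rw [coeff_mk]

theorem serD_add_eul' (g : ℂ → ℂ) : serD g + eul (serD g) = ser (deriv g) := by
  ext n
  rw [map_add, coeff_eul, coeff_ser]
  unfold serD LOE.coef
  rw [coeff_mk, iteratedDeriv_succ', Nat.factorial_succ]
  push_cast
  have h1 : ((n : ℂ) + 1) ≠ 0 := by exact_mod_cast n.succ_ne_zero
  have h2 : (n.factorial : ℂ) ≠ 0 := by exact_mod_cast n.factorial_ne_zero
  field_simp
  ring

theorem rpow_le_max {c C x a : ℝ} (hc : 0 < c) (hx1 : c ≤ x) (hx2 : x ≤ C) :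
    x ^ a ≤ max (c ^ a) (C ^ a) := by
  have hx : 0 < x := lt_of_lt_of_le hc hx1
  rcases le_total 0 a with ha | ha
  · exact (Real.rpow_le_rpow hx.le hx2 ha).trans (le_max_right _ _)
  · exact (Real.rpow_le_rpow_of_nonpos hc hx1 ha).trans (le_max_left _ _)

theorem deriv_le {g : ℂ → ℂ} (hg : ClassS g) {C : ℝ} (hC : ∀ z ∈ LOE.Dk, ‖g z‖ < C)
    {ρ : ℝ} (hρ1 : ρ < 1) {z : ℂ} (hz : ‖z‖ = ρ) : ‖deriv g z‖ ≤ C / ((1 - ρ) / 2) := by
  have hr : 0 < (1 - ρ) / 2 := by linarith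
  have hsub : closedBall z ((1 - ρ) / 2) ⊆ ball (0 : ℂ) 1 := by
    intro w hw
    rw [mem_closedBall, dist_eq_norm] at hw
    rw [mem_ball_zero_iff]
    have h1 : w = (w - z) + z := by ring
    calc ‖w‖ = ‖(w - z) + z‖ := by rw [← h1]
      _ ≤ ‖w - z‖ + ‖z‖ := norm_add_le _ _
      _ < 1 := by rw [hz]; linarith
  have hd : DiffContOnCl ℂ g (ball z ((1 - ρ) / 2)) := by
    apply DifferentiableOn.diffContOnCl
    rw [closure_ball _ hr.ne']
    exact hg.1.mono hsub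
  refine Complex.norm_deriv_le_of_forall_mem_sphere_norm_le hr hd fun w hw => ?_
  exact (hC w (hsub (sphere_subset_closedBall hw))).le

theorem cc_bound (al be : ℝ) (hbe : 0 ≤ be) {C ρ : ℝ} (hC0 : 0 < C) (hρ : 0 < ρ) (hρ1 : ρ < 1) :
    ∃ B : ℝ, 0 ≤ B ∧ ∀ g : ℂ → ℂ, ClassS g → (∀ z ∈ LOE.Dk, ‖g z‖ < C) →
      ∀ m, ‖cc al be g m‖ ≤ B / ρ ^ m := by
  obtain ⟨c, hc, hlow⟩ := lower_bdd hC0
  have hr : 0 < (1 - ρ) / 2 := by linarith
  refine ⟨max (c ^ al) (C ^ al) * (C / ((1 - ρ) / 2)) ^ be, by positivity, fun g hg hb m => ?_⟩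
  have h0D : (0 : ℂ) ∈ LOE.Dk := mem_Dk.2 (by simp)
  have hd1 := dslope_diff hg
  obtain ⟨G1, hG1, -, hn1, hs1⟩ := exists_branch hd1
    (fun z hz h => by
      have := hlow g hg hb z hz
      rw [h, norm_zero] at this
      linarith) (by rw [dslope_same, hg.2.2.2]) al
  have hd2 : DifferentiableOn ℂ (deriv g) LOE.Dk := hg.1.deriv isOpen_Dk
  obtain ⟨G2, hG2, -, hn2, hs2⟩ := exists_branch hd2
    (fun z hz => deriv_ne_zero_of_classS hg hz) hg.2.2.2 be
  have e1 : ser G1 = rp (serD g) (al : ℂ) := by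
    rw [serD_eq hg]
    ext n
    rw [coeff_ser, hs1]
    rfl
  have e2 : ser G2 = rp (serD g + eul (serD g)) (be : ℂ) := by
    rw [serD_add_eul']
    ext n
    rw [coeff_ser, hs2]
    rfl
  have e3 : cc al be g m = LOE.coef m (fun z => G1 z * G2 z) := by
    rw [← coeff_ser, ser_mul hG1 hG2, e1, e2]
    rfl
  rw [e3]
  have hG : DifferentiableOn ℂ (fun z => G1 z * G2 z) LOE.Dk := hG1.mul hG2
  refine coef_le hG hρ hρ1 (fun z hz => ?_) m
  have hzD : z ∈ LOE.Dk := mem_Dk.2 (by rw [hz]; exact hρ1)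
  rw [norm_mul, hn1 z hzD, hn2 z hzD]
  have b1 := rpow_le_max (a := al) hc (hlow g hg hb z hzD) (norm_dslope_le_of_bdd hg hb hzD)
  have b2 : ‖deriv g z‖ ^ be ≤ (C / ((1 - ρ) / 2)) ^ be :=
    Real.rpow_le_rpow (norm_nonneg _) (deriv_le hg hb hρ1 hz) hbe
  exact mul_le_mul b1 b2 (by positivity) (by positivity)

end Pool.Agent.KIM.LIM
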