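import Pool.Agent.KIM.CER
import Pool.Agent.KIM.LIMD

/-!
# KIM / LIMF: the certificate with errors
-/

set_option autoImplicit false

open Finset PowerSeries

namespace Pool.Agent.KIM.LIM

theorem sum_bound {b : ℕ → ℂ} {B ρ : ℝ} (hB : 0 ≤ B) (hρ : 0 < ρ) (hρ1 : ρ < 1)
    (hb : ∀ m, ‖b m‖ ≤ B / ρ ^ m) (m : ℕ) :
    ‖∑ n ∈ range m, b n‖ ≤ (B / (1 - ρ)) / ρ ^ m := by
  have hq : 0 < 1 - ρ := by linarith
  induction m with
  | zero =>
    simp only [range_zero, sum_empty, norm_zero, pow_zero, div_one]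
    positivity
  | succ m ih =>
    rw [sum_range_succ]
    refine (norm_add_le _ _).trans ((add_le_add ih (hb m)).trans ?_)
    have hm : 0 < ρ ^ m := pow_pos hρ m
    have h1 : (B / (1 - ρ)) / ρ ^ m + B / ρ ^ m = (B / ((1 - ρ) * ρ ^ (m + 1))) * ((2 - ρ) * ρ) := by
      rw [pow_succ]
      field_simp
      ring
    have h2 : (B / (1 - ρ)) / ρ ^ (m + 1) = (B / ((1 - ρ) * ρ ^ (m + 1))) * 1 := by
      rw [mul_one, div_div]
    rw [h1, h2]
    have h3 : (2 - ρ) * ρ ≤ 1 := by nlinarith [sq_nonneg (1 - ρ)]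
    have h4 : 0 ≤ B / ((1 - ρ) * ρ ^ (m + 1)) := by positivity
    exact mul_le_mul_of_nonneg_left h3 h4

theorem Pc_facts {al be : ℝ} (h1 : 1 ≤ be) (h2 : be ≤ 2 * al + 3 * be - 1) :
    (∀ m, 1 ≤ Pc al be (m + 1)) ∧ (∀ m, Pc al be m ≤ Pc al be (m + 1)) ∧
      (∀ m, Pc al be (m + 1) ≤ Vc al be m) ∧ (∀ m, pc al be (m + 1) ≤ Pc al be (m + 2)) ∧
      ∀ m, 0 ≤ Pc al be m := by
  have hm : Monotone fun m => Pc al be (m + 1) := by
    have : (fun m => Pc al be (m + 1)) =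
        fun m => coeff m (bin (be - 1) (2 * al + 3 * be)) := by
      ext m
      rfl
    rw [this]
    exact mono_bin (by rw [abs_le]; constructor <;> linarith)
  have h1' : ∀ m, 1 ≤ Pc al be (m + 1) := fun m => by
    have := hm (Nat.zero_le m)
    simp only [zero_add, Pc_one] at this
    exact this
  have h0 : Pc al be 0 = 0 := rfl
  have hnn : ∀ m, 0 ≤ Pc al be m := fun m => by
    rcases m with _ | m
    · exact h0.ge
    · linarith [h1' m]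
  refine ⟨h1', ?_, ?_, ?_, hnn⟩
  · intro m
    rcases m with _ | m
    · rw [h0]
      linarith [h1' 0]
    · exact hm (Nat.le_succ m)
  · intro m
    rw [Vc_eq]
    linarith [hnn m]
  · intro m
    rw [Pc_eq]
    have := (pc_Vc h1 h2).1 m
    linarith

/-- The certificate with errors. -/
theorem Qf_ge (N : ℕ) {al be : ℝ} (h1 : 1 ≤ be) (h2 : be ≤ 2 * al + 3 * be - 1)
    (H R G : ℕ → ℝ) (hR0 : ∀ m, N < m → R m = 0) (hG0 : ∀ m, N < m → G m = 0)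
    (hH : ∀ m, H m = R m + R (m + 1))
    (hG : ∀ m : ℕ, G (m + 1) + G m = ((m : ℝ) + 2 * (al + be)) * H m -
      ((m : ℝ) + 1) * H (m + 1) - 2 * (be - 1) * R (m + 1)) {η : ℝ} (hη : 0 ≤ η)
    (hGp : ∀ m, 1 ≤ m → -η ≤ G m) (hC : ∀ j, 1 ≤ j → -η ≤ tc al be H R j)
    {b : ℕ → ℂ} {B ρ : ℝ} (hB : 0 ≤ B) (hρ : 0 < ρ) (hρ1 : ρ < 1)
    (hb : ∀ m, ‖b m‖ ≤ B / ρ ^ m) :
    -(η * N * (4 * (B / (1 - ρ)) ^ 2 + 8 * (be - 1) * (B / (1 - ρ) / (1 - ρ)) ^ 2) /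
      (ρ ^ (N + 2)) ^ 2) ≤
    Qf N al be (fun m => H m / Vc al be m)
      (fun m => 2 * (al + be) * (H m / Vc al be m) - G m / Vc al be m) b := by
  rw [Qf_eq N h1 h2 H R G hR0 hG0 hH hG b]
  have hq : 0 < 1 - ρ := by linarith
  set B1 : ℝ := B / (1 - ρ) with hB1
  set B2 : ℝ := B1 / (1 - ρ) with hB2
  have hB1' : 0 ≤ B1 := by positivity
  have hB2' : 0 ≤ B2 := by positivity
  obtain ⟨p1, p2, p3, p4, p5⟩ := Pc_facts h1 h2
  obtain ⟨v1, v2, v3, v4⟩ := pc_Vc h1 h2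
  have hTb : ∀ m, ‖TT b m‖ ≤ B1 / ρ ^ m := fun m => sum_bound hB hρ hρ1 hb m
  have hWb : ∀ m, ‖WW b m‖ ≤ B2 / ρ ^ m := fun m => sum_bound hB1' hρ hρ1 hTb m
  have hmono : ∀ {D : ℝ}, 0 ≤ D → ∀ {m : ℕ}, m ≤ N + 2 → D / ρ ^ m ≤ D / ρ ^ (N + 2) := by
    intro D hD m hm
    have h3 : ρ ^ (N + 2) ≤ ρ ^ m := pow_le_pow_of_le_one hρ.le hρ1.le hm
    have h4 : 0 < ρ ^ (N + 2) := pow_pos hρ _
    gcongr
  have hV : ∀ m, 0 < Vc al be m := fun m => by linarith [v1 m, v3 m]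
  -- generic two-term bound
  have htwo : ∀ {D : ℝ}, 0 ≤ D → ∀ (F : ℕ → ℂ), (∀ m, ‖F m‖ ≤ D / ρ ^ m) → ∀ {m : ℕ},
      m + 1 ≤ N + 2 → ∀ {c : ℝ}, 0 ≤ c → c ≤ 1 →
      ‖F m + ((c : ℝ) : ℂ) * F (m + 1)‖ ^ 2 ≤ 4 * D ^ 2 / (ρ ^ (N + 2)) ^ 2 := by
    intro D hD F hF m hm c hc0 hc1
    have h3 : ‖F m + ((c : ℝ) : ℂ) * F (m + 1)‖ ≤ 2 * (D / ρ ^ (N + 2)) := by
      refine (norm_add_le _ _).trans ?_
      have h4 : ‖((c : ℝ) : ℂ) * F (m + 1)‖ ≤ D / ρ ^ (N + 2) := by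
        rw [norm_mul, Complex.norm_real, Real.norm_of_nonneg hc0]
        calc c * ‖F (m + 1)‖ ≤ 1 * ‖F (m + 1)‖ := by gcongr
          _ = ‖F (m + 1)‖ := one_mul _
          _ ≤ D / ρ ^ (m + 1) := hF (m + 1)
          _ ≤ _ := hmono hD hm
      have h5 : ‖F m‖ ≤ D / ρ ^ (N + 2) := (hF m).trans (hmono hD (by omega))
      linarith
    calc ‖F m + ((c : ℝ) : ℂ) * F (m + 1)‖ ^ 2 ≤ (2 * (D / ρ ^ (N + 2))) ^ 2 := by gcongr
      _ = 4 * D ^ 2 / (ρ ^ (N + 2)) ^ 2 := by ring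
  -- one term
  have hterm : ∀ {g c X Y : ℝ}, -η ≤ g → 0 ≤ c → c ≤ 1 → 0 ≤ X → X ≤ Y →
      -(η * Y) ≤ g * c * X := by
    intro g c X Y hg hc0 hc1 hX hXY
    have h3 : -(η * X) ≤ g * c * X := by
      have h4 : -η ≤ g * c := by
        rcases le_total 0 g with h | h
        · exact le_trans (by linarith) (mul_nonneg h hc0)
        · nlinarith
      nlinarith
    nlinarith
  have hcard1 : ((Icc 1 N).card : ℝ) = N := by simp
  have hcard2 : ((Icc 2 (N + 1)).card : ℝ) = N := by simp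
  have s1 : -(η * (4 * B1 ^ 2 / (ρ ^ (N + 2)) ^ 2)) * N ≤
      ∑ m ∈ Icc 1 N, G m * Pc al be (m + 1) / (Vc al be m * Pc al be m) *
        ‖TT b m + ((Pc al be m / Pc al be (m + 1) : ℝ) : ℂ) * TT b (m + 1)‖ ^ 2 := by
    rw [← hcard1, mul_comm, ← nsmul_eq_mul]
    refine card_nsmul_le_sum _ _ _ fun m hm => ?_
    obtain ⟨hm1, hm2⟩ := mem_Icc.1 hm
    obtain ⟨k, rfl⟩ : ∃ k, m = k + 1 := ⟨m - 1, by omega⟩
    have a1 := p1 k
    have a2 := p2 (k + 1)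
    have a3 := p3 (k + 1)
    have a4 := hV (k + 1)
    have e : G (k + 1) * Pc al be (k + 1 + 1) / (Vc al be (k + 1) * Pc al be (k + 1)) =
        G (k + 1) * (Pc al be (k + 1 + 1) / (Vc al be (k + 1) * Pc al be (k + 1))) := by ring
    rw [e]
    refine hterm (hGp _ hm1) ?_ ?_ (by positivity)
      (htwo hB1' (TT b) hTb (by omega) ?_ ?_)
    · exact div_nonneg (by linarith) (mul_nonneg a4.le (by linarith))
    · rw [div_le_one (mul_pos a4 (by linarith))]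
      nlinarith
    · exact div_nonneg (by linarith) (by linarith)
    · rw [div_le_one (by linarith)]
      exact a2
  have s2 : -(η * (2 * (be - 1) * (4 * B2 ^ 2 / (ρ ^ (N + 2)) ^ 2))) * N ≤
      ∑ m ∈ Icc 2 (N + 1), 2 * (be - 1) * tc al be H R (m - 1) * pc al be (m - 1) /
        (Pc al be m * pc al be (m - 2)) *
        ‖WW b m + ((pc al be (m - 2) / pc al be (m - 1) : ℝ) : ℂ) * WW b (m + 1)‖ ^ 2 := by
    rw [← hcard2, mul_comm, ← nsmul_eq_mul]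
    refine card_nsmul_le_sum _ _ _ fun m hm => ?_
    obtain ⟨hm1, hm2⟩ := mem_Icc.1 hm
    obtain ⟨k, rfl⟩ : ∃ k, m = k + 2 := ⟨m - 2, by omega⟩
    have a1 := p4 k
    have a2 := v1 k
    have a3 := v2 k
    have e1 : k + 2 - 1 = k + 1 := rfl
    have e2 : k + 2 - 2 = k := rfl
    rw [e1, e2]
    have e : 2 * (be - 1) * tc al be H R (k + 1) * pc al be (k + 1) /
        (Pc al be (k + 2) * pc al be k) *
        ‖WW b (k + 2) + ((pc al be k / pc al be (k + 1) : ℝ) : ℂ) * WW b (k + 2 + 1)‖ ^ 2 =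
        tc al be H R (k + 1) * (pc al be (k + 1) / (Pc al be (k + 2) * pc al be k)) *
        (2 * (be - 1) *
        ‖WW b (k + 2) + ((pc al be k / pc al be (k + 1) : ℝ) : ℂ) * WW b (k + 2 + 1)‖ ^ 2) := by
      ring
    rw [e]
    have a5 : 0 < Pc al be (k + 2) := by linarith [p1 (k + 1)]
    refine hterm (hC _ (by omega)) ?_ ?_ (mul_nonneg (by linarith) (by positivity)) ?_
    · exact div_nonneg (by linarith) (mul_nonneg a5.le (by linarith))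
    · rw [div_le_one (mul_pos a5 (by linarith))]
      nlinarith
    · refine mul_le_mul_of_nonneg_left ?_ (by linarith)
      refine htwo hB2' (WW b) hWb (by omega) ?_ ?_
      · exact div_nonneg (by linarith) (by linarith)
      · rw [div_le_one (by linarith)]
        exact a3
  have e : -(η * N * (4 * B1 ^ 2 + 8 * (be - 1) * B2 ^ 2) / (ρ ^ (N + 2)) ^ 2) =
      -(η * (4 * B1 ^ 2 / (ρ ^ (N + 2)) ^ 2)) * N +
      -(η * (2 * (be - 1) * (4 * B2 ^ 2 / (ρ ^ (N + 2)) ^ 2))) * N := by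
    ring
  rw [e]
  exact add_le_add s1 s2

end Pool.Agent.KIM.LIM
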