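import Pool.Agent.KIM.PRI
import Pool.Agent.KIM.LIME
import Pool.Agent.KIM.LIMF

/-!
# KIM / LIMG: application of the principle to truncated weights
-/

set_option autoImplicit false

open Finset PowerSeries
open Pool.Agent.Helper42.KoebeMeans (ClassS)

namespace Pool.Agent.KIM.LIM

/-- Truncated weighted functionals. -/
noncomputable def Hn (q : ℝ) (w : ℕ → ℝ) (M : ℕ) (F : ℝ⟦X⟧) (y : ℝ) : ℝ :=
  ∑ N ∈ range (M + 1), w N * Lf q N y F

section Hn

variable (q : ℝ) (w : ℕ → ℝ) (M : ℕ)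

theorem Hn_add (F G : ℝ⟦X⟧) (y : ℝ) : Hn q w M (F + G) y = Hn q w M F y + Hn q w M G y := by
  unfold Hn
  rw [← sum_add_distrib]
  refine sum_congr rfl fun N _ => ?_
  rw [Lf_add]
  ring

theorem Hn_sub (F G : ℝ⟦X⟧) (y : ℝ) : Hn q w M (F - G) y = Hn q w M F y - Hn q w M G y := by
  unfold Hn
  rw [← sum_sub_distrib]
  refine sum_congr rfl fun N _ => ?_
  rw [Lf_sub]
  ring

theorem Hn_C_mul (c : ℝ) (F : ℝ⟦X⟧) (y : ℝ) : Hn q w M (C c * F) y = c * Hn q w M F y := by
  unfold Hn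
  rw [mul_sum]
  refine sum_congr rfl fun N _ => ?_
  rw [Lf_C_mul]
  ring

theorem Hn_gS_of_lt {m : ℕ} (h : M < m) (al be y : ℝ) : Hn q w M (gS al be m) y = 0 := by
  unfold Hn
  refine sum_eq_zero fun N hN => ?_
  rw [Lf_gS_of_lt q (by have := mem_range.1 hN; omega), mul_zero]

theorem Hn_rS_of_lt {m : ℕ} (h : M < m) (al be y : ℝ) : Hn q w M (rS al be m) y = 0 := by
  unfold Hn
  refine sum_eq_zero fun N hN => ?_
  rw [Lf_rS_of_lt q (by have := mem_range.1 hN; omega), mul_zero]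

theorem hasDerivAt_Hn (F : ℝ⟦X⟧) (t : ℝ) :
    HasDerivAt (fun t => Hn q w M F (Real.exp (-t))) (-Hn q w M (eul F) (Real.exp (-t))) t := by
  unfold Hn
  have h : HasDerivAt (fun t => ∑ N ∈ range (M + 1), w N * Lf q N (Real.exp (-t)) F)
      (∑ N ∈ range (M + 1), w N * (-Lf q N (Real.exp (-t)) (eul F))) t :=
    HasDerivAt.fun_sum fun N _ => (hasDerivAt_Lf q N F t).const_mul (w N)
  convert h using 1
  rw [← sum_neg_distrib]
  refine sum_congr rfl fun N _ => by ring

theorem continuous_Hn (F : ℝ⟦X⟧) : Continuous fun y => Hn q w M F y := by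
  unfold Hn
  exact continuous_finsetSum _ fun N _ => (continuous_Lf q N F).const_smul (w N)

end Hn

theorem tail_ge {a : ℕ → ℝ} {D z : ℝ} (hz0 : 0 ≤ z) (hz1 : z < 1)
    (ha : ∀ N, |a N| ≤ D * z ^ N) (h : 0 ≤ ∑' N, a N) (M : ℕ) :
    -(D * z ^ (M + 1) / (1 - z)) ≤ ∑ N ∈ range (M + 1), a N := by
  have hs : Summable a := by
    refine Summable.of_norm_bounded (g := fun N => D * z ^ N) ?_ ha
    exact (summable_geometric_of_lt_one hz0 hz1).mul_left D
  have h1 := hs.sum_add_tsum_nat_add (M + 1)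
  have h2 : ‖∑' i, a (i + (M + 1))‖ ≤ D * z ^ (M + 1) / (1 - z) := by
    refine tsum_of_norm_bounded (g := fun i => D * z ^ (M + 1) * z ^ i) ?_ fun i => ?_
    · have := (hasSum_geometric_of_lt_one hz0 hz1).mul_left (D * z ^ (M + 1))
      rwa [← div_eq_mul_inv] at this
    · refine (ha _).trans (le_of_eq ?_)
      rw [pow_add]
      ring
  have h3 := (abs_le.1 h2).2
  linarith

theorem cc_zero (al be : ℝ) (g : ℂ → ℂ) : cc al be g 0 = 1 := by
  unfold cc ph
  rw [coeff_zero_eq_constantCoeff_apply, map_mul, constantCoeff_rp, constantCoeff_rp, mul_one]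

/-- Adding a function of `t` to `s_0` adds its derivative times `|b_0|^2` to the form. -/
theorem Qf_add_zero (N : ℕ) (al be : ℝ) (s s' : ℕ → ℝ) (e e' : ℝ) (b : ℕ → ℂ) :
    Qf N al be (fun m => s m + if m = 0 then e else 0)
      (fun m => s' m + if m = 0 then e' else 0) b = Qf N al be s s' b + e' * ‖b 0‖ ^ 2 := by
  unfold Qf
  rw [sum_range_succ', sum_range_succ']
  simp
  ring

end Pool.Agent.KIM.LIM
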