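import Pool.Agent.KIM.LIMG

/-!
# KIM / LIMH: the bound with truncated weights and an error term
-/

set_option autoImplicit false

open Finset PowerSeries
open Pool.Agent.Helper42.KoebeMeans (ClassS)

namespace Pool.Agent.KIM.LIM

theorem truncated {q al be : ℝ} (h1 : 1 ≤ be) (h2 : be ≤ 2 * al + 3 * be - 1) {w : ℕ → ℝ}
    {Aw ρ : ℝ} (hρ : 0 < ρ) (hρ1 : ρ < 1) (hAw : 0 ≤ Aw) (hw : ∀ N, |w N| ≤ Aw * (ρ ^ 4) ^ N)
    (hG : ∀ y : ℝ, 0 < y → y ≤ 1 → ∀ m, 1 ≤ m → 0 ≤ ∑' N, w N * Lf q N y (gS al be m))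
    (hC : ∀ y : ℝ, 0 < y → y ≤ 1 → ∀ j, 1 ≤ j → 0 ≤ ∑' N, w N * Lf q N y (tS al be j))
    {f : ℂ → ℂ} (hf : ClassS f) {T : ℝ} (hT : 0 < T) (hb : ∀ z ∈ LOE.Dk, ‖f z‖ < Real.exp T) :
    ∃ E : ℝ, 0 ≤ E ∧ ∀ M : ℕ,
      ∑ m ∈ range (M + 1), Hn q w M (hS al be m) 1 / Vc al be m * ‖cc al be f m‖ ^ 2 ≤
        Hn q w M (hS al be 0) (Real.exp (-T)) + E * ((M : ℝ) * ρ ^ M) * T := by
  obtain ⟨A, hA0, hA⟩ := Lf_bounds q al be h1 h2 hρ hρ1
  obtain ⟨B, hB0, hB⟩ := cc_bound al be (by linarith) (Real.exp_pos T) hρ hρ1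
  have hq : 0 < 1 - ρ := by linarith
  have hz0 : 0 ≤ ρ ^ 3 := by positivity
  have hz1 : ρ ^ 3 < 1 := pow_lt_one₀ hρ.le hρ1 (by norm_num)
  have hz1' : 0 < 1 - ρ ^ 3 := by linarith
  set K : ℝ := 4 * (B / (1 - ρ)) ^ 2 + 8 * (be - 1) * (B / (1 - ρ) / (1 - ρ)) ^ 2 with hK
  have hK0 : 0 ≤ K := by
    have : 0 ≤ be - 1 := by linarith
    positivity
  refine ⟨Aw * A / (1 - ρ ^ 3) * K / ρ, by positivity, fun M => ?_⟩
  set η : ℝ := Aw * A * (ρ ^ 3) ^ (M + 1) / (1 - ρ ^ 3) with hη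
  have hη0 : 0 ≤ η := by positivity
  set δ : ℝ := η * M * K / (ρ ^ (M + 2)) ^ 2 with hδ
  have hδ0 : 0 ≤ δ := by positivity
  have hδe : δ = Aw * A / (1 - ρ ^ 3) * K / ρ * ((M : ℝ) * ρ ^ M) := by
    rw [hδ, hη]
    have e1 : (ρ ^ 3) ^ (M + 1) = ρ ^ (3 * M + 3) := by
      rw [← pow_mul]
      ring_nf
    have e2 : (ρ ^ (M + 2)) ^ 2 = ρ ^ (2 * M + 4) := by
      rw [← pow_mul]
      ring_nf
    have e3 : ρ ^ (3 * M + 3) * ρ = ρ ^ M * ρ ^ (2 * M + 4) := by
      rw [← pow_succ, ← pow_add]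
      ring_nf
    rw [e1, e2]
    have e4 : ρ ^ (2 * M + 4) ≠ 0 := by positivity
    have e5 : ρ ^ (3 * M + 3) / ρ ^ (2 * M + 4) = ρ ^ M / ρ := by
      rw [div_eq_div_iff e4 hρ.ne']
      exact e3
    calc Aw * A * ρ ^ (3 * M + 3) / (1 - ρ ^ 3) * M * K / ρ ^ (2 * M + 4) =
        Aw * A / (1 - ρ ^ 3) * M * K * (ρ ^ (3 * M + 3) / ρ ^ (2 * M + 4)) := by ring
      _ = Aw * A / (1 - ρ ^ 3) * M * K * (ρ ^ M / ρ) := by rw [e5]
      _ = _ := by ring
  -- bound of the single terms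
  have hterm : ∀ {y : ℝ}, 0 < y → y ≤ 1 → ∀ F : ℝ⟦X⟧, (∀ N, |Lf q N y F| ≤ A / ρ ^ N) →
      0 ≤ ∑' N, w N * Lf q N y F → -η ≤ Hn q w M F y := by
    intro y hy0 hy1 F hF hs
    refine tail_ge hz0 hz1 (fun N => ?_) hs M
    rw [abs_mul]
    have e1 : Aw * A * (ρ ^ 3) ^ N = (Aw * (ρ ^ 4) ^ N) * (A / ρ ^ N) := by
      have e2 : (ρ ^ 4) ^ N = (ρ ^ 3) ^ N * ρ ^ N := by
        rw [← mul_pow]
        ring_nf
      have e3 : ρ ^ N ≠ 0 := by positivity
      rw [e2]
      field_simp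
    rw [e1]
    exact mul_le_mul (hw N) (hF N) (abs_nonneg _) (by positivity)
  set s : ℕ → ℝ → ℝ := fun m t => Hn q w M (hS al be m) (Real.exp (-t)) / Vc al be m +
    if m = 0 then δ * t else 0 with hs
  set s' : ℕ → ℝ → ℝ := fun m t =>
    (2 * (al + be) * (Hn q w M (hS al be m) (Real.exp (-t)) / Vc al be m) -
      Hn q w M (gS al be m) (Real.exp (-t)) / Vc al be m) + if m = 0 then δ else 0 with hs'
  have hderiv : ∀ m t, HasDerivAt (s m) (s' m t) t := by
    intro m t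
    have d1 := (hasDerivAt_Hn q w M (hS al be m) t).div_const (Vc al be m)
    have d2 : HasDerivAt (fun t : ℝ => if m = 0 then δ * t else 0) (if m = 0 then δ else 0) t := by
      by_cases hm : m = 0
      · simp only [hm, if_true]
        simpa using (hasDerivAt_id t).const_mul δ
      · simp only [hm, if_false]
        exact hasDerivAt_const t 0
    have d3 := d1.add d2
    have e1 : -Hn q w M (eul (hS al be m)) (Real.exp (-t)) / Vc al be m =
        2 * (al + be) * (Hn q w M (hS al be m) (Real.exp (-t)) / Vc al be m) -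
      Hn q w M (gS al be m) (Real.exp (-t)) / Vc al be m := by
      have e2 : Hn q w M (gS al be m) (Real.exp (-t)) =
          2 * (al + be) * Hn q w M (hS al be m) (Real.exp (-t)) +
            Hn q w M (eul (hS al be m)) (Real.exp (-t)) := by
        unfold gS
        rw [Hn_add, Hn_C_mul]
      rw [e2]
      ring
    rw [e1] at d3
    exact d3
  have hexp : Continuous fun t : ℝ => Real.exp (-t) := Real.continuous_exp.comp continuous_neg
  have hcont : ∀ m, Continuous (s' m) := by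
    intro m
    have c1 : Continuous fun t : ℝ => Hn q w M (hS al be m) (Real.exp (-t)) :=
      (continuous_Hn q w M (hS al be m)).comp hexp
    have c2 : Continuous fun t : ℝ => Hn q w M (gS al be m) (Real.exp (-t)) :=
      (continuous_Hn q w M (gS al be m)).comp hexp
    exact (((c1.div_const _).const_smul (2 * (al + be))).sub (c2.div_const _)).add
      continuous_const
  have main := flow_principle al be M hT s s'
    (fun m _ t _ => (hderiv m t).hasDerivWithinAt) (fun m _ => (hcont m).continuousOn) ?_ hf hb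
  · have e0 : s 0 T = Hn q w M (hS al be 0) (Real.exp (-T)) +
        Aw * A / (1 - ρ ^ 3) * K / ρ * ((M : ℝ) * ρ ^ M) * T := by
      simp only [hs, if_true, Vc_zero, div_one, hδe]
    have e1 : ∀ m, s m 0 = Hn q w M (hS al be m) 1 / Vc al be m := by
      intro m
      simp [hs]
    rw [e0] at main
    refine le_trans (le_of_eq (sum_congr rfl fun m _ => ?_)) main
    rw [e1]
  · intro t ht g hg hgb κ hκ
    set y : ℝ := Real.exp (-t) with hy
    have hy0 : 0 < y := Real.exp_pos _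
    have hy1 : y ≤ 1 := by
      rw [hy, Real.exp_le_one_iff]
      linarith [ht.1]
    set b : ℕ → ℂ := fun m => κ⁻¹ ^ m * cc al be g m with hbdef
    have hb0 : b 0 = 1 := by
      simp [hbdef, cc_zero]
    have hbB : ∀ m, ‖b m‖ ≤ B / ρ ^ m := by
      intro m
      have e1 : ‖b m‖ = ‖cc al be g m‖ := by
        simp [hbdef, hκ]
      rw [e1]
      refine hB g hg (fun z hz => lt_of_lt_of_le (hgb z hz) ?_) m
      exact Real.exp_le_exp.2 (by linarith [ht.1])
    have hQ := Qf_ge M h1 h2 (fun m => Hn q w M (hS al be m) y)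
      (fun m => Hn q w M (rS al be m) y) (fun m => Hn q w M (gS al be m) y)
      (fun m hm => Hn_rS_of_lt q w M hm al be y) (fun m hm => Hn_gS_of_lt q w M hm al be y)
      (fun m => by rw [rS_add, Hn_add])
      (fun m => by
        rw [← Hn_add, gS_add, Hn_sub, Hn_sub, Hn_C_mul, Hn_C_mul, Hn_C_mul])
      hη0
      (fun m hm => hterm hy0 hy1 _ (fun N => (hA y hy0.le hy1 m N).2.1) (hG y hy0 hy1 m hm))
      (fun j hj => by
        have e1 : tc al be (fun m => Hn q w M (hS al be m) y)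
            (fun m => Hn q w M (rS al be m) y) j = Hn q w M (tS al be j) y := by
          unfold tc tS
          rw [Hn_sub, Hn_add, Hn_C_mul, Hn_C_mul]
        rw [e1]
        exact hterm hy0 hy1 _ (fun N => (hA y hy0.le hy1 j N).2.2) (hC y hy0 hy1 j hj))
      hB0 hρ hρ1 hbB
    have hQ2 := Qf_add_zero M al be (fun m => Hn q w M (hS al be m) y / Vc al be m)
      (fun m => 2 * (al + be) * (Hn q w M (hS al be m) y / Vc al be m) -
        Hn q w M (gS al be m) y / Vc al be m) (δ * t) δ b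
    change 0 ≤ Qf M al be (fun m => s m t) (fun m => s' m t) b
    have e3 : (fun m => s m t) = fun m => Hn q w M (hS al be m) y / Vc al be m +
        if m = 0 then δ * t else 0 := rfl
    have e4 : (fun m => s' m t) = fun m =>
      (2 * (al + be) * (Hn q w M (hS al be m) y / Vc al be m) -
        Hn q w M (gS al be m) y / Vc al be m) + if m = 0 then δ else 0 := rfl
    rw [e3, e4, hQ2, hb0]
    rw [norm_one, one_pow, mul_one]
    have e5 : -δ ≤ Qf M al be (fun m => Hn q w M (hS al be m) y / Vc al be m)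
      (fun m => 2 * (al + be) * (Hn q w M (hS al be m) y / Vc al be m) -
        Hn q w M (gS al be m) y / Vc al be m) b := hQ
    linarith

end Pool.Agent.KIM.LIM
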