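import Pool.Agent.KIM.LIMH

/-!
# KIM / LIMI: the integrated certificate
-/

set_option autoImplicit false

open Finset PowerSeries Filter Topology
open Pool.Agent.Helper42.KoebeMeans (ClassS)

namespace Pool.Agent.KIM.LIM

/-- Integrated certificate, `T` fixed. -/
theorem fixedT {q al be : ℝ} (h1 : 1 ≤ be) (h2 : be ≤ 2 * al + 3 * be - 1) {w : ℕ → ℝ}
    {Aw ρ : ℝ} (hρ : 0 < ρ) (hρ1 : ρ < 1) (hAw : 0 ≤ Aw) (hw : ∀ N, |w N| ≤ Aw * (ρ ^ 4) ^ N)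
    (hG : ∀ y : ℝ, 0 < y → y ≤ 1 → ∀ m, 1 ≤ m → 0 ≤ ∑' N, w N * Lf q N y (gS al be m))
    (hC : ∀ y : ℝ, 0 < y → y ≤ 1 → ∀ j, 1 ≤ j → 0 ≤ ∑' N, w N * Lf q N y (tS al be j))
    (hpos : ∀ m N, 0 ≤ w N * Lf q N 1 (hS al be m))
    {f : ℂ → ℂ} (hf : ClassS f) {T : ℝ} (hT : 0 < T) (hb : ∀ z ∈ LOE.Dk, ‖f z‖ < Real.exp T)
    (K : ℕ) :
    ∑ m ∈ range K, (∑' N, w N * Lf q N 1 (hS al be m)) / Vc al be m * ‖cc al be f m‖ ^ 2 ≤
      ∑' N, w N * Lf q N (Real.exp (-T)) (hS al be 0) := by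
  obtain ⟨E, hE0, hE⟩ := truncated h1 h2 hρ hρ1 hAw hw hG hC hf hT hb
  obtain ⟨A, hA0, hA⟩ := Lf_bounds q al be h1 h2 hρ hρ1
  obtain ⟨v1, v2, v3, v4⟩ := pc_Vc h1 h2
  have hV : ∀ m, 0 < Vc al be m := fun m => by linarith [v1 m, v3 m]
  have hz0 : 0 ≤ ρ ^ 3 := by positivity
  have hz1 : ρ ^ 3 < 1 := pow_lt_one₀ hρ.le hρ1 (by norm_num)
  have hsum : ∀ y : ℝ, 0 ≤ y → y ≤ 1 → ∀ m, Summable fun N => w N * Lf q N y (hS al be m) := by
    intro y hy0 hy1 m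
    refine Summable.of_norm_bounded (g := fun N => Aw * A * (ρ ^ 3) ^ N)
      ((summable_geometric_of_lt_one hz0 hz1).mul_left _) fun N => ?_
    rw [Real.norm_eq_abs, abs_mul]
    have e1 : Aw * A * (ρ ^ 3) ^ N = (Aw * (ρ ^ 4) ^ N) * (A / ρ ^ N) := by
      have e2 : (ρ ^ 4) ^ N = (ρ ^ 3) ^ N * ρ ^ N := by
        rw [← mul_pow]
        ring_nf
      have e3 : ρ ^ N ≠ 0 := by positivity
      rw [e2]
      field_simp
    rw [e1]
    exact mul_le_mul (hw N) (hA y hy0 hy1 m N).1 (abs_nonneg _) (by positivity)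
  have hlim : ∀ y : ℝ, 0 ≤ y → y ≤ 1 → ∀ m,
      Tendsto (fun M => Hn q w M (hS al be m) y) atTop
        (𝓝 (∑' N, w N * Lf q N y (hS al be m))) := fun y hy0 hy1 m =>
    ((hsum y hy0 hy1 m).hasSum.tendsto_sum_nat).comp (tendsto_add_atTop_nat 1)
  have hexp0 : 0 ≤ Real.exp (-T) := (Real.exp_pos _).le
  have hexp1 : Real.exp (-T) ≤ 1 := by
    rw [Real.exp_le_one_iff]
    linarith
  have hL : Tendsto (fun M : ℕ => ∑ m ∈ range K,
      Hn q w M (hS al be m) 1 / Vc al be m * ‖cc al be f m‖ ^ 2) atTop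
      (𝓝 (∑ m ∈ range K, (∑' N, w N * Lf q N 1 (hS al be m)) / Vc al be m *
        ‖cc al be f m‖ ^ 2)) :=
    tendsto_finsetSum _ fun m _ => ((hlim 1 zero_le_one le_rfl m).div_const _).mul_const _
  have hR : Tendsto (fun M : ℕ => Hn q w M (hS al be 0) (Real.exp (-T)) +
      E * ((M : ℝ) * ρ ^ M) * T) atTop
      (𝓝 (∑' N, w N * Lf q N (Real.exp (-T)) (hS al be 0) + E * 0 * T)) :=
    (hlim _ hexp0 hexp1 0).add
      (((tendsto_self_mul_const_pow_of_lt_one hρ.le hρ1).const_mul E).mul_const T)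
  rw [mul_zero, zero_mul, add_zero] at hR
  refine le_of_tendsto_of_tendsto hL hR ?_
  filter_upwards [eventually_ge_atTop K] with M hM
  refine le_trans ?_ (hE M)
  refine sum_le_sum_of_subset_of_nonneg (range_mono (by omega)) fun m _ _ => ?_
  have h3 : 0 ≤ Hn q w M (hS al be m) 1 := sum_nonneg fun N _ => hpos m N
  have := hV m
  positivity

/-- Integrated certificate for bounded functions. -/
theorem integrated {q al be : ℝ} (h1 : 1 ≤ be) (h2 : be ≤ 2 * al + 3 * be - 1) {w : ℕ → ℝ}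
    {Aw ρ : ℝ} (hρ : 0 < ρ) (hρ1 : ρ < 1) (hAw : 0 ≤ Aw) (hw : ∀ N, |w N| ≤ Aw * (ρ ^ 4) ^ N)
    (hG : ∀ y : ℝ, 0 < y → y ≤ 1 → ∀ m, 1 ≤ m → 0 ≤ ∑' N, w N * Lf q N y (gS al be m))
    (hC : ∀ y : ℝ, 0 < y → y ≤ 1 → ∀ j, 1 ≤ j → 0 ≤ ∑' N, w N * Lf q N y (tS al be j))
    (hpos : ∀ m N, 0 ≤ w N * Lf q N 1 (hS al be m))
    {f : ℂ → ℂ} (hf : ClassS f) {C : ℝ} (hb : ∀ z ∈ LOE.Dk, ‖f z‖ ≤ C)
    (K : ℕ) :
    ∑ m ∈ range K, (∑' N, w N * Lf q N 1 (hS al be m)) / Vc al be m * ‖cc al be f m‖ ^ 2 ≤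
      ∑' N, w N * coeff N (Kq q) := by
  obtain ⟨A, hA0, hA⟩ := Lf_bounds q al be h1 h2 hρ hρ1
  have hz0 : 0 ≤ ρ ^ 3 := by positivity
  have hz1 : ρ ^ 3 < 1 := pow_lt_one₀ hρ.le hρ1 (by norm_num)
  have hlim : Tendsto (fun T : ℝ => ∑' N, w N * Lf q N (Real.exp (-T)) (hS al be 0)) atTop
      (𝓝 (∑' N, w N * coeff N (Kq q))) := by
    refine tendsto_tsum_of_dominated_convergence (bound := fun N => Aw * A * (ρ ^ 3) ^ N)
      ((summable_geometric_of_lt_one hz0 hz1).mul_left _) ?_ ?_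
    · intro N
      have e1 : coeff N (Kq q) = Lf q N 0 (hS al be 0) := by
        rw [Lf_zero, constantCoeff_hS_zero, one_mul]
      rw [e1]
      refine Tendsto.const_mul _ ?_
      have h3 : Tendsto (fun T : ℝ => Real.exp (-T)) atTop (𝓝 0) :=
        Real.tendsto_exp_neg_atTop_nhds_zero
      exact ((continuous_Lf q N (hS al be 0)).tendsto 0).comp h3
    · filter_upwards [eventually_ge_atTop 0] with T hT N
      have hexp1 : Real.exp (-T) ≤ 1 := by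
        rw [Real.exp_le_one_iff]
        linarith
      rw [Real.norm_eq_abs, abs_mul]
      have e1 : Aw * A * (ρ ^ 3) ^ N = (Aw * (ρ ^ 4) ^ N) * (A / ρ ^ N) := by
        have e2 : (ρ ^ 4) ^ N = (ρ ^ 3) ^ N * ρ ^ N := by
          rw [← mul_pow]
          ring_nf
        have e3 : ρ ^ N ≠ 0 := by positivity
        rw [e2]
        field_simp
      rw [e1]
      exact mul_le_mul (hw N) (hA _ (Real.exp_pos _).le hexp1 0 N).1 (abs_nonneg _)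
        (by positivity)
  refine ge_of_tendsto hlim ?_
  filter_upwards [eventually_gt_atTop 0, Real.tendsto_exp_atTop.eventually_gt_atTop C] with T hT hC'
  exact fixedT h1 h2 hρ hρ1 hAw hw hG hC hpos hf hT (fun z hz => lt_of_le_of_lt (hb z hz) hC') K

end Pool.Agent.KIM.LIM
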