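import Pool.Agent.KIM.LIMI
import Pool.Agent.KIM.DOM

/-!
# KIM / LIMJ: integral means from the integrated certificate with `al = -1/2`, `be = q`
-/

set_option autoImplicit false

open Finset PowerSeries Filter Topology
open Pool.Agent.Helper42.KoebeMeans (ClassS)

namespace Pool.Agent.KIM.LIM

theorem coeff_bin_zero_one (n : ℕ) : coeff n (bin 0 1) = 1 := by
  have h := one_sub_mul_bin 0 1
  have h0 : (1 : ℝ) - 1 = 0 := by norm_num
  rw [h0, bin_zero_zero] at h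
  induction n with
  | zero => exact coeff_zero_bin 0 1
  | succ n ih =>
    have h1 := congrArg (coeff (n + 1)) h
    rw [sub_mul, one_mul, map_sub, coeff_succ_X_mul, coeff_one, if_neg (Nat.succ_ne_zero n)] at h1
    linarith

theorem Lf_one_hS_half (q : ℝ) (m N : ℕ) :
    Lf q N 1 (hS (-1 / 2) q m) = if m ≤ N then 1 else 0 := by
  split_ifs with h
  · rw [Lf_one_hS q h]
    have e1 : q - q = 0 := by ring
    have e2 : 3 * q - (2 * (-1 / 2) + 3 * q) = 1 := by ring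
    rw [e1, e2, coeff_bin_zero_one]
  · exact Lf_hS_of_lt q (not_le.1 h) 1 (-1 / 2) q

theorem Kq_nonneg {q : ℝ} (hq : 1 ≤ q) (N : ℕ) : 0 ≤ coeff N (Kq q) := by
  unfold Kq
  refine NN_bin ?_ N
  rw [abs_of_nonneg (by linarith)]
  linarith

/-- The Cauchy-Schwarz step. -/
theorem coeff_sq_le {q : ℝ} (hq : 1 ≤ q) {f : ℂ → ℂ} (hf : ClassS f) (N : ℕ) :
    ‖coeff N (rp (serP f) (q : ℂ))‖ ^ 2 ≤ coeff N (Kq q) *
      ∑ m ∈ range (N + 1), ‖cc (-1 / 2) q f m‖ ^ 2 / Vc (-1 / 2) q m := by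
  have h1 : q ≤ 2 * (-1 / 2) + 3 * q - 1 := by linarith
  obtain ⟨v1, v2, v3, v4⟩ := pc_Vc (al := -1 / 2) (be := q) hq h1
  have hV : ∀ m, 0 < Vc (-1 / 2) q m := fun m => by linarith [v1 m, v3 m]
  have hb := half_bound hq N hf
  have hVe : ∀ m, coeff m (bin q (3 * q - 1)) = Vc (-1 / 2) q m := by
    intro m
    unfold Vc
    congr 2
    ring
  have hm := mul_ph hf (1 / 2) 0 (-1 / 2) q q (by ring) (by ring)
  rw [hm, coeff_mul]
  have s1 : ‖∑ p ∈ antidiagonal N, coeff p.1 (ph (1 / 2) 0 (serD f)) *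
      coeff p.2 (ph (-1 / 2) q (serD f))‖ ≤
      ∑ p ∈ antidiagonal N, ‖cc (1 / 2) 0 f p.1‖ * ‖cc (-1 / 2) q f p.2‖ := by
    refine (norm_sum_le _ _).trans (le_of_eq (sum_congr rfl fun p _ => ?_))
    rw [norm_mul]
    rfl
  have s2 : (∑ p ∈ antidiagonal N, ‖cc (1 / 2) 0 f p.1‖ * ‖cc (-1 / 2) q f p.2‖) ^ 2 ≤
      (∑ p ∈ antidiagonal N, Vc (-1 / 2) q p.2 * ‖cc (1 / 2) 0 f p.1‖ ^ 2) *
        ∑ p ∈ antidiagonal N, ‖cc (-1 / 2) q f p.2‖ ^ 2 / Vc (-1 / 2) q p.2 := by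
    refine sum_sq_le_sum_mul_sum_of_sq_le_mul _ (fun p _ => ?_) (fun p _ => ?_) (fun p _ => ?_)
    · have := hV p.2
      positivity
    · have := hV p.2
      positivity
    · have := hV p.2
      refine le_of_eq ?_
      generalize Vc (-1 / 2) q p.2 = v at this
      generalize ‖cc (-1 / 2) q f p.2‖ = c
      field_simp
  have s3 : ∑ p ∈ antidiagonal N, Vc (-1 / 2) q p.2 * ‖cc (1 / 2) 0 f p.1‖ ^ 2 ≤
      coeff N (Kq q) := by
    refine le_trans (le_of_eq ?_) hb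
    rw [Finset.Nat.sum_antidiagonal_eq_sum_range_succ (fun a b =>
      Vc (-1 / 2) q b * ‖cc (1 / 2) 0 f a‖ ^ 2)]
    refine sum_congr rfl fun m _ => ?_
    rw [hVe]
  have s4 : ∑ p ∈ antidiagonal N, ‖cc (-1 / 2) q f p.2‖ ^ 2 / Vc (-1 / 2) q p.2 =
      ∑ m ∈ range (N + 1), ‖cc (-1 / 2) q f m‖ ^ 2 / Vc (-1 / 2) q m := by
    rw [← Finset.Nat.sum_antidiagonal_swap]
    simp only [Prod.snd_swap]
    rw [Finset.Nat.sum_antidiagonal_eq_sum_range_succ (fun a _ =>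
      ‖cc (-1 / 2) q f a‖ ^ 2 / Vc (-1 / 2) q a)]
  calc _ ≤ (∑ p ∈ antidiagonal N, ‖cc (1 / 2) 0 f p.1‖ * ‖cc (-1 / 2) q f p.2‖) ^ 2 := by
        gcongr
    _ ≤ _ := s2
    _ ≤ coeff N (Kq q) *
        ∑ p ∈ antidiagonal N, ‖cc (-1 / 2) q f p.2‖ ^ 2 / Vc (-1 / 2) q p.2 := by
        refine mul_le_mul_of_nonneg_right s3 (sum_nonneg fun p _ => ?_)
        have := hV p.2
        positivity
    _ = _ := by rw [s4]

theorem sum_range_swap (K : ℕ) (F : ℕ → ℕ → ℝ) :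
    ∑ N ∈ range K, ∑ m ∈ range (N + 1), F N m =
      ∑ m ∈ range K, ∑ N ∈ range K, if m ≤ N then F N m else 0 := by
  rw [sum_comm]
  refine sum_congr rfl fun N hN => ?_
  have h1 : range (N + 1) ⊆ range K := range_mono (by have := mem_range.1 hN; omega)
  rw [← sum_filter]
  refine sum_congr ?_ fun _ _ => rfl
  ext m
  simp only [mem_range, mem_filter]
  have := mem_range.1 hN
  omega

/-- The mean value inequality from the integrated certificate. -/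
theorem mean_core {q : ℝ} (hq : 1 ≤ q) {f : ℂ → ℂ} (hf : ClassS f) {r : ℝ} (h0 : 0 < r)
    (h1 : r < 1)
    (hint : ∀ K : ℕ, ∑ m ∈ range K,
      (∑' N, coeff N (Kq q) * (r ^ 2) ^ N * Lf q N 1 (hS (-1 / 2) q m)) / Vc (-1 / 2) q m *
        ‖cc (-1 / 2) q f m‖ ^ 2 ≤ ∑' N, coeff N (Kq q) * (r ^ 2) ^ N * coeff N (Kq q)) :
    ∑' n : ℕ, ‖coeff n (rp (serP f) (q : ℂ))‖ ^ 2 * r ^ (2 * n) ≤
      ∑' n : ℕ, (coeff n (Kq q)) ^ 2 * r ^ (2 * n) := by
  have hal : q ≤ 2 * (-1 / 2) + 3 * q - 1 := by linarith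
  obtain ⟨v1, v2, v3, v4⟩ := pc_Vc (al := -1 / 2) (be := q) hq hal
  have hV : ∀ m, 0 < Vc (-1 / 2) q m := fun m => by linarith [v1 m, v3 m]
  obtain ⟨A, hA0, hA⟩ := Lf_bounds q (-1 / 2) q hq hal h0 h1
  set w : ℕ → ℝ := fun N => coeff N (Kq q) * (r ^ 2) ^ N with hw
  have hw0 : ∀ N, 0 ≤ w N := fun N => mul_nonneg (Kq_nonneg hq N) (by positivity)
  have hwb : ∀ N, |w N| ≤ A * r ^ N := by
    intro N
    have h2 := (hA 0 le_rfl zero_le_one 0 N).1
    rw [Lf_zero, constantCoeff_hS_zero, one_mul] at h2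
    have hCN : coeff N (Kq q) ≤ A / r ^ N := (le_abs_self _).trans h2
    rw [abs_of_nonneg (hw0 N)]
    have hr : 0 < r ^ N := pow_pos h0 N
    calc w N ≤ A / r ^ N * (r ^ 2) ^ N := mul_le_mul_of_nonneg_right hCN (by positivity)
      _ = A * r ^ N := by
        have e : (r ^ 2) ^ N = r ^ N * r ^ N := by rw [← mul_pow]; ring_nf
        rw [e]
        field_simp
  have hRHS : ∑' n : ℕ, (coeff n (Kq q)) ^ 2 * r ^ (2 * n) = ∑' N, w N * coeff N (Kq q) := by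
    refine tsum_congr fun N => ?_
    rw [hw, pow_mul]
    ring
  rw [hRHS]
  have hws : Summable w := by
    refine Summable.of_norm_bounded (g := fun N => A * r ^ N) ?_ hwb
    exact (summable_geometric_of_lt_one h0.le h1).mul_left A
  refine Real.tsum_le_of_sum_range_le (fun n => by positivity) fun K => ?_
  refine le_trans ?_ (hint K)
  calc ∑ n ∈ range K, ‖coeff n (rp (serP f) (q : ℂ))‖ ^ 2 * r ^ (2 * n)
      ≤ ∑ N ∈ range K, ∑ m ∈ range (N + 1),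
        w N * (‖cc (-1 / 2) q f m‖ ^ 2 / Vc (-1 / 2) q m) := by
        refine sum_le_sum fun N _ => ?_
        rw [← mul_sum, hw, pow_mul]
        have h2 := coeff_sq_le hq hf N
        have h3 : 0 ≤ (r ^ 2) ^ N := by positivity
        calc _ ≤ (coeff N (Kq q) * ∑ m ∈ range (N + 1),
            ‖cc (-1 / 2) q f m‖ ^ 2 / Vc (-1 / 2) q m) * (r ^ 2) ^ N :=
              mul_le_mul_of_nonneg_right h2 h3
          _ = _ := by ring
    _ = ∑ m ∈ range K, ∑ N ∈ range K, (if m ≤ N then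
        w N * (‖cc (-1 / 2) q f m‖ ^ 2 / Vc (-1 / 2) q m) else 0) := sum_range_swap K _
    _ ≤ _ := by
        refine sum_le_sum fun m _ => ?_
        have h3 : ∑ N ∈ range K, (if m ≤ N then
            w N * (‖cc (-1 / 2) q f m‖ ^ 2 / Vc (-1 / 2) q m) else 0) =
            (∑ N ∈ range K, w N * Lf q N 1 (hS (-1 / 2) q m)) / Vc (-1 / 2) q m *
              ‖cc (-1 / 2) q f m‖ ^ 2 := by
          rw [sum_div, sum_mul]
          refine sum_congr rfl fun N _ => ?_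
          rw [Lf_one_hS_half]
          split_ifs
          · ring
          · simp
        rw [h3]
        have h4 : ∑ N ∈ range K, w N * Lf q N 1 (hS (-1 / 2) q m) ≤
            ∑' N, w N * Lf q N 1 (hS (-1 / 2) q m) := by
          have h5 : ∀ N, 0 ≤ w N * Lf q N 1 (hS (-1 / 2) q m) := by
            intro N
            rw [Lf_one_hS_half]
            refine mul_nonneg (hw0 N) ?_
            split_ifs <;> norm_num
          refine Summable.sum_le_tsum _ (fun N _ => h5 N) ?_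
          refine Summable.of_nonneg_of_le h5 (fun N => ?_) hws
          rw [Lf_one_hS_half]
          split_ifs
          · rw [mul_one]
          · rw [mul_zero]
            exact hw0 N
        have := hV m
        gcongr

/-- The integrated certificate with `al = -1/2`, `be = q`, bounded functions. -/
theorem int_of_pos {q : ℝ} (hq : 1 ≤ q)
    (hG : ∀ x : ℝ, 0 < x → x < 1 → ∀ y : ℝ, 0 < y → y ≤ 1 → ∀ m, 1 ≤ m →
      0 ≤ ∑' N, coeff N (Kq q) * x ^ N * Lf q N y (gS (-1 / 2) q m))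
    (hC : ∀ x : ℝ, 0 < x → x < 1 → ∀ y : ℝ, 0 < y → y ≤ 1 → ∀ j, 1 ≤ j →
      0 ≤ ∑' N, coeff N (Kq q) * x ^ N * Lf q N y (tS (-1 / 2) q j))
    {f : ℂ → ℂ} (hf : ClassS f) (hb : ∃ M : ℝ, ∀ z ∈ LOE.Dk, ‖f z‖ ≤ M) {r : ℝ} (h0 : 0 < r)
    (h1 : r < 1) (K : ℕ) : ∑ m ∈ range K,
      (∑' N, coeff N (Kq q) * (r ^ 2) ^ N * Lf q N 1 (hS (-1 / 2) q m)) / Vc (-1 / 2) q m *
        ‖cc (-1 / 2) q f m‖ ^ 2 ≤ ∑' N, coeff N (Kq q) * (r ^ 2) ^ N * coeff N (Kq q) := by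
  obtain ⟨C, hC'⟩ := hb
  have hal : q ≤ 2 * (-1 / 2) + 3 * q - 1 := by linarith
  obtain ⟨A, hA0, hA⟩ := Lf_bounds q (-1 / 2) q hq hal h0 h1
  set ρ : ℝ := r ^ ((1 : ℝ) / 4) with hρdef
  have hρ : 0 < ρ := Real.rpow_pos_of_pos h0 _
  have hρ1 : ρ < 1 := Real.rpow_lt_one h0.le h1 (by norm_num)
  have hρ4 : ρ ^ 4 = r := by
    rw [hρdef, ← Real.rpow_natCast, ← Real.rpow_mul h0.le]
    norm_num
  set w : ℕ → ℝ := fun N => coeff N (Kq q) * (r ^ 2) ^ N with hw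
  have hw0 : ∀ N, 0 ≤ w N := fun N => mul_nonneg (Kq_nonneg hq N) (by positivity)
  have hwb : ∀ N, |w N| ≤ A * (ρ ^ 4) ^ N := by
    intro N
    have h2 := (hA 0 le_rfl zero_le_one 0 N).1
    rw [Lf_zero, constantCoeff_hS_zero, one_mul] at h2
    have hCN : coeff N (Kq q) ≤ A / r ^ N := (le_abs_self _).trans h2
    rw [abs_of_nonneg (hw0 N), hρ4]
    have hr : 0 < r ^ N := pow_pos h0 N
    calc w N ≤ A / r ^ N * (r ^ 2) ^ N := mul_le_mul_of_nonneg_right hCN (by positivity)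
      _ = A * r ^ N := by
        have e : (r ^ 2) ^ N = r ^ N * r ^ N := by rw [← mul_pow]; ring_nf
        rw [e]
        field_simp
  have hx0 : 0 < r ^ 2 := by positivity
  have hx1 : r ^ 2 < 1 := pow_lt_one₀ h0.le h1 (by norm_num)
  exact integrated (q := q) (al := -1 / 2) (be := q) hq hal (w := w) hρ hρ1 hA0 hwb
    (fun y hy0 hy1 m hm => hG (r ^ 2) hx0 hx1 y hy0 hy1 m hm)
    (fun y hy0 hy1 j hj => hC (r ^ 2) hx0 hx1 y hy0 hy1 j hj)
    (fun m N => by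
      rw [Lf_one_hS_half]
      refine mul_nonneg (hw0 N) ?_
      split_ifs <;> norm_num) hf hC' K

/-- The mean value inequality for bounded functions, from the two positivity conditions. -/
theorem mean_of_pos {q : ℝ} (hq : 1 ≤ q)
    (hG : ∀ x : ℝ, 0 < x → x < 1 → ∀ y : ℝ, 0 < y → y ≤ 1 → ∀ m, 1 ≤ m →
      0 ≤ ∑' N, coeff N (Kq q) * x ^ N * Lf q N y (gS (-1 / 2) q m))
    (hC : ∀ x : ℝ, 0 < x → x < 1 → ∀ y : ℝ, 0 < y → y ≤ 1 → ∀ j, 1 ≤ j →
      0 ≤ ∑' N, coeff N (Kq q) * x ^ N * Lf q N y (tS (-1 / 2) q j))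
    {f : ℂ → ℂ} (hf : ClassS f) (hb : ∃ M : ℝ, ∀ z ∈ LOE.Dk, ‖f z‖ ≤ M) {r : ℝ} (h0 : 0 < r)
    (h1 : r < 1) :
    ∑' n : ℕ, ‖coeff n (rp (serP f) (q : ℂ))‖ ^ 2 * r ^ (2 * n) ≤
      ∑' n : ℕ, (coeff n (Kq q)) ^ 2 * r ^ (2 * n) :=
  mean_core hq hf h0 h1 (int_of_pos hq hG hC hf hb h0 h1)

end Pool.Agent.KIM.LIM
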