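import Pool.Agent.KIM.LIMJ
import Pool.Agent.KIM.DIL

/-!
# KIM / LIMK: the mean value inequality for all functions of class S
-/

set_option autoImplicit false

open Finset PowerSeries Filter Topology
open Pool.Agent.Helper42.KoebeMeans (ClassS)

namespace Pool.Agent.KIM.LIM

/-- The mean value inequality, from the two positivity conditions. -/
theorem mean_of_pos_all {q : ℝ} (hq : 1 ≤ q)
    (hG : ∀ x : ℝ, 0 < x → x < 1 → ∀ y : ℝ, 0 < y → y ≤ 1 → ∀ m, 1 ≤ m →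
      0 ≤ ∑' N, coeff N (Kq q) * x ^ N * Lf q N y (gS (-1 / 2) q m))
    (hC : ∀ x : ℝ, 0 < x → x < 1 → ∀ y : ℝ, 0 < y → y ≤ 1 → ∀ j, 1 ≤ j →
      0 ≤ ∑' N, coeff N (Kq q) * x ^ N * Lf q N y (tS (-1 / 2) q j))
    {f : ℂ → ℂ} (hf : ClassS f) {r : ℝ} (h0 : 0 < r) (h1 : r < 1) :
    ∑' n : ℕ, ‖coeff n (rp (serP f) (q : ℂ))‖ ^ 2 * r ^ (2 * n) ≤
      ∑' n : ℕ, (coeff n (Kq q)) ^ 2 * r ^ (2 * n) := by
  refine mean_core hq hf h0 h1 fun K => ?_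
  have key : ∀ ρ : ℝ, 0 < ρ → ρ < 1 → ∑ m ∈ range K,
      (∑' N, coeff N (Kq q) * (r ^ 2) ^ N * Lf q N 1 (hS (-1 / 2) q m)) / Vc (-1 / 2) q m *
        (ρ ^ m * ‖cc (-1 / 2) q f m‖) ^ 2 ≤
      ∑' N, coeff N (Kq q) * (r ^ 2) ^ N * coeff N (Kq q) := by
    intro ρ hρ hρ1
    have h2 := int_of_pos hq hG hC (classS_dil hf hρ hρ1) (dil_bdd hf hρ hρ1) h0 h1 K
    refine le_trans (le_of_eq (sum_congr rfl fun m _ => ?_)) h2
    rw [cc_dil hf hρ hρ1, norm_mul, norm_pow, Complex.norm_real, Real.norm_of_nonneg hρ.le]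
  have hcont : Continuous fun ρ : ℝ => ∑ m ∈ range K,
      (∑' N, coeff N (Kq q) * (r ^ 2) ^ N * Lf q N 1 (hS (-1 / 2) q m)) / Vc (-1 / 2) q m *
        (ρ ^ m * ‖cc (-1 / 2) q f m‖) ^ 2 := by
    fun_prop
  have hlim := (hcont.tendsto 1).mono_left (nhdsWithin_le_nhds (s := Set.Iio (1 : ℝ)))
  have hle := le_of_tendsto hlim (b := ∑' N, coeff N (Kq q) * (r ^ 2) ^ N * coeff N (Kq q)) (by
    have h3 : ∀ᶠ ρ : ℝ in 𝓝[<] 1, 0 < ρ :=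
      mem_nhdsWithin_of_mem_nhds (lt_mem_nhds zero_lt_one)
    filter_upwards [h3, self_mem_nhdsWithin] with ρ hρ hρ1
    exact key ρ hρ hρ1)
  simpa using hle

end Pool.Agent.KIM.LIM
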