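import Pool.Agent.KIM.SSY
import Pool.Agent.KIM.PBN
import Pool.Agent.KIM.SGM

/-!
# KIM / MNA: monomials `(1-z)^a (1+z)^b (1-w)^c (1+w)^d`, `w = wy y`

* `Mn_mul`: `rp_add`.  `Mn_bin`: definition of `bin`.
* `wy_pow`: `w = C y * k0 * (1 - w)^2` and `k0 = X * rp (1 - X) (-2)` (from `k0_eq`).
* `wy_DD`: `w ((1 - X)^2 + 4 y X) = y X (1 + w)^2`: from `w (1 - X)^2 = y X (1 - w)^2` and
  `(1 + w)^2 = (1 - w)^2 + 4 w`.
* `eul_Mn`: product rule, `rp_eul`, `eul_wy`.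
* `Kq_Sy_...`: `Sy y (1 - W) = 1 - wy y`, `Sy_rp`, `Sy_mul`.
-/

set_option autoImplicit false

open PowerSeries Finset

namespace Pool.Agent.KIM

/-- The monomial `(1-z)^a (1+z)^b (1-w)^c (1+w)^d`. -/
noncomputable def Mn (y a b c d : ℝ) : ℝ⟦X⟧ :=
  rp (1 - X) a * rp (1 + X) b * rp (1 - wy y) c * rp (1 + wy y) d

private theorem mna_cX : constantCoeff (1 - X : ℝ⟦X⟧) = 1 := by simp

private theorem mna_cX' : constantCoeff (1 + X : ℝ⟦X⟧) = 1 := by simp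

private theorem mna_cw (y : ℝ) : constantCoeff (1 - wy y) = 1 := by
  rw [map_sub, constantCoeff_wy]; simp

private theorem mna_cw' (y : ℝ) : constantCoeff (1 + wy y) = 1 := by
  rw [map_add, constantCoeff_wy]; simp

private theorem mna_k0 : k0 = X * rp (1 - X) (-2 : ℝ) := by
  have h1 : rp (1 - X : ℝ⟦X⟧) 2 = (1 - X) ^ 2 := by
    have := rp_natCast mna_cX 2
    rwa [Nat.cast_ofNat] at this
  have h2 := rp_neg_mul mna_cX (2 : ℝ)
  rw [h1] at h2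
  have h3 := k0_eq
  have h4 : ((1 - X : ℝ⟦X⟧) ^ 2) ≠ 0 := pow_ne_zero 2 (ne_zero_of_one mna_cX)
  apply mul_left_cancel₀ h4
  linear_combination h3 - X * h2

private theorem mna_pow {f : ℝ⟦X⟧} (hf : constantCoeff f = 1) (a : ℝ) (m : ℕ) :
    rp f (a * m) = rp f a ^ m := by
  rw [← rp_rp hf, rp_natCast (constantCoeff_rp f a)]

theorem constantCoeff_Mn (y a b c d : ℝ) : constantCoeff (Mn y a b c d) = 1 := by
  simp only [Mn, map_mul, constantCoeff_rp, mul_one]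

theorem Mn_mul (y a b c d a' b' c' d' : ℝ) : Mn y a b c d * Mn y a' b' c' d' =
    Mn y (a + a') (b + b') (c + c') (d + d') := by
  simp only [Mn]
  rw [rp_add mna_cX, rp_add mna_cX', rp_add (mna_cw y), rp_add (mna_cw' y)]
  ring

theorem Mn_zero (y : ℝ) : Mn y 0 0 0 0 = 1 := by
  simp only [Mn]
  rw [rp_zero mna_cX, rp_zero mna_cX', rp_zero (mna_cw y), rp_zero (mna_cw' y)]
  ring

theorem Mn_bin (y g b : ℝ) : Mn y (-b) g 0 0 = bin g b := by
  simp only [Mn, bin]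
  rw [rp_zero (mna_cw y), rp_zero (mna_cw' y)]
  ring

theorem Mn_rp (y a b c d th : ℝ) : rp (Mn y a b c d) th =
    Mn y (a * th) (b * th) (c * th) (d * th) := by
  have h1 : constantCoeff (rp (1 - X : ℝ⟦X⟧) a * rp (1 + X) b) = 1 := by
    rw [map_mul, constantCoeff_rp, constantCoeff_rp, one_mul]
  have h2 : constantCoeff (rp (1 - X : ℝ⟦X⟧) a * rp (1 + X) b * rp (1 - wy y) c) = 1 := by
    rw [map_mul, h1, constantCoeff_rp, one_mul]
  simp only [Mn]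
  rw [rp_mul h2 (constantCoeff_rp _ _), rp_mul h1 (constantCoeff_rp _ _),
    rp_mul (constantCoeff_rp _ _) (constantCoeff_rp _ _), rp_rp mna_cX, rp_rp mna_cX',
    rp_rp (mna_cw y), rp_rp (mna_cw' y)]

theorem wy_pow (y : ℝ) (m : ℕ) : (wy y) ^ m = C (y ^ m) * X ^ m * Mn y (-2 * m) 0 (2 * m) 0 := by
  have h1 : rp (1 - wy y) (2 : ℝ) = (1 - wy y) ^ 2 := by
    have := rp_natCast (mna_cw y) 2
    rwa [Nat.cast_ofNat] at this
  have h2 := wy_eq y
  rw [mna_k0, ← h1] at h2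
  have h3 : (wy y) ^ m = (C y * (X * rp (1 - X) (-2 : ℝ)) * rp (1 - wy y) (2 : ℝ)) ^ m :=
    congrArg (· ^ m) h2
  rw [h3]
  simp only [Mn]
  rw [mna_pow mna_cX, mna_pow (mna_cw y), rp_zero mna_cX', rp_zero (mna_cw' y), map_pow]
  ring

theorem wy_DD (y : ℝ) : wy y * ((1 - X) ^ 2 + C (4 * y) * X) = C y * X * (1 + wy y) ^ 2 := by
  have h1 := wy_eq y
  have h2 := k0_eq
  have c4 : (C (4 * y) : ℝ⟦X⟧) = 4 * C y := by rw [map_mul, map_ofNat]
  rw [c4]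
  linear_combination (1 - X) ^ 2 * h1 + C y * (1 - wy y) ^ 2 * h2

theorem eul_Mn (y a b c d : ℝ) : (1 - X) * (1 + X) * (1 + wy y) ^ 2 * eul (Mn y a b c d) =
    (C (-a) * X * (1 + X) * (1 + wy y) ^ 2 + C b * X * (1 - X) * (1 + wy y) ^ 2 +
      C (-c) * wy y * (1 + X) ^ 2 * (1 + wy y) +
      C d * wy y * (1 - wy y) * (1 + X) ^ 2) * Mn y a b c d := by
  have hA := rp_eul mna_cX a
  have hB := rp_eul mna_cX' b
  have hC := rp_eul (mna_cw y) c
  have hD := rp_eul (mna_cw' y) d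
  have hw := eul_wy y
  rw [eul_sub, eul_one, eul_X, zero_sub] at hA
  rw [eul_add, eul_one, eul_X, zero_add] at hB
  rw [eul_sub, eul_one, zero_sub] at hC
  rw [eul_add, eul_one, zero_add] at hD
  have ca : (C (-a) : ℝ⟦X⟧) = - C a := map_neg C a
  have cc' : (C (-c) : ℝ⟦X⟧) = - C c := map_neg C c
  rw [ca, cc']
  apply mul_left_cancel₀ (ne_zero_of_one (mna_cw y))
  simp only [Mn]
  rw [eul_mul, eul_mul, eul_mul]
  generalize rp (1 - X : ℝ⟦X⟧) a = A at *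
  generalize rp (1 + X : ℝ⟦X⟧) b = B at *
  generalize rp (1 - wy y) c = E at *
  generalize rp (1 + wy y) d = F at *
  generalize (C a : ℝ⟦X⟧) = a' at *
  generalize (C b : ℝ⟦X⟧) = b' at *
  generalize (C c : ℝ⟦X⟧) = c' at *
  generalize (C d : ℝ⟦X⟧) = d' at *
  linear_combination ((1 - wy y) * (1 + X) * (1 + wy y) ^ 2 * B * E * F) * hA +
    ((1 - wy y) * (1 - X) * (1 + wy y) ^ 2 * A * E * F) * hB +
    ((1 - X) * (1 + X) * (1 + wy y) ^ 2 * A * B * F) * hC +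
    ((1 - wy y) * (1 - X) * (1 + X) * (1 + wy y) * A * B * E) * hD +
    (-(c' * (1 + X) * (1 + wy y)) * A * B * E * F +
      (1 - wy y) * d' * (1 + X) * A * B * E * F) * hw

/-- `K ^ q` times the substitution of `κ W ^ m (1 - W) ^ i (1 + W) ^ s`. -/
theorem Kq_Sy_mono (q al be y s : ℝ) (m i : ℕ) :
    Kq q * Sy y (kap al be * W ^ m * ((1 - W) ^ i * rp (1 + W) s)) =
      C (y ^ m) * X ^ m *
        Mn y (-3 * q - 2 * m) q (2 * al + 3 * be + 2 * m + i) (-be + s) := by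
  have h1 : Sy y (1 - W) = 1 - wy y := by rw [Sy_sub, Sy_one, wy]
  have h2 : Sy y (1 + W) = 1 + wy y := by rw [Sy_add, Sy_one, wy]
  have h3 : Sy y (kap al be * W ^ m * ((1 - W) ^ i * rp (1 + W) s)) =
      rp (1 - wy y) (2 * al + 3 * be) * rp (1 + wy y) (-be) * (wy y) ^ m *
        ((1 - wy y) ^ i * rp (1 + wy y) s) := by
    rw [kap, Sy_mul, Sy_mul, Sy_mul, Sy_mul, Sy_pow, Sy_pow, Sy_rp y constantCoeff_one_sub_W,
      Sy_rp y constantCoeff_one_add_W, Sy_rp y constantCoeff_one_add_W, h1, h2, wy]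
  rw [h3, wy_pow, Kq, bin, ← rp_natCast (mna_cw y) i]
  simp only [Mn]
  have e1 : -3 * q - 2 * (m : ℝ) = -(3 * q) + -2 * (m : ℝ) := by ring
  have e2 : 2 * al + 3 * be + 2 * (m : ℝ) + (i : ℝ) = 2 * al + 3 * be + 2 * m + i := rfl
  rw [e1, rp_add mna_cX, rp_add (mna_cw y) (2 * al + 3 * be + 2 * (m : ℝ)),
    rp_add (mna_cw y) (2 * al + 3 * be), rp_add (mna_cw' y), rp_zero mna_cX',
    rp_zero (mna_cw' y)]
  ring

end Pool.Agent.KIM
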