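import Pool.Agent.KIM.PWZ
import Pool.Agent.KIM.MNA

/-!
# KIM / PAE: expansion in the functions `E_μ`

Let `c_n = ∑_{j ≤ n} κ_j gc (λ+2j) (n-j)`, `κ_j ≥ 0`, `w = wy y`.
`Q := rp (1-X) (-2λ) * rp (1-w) (2λ) * (mk c).subst (w^2)` has nonnegative coefficients.  Proof:
for `M ∈ ℕ` write `mk c = ∑_{j<M} κ_j X^j mk (gc (λ+2j)) + X^M r` (the difference has zero
coefficients below `M`).  Substituting `w^2` and using `quad_trans`
(through `coeff_Sy_subst_sq`, `Sy_rp`, `Sy_mul`: `Sy y (phiS μ) =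
rp (1-w) (2μ) * (mk (gc μ)).subst (w^2)`),
`rp (1-w) (2λ) w^(2j) (mk (gc (λ+2j))).subst (w^2) = (w rp (1-w) (-2))^(2j) Sy y (phiS (λ+2j))`
and `w rp (1-w) (-2) = C y * k0 = C y * X * rp (1-X) (-2)`, so
`Q = ∑_{j<M} κ_j y^(2j) X^(2j) [rp (1-X) (-2(λ+2j)) Sy y (phiS (λ+2j))] + w^(2M) (...)`;
`NN_E` for the terms of the sum, and the last term does not contribute to coefficients `< 2M`
(`wy_pow`).
-/

set_option autoImplicit false

open PowerSeries Finset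

namespace Pool.Agent.KIM

namespace PAE_

private theorem hsub (y : ℝ) : HasSubst ((wy y) ^ 2 : ℝ⟦X⟧) := by
  refine HasSubst.of_constantCoeff_zero' ?_
  rw [map_pow, constantCoeff_wy, zero_pow (by norm_num)]

private theorem term_eq {mu : ℝ} (hmu : 0 < mu) (y : ℝ) :
    rp (1 - wy y) (2 * mu) * (PowerSeries.mk (gc mu)).subst ((wy y) ^ 2 : ℝ⟦X⟧) =
      Sy y (phiS mu) := by
  rw [quad_trans hmu, Sy_mul, Sy_rp y constantCoeff_one_sub_W, Sy_sub, Sy_one,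
    coeff_Sy_subst_sq]
  rfl

private theorem term_j {lam : ℝ} (hl : 1 ≤ lam) (y : ℝ) (j : ℕ) :
    Mn y (-2 * lam) 0 (2 * lam) 0 * (((wy y) ^ 2) ^ j *
      (PowerSeries.mk (gc (lam + 2 * j))).subst ((wy y) ^ 2 : ℝ⟦X⟧)) =
    C (y ^ (2 * j)) * (X ^ (2 * j) * (rp (1 - X : ℝ⟦X⟧) (-(2 * (lam + 2 * j))) *
      Sy y (phiS (lam + 2 * j)))) := by
  have hmu : 0 < lam + 2 * (j : ℝ) := by positivity
  rw [← term_eq hmu, ← pow_mul, wy_pow]
  have h1 : Mn y (-2 * lam) 0 (2 * lam) 0 * Mn y (-2 * ((2 * j : ℕ) : ℝ)) 0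
      (2 * ((2 * j : ℕ) : ℝ)) 0 =
      rp (1 - X : ℝ⟦X⟧) (-(2 * (lam + 2 * j))) * rp (1 - wy y) (2 * (lam + 2 * j)) := by
    rw [Mn_mul, Mn]
    have e1 : constantCoeff (1 + X : ℝ⟦X⟧) = 1 := by simp
    have e2 : constantCoeff (1 + wy y : ℝ⟦X⟧) = 1 := by simp [constantCoeff_wy]
    rw [add_zero, rp_zero e1, rp_zero e2, mul_one, mul_one]
    push_cast
    congr 2 <;> ring
  linear_combination (C (y ^ (2 * j)) * X ^ (2 * j) *
    (PowerSeries.mk (gc (lam + 2 * j))).subst ((wy y) ^ 2 : ℝ⟦X⟧)) * h1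

end PAE_

open PAE_

theorem NN_expand {lam : ℝ} (hl : 1 ≤ lam) {y : ℝ} (h0 : 0 ≤ y) (h1 : y ≤ 1) (c kk : ℕ → ℝ)
    (hk : ∀ j, 0 ≤ kk j)
    (hc : ∀ n, c n = ∑ j ∈ range (n + 1), kk j * gc (lam + 2 * j) (n - j)) :
    NN (Mn y (-2 * lam) 0 (2 * lam) 0 * (PowerSeries.mk c).subst ((wy y) ^ 2 : ℝ⟦X⟧)) := by
  intro N
  set M := N + 1 with hM
  have hdvd : (X : ℝ⟦X⟧) ^ M ∣ PowerSeries.mk c -
      ∑ j ∈ range M, C (kk j) * (X ^ j * PowerSeries.mk (gc (lam + 2 * j))) := by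
    rw [X_pow_dvd_iff]
    intro n hn
    rw [map_sub, coeff_mk, map_sum, sub_eq_zero, hc n]
    rw [← Finset.sum_subset (s₁ := range (n + 1)) (s₂ := range M)
      (Finset.range_subset_range.2 (by omega))]
    · refine Finset.sum_congr rfl fun j hj => ?_
      have hj' : j ≤ n := by
        have := Finset.mem_range.1 hj
        omega
      rw [coeff_C_mul, coeff_X_pow_mul', if_pos hj', coeff_mk]
    · intro j _ hj
      have hj' : ¬ j ≤ n := by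
        intro h
        exact hj (Finset.mem_range.2 (by omega))
      rw [coeff_C_mul, coeff_X_pow_mul', if_neg hj', mul_zero]
  obtain ⟨r, hr⟩ := hdvd
  have hmk : PowerSeries.mk c = (∑ j ∈ range M, C (kk j) *
      (X ^ j * PowerSeries.mk (gc (lam + 2 * j)))) + X ^ M * r := by
    rw [← hr]; ring
  have hsubst : (PowerSeries.mk c).subst ((wy y) ^ 2 : ℝ⟦X⟧) =
      (∑ j ∈ range M, C (kk j) * (((wy y) ^ 2) ^ j *
        (PowerSeries.mk (gc (lam + 2 * j))).subst ((wy y) ^ 2 : ℝ⟦X⟧))) +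
      ((wy y) ^ 2) ^ M * r.subst ((wy y) ^ 2 : ℝ⟦X⟧) := by
    have hC : ∀ a : ℝ, substAlgHom (R := ℝ) (hsub y) (C a) = C a := by
      intro a
      have := (substAlgHom (R := ℝ) (hsub y)).commutes a
      simpa using this
    have hX : substAlgHom (R := ℝ) (hsub y) X = (wy y) ^ 2 := substAlgHom_X (hsub y)
    rw [hmk]
    simp only [← coe_substAlgHom (hsub y)]
    simp only [map_add, map_sum, map_mul, map_pow, hC, hX]
  rw [hsubst, mul_add, Finset.mul_sum, map_add, map_sum]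
  have hlast : coeff N (Mn y (-2 * lam) 0 (2 * lam) 0 *
      (((wy y) ^ 2) ^ M * r.subst ((wy y) ^ 2 : ℝ⟦X⟧))) = 0 := by
    rw [← pow_mul, wy_pow]
    have : Mn y (-2 * lam) 0 (2 * lam) 0 * (C (y ^ (2 * M)) * X ^ (2 * M) *
        Mn y (-2 * ((2 * M : ℕ) : ℝ)) 0 (2 * ((2 * M : ℕ) : ℝ)) 0 *
        r.subst ((wy y) ^ 2 : ℝ⟦X⟧)) = X ^ (2 * M) * (Mn y (-2 * lam) 0 (2 * lam) 0 *
        (C (y ^ (2 * M)) * Mn y (-2 * ((2 * M : ℕ) : ℝ)) 0 (2 * ((2 * M : ℕ) : ℝ)) 0 *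
        r.subst ((wy y) ^ 2 : ℝ⟦X⟧))) := by ring
    rw [this, coeff_X_pow_mul', if_neg (by omega)]
  rw [hlast, add_zero]
  refine Finset.sum_nonneg fun j _ => ?_
  have hterm : Mn y (-2 * lam) 0 (2 * lam) 0 * (C (kk j) * (((wy y) ^ 2) ^ j *
        (PowerSeries.mk (gc (lam + 2 * j))).subst ((wy y) ^ 2 : ℝ⟦X⟧))) =
      C (kk j) * (C (y ^ (2 * j)) * (X ^ (2 * j) * (rp (1 - X : ℝ⟦X⟧) (-(2 * (lam + 2 * j))) *
      Sy y (phiS (lam + 2 * j))))) := by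
    rw [← term_j hl y j]; ring
  rw [hterm]
  have hmu : 0 < lam + 2 * (j : ℝ) := by positivity
  exact NN.C_mul (hk j) (NN.C_mul (by positivity) ((NN_X.pow _).mul (NN_E hmu h0 h1))) N

end Pool.Agent.KIM
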