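import Pool.Agent.KIM.PAE

/-!
# KIM / PAG: the real Askey-Gasper inequality and its companion

Fix `γ ≥ 0`, `λ = γ + 1`, `0 ≤ y ≤ 1`, `w = wy y`.
* `NN_ag`: `NN_expand` with `c_n = 1` (`sum_kj`, `kj_nonneg`):
  `(1 - w^2) * (mk 1).subst (w^2) = 1` (from `(1 - X) * mk 1 = 1`), so
  `Mn y (-2γ-2) 0 (2γ+1) (-1) = Mn y (-2λ) 0 (2λ) 0 * (mk 1).subst (w^2)`.
* `NN_fg`: `NN_expand` with `c_n = 1/(λ+2n)` (`sum_kf`, `kf_nonneg`), `Q` the series there;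
  `Mn y (-2γ-3) 1 (2γ+2) (-2) = λ Q + eul Q`: with `B = mk c`, `λ B + 2 eul B = mk 1`,
  `eul (B.subst (w^2)) * w = 2 (eul B).subst (w^2) * eul w` (`derivative_subst`), `eul w`
  from `eul_wy`, `eul (Mn y (-2λ) 0 (2λ) 0)` from `eul_Mn`, and
  `λ (1+z)/(1-z) - 2 λ w (1+z)/((1-z)(1+w)) = λ (1+z)(1-w)/((1-z)(1+w))`.
  Then `NN.add`, `NN.C_mul`, `NN.eul`.
-/

set_option autoImplicit false

open PowerSeries Finset

namespace Pool.Agent.KIM

private theorem pag_hasSubst (y : ℝ) : PowerSeries.HasSubst ((wy y) ^ 2 : ℝ⟦X⟧) := by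
  apply PowerSeries.HasSubst.of_constantCoeff_zero'
  rw [map_pow, constantCoeff_wy]
  norm_num

private theorem pag_geom (y : ℝ) : (1 - wy y) * (1 + wy y) *
    (PowerSeries.mk (fun _ => (1 : ℝ))).subst ((wy y) ^ 2 : ℝ⟦X⟧) = 1 := by
  have h := PowerSeries.mk_one_mul_one_sub_eq_one ℝ
  have h2 := congrArg (PowerSeries.subst ((wy y) ^ 2 : ℝ⟦X⟧)) h
  rw [PowerSeries.subst_mul (pag_hasSubst y)] at h2
  have h3 : PowerSeries.subst ((wy y) ^ 2 : ℝ⟦X⟧) (1 : ℝ⟦X⟧) = 1 := by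
    rw [← PowerSeries.coe_substAlgHom (pag_hasSubst y), map_one]
  have h4 : PowerSeries.subst ((wy y) ^ 2 : ℝ⟦X⟧) (1 - X : ℝ⟦X⟧) = 1 - wy y ^ 2 := by
    rw [← PowerSeries.coe_substAlgHom (pag_hasSubst y), map_sub, map_one,
      PowerSeries.coe_substAlgHom (pag_hasSubst y), PowerSeries.subst_X (pag_hasSubst y)]
  rw [h3, h4] at h2
  have h5 : (PowerSeries.mk (1 : ℕ → ℝ)) = PowerSeries.mk (fun _ => (1 : ℝ)) := rfl
  rw [h5] at h2
  linear_combination h2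

private theorem pag_Mn_sub (y a b c d : ℝ) :
    Mn y (a + 1) b c d = Mn y a b c d * (1 - X) := by
  have h : Mn y 1 0 0 0 = 1 - X := by
    unfold Mn
    rw [rp_one (by simp), rp_zero (by simp), rp_zero (by simp [constantCoeff_wy]),
      rp_zero (by simp [constantCoeff_wy])]
    ring
  rw [← h, Mn_mul]
  simp

private theorem pag_Mn_add (y a b c d : ℝ) :
    Mn y a (b + 1) c d = Mn y a b c d * (1 + X) := by
  have h : Mn y 0 1 0 0 = 1 + X := by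
    unfold Mn
    rw [rp_one (by simp), rp_zero (by simp), rp_zero (by simp [constantCoeff_wy]),
      rp_zero (by simp [constantCoeff_wy])]
    ring
  rw [← h, Mn_mul]
  simp

private theorem pag_Mn_wsub (y a b c d : ℝ) :
    Mn y a b (c + 1) d = Mn y a b c d * (1 - wy y) := by
  have h : Mn y 0 0 1 0 = 1 - wy y := by
    unfold Mn
    rw [rp_one (by simp [constantCoeff_wy]), rp_zero (by simp), rp_zero (by simp),
      rp_zero (by simp [constantCoeff_wy])]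
    ring
  rw [← h, Mn_mul]
  simp

private theorem pag_Mn_wadd (y a b c d : ℝ) :
    Mn y a b c (d + 1) = Mn y a b c d * (1 + wy y) := by
  have h : Mn y 0 0 0 1 = 1 + wy y := by
    unfold Mn
    rw [rp_one (by simp [constantCoeff_wy]), rp_zero (by simp), rp_zero (by simp),
      rp_zero (by simp [constantCoeff_wy])]
    ring
  rw [← h, Mn_mul]
  simp

theorem NN_ag {y : ℝ} (h0 : 0 ≤ y) (h1 : y ≤ 1) {ga : ℝ} (hg : 0 ≤ ga) :
    NN (Mn y (-2 * ga - 2) 0 (2 * ga + 1) (-1)) := by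
  have hl : 1 ≤ ga + 1 := by linarith
  have h := NN_expand hl h0 h1 (fun _ => 1) (kj (ga + 1)) (kj_nonneg hl)
    (fun n => (sum_kj hl n).symm)
  have e1 : Mn y (-2 * (ga + 1)) 0 (2 * (ga + 1)) 0 =
      Mn y (-2 * ga - 2) 0 (2 * ga + 1) (-1) * (1 - wy y) * (1 + wy y) := by
    rw [← pag_Mn_wsub, ← pag_Mn_wadd]
    congr 1 <;> ring
  have e2 := pag_geom y
  rw [e1] at h
  have e3 : Mn y (-2 * ga - 2) 0 (2 * ga + 1) (-1) * (1 - wy y) * (1 + wy y) *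
      (PowerSeries.mk (fun _ => (1 : ℝ))).subst ((wy y) ^ 2 : ℝ⟦X⟧) =
      Mn y (-2 * ga - 2) 0 (2 * ga + 1) (-1) := by
    linear_combination (Mn y (-2 * ga - 2) 0 (2 * ga + 1) (-1)) * e2
  rw [e3] at h
  exact h

theorem NN_fg {y : ℝ} (h0 : 0 ≤ y) (h1 : y ≤ 1) {ga : ℝ} (hg : 0 ≤ ga) :
    NN (Mn y (-2 * ga - 3) 1 (2 * ga + 2) (-2)) := by
  have hl : 1 ≤ ga + 1 := by linarith
  set lam : ℝ := ga + 1 with hlam
  have h := NN_expand hl h0 h1 (fun n => 1 / (lam + 2 * n)) (kf lam) (kf_nonneg hl)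
    (fun n => (sum_kf hl n).symm)
  set B : ℝ⟦X⟧ := PowerSeries.mk (fun n : ℕ => 1 / (lam + 2 * n)) with hB
  set M : ℝ⟦X⟧ := Mn y (-2 * lam) 0 (2 * lam) 0 with hM
  set S : ℝ⟦X⟧ := B.subst ((wy y) ^ 2 : ℝ⟦X⟧) with hS
  set D : ℝ⟦X⟧ := (d⁄dX ℝ B).subst ((wy y) ^ 2 : ℝ⟦X⟧) with hD
  set G : ℝ⟦X⟧ := (PowerSeries.mk (fun _ => (1 : ℝ))).subst ((wy y) ^ 2 : ℝ⟦X⟧) with hG
  have e2 : (1 - wy y) * (1 + wy y) * G = 1 := pag_geom y
  -- the equation for `B`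
  have eB : C lam * B + C 2 * (X * d⁄dX ℝ B) = PowerSeries.mk (fun _ => (1 : ℝ)) := by
    ext n
    have hc : coeff n (X * d⁄dX ℝ B) = (n : ℝ) * coeff n B := coeff_eul B n
    rw [map_add, coeff_C_mul, coeff_C_mul, hc, hB, coeff_mk, coeff_mk]
    have hn : (0 : ℝ) ≤ n := Nat.cast_nonneg n
    have k1 : lam + 2 * n ≠ 0 := by linarith
    field_simp
  have eG : C lam * S + C 2 * (wy y ^ 2 * D) = G := by
    have e := congrArg (PowerSeries.subst ((wy y) ^ 2 : ℝ⟦X⟧)) eB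
    rw [← PowerSeries.coe_substAlgHom (pag_hasSubst y), map_add, map_mul, map_mul, map_mul] at e
    rw [PowerSeries.coe_substAlgHom (pag_hasSubst y), PowerSeries.subst_X (pag_hasSubst y)] at e
    have hC : ∀ r : ℝ, PowerSeries.subst ((wy y) ^ 2 : ℝ⟦X⟧) (C r : ℝ⟦X⟧) = C r := by
      intro r
      rw [← PowerSeries.coe_substAlgHom (pag_hasSubst y)]
      exact (PowerSeries.substAlgHom (pag_hasSubst y)).commutes r
    rw [hC, hC] at e
    exact e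
  have eS : eul S = D * (2 * wy y * eul (wy y)) := by
    unfold eul
    rw [hS, PowerSeries.derivative_subst (pag_hasSubst y)]
    have hp : d⁄dX ℝ ((wy y) ^ 2 : ℝ⟦X⟧) = 2 * wy y * d⁄dX ℝ (wy y) := by
      rw [pow_two, Derivation.leibniz, smul_eq_mul]
      ring
    rw [hp]
    ring
  have ew := eul_wy y
  have eM := eul_Mn y (-2 * lam) 0 (2 * lam) 0
  rw [← hM] at eM
  have eQ : eul (M * S) = eul M * S + M * eul S := eul_mul M S
  set T : ℝ⟦X⟧ := Mn y (-2 * ga - 3) 1 (2 * ga + 2) (-2) with hT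
  have eT : T * (1 - X) * (1 + wy y) * (1 + wy y) = M * (1 + X) := by
    rw [hT, hM, ← pag_Mn_sub, ← pag_Mn_wadd, ← pag_Mn_wadd, ← pag_Mn_add]
    congr 1 <;> (try rw [hlam]) <;> ring
  have hne : ((1 : ℝ⟦X⟧) - X) * (1 + X) * (1 + wy y) ^ 2 ≠ 0 := by
    have a1 : (1 : ℝ⟦X⟧) - X ≠ 0 := ne_zero_of_one (by simp)
    have a2 : (1 : ℝ⟦X⟧) + X ≠ 0 := ne_zero_of_one (by simp)
    have a3 : (1 : ℝ⟦X⟧) + wy y ≠ 0 := ne_zero_of_one (by simp [constantCoeff_wy])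
    exact mul_ne_zero (mul_ne_zero a1 a2) (pow_ne_zero 2 a3)
  have hfin : T = C lam * (M * S) + eul (M * S) := by
    apply mul_left_cancel₀ hne
    rw [eQ, eS]
    have c3 : (C 2 : ℝ⟦X⟧) = 2 := map_ofNat (C : ℝ →+* ℝ⟦X⟧) 2
    have c1 : (C (-(-2 * lam)) : ℝ⟦X⟧) = 2 * C lam := by
      rw [show -(-2 * lam) = (2 : ℝ) * lam by ring, map_mul, c3]
    have c2 : (C (-(2 * lam)) : ℝ⟦X⟧) = -(2 * C lam) := by
      rw [map_neg, map_mul, c3]
    have c0 : (C (0 : ℝ) : ℝ⟦X⟧) = 0 := map_zero _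
    rw [c1, c2, c0] at eM
    rw [c3] at eG
    linear_combination ((1 + X)) * eT - S * eM - (M * D * 2 * wy y * (1 + X) * (1 + wy y)) * ew -
      (M * (1 + X) ^ 2) * e2 - (M * (1 + X) ^ 2 * (1 - wy y) * (1 + wy y)) * eG
  rw [hfin]
  exact NN.add (NN.C_mul (by linarith) h) (NN.eul h)

end Pool.Agent.KIM
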