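import Pool.Agent.KIM.PCL

/-!
# KIM / PCE: positivity of the Clausen polynomial

`a = -N/2`, `b = N/2 + μ`, `a + b = μ > 0`.  By `clausen` the coefficients of `A^2`,
`A = mk (cla a b)`, are the numbers `g_n` below, and `g_n = 0` for `n > N` (`poc (-N) n = 0`).  For
`0 ≤ y < 1` the series `∑ cla a b n * y ^ n` converges absolutely
(`summable_of_ratio_norm_eventually_le`: the ratio is
`y |n + a| |n + b| / ((n + 1)(n + μ + 1/2)) → y < 1`), so by the Cauchy product
(`tsum_mul_tsum_eq_tsum_sum_antidiagonal_of_summable_norm`) `∑_{n ≤ N} g_n y^n = (∑' a_n y^n)^2 ≥ 0`.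
For `y = 1`: continuity of the polynomial.
-/

set_option autoImplicit false

open PowerSeries Finset

namespace Pool.Agent.KIM

private theorem cla_succ' {a b : ℝ} (h : 0 < a + b) (n : ℕ) :
    cla a b (n + 1) =
      (n + a) * (n + b) / (((n : ℝ) + 1) * (n + (a + b + 1 / 2))) * cla a b n := by
  have hc : 0 < a + b + 1 / 2 := by linarith
  have h1 : (0 : ℝ) < poc (a + b + 1 / 2) n := poc_pos hc n
  have h2 : (0 : ℝ) < a + b + 1 / 2 + n := by positivity
  have h2' : (0 : ℝ) < n + (a + b + 1 / 2) := by positivity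
  have h3 : (0 : ℝ) < (n.factorial : ℝ) := by exact_mod_cast n.factorial_pos
  have h4 : (0 : ℝ) < (n : ℝ) + 1 := by positivity
  unfold cla
  rw [poc_succ, poc_succ, poc_succ, Nat.factorial_succ]
  push_cast
  field_simp
  ring

private theorem ratio_lim (a b : ℝ) (h : 0 < a + b) :
    Filter.Tendsto (fun n : ℕ => (n + a) * (n + b) / (((n : ℝ) + 1) * (n + (a + b + 1 / 2))))
      Filter.atTop (nhds 1) := by
  have hlin : ∀ c : ℝ, Filter.Tendsto (fun n : ℕ => ((n : ℝ) + c) / n) Filter.atTop (nhds 1) := by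
    intro c
    have h1 : Filter.Tendsto (fun n : ℕ => 1 + c / (n : ℝ)) Filter.atTop (nhds (1 + 0)) :=
      tendsto_const_nhds.add (tendsto_const_div_atTop_nhds_zero_nat c)
    rw [add_zero] at h1
    refine h1.congr' ?_
    filter_upwards [Filter.eventually_gt_atTop 0] with n hn
    have : (n : ℝ) ≠ 0 := by exact_mod_cast hn.ne'
    field_simp
  have h2 := ((hlin a).mul (hlin b)).div ((hlin 1).mul (hlin (a + b + 1 / 2))) (by norm_num)
  have e1 : (1 : ℝ) * 1 / (1 * 1) = 1 := by norm_num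
  rw [e1] at h2
  refine h2.congr' ?_
  filter_upwards [Filter.eventually_gt_atTop 0] with n hn
  simp only [Pi.div_apply]
  have : (n : ℝ) ≠ 0 := by exact_mod_cast hn.ne'
  have h1 : (0 : ℝ) < n := by exact_mod_cast hn
  have h3 : (0 : ℝ) < n + (a + b + 1 / 2) := by positivity
  field_simp

private theorem summable_cla (a b : ℝ) (h : 0 < a + b) {y : ℝ} (h0 : 0 ≤ y) (h1 : y < 1) :
    Summable fun n : ℕ => ‖cla a b n * y ^ n‖ := by
  obtain ⟨r, hr1, hr2⟩ := exists_between h1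
  have hlim : Filter.Tendsto (fun n : ℕ =>
      |(n + a) * (n + b) / (((n : ℝ) + 1) * (n + (a + b + 1 / 2)))| * y)
      Filter.atTop (nhds (|(1 : ℝ)| * y)) := ((ratio_lim a b h).abs).mul_const y
  rw [abs_one, one_mul] at hlim
  have hev := hlim.eventually (eventually_le_nhds hr1)
  have : Summable fun n : ℕ => cla a b n * y ^ n := by
    refine summable_of_ratio_norm_eventually_le hr2 ?_
    filter_upwards [hev] with n hn
    rw [cla_succ' h, pow_succ, norm_mul, norm_mul, norm_mul, norm_mul, norm_pow, Real.norm_eq_abs,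
      Real.norm_eq_abs, Real.norm_eq_abs, abs_of_nonneg h0]
    have e1 : |((n : ℝ) + a) * (n + b) / (((n : ℝ) + 1) * (n + (a + b + 1 / 2)))| * |cla a b n| *
        (y ^ n * y) =
        |((n : ℝ) + a) * (n + b) / (((n : ℝ) + 1) * (n + (a + b + 1 / 2)))| * y *
          (|cla a b n| * y ^ n) := by ring
    rw [e1]
    exact mul_le_mul_of_nonneg_right hn (by positivity)
  exact this.norm

private theorem poc_neg (N n : ℕ) (hn : N < n) : poc (-(N : ℝ)) n = 0 := by
  unfold poc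
  refine Finset.prod_eq_zero (Finset.mem_range.mpr hn) ?_
  ring

private theorem lt_one_case (N : ℕ) {mu : ℝ} (hmu : 0 < mu) {y : ℝ} (h0 : 0 ≤ y) (h1 : y < 1) :
    0 ≤ ∑ n ∈ range (N + 1), poc (-(N : ℝ)) n * poc ((N : ℝ) + 2 * mu) n * poc mu n /
      (poc (mu + 1 / 2) n * poc (2 * mu) n * (n.factorial : ℝ)) * y ^ n := by
  have hab : -(N : ℝ) / 2 + ((N : ℝ) / 2 + mu) = mu := by ring
  have hpos : 0 < -(N : ℝ) / 2 + ((N : ℝ) / 2 + mu) := by rw [hab]; exact hmu
  have hs := summable_cla _ _ hpos h0 h1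
  have hprod := tsum_mul_tsum_eq_tsum_sum_antidiagonal_of_summable_norm hs hs
  have hterm : ∀ n : ℕ, ∑ kl ∈ antidiagonal n,
      cla (-(N : ℝ) / 2) ((N : ℝ) / 2 + mu) kl.1 * y ^ kl.1 *
        (cla (-(N : ℝ) / 2) ((N : ℝ) / 2 + mu) kl.2 * y ^ kl.2) =
      poc (-(N : ℝ)) n * poc ((N : ℝ) + 2 * mu) n * poc mu n /
      (poc (mu + 1 / 2) n * poc (2 * mu) n * (n.factorial : ℝ)) * y ^ n := by
    intro n
    have hc := clausen hpos n
    rw [hab, show 2 * (-(N : ℝ) / 2) = -(N : ℝ) by ring,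
      show 2 * ((N : ℝ) / 2 + mu) = (N : ℝ) + 2 * mu by ring, pow_two,
      PowerSeries.coeff_mul] at hc
    rw [← hc, Finset.sum_mul]
    refine Finset.sum_congr rfl fun kl hkl => ?_
    rw [Finset.HasAntidiagonal.mem_antidiagonal] at hkl
    rw [PowerSeries.coeff_mk, PowerSeries.coeff_mk, ← hkl, pow_add]
    ring
  rw [tsum_congr hterm] at hprod
  have hfin : ∑' n : ℕ, poc (-(N : ℝ)) n * poc ((N : ℝ) + 2 * mu) n * poc mu n /
      (poc (mu + 1 / 2) n * poc (2 * mu) n * (n.factorial : ℝ)) * y ^ n =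
      ∑ n ∈ range (N + 1), poc (-(N : ℝ)) n * poc ((N : ℝ) + 2 * mu) n * poc mu n /
      (poc (mu + 1 / 2) n * poc (2 * mu) n * (n.factorial : ℝ)) * y ^ n := by
    refine tsum_eq_sum fun n hn => ?_
    rw [Finset.mem_range, not_lt] at hn
    rw [poc_neg N n (by omega)]
    simp
  rw [hfin] at hprod
  rw [← hprod]
  exact mul_self_nonneg _

theorem clausen_poly_nonneg (N : ℕ) {mu : ℝ} (hmu : 0 < mu) {y : ℝ} (h0 : 0 ≤ y) (h1 : y ≤ 1) :
    0 ≤ ∑ n ∈ range (N + 1), poc (-(N : ℝ)) n * poc ((N : ℝ) + 2 * mu) n * poc mu n /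
      (poc (mu + 1 / 2) n * poc (2 * mu) n * (n.factorial : ℝ)) * y ^ n := by
  rcases h1.lt_or_eq with h1 | h1
  · exact lt_one_case N hmu h0 h1
  · subst h1
    have hcont : Continuous fun y : ℝ => ∑ n ∈ range (N + 1),
        poc (-(N : ℝ)) n * poc ((N : ℝ) + 2 * mu) n * poc mu n /
        (poc (mu + 1 / 2) n * poc (2 * mu) n * (n.factorial : ℝ)) * y ^ n := by
      fun_prop
    have hlim : Filter.Tendsto (fun y : ℝ => ∑ n ∈ range (N + 1),
        poc (-(N : ℝ)) n * poc ((N : ℝ) + 2 * mu) n * poc mu n /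
        (poc (mu + 1 / 2) n * poc (2 * mu) n * (n.factorial : ℝ)) * y ^ n)
        (nhdsWithin 1 (Set.Iio 1)) (nhds (∑ n ∈ range (N + 1),
        poc (-(N : ℝ)) n * poc ((N : ℝ) + 2 * mu) n * poc mu n /
        (poc (mu + 1 / 2) n * poc (2 * mu) n * (n.factorial : ℝ)) * (1 : ℝ) ^ n)) :=
      (hcont.tendsto 1).mono_left nhdsWithin_le_nhds
    refine ge_of_tendsto hlim ?_
    have hmem : Set.Ioo (0 : ℝ) 1 ∈ nhdsWithin (1 : ℝ) (Set.Iio 1) :=
      Ioo_mem_nhdsLT zero_lt_one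
    filter_upwards [hmem] with y hy
    exact lt_one_case N hmu hy.1.le hy.2

end Pool.Agent.KIM
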