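import Pool.Agent.KIM.RPB

/-!
# KIM / PCL: Clausen's formula as an identity of power series

`poc a n = a (a+1) ... (a+n-1)`.  Let `A = hyp a b` with coefficients
`poc a n poc b n / (poc (a+b+1/2) n n!)`, `c = a + b + 1/2`, `s = a + b > 0`.
* `A` satisfies (with `'` = `d/dX`) `X (1 - X) A'' + (c - (a+b+1) X) A' - a b A = 0`
  (coefficients: `(n+1)(n+c) a_{n+1} = (n+a)(n+b) a_n`).
* `G = A^2`: with `R := X (1-X) G'' + (c - (a+b+1) X) G' - 2 a b G = 2 X (1-X) A'^2` one gets
  `X R' = -2 s R + 2 a b X G'` (here `1 - 2 c = -2 s` is used; one divides by `1 - X`).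
* coefficients `g_n` of `G`, `r_n = (n+1)(n+c) g_{n+1} - (n^2 + s n + 2 a b) g_n` of `R`:
  `(n + 2 s) r_n = 2 a b n g_n`, i.e.
  `(n+1)(n+c)(n+2s) g_{n+1} = (n+2a)(n+2b)(n+s) g_n`, `g_0 = 1`.  Induction on `n`.
-/

set_option autoImplicit false

open PowerSeries Finset

namespace Pool.Agent.KIM

/-- The rising factorial. -/
noncomputable def poc (a : ℝ) (n : ℕ) : ℝ := ∏ i ∈ range n, (a + i)

/-- Coefficients of `₂F₁(a, b; a + b + 1/2; x)`. -/
noncomputable def cla (a b : ℝ) (n : ℕ) : ℝ :=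
  poc a n * poc b n / (poc (a + b + 1 / 2) n * (n.factorial : ℝ))

theorem poc_zero (a : ℝ) : poc a 0 = 1 := by
  simp [poc]

theorem poc_succ (a : ℝ) (n : ℕ) : poc a (n + 1) = poc a n * (a + n) := by
  simp [poc, Finset.prod_range_succ]

theorem poc_pos {a : ℝ} (ha : 0 < a) (n : ℕ) : 0 < poc a n := by
  unfold poc
  exact Finset.prod_pos fun i _ => by positivity

private theorem cla_succ {a b : ℝ} (h : 0 < a + b) (n : ℕ) :
    ((n : ℝ) + 1) * (n + (a + b + 1 / 2)) * cla a b (n + 1) = (n + a) * (n + b) * cla a b n := by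
  have hc : 0 < a + b + 1 / 2 := by linarith
  have h1 : (0 : ℝ) < poc (a + b + 1 / 2) n := poc_pos hc n
  have h2 : (0 : ℝ) < a + b + 1 / 2 + n := by positivity
  have h3 : (0 : ℝ) < (n.factorial : ℝ) := by exact_mod_cast n.factorial_pos
  have h4 : (0 : ℝ) < (n : ℝ) + 1 := by positivity
  unfold cla
  rw [poc_succ, poc_succ, poc_succ, Nat.factorial_succ]
  push_cast
  field_simp
  ring

private theorem ode_gen (s t p : ℝ) (A : ℝ⟦X⟧)
    (hA : ∀ n : ℕ, ((n : ℝ) + 1) * (((n : ℝ) + 1) * coeff (n + 1) A) +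
      t * (((n : ℝ) + 1) * coeff (n + 1) A) =
      (n : ℝ) * ((n : ℝ) * coeff n A) + s * ((n : ℝ) * coeff n A) + p * coeff n A) :
    eul (eul A) + C t * eul A = X * (eul (eul A) + C s * eul A + C p * A) := by
  ext n
  cases n with
  | zero =>
    rw [map_add, coeff_eul, PowerSeries.coeff_C_mul, coeff_eul, PowerSeries.coeff_zero_X_mul]
    simp
  | succ n =>
    rw [PowerSeries.coeff_succ_X_mul]
    simp only [map_add, coeff_eul, PowerSeries.coeff_C_mul]
    have := hA n
    push_cast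
    linear_combination this

private theorem ode {a b : ℝ} (h : 0 < a + b) :
    eul (eul (PowerSeries.mk (cla a b))) + C (a + b - 1 / 2) * eul (PowerSeries.mk (cla a b)) =
      X * (eul (eul (PowerSeries.mk (cla a b))) + C (a + b) * eul (PowerSeries.mk (cla a b)) +
        C (a * b) * PowerSeries.mk (cla a b)) := by
  refine ode_gen _ _ _ _ fun n => ?_
  rw [PowerSeries.coeff_mk, PowerSeries.coeff_mk]
  linear_combination cla_succ h n

private theorem ode2 (a b : ℝ) (A : ℝ⟦X⟧)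
    (h : eul (eul A) + C (a + b - 1 / 2) * eul A =
      X * (eul (eul A) + C (a + b) * eul A + C (a * b) * A)) :
    eul (eul (A * A)) + C (a + b - 1 / 2) * eul (A * A) -
      X * (eul (eul (A * A)) + C (a + b) * eul (A * A) + C (2 * (a * b)) * (A * A)) =
      C 2 * ((1 - X) * (eul A * eul A)) := by
  have e2 : (C (2 * (a * b)) : ℝ⟦X⟧) = 2 * C (a * b) := by
    rw [map_mul]; congr 1
  have e3 : (C (2 : ℝ) : ℝ⟦X⟧) = 2 := rfl
  have h1 : eul (A * A) = 2 * (A * eul A) := by rw [eul_mul]; ring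
  have h2 : eul (eul (A * A)) = 2 * (eul A * eul A) + 2 * (A * eul (eul A)) := by
    rw [eul_mul, eul_add, eul_mul, eul_mul]; ring
  rw [h2, h1, e2, e3]
  linear_combination (2 * A) * h

private theorem ode3 (a b : ℝ) (A : ℝ⟦X⟧)
    (h : eul (eul A) + C (a + b - 1 / 2) * eul A =
      X * (eul (eul A) + C (a + b) * eul A + C (a * b) * A)) :
    eul (C 2 * ((1 - X) * (eul A * eul A))) =
      C (1 - 2 * (a + b)) * (C 2 * ((1 - X) * (eul A * eul A))) +
        C (2 * (a * b)) * (X * eul (A * A)) := by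
  have e2 : (C (2 * (a * b)) : ℝ⟦X⟧) = 2 * C (a * b) := by
    rw [map_mul]; congr 1
  have e3 : (C (2 : ℝ) : ℝ⟦X⟧) = 2 := rfl
  have e4 : (C (1 - 2 * (a + b)) : ℝ⟦X⟧) = 1 - 2 * C (a + b) := by
    rw [map_sub, map_mul, map_one]; congr 1
  have e5 : (2 : ℝ⟦X⟧) * C (a + b - 1 / 2) = 2 * C (a + b) - 1 := by
    rw [← e3, ← map_mul, ← map_mul, ← map_one (C : ℝ →+* ℝ⟦X⟧), ← map_sub]
    congr 1
    ring
  have h1 : eul (A * A) = 2 * (A * eul A) := by rw [eul_mul]; ring
  rw [eul_C_mul, eul_mul, eul_sub, eul_one, eul_X, eul_mul, h1, e2, e3, e4]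
  linear_combination (4 * eul A) * h - (2 * (eul A * eul A)) * e5

private theorem rec_gen (s t p : ℝ) (G R : ℝ⟦X⟧)
    (hR : R = eul (eul G) + C t * eul G - X * (eul (eul G) + C s * eul G + C (2 * p) * G))
    (hE : eul R = C (1 - 2 * s) * R + C (2 * p) * (X * eul G)) (n : ℕ) :
    ((n : ℝ) + 2 * s) * (((n : ℝ) + 1) * (((n : ℝ) + 1) + t) * coeff (n + 1) G -
      ((n : ℝ) * n + s * n + 2 * p) * coeff n G) = 2 * p * (n * coeff n G) := by
  have h1 : coeff (n + 1) R = ((n : ℝ) + 1) * (((n : ℝ) + 1) + t) * coeff (n + 1) G -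
      ((n : ℝ) * n + s * n + 2 * p) * coeff n G := by
    rw [hR, map_sub, PowerSeries.coeff_succ_X_mul]
    simp only [map_add, coeff_eul, PowerSeries.coeff_C_mul]
    push_cast
    ring
  have h2 : coeff (n + 1) (eul R) =
      coeff (n + 1) (C (1 - 2 * s) * R + C (2 * p) * (X * eul G)) := by rw [hE]
  rw [map_add, PowerSeries.coeff_C_mul, PowerSeries.coeff_C_mul, PowerSeries.coeff_succ_X_mul,
    coeff_eul, coeff_eul, h1] at h2
  push_cast at h2
  linear_combination h2

theorem clausen {a b : ℝ} (h : 0 < a + b) (n : ℕ) :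
    coeff n ((PowerSeries.mk (cla a b)) ^ 2 : ℝ⟦X⟧) =
      poc (2 * a) n * poc (2 * b) n * poc (a + b) n /
        (poc (a + b + 1 / 2) n * poc (2 * (a + b)) n * (n.factorial : ℝ)) := by
  have hO := ode h
  have h2 := ode2 a b _ hO
  have h3 := ode3 a b _ hO
  have key := rec_gen (a + b) (a + b - 1 / 2) (a * b) _ _ h2.symm h3
  induction n with
  | zero =>
    rw [pow_two, PowerSeries.coeff_mul]
    simp [cla, poc_zero]
  | succ n ih =>
    have hk := key n
    rw [← pow_two, ih] at hk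
    have hc : 0 < a + b + 1 / 2 := by linarith
    have h1 : (0 : ℝ) < poc (a + b + 1 / 2) n := poc_pos hc n
    have h1' : (0 : ℝ) < a + b + 1 / 2 + n := by positivity
    have h5 : (0 : ℝ) < poc (2 * (a + b)) n := poc_pos (by linarith) n
    have h5' : (0 : ℝ) < 2 * (a + b) + n := by positivity
    have h3 : (0 : ℝ) < (n.factorial : ℝ) := by exact_mod_cast n.factorial_pos
    have h4 : (0 : ℝ) < (n : ℝ) + 1 := by positivity
    rw [poc_succ, poc_succ, poc_succ, poc_succ, poc_succ, Nat.factorial_succ]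
    push_cast
    rw [eq_div_iff (by positivity)]
    have hD : poc (a + b + 1 / 2) n * poc (2 * (a + b)) n * (n.factorial : ℝ) ≠ 0 := by
      positivity
    generalize coeff (n + 1) ((PowerSeries.mk (cla a b)) ^ 2 : ℝ⟦X⟧) = g at hk ⊢
    have hk2 : ((n : ℝ) + 2 * (a + b)) * ((n : ℝ) + 1) * ((n : ℝ) + (a + b + 1 / 2)) * g =
        (n + 2 * a) * (n + 2 * b) * (n + (a + b)) *
        (poc (2 * a) n * poc (2 * b) n * poc (a + b) n /
          (poc (a + b + 1 / 2) n * poc (2 * (a + b)) n * (n.factorial : ℝ))) := by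
      linear_combination hk
    rw [mul_div_assoc', eq_div_iff hD] at hk2
    linear_combination hk2

end Pool.Agent.KIM
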