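import Pool.Agent.KIM.PCE
import Pool.Agent.KIM.SSY
import Pool.Agent.KIM.PBN

/-!
# KIM / PEC: `E_μ = (1 - z)^(-2 μ) ₂F₁(μ, μ; 2 μ; -4 y k(z))` has nonnegative coefficients

`phiS μ = ∑ (-4)^n (μ)_n^2 / ((2 μ)_n n!) u^n`.  By `coeff_mul_Sy`,
`[z^N] E_μ = ∑_{n ≤ N} phi_n y^n [z^N] ((1-z)^(-2μ) k0^n)`, `k0 = X rp (1-X) (-2)`, and
`[z^M] (1 - z)^(-c) = poc c M / M!` (`coeff_rp_one_sub`), `M = N - n`, `c = 2 μ + 2 n`.  Now
`poc (2μ+2n) (N-n) poc (2μ) (2n) = poc (2μ) (N+n)`, `poc (2μ) (2n) = 4^n poc μ n poc (μ+1/2) n`,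
`poc (2μ) (N+n) = poc (2μ) N poc (2μ+N) n`, `(-1)^n N! / (N-n)! = poc (-N) n`, hence
`[z^N] E_μ = (poc (2μ) N / N!) ∑_{n≤N} poc (-N) n poc (N+2μ) n poc μ n /
(poc (μ+1/2) n poc (2μ) n n!) y^n ≥ 0` by `clausen_poly_nonneg`.
-/

set_option autoImplicit false

open PowerSeries Finset

namespace Pool.Agent.KIM

/-- The series `₂F₁(μ, μ; 2 μ; -4 u)`. -/
noncomputable def phiS (mu : ℝ) : ℝ⟦X⟧ :=
  PowerSeries.mk fun n => (-4) ^ n * (poc mu n) ^ 2 / (poc (2 * mu) n * (n.factorial : ℝ))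

private theorem pec_cc_one_sub : constantCoeff (1 - X : ℝ⟦X⟧) = 1 := by
  simp

theorem coeff_rp_one_sub (c : ℝ) (M : ℕ) :
    coeff M (rp (1 - X : ℝ⟦X⟧) (-c)) = poc c M / (M.factorial : ℝ) := by
  have h := rp_eul pec_cc_one_sub (-c)
  have hX : eul (1 - X : ℝ⟦X⟧) = -X := by
    rw [eul_sub, eul_one, eul_X, zero_sub]
  rw [hX] at h
  -- coefficients: `(n+1) g_{n+1} - n g_n = c g_n`
  have hrec : ∀ n : ℕ, ((n : ℝ) + 1) * coeff (n + 1) (rp (1 - X : ℝ⟦X⟧) (-c)) =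
      (c + n) * coeff n (rp (1 - X : ℝ⟦X⟧) (-c)) := by
    intro n
    have h1 := congrArg (coeff (n + 1)) h
    have e1 : (1 - X) * eul (rp (1 - X : ℝ⟦X⟧) (-c)) =
        eul (rp (1 - X : ℝ⟦X⟧) (-c)) - X * eul (rp (1 - X : ℝ⟦X⟧) (-c)) := by ring
    have e2 : C (-c) * -X * rp (1 - X : ℝ⟦X⟧) (-c) = X * (C c * rp (1 - X : ℝ⟦X⟧) (-c)) := by
      rw [map_neg]
      ring
    rw [e1, e2, map_sub, coeff_succ_X_mul, coeff_succ_X_mul, coeff_eul, coeff_eul,
      coeff_C_mul] at h1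
    push_cast at h1
    linarith
  induction M with
  | zero => simp [coeff_zero_rp, poc_zero]
  | succ n ih =>
    have h2 := hrec n
    have hn : (n : ℝ) + 1 ≠ 0 := by positivity
    have hf : (n.factorial : ℝ) ≠ 0 := by positivity
    have h3 : coeff (n + 1) (rp (1 - X : ℝ⟦X⟧) (-c)) =
        (c + n) * coeff n (rp (1 - X : ℝ⟦X⟧) (-c)) / ((n : ℝ) + 1) := by
      rw [eq_div_iff hn, ← h2]
      ring
    rw [h3, ih, poc_succ, Nat.factorial_succ]
    push_cast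
    field_simp

private theorem pec_k0_eq : k0 = X * rp (1 - X : ℝ⟦X⟧) (-2) := by
  have h := k0_eq
  have h2 : rp (1 - X : ℝ⟦X⟧) (-2) * (1 - X) ^ 2 = 1 := by
    have := rp_neg_mul pec_cc_one_sub (2 : ℝ)
    rw [show (2 : ℝ) = ((2 : ℕ) : ℝ) by norm_num, rp_natCast pec_cc_one_sub] at this
    exact_mod_cast this
  calc k0 = (rp (1 - X : ℝ⟦X⟧) (-2) * (1 - X) ^ 2) * k0 := by rw [h2, one_mul]
    _ = rp (1 - X : ℝ⟦X⟧) (-2) * ((1 - X) ^ 2 * k0) := by ring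
    _ = _ := by rw [h]; ring

private theorem pec_k0_pow (c : ℝ) (n : ℕ) : rp (1 - X : ℝ⟦X⟧) (-c) * k0 ^ n =
    X ^ n * rp (1 - X : ℝ⟦X⟧) (-(c + 2 * n)) := by
  have h1 : rp (1 - X : ℝ⟦X⟧) (-2) ^ n = rp (1 - X : ℝ⟦X⟧) (-(2 * n)) := by
    rw [← rp_natCast (constantCoeff_rp _ _), rp_rp pec_cc_one_sub]
    congr 1
    ring
  rw [pec_k0_eq, mul_pow, h1, show -(c + 2 * (n : ℝ)) = -c + -(2 * n) by ring,
    rp_add pec_cc_one_sub]
  ring

private theorem pec_coeff (c : ℝ) (n N : ℕ) (h : n ≤ N) :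
    coeff N (rp (1 - X : ℝ⟦X⟧) (-c) * k0 ^ n) =
      poc (c + 2 * n) (N - n) / ((N - n).factorial : ℝ) := by
  rw [pec_k0_pow, coeff_X_pow_mul', if_pos h, coeff_rp_one_sub]

private theorem pec_poc_add (a : ℝ) (m n : ℕ) : poc a (m + n) = poc a m * poc (a + m) n := by
  unfold poc
  rw [prod_range_add]
  congr 1
  refine prod_congr rfl fun i _ => ?_
  push_cast
  ring

private theorem pec_poc_double (a : ℝ) (n : ℕ) :
    poc (2 * a) (2 * n) = 4 ^ n * (poc a n * poc (a + 1 / 2) n) := by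
  induction n with
  | zero => simp [poc_zero]
  | succ n ih =>
    rw [show 2 * (n + 1) = 2 * n + 1 + 1 by ring, poc_succ, poc_succ, ih, poc_succ, poc_succ,
      pow_succ]
    push_cast
    ring

private theorem pec_poc_neg (N n : ℕ) (h : n ≤ N) :
    poc (-(N : ℝ)) n * ((N - n).factorial : ℝ) = (-1) ^ n * (N.factorial : ℝ) := by
  induction n with
  | zero => simp [poc_zero]
  | succ n ih =>
    have h1 := ih (by omega)
    have h2 : (N - n).factorial = (N - n) * (N - (n + 1)).factorial := by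
      rw [show N - n = (N - (n + 1)) + 1 by omega, Nat.factorial_succ]
    rw [h2] at h1
    push_cast [Nat.cast_sub (show n ≤ N by omega)] at h1
    rw [poc_succ, pow_succ]
    linear_combination (-1) * h1

theorem NN_E {mu : ℝ} (hmu : 0 < mu) {y : ℝ} (h0 : 0 ≤ y) (h1 : y ≤ 1) :
    NN (rp (1 - X : ℝ⟦X⟧) (-(2 * mu)) * Sy y (phiS mu)) := by
  intro N
  rw [coeff_mul_Sy]
  have hkey : ∑ n ∈ range (N + 1), coeff n (phiS mu) * y ^ n *
      coeff N (rp (1 - X : ℝ⟦X⟧) (-(2 * mu)) * k0 ^ n) =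
      (poc (2 * mu) N / (N.factorial : ℝ)) *
      ∑ n ∈ range (N + 1), poc (-(N : ℝ)) n * poc ((N : ℝ) + 2 * mu) n * poc mu n /
      (poc (mu + 1 / 2) n * poc (2 * mu) n * (n.factorial : ℝ)) * y ^ n := by
    rw [mul_sum]
    refine sum_congr rfl fun n hn => ?_
    have hnN : n ≤ N := Nat.lt_succ_iff.mp (mem_range.mp hn)
    rw [pec_coeff _ _ _ hnN, phiS, coeff_mk]
    have a1 : poc (2 * mu) (2 * n + (N - n)) = poc (2 * mu) (2 * n) *
        poc (2 * mu + 2 * n) (N - n) := by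
      rw [pec_poc_add]
      push_cast
      rfl
    have a2 : poc (2 * mu) (N + n) = poc (2 * mu) N * poc ((N : ℝ) + 2 * mu) n := by
      rw [pec_poc_add]
      rw [add_comm (2 * mu) (N : ℝ)]
    have a3 := pec_poc_double mu n
    have a4 := pec_poc_neg N n hnN
    rw [show 2 * n + (N - n) = N + n by omega, a2, a3] at a1
    have p1 : 0 < poc mu n := poc_pos hmu n
    have p2 : 0 < poc (mu + 1 / 2) n := poc_pos (by positivity) n
    have p3 : 0 < poc (2 * mu) n := poc_pos (by positivity) n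
    have p4 : 0 < poc (2 * mu) N := poc_pos (by positivity) N
    have f1 : (n.factorial : ℝ) ≠ 0 := by positivity
    have f2 : (N.factorial : ℝ) ≠ 0 := by positivity
    have f3 : ((N - n).factorial : ℝ) ≠ 0 := by positivity
    have n1 := p1.ne'
    have n2 := p2.ne'
    have n3 := p3.ne'
    have n4 := p4.ne'
    have f4 : (4 : ℝ) ^ n ≠ 0 := by positivity
    have b1 : poc (2 * mu + 2 * n) (N - n) = poc (2 * mu) N * poc ((N : ℝ) + 2 * mu) n /
        (4 ^ n * (poc mu n * poc (mu + 1 / 2) n)) := by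
      rw [eq_div_iff (by positivity), a1]
      ring
    have b2 : poc (-(N : ℝ)) n = (-1) ^ n * (N.factorial : ℝ) / ((N - n).factorial : ℝ) := by
      rw [eq_div_iff f3, a4]
    have b3 : (-4 : ℝ) ^ n = (-1) ^ n * 4 ^ n := by
      rw [← mul_pow]
      norm_num
    rw [b1, b2, b3]
    field_simp
  rw [hkey]
  refine mul_nonneg ?_ (clausen_poly_nonneg N hmu h0 h1)
  have p4 : 0 < poc (2 * mu) N := poc_pos (by positivity) N
  positivity

end Pool.Agent.KIM
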