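import Pool.Agent.KIM.RPB

/-!
# KIM / PNN: power series with nonnegative coefficients

* `NN_of_eul`: coefficient `n ≥ 1` of `eul f = R * f`: `n f_n = ∑_{i+j=n} R_i f_j`; since
  `constantCoeff R = 0` (coefficient `0` of the equation with `f_0 = 1`) only `j < n` occur:
  strong induction.
* `pos_of_eul`: the same with strict inequalities (the term `i = n`, `j = 0` is `R_n > 0`).
* `NN_rp_of_eul`: `eul (rp f a) = C a * R * rp f a` (from `rp_eul`, cancel `f`).
-/

set_option autoImplicit false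

open PowerSeries Finset

namespace Pool.Agent.KIM

theorem NN.add {f g : ℝ⟦X⟧} (hf : NN f) (hg : NN g) : NN (f + g) := by
  intro n
  rw [map_add]
  exact add_nonneg (hf n) (hg n)

theorem NN.mul {f g : ℝ⟦X⟧} (hf : NN f) (hg : NN g) : NN (f * g) := by
  intro n
  rw [coeff_mul]
  exact Finset.sum_nonneg fun p _ => mul_nonneg (hf p.1) (hg p.2)

theorem NN_C {c : ℝ} (hc : 0 ≤ c) : NN (C c : ℝ⟦X⟧) := by
  intro n
  rw [coeff_C]
  split_ifs
  · exact hc
  · exact le_refl 0

theorem NN_zero : NN (0 : ℝ⟦X⟧) := by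
  intro n
  rw [map_zero]

theorem NN_one : NN (1 : ℝ⟦X⟧) := by
  intro n
  rw [coeff_one]
  split_ifs
  · exact zero_le_one
  · exact le_refl 0

theorem NN_X : NN (X : ℝ⟦X⟧) := by
  intro n
  rw [coeff_X]
  split_ifs
  · exact zero_le_one
  · exact le_refl 0

theorem NN.pow {f : ℝ⟦X⟧} (hf : NN f) (n : ℕ) : NN (f ^ n) := by
  induction n with
  | zero =>
    rw [pow_zero]
    exact NN_one
  | succ n ih =>
    rw [pow_succ]
    exact ih.mul hf

theorem NN.C_mul {f : ℝ⟦X⟧} {c : ℝ} (hc : 0 ≤ c) (hf : NN f) : NN (C c * f) :=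
  (NN_C hc).mul hf

theorem NN_sum {ι : Type*} (s : Finset ι) (f : ι → ℝ⟦X⟧) (h : ∀ i ∈ s, NN (f i)) :
    NN (∑ i ∈ s, f i) := by
  intro n
  rw [map_sum]
  exact Finset.sum_nonneg fun i hi => h i hi n

theorem NN.eul {f : ℝ⟦X⟧} (hf : NN f) : NN (eul f) := by
  intro n
  rw [coeff_eul]
  exact mul_nonneg (Nat.cast_nonneg n) (hf n)

private theorem pnn_rec {f R : ℝ⟦X⟧} (hf : constantCoeff f = 1)
    (h : Pool.Agent.KIM.eul f = R * f) (n : ℕ) (hn : 1 ≤ n) :
    (n : ℝ) * coeff n f = coeff n R + ∑ i ∈ Ico 1 n, coeff i f * coeff (n - i) R := by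
  have hR0 : coeff 0 R = 0 := by
    have h0 := congrArg (coeff 0) h
    rw [coeff_eul, Nat.cast_zero, zero_mul, coeff_zero_eq_constantCoeff_apply, map_mul, hf,
      mul_one] at h0
    rw [coeff_zero_eq_constantCoeff_apply, ← h0]
  have h1 := congrArg (coeff n) h
  rw [coeff_eul, mul_comm R, coeff_mul, Finset.Nat.sum_antidiagonal_eq_sum_range_succ
    (fun i j => coeff i f * coeff j R), Finset.sum_range_succ, Nat.sub_self, hR0, mul_zero,
    add_zero] at h1
  rw [h1, Finset.range_eq_Ico, Finset.sum_eq_sum_Ico_succ_bot (by omega), Nat.sub_zero,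
    coeff_zero_eq_constantCoeff_apply, hf, one_mul]

theorem NN_of_eul {f R : ℝ⟦X⟧} (hf : constantCoeff f = 1) (hR : NN R)
    (h : Pool.Agent.KIM.eul f = R * f) : NN f := by
  intro n
  induction n using Nat.strong_induction_on with
  | _ n ih =>
    rcases Nat.eq_zero_or_pos n with rfl | hn
    · rw [coeff_zero_eq_constantCoeff_apply, hf]
      exact zero_le_one
    · have h1 := pnn_rec hf h n hn
      have h2 : 0 ≤ (n : ℝ) * coeff n f := by
        rw [h1]
        apply add_nonneg (hR n)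
        apply Finset.sum_nonneg
        intro i hi
        exact mul_nonneg (ih i (Finset.mem_Ico.mp hi).2) (hR _)
      have hn' : (0 : ℝ) < n := by exact_mod_cast hn
      exact nonneg_of_mul_nonneg_right h2 hn'

theorem pos_of_eul {f R : ℝ⟦X⟧} (hf : constantCoeff f = 1) (hR : ∀ n, 1 ≤ n → 0 < coeff n R)
    (h : Pool.Agent.KIM.eul f = R * f) (n : ℕ) : 0 < coeff n f := by
  induction n using Nat.strong_induction_on with
  | _ n ih =>
    rcases Nat.eq_zero_or_pos n with rfl | hn
    · rw [coeff_zero_eq_constantCoeff_apply, hf]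
      exact zero_lt_one
    · have h1 := pnn_rec hf h n hn
      have h2 : 0 < (n : ℝ) * coeff n f := by
        rw [h1]
        apply add_pos_of_pos_of_nonneg (hR n hn)
        apply Finset.sum_nonneg
        intro i hi
        have hi' := Finset.mem_Ico.mp hi
        exact mul_nonneg (ih i hi'.2).le (hR _ (by omega)).le
      have hn' : (0 : ℝ) < n := by exact_mod_cast hn
      exact (mul_pos_iff_of_pos_left hn').mp h2

theorem NN_rp_of_eul {f R : ℝ⟦X⟧} (hf : constantCoeff f = 1) (hR : NN R)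
    (h : Pool.Agent.KIM.eul f = R * f) {a : ℝ} (ha : 0 ≤ a) : NN (rp f a) := by
  apply NN_of_eul (R := C a * R) (constantCoeff_rp f a) (hR.C_mul ha)
  apply mul_left_cancel₀ (ne_zero_of_one hf)
  rw [rp_eul hf, h]
  ring

end Pool.Agent.KIM
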