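import Pool.Agent.KIM.PEC

/-!
# KIM / PQT: the quadratic transformation

`₂F₁(μ, μ; 2 μ; -4 u) = (1 - W)^(2 μ) G_μ(W^2)`, `G_μ(x) = ₂F₁(1/2, μ; μ + 1/2; x)`.

`Z := rp (1 - W) (2 μ) * (mk (gc μ)).subst (W^2)` has constant coefficient `1`; it is enough to
show that it satisfies the equation `eul (eul Z + (2μ-1) Z) + 4 X (eul + μ)^2 Z = 0`
(`(eul + μ) Z := eul Z + C μ * Z`), whose coefficients give
`(n+1)(n + 2μ) Z_{n+1} = -4 (n + μ)^2 Z_n`, the recursion of `phiS μ`.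

Proof of the equation.  Let `g0 = (mk (gc μ)).subst (W^2)`, `g1 = (eul (mk (gc μ))).subst (W^2)`,
`g2 = (eul (eul (mk (gc μ)))).subst (W^2)`.  By `derivative_subst`,
`(1 + W) eul g0 = 2 (1 - W) g1`, `(1 + W) eul g1 = 2 (1 - W) g2`
(`eul (W^2) = 2 W eul W`, `eul_W`).  The hypergeometric equation
`eul (eul G + (μ - 1/2) G) = X (eul + 1/2)(eul + μ) G` for `G = mk (gc μ)` (compare coefficients)
gives `g2 + (μ - 1/2) g1 = W^2 (g2 + (μ + 1/2) g1 + (μ/2) g0)`, i.e.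
`(1 - W^2) g2 = (W^2 (μ + 1/2) - (μ - 1/2)) g1 + (μ/2) W^2 g0`.  With
`p = rp (1-W) (2μ)`, `(1 + W) eul p = -2 μ W p` and `X (1 - W)^2 = W`, everything reduces to a
polynomial identity in `W, g0, g1` after multiplying by a power of `(1 + W)` and of `(1 - W)`;
`linear_combination`.
(Checked numerically.)
-/

set_option autoImplicit false

open PowerSeries Finset

namespace Pool.Agent.KIM

/-- Coefficients of `₂F₁(1/2, μ; μ + 1/2; x)`. -/
noncomputable def gc (mu : ℝ) (n : ℕ) : ℝ :=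
  poc (1 / 2) n * poc mu n / (poc (mu + 1 / 2) n * (n.factorial : ℝ))

private theorem hasSubst_W2 : HasSubst (W ^ 2 : ℝ⟦X⟧) :=
  HasSubst.of_constantCoeff_zero' (by simp [constantCoeff_W])

private theorem eul_subst_W2 (F : ℝ⟦X⟧) : (1 + W) * eul (F.subst (W ^ 2 : ℝ⟦X⟧)) =
    2 * (1 - W) * (eul F).subst (W ^ 2 : ℝ⟦X⟧) := by
  have h1 : (eul F).subst (W ^ 2 : ℝ⟦X⟧) = W ^ 2 * (d⁄dX ℝ F).subst (W ^ 2 : ℝ⟦X⟧) := by
    unfold eul
    rw [subst_mul hasSubst_W2, subst_X hasSubst_W2]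
  have h2 : eul (F.subst (W ^ 2 : ℝ⟦X⟧)) =
      (d⁄dX ℝ F).subst (W ^ 2 : ℝ⟦X⟧) * (2 * W * eul W) := by
    unfold eul
    rw [derivative_subst hasSubst_W2]
    have h3 : d⁄dX ℝ (W ^ 2 : ℝ⟦X⟧) = 2 * W * d⁄dX ℝ W := by
      rw [pow_two, Derivation.leibniz, smul_eq_mul]
      ring
    rw [h3]
    ring
  rw [h1, h2]
  linear_combination 2 * W * (d⁄dX ℝ F).subst (W ^ 2 : ℝ⟦X⟧) * eul_W

private theorem gc_succ {mu : ℝ} (hmu : 0 < mu) (m : ℕ) :
    ((m : ℝ) + 1) * ((m : ℝ) + mu + 1 / 2) * gc mu (m + 1) =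
      ((m : ℝ) + 1 / 2) * ((m : ℝ) + mu) * gc mu m := by
  unfold gc
  rw [poc_succ, poc_succ, poc_succ, Nat.factorial_succ]
  have h1 : poc (mu + 1 / 2) m ≠ 0 := (poc_pos (by linarith) m).ne'
  have h2 : (m.factorial : ℝ) ≠ 0 := by positivity
  have h3 : mu + 1 / 2 + (m : ℝ) ≠ 0 := by positivity
  have h4 : ((m : ℝ) + 1) ≠ 0 := by positivity
  push_cast
  field_simp
  ring

private theorem gc_zero (mu : ℝ) : gc mu 0 = 1 := by
  simp [gc, poc_zero]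

private theorem ode_gc {mu : ℝ} (hmu : 0 < mu) :
    eul (eul (PowerSeries.mk (gc mu))) + C (mu - 1 / 2) * eul (PowerSeries.mk (gc mu)) =
      X * (eul (eul (PowerSeries.mk (gc mu))) + C (mu + 1 / 2) * eul (PowerSeries.mk (gc mu)) +
        C (mu / 2) * PowerSeries.mk (gc mu)) := by
  ext n
  cases n with
  | zero =>
    simp only [LinearMap.map_add, coeff_eul, coeff_C_mul, coeff_zero_X_mul]
    simp
  | succ m =>
    rw [coeff_succ_X_mul]
    simp only [LinearMap.map_add, coeff_eul, coeff_C_mul, coeff_mk]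
    have h := gc_succ hmu m
    push_cast
    linear_combination h

private theorem ode_sub {mu : ℝ} (hmu : 0 < mu) :
    (eul (eul (PowerSeries.mk (gc mu)))).subst (W ^ 2 : ℝ⟦X⟧) +
      C (mu - 1 / 2) * (eul (PowerSeries.mk (gc mu))).subst (W ^ 2 : ℝ⟦X⟧) =
      W ^ 2 * ((eul (eul (PowerSeries.mk (gc mu)))).subst (W ^ 2 : ℝ⟦X⟧) +
        C (mu + 1 / 2) * (eul (PowerSeries.mk (gc mu))).subst (W ^ 2 : ℝ⟦X⟧) +
        C (mu / 2) * (PowerSeries.mk (gc mu)).subst (W ^ 2 : ℝ⟦X⟧)) := by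
  have h := congrArg (PowerSeries.subst (W ^ 2 : ℝ⟦X⟧)) (ode_gc hmu)
  have hC : ∀ c : ℝ, (C c : ℝ⟦X⟧).subst (W ^ 2 : ℝ⟦X⟧) = C c := fun c => subst_C c
  simp only [subst_add hasSubst_W2, subst_mul hasSubst_W2, subst_X hasSubst_W2, hC] at h
  exact h

private theorem eul_rpW (mu : ℝ) : (1 + W) * eul (rp (1 - W) (2 * mu)) =
    -(C (2 * mu) * W * rp (1 - W) (2 * mu)) := by
  have h1 := rp_eul constantCoeff_one_sub_W (2 * mu)
  have h2 : eul (1 - W : ℝ⟦X⟧) = -eul W := by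
    rw [eul_sub, eul_one, zero_sub]
  rw [h2] at h1
  have h3 : (1 - W : ℝ⟦X⟧) ≠ 0 := ne_zero_of_one constantCoeff_one_sub_W
  refine mul_left_cancel₀ h3 ?_
  linear_combination (1 + W) * h1 - C (2 * mu) * rp (1 - W) (2 * mu) * eul_W

private theorem eul_add_C_mul (c : ℝ) (f g : ℝ⟦X⟧) : eul (f + C c * g) = eul f + C c * eul g := by
  rw [eul_add, eul_C_mul]

/-- The algebra. -/
private theorem key_alg {R : Type*} [CommRing R] {m W X P g0 g1 g2 Y T EY ET EW EP Eg0 Eg1 : R}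
    (hX : W = X * (1 - W) ^ 2) (hW : (1 + W) * EW = W * (1 - W))
    (hP : (1 + W) * EP = -(2 * m * W * P)) (h0 : (1 + W) * Eg0 = 2 * (1 - W) * g1)
    (h1 : (1 + W) * Eg1 = 2 * (1 - W) * g2)
    (ho : 2 * (g2 + (m * g1)) - g1 = W ^ 2 * (2 * (g2 + m * g1) + g1 + m * g0))
    (hY : (1 + W) * Y = P * ((2 * m - 1 - W) * g0 + 2 * (1 - W) * g1))
    (hT : (1 + W) * T = (1 - W) * P * (m * g0 + 2 * g1))
    (hEY : EW * Y + (1 + W) * EY = EP * ((2 * m - 1 - W) * g0 + 2 * (1 - W) * g1) +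
      P * (-(EW * g0) + (2 * m - 1 - W) * Eg0 - 2 * EW * g1 + 2 * (1 - W) * Eg1))
    (hET : EW * T + (1 + W) * ET = -(EW * P * (m * g0 + 2 * g1)) +
      (1 - W) * EP * (m * g0 + 2 * g1) + (1 - W) * P * (m * Eg0 + 2 * Eg1)) :
    (1 + W) ^ 3 * (1 - W) ^ 2 * (EY + 4 * X * (ET + m * T)) = 0 := by
  have e1 : (1 + W) * (EW * Y + (1 + W) * EY) = P * (-(2 * m * W) *
      ((2 * m - 1 - W) * g0 + 2 * (1 - W) * g1) + (1 - W) * (-(W * g0) +
      2 * (2 * m - 1 - W) * g1 - 2 * W * g1 + 4 * (1 - W) * g2)) := by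
    rw [hEY]
    linear_combination ((2 * m - 1 - W) * g0 + 2 * (1 - W) * g1) * hP +
      P * (-g0 - 2 * g1) * hW + P * (2 * m - 1 - W) * h0 + P * 2 * (1 - W) * h1
  have f1 : (1 + W) * (EW * T + (1 + W) * ET) = (1 - W) * P *
      (-(W * (1 + 2 * m) * (m * g0 + 2 * g1)) + 2 * (1 - W) * (m * g1 + 2 * g2)) := by
    rw [hET]
    linear_combination (-(P * (m * g0 + 2 * g1))) * hW + (1 - W) * (m * g0 + 2 * g1) * hP +
      (1 - W) * P * m * h0 + (1 - W) * P * 2 * h1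
  linear_combination (1 - W) ^ 2 * ((1 + W) * e1 - (1 + W) * Y * hW - W * (1 - W) * hY) +
    4 * W * ((1 + W) * f1 - (1 + W) * T * hW - W * (1 - W) * hT + m * (1 + W) ^ 2 * hT) -
    4 * ((1 + W) ^ 3 * ET + m * (1 + W) ^ 3 * T) * hX + P * 2 * (1 + W) ^ 2 * (1 - W) * ho

private theorem ode_Z {mu : ℝ} (hmu : 0 < mu) {Z : ℝ⟦X⟧}
    (hZ : Z = rp (1 - W) (2 * mu) * (PowerSeries.mk (gc mu)).subst (W ^ 2 : ℝ⟦X⟧)) :
    eul (eul Z + C (2 * mu - 1) * Z) +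
      4 * X * (eul (eul Z + C mu * Z) + C mu * (eul Z + C mu * Z)) = 0 := by
  have hW := eul_W
  have hP := eul_rpW mu
  have h0 := eul_subst_W2 (PowerSeries.mk (gc mu))
  have h1 := eul_subst_W2 (eul (PowerSeries.mk (gc mu)))
  have ho := ode_sub hmu
  set P : ℝ⟦X⟧ := rp (1 - W) (2 * mu) with hPdef
  set g0 : ℝ⟦X⟧ := (PowerSeries.mk (gc mu)).subst (W ^ 2 : ℝ⟦X⟧) with hg0
  set g1 : ℝ⟦X⟧ := (eul (PowerSeries.mk (gc mu))).subst (W ^ 2 : ℝ⟦X⟧) with hg1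
  set g2 : ℝ⟦X⟧ := (eul (eul (PowerSeries.mk (gc mu)))).subst (W ^ 2 : ℝ⟦X⟧) with hg2
  have c2 : (C (2 * mu) : ℝ⟦X⟧) = 2 * C mu := by
    rw [map_mul]; rfl
  have c21 : (C (2 * mu - 1) : ℝ⟦X⟧) = 2 * C mu - 1 := by
    rw [map_sub, c2, map_one]
  have ch : 2 * (C (mu / 2) : ℝ⟦X⟧) = C mu := by
    rw [show (2 : ℝ⟦X⟧) = C (2 : ℝ) from rfl, ← map_mul]
    congr 1; ring
  have cp : 2 * (C (mu + 1 / 2) : ℝ⟦X⟧) = 2 * C mu + 1 := by
    rw [show (2 : ℝ⟦X⟧) = C (2 : ℝ) from rfl, ← map_mul, ← map_mul, ← map_one (C (R := ℝ)),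
      ← map_add]
    congr 1; ring
  have cm : 2 * (C (mu - 1 / 2) : ℝ⟦X⟧) = 2 * C mu - 1 := by
    rw [show (2 : ℝ⟦X⟧) = C (2 : ℝ) from rfl, ← map_mul, ← map_mul, ← map_one (C (R := ℝ)),
      ← map_sub]
    congr 1; ring
  have e2 : eul (2 : ℝ⟦X⟧) = 0 := eul_C (2 : ℝ)
  rw [c2] at hP
  have hZ' : eul Z = eul P * g0 + P * eul g0 := by rw [hZ, eul_mul]
  have hY : (1 + W) * (eul Z + C (2 * mu - 1) * Z) =
      P * ((2 * C mu - 1 - W) * g0 + 2 * (1 - W) * g1) := by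
    rw [hZ', c21, hZ]
    linear_combination g0 * hP + P * h0
  have hT : (1 + W) * (eul Z + C mu * Z) = (1 - W) * P * (C mu * g0 + 2 * g1) := by
    rw [hZ', hZ]
    linear_combination g0 * hP + P * h0
  have hEY := congrArg eul hY
  have hET := congrArg eul hT
  have e1W : eul (1 - W : ℝ⟦X⟧) = -eul W := by rw [eul_sub, eul_one, zero_sub]
  have e1W' : eul (1 + W : ℝ⟦X⟧) = eul W := by rw [eul_add, eul_one, zero_add]
  have eaW : eul (2 * C mu - 1 - W : ℝ⟦X⟧) = -eul W := by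
    rw [eul_sub, ← c21, eul_C, zero_sub]
  rw [eul_mul, eul_mul, eul_add ((2 * C mu - 1 - W) * g0), eul_mul (2 * C mu - 1 - W),
    eul_mul (2 * (1 - W)), eul_mul 2 (1 - W), e1W, e1W', eaW, e2] at hEY
  rw [eul_mul, eul_mul, eul_mul (1 - W), eul_add (C mu * g0), eul_mul (C mu), eul_mul 2 g1,
    e1W, e1W', e2, eul_C] at hET
  have key := key_alg (m := C mu) (W := W) (X := X) (P := P) (g0 := g0) (g1 := g1) (g2 := g2)
    (Y := eul Z + C (2 * mu - 1) * Z) (T := eul Z + C mu * Z)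
    (EY := eul (eul Z + C (2 * mu - 1) * Z)) (ET := eul (eul Z + C mu * Z))
    (EW := eul W) (EP := eul P) (Eg0 := eul g0) (Eg1 := eul g1) W_eq hW
    (by linear_combination hP) h0 h1
    (by linear_combination 2 * ho - g1 * cm + W ^ 2 * g1 * cp + W ^ 2 * g0 * ch) hY hT
    (by linear_combination hEY) (by linear_combination hET)
  have n1 : (1 + W : ℝ⟦X⟧) ≠ 0 := ne_zero_of_one constantCoeff_one_add_W
  have n2 : (1 - W : ℝ⟦X⟧) ≠ 0 := ne_zero_of_one constantCoeff_one_sub_W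
  exact (mul_eq_zero.1 key).resolve_left (mul_ne_zero (pow_ne_zero _ n1) (pow_ne_zero _ n2))

theorem quad_trans {mu : ℝ} (hmu : 0 < mu) : phiS mu =
    rp (1 - W) (2 * mu) * (PowerSeries.mk (gc mu)).subst (W ^ 2 : ℝ⟦X⟧) := by
  set Z : ℝ⟦X⟧ := rp (1 - W) (2 * mu) * (PowerSeries.mk (gc mu)).subst (W ^ 2 : ℝ⟦X⟧) with hZ
  have hode := ode_Z hmu hZ
  have hz0 : coeff 0 Z = 1 := by
    have h1 : (PowerSeries.mk (gc mu) : ℝ⟦X⟧) =
        C (1 : ℝ) + X * PowerSeries.mk (fun n => gc mu (n + 1)) := by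
      ext n
      cases n with
      | zero => simp [gc_zero]
      | succ n => simp [coeff_succ_X_mul]
    have h2 : ((PowerSeries.mk (gc mu)).subst (W ^ 2 : ℝ⟦X⟧) : ℝ⟦X⟧) =
        1 + W ^ 2 * (PowerSeries.mk (fun n => gc mu (n + 1))).subst (W ^ 2 : ℝ⟦X⟧) := by
      have h3 : (C (1 : ℝ) : ℝ⟦X⟧).subst (W ^ 2 : ℝ⟦X⟧) = (C (1 : ℝ) : ℝ⟦X⟧) := subst_C (1 : ℝ)
      rw [h1, subst_add hasSubst_W2, subst_mul hasSubst_W2, subst_X hasSubst_W2, h3, map_one]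
    rw [hZ, coeff_zero_eq_constantCoeff, map_mul, constantCoeff_rp, h2, map_add, map_mul,
      map_pow, constantCoeff_W]
    simp
  have hrec : ∀ n : ℕ, ((n : ℝ) + 1) * ((n : ℝ) + 2 * mu) * coeff (n + 1) Z =
      -4 * ((n : ℝ) + mu) ^ 2 * coeff n Z := by
    intro n
    have h := congrArg (coeff (n + 1)) hode
    rw [map_add, show (4 : ℝ⟦X⟧) * X * (eul (eul Z + C mu * Z) + C mu * (eul Z + C mu * Z)) =
      X * (C (4 : ℝ) * (eul (eul Z + C mu * Z) + C mu * (eul Z + C mu * Z))) from by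
        rw [show (C (4 : ℝ) : ℝ⟦X⟧) = 4 from rfl]; ring, coeff_succ_X_mul] at h
    simp only [map_add, coeff_eul, coeff_C_mul, map_zero] at h
    push_cast at h
    linear_combination h
  ext n
  induction n with
  | zero => rw [hz0]; simp [phiS, poc_zero]
  | succ n ih =>
    have h1 := hrec n
    rw [← ih] at h1
    have hn1 : ((n : ℝ) + 1) ≠ 0 := by positivity
    have hn2 : ((n : ℝ) + 2 * mu) ≠ 0 := by positivity
    have h2 : ((n : ℝ) + 1) * ((n : ℝ) + 2 * mu) * coeff (n + 1) (phiS mu) =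
        -4 * ((n : ℝ) + mu) ^ 2 * coeff n (phiS mu) := by
      simp only [phiS, coeff_mk]
      rw [poc_succ, poc_succ, Nat.factorial_succ]
      have h3 : poc (2 * mu) n ≠ 0 := (poc_pos (by linarith) n).ne'
      have h4 : (n.factorial : ℝ) ≠ 0 := by positivity
      have h5 : 2 * mu + (n : ℝ) ≠ 0 := by positivity
      push_cast
      field_simp
      ring
    exact mul_left_cancel₀ (mul_ne_zero hn1 hn2) (h2.trans h1.symm)

end Pool.Agent.KIM
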