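import Pool.Agent.KIM.Defs
import Pool.Agent.LOE.LPK

/-!
# KIM / PRI: the flow formula and the monotonicity principle
-/

set_option autoImplicit false

open Set Filter Topology
open PowerSeries hiding map
open Pool.Agent.Helper42.KoebeMeans (ClassS)

namespace Pool.Agent.KIM.PRI_

section basic

variable {k : Type*} [Field k]

theorem coeff_eul (f : k⟦X⟧) (n : ℕ) : coeff n (eul f) = (n : k) * coeff n f := by
  cases n with
  | zero => simp [eul]
  | succ n =>
    rw [eul, coeff_succ_X_mul, coeff_derivative]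
    push_cast
    ring

theorem eul_add (f g : k⟦X⟧) : eul (f + g) = eul f + eul g := by
  simp [eul, mul_add]

theorem eul_sub (f g : k⟦X⟧) : eul (f - g) = eul f - eul g := by
  simp [eul, mul_sub]

theorem eul_mul (f g : k⟦X⟧) : eul (f * g) = eul f * g + f * eul g := by
  simp only [eul, Derivation.leibniz, smul_eq_mul]
  ring

theorem rpc_succ (f : k⟦X⟧) (a : k) (n : ℕ) :
    rpc f a (n + 1) = (∑ i : Fin (n + 1),
      (a * ((n + 1 - (i : ℕ) : ℕ) : k) - ((i : ℕ) : k)) * coeff (n + 1 - (i : ℕ)) f *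
        rpc f a (i : ℕ)) / ((n : k) + 1) := by
  rw [rpc]

theorem rpc_zero (f : k⟦X⟧) (a : k) : rpc f a 0 = 1 := by
  rw [rpc]

theorem coeff_rp (f : k⟦X⟧) (a : k) (n : ℕ) : coeff n (rp f a) = rpc f a n := by
  simp [rp]

theorem constantCoeff_rp (f : k⟦X⟧) (a : k) : constantCoeff (rp f a) = 1 := by
  rw [← coeff_zero_eq_constantCoeff_apply, coeff_rp, rpc_zero]

theorem rp_congr {f f' : k⟦X⟧} {N : ℕ} (a : k) (h : ∀ m ≤ N, coeff m f = coeff m f') :
    ∀ m ≤ N, coeff m (rp f a) = coeff m (rp f' a) := by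
  intro m
  induction m using Nat.strong_induction_on with
  | _ m ih =>
    intro hm
    cases m with
    | zero => simp [coeff_rp, rpc_zero]
    | succ m =>
      rw [coeff_rp, coeff_rp, rpc_succ, rpc_succ]
      congr 1
      refine Finset.sum_congr rfl fun i _ => ?_
      have hi := i.2
      rw [h _ (by omega), ← coeff_rp, ← coeff_rp, ih i hi (by omega)]

theorem ode_iff [CharZero k] {f : k⟦X⟧} (hf : constantCoeff f = 1) (a : k) (g : k⟦X⟧) (n : ℕ) :
    coeff (n + 1) (f * eul g) - coeff (n + 1) (C a * eul f * g) =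
      ((n : k) + 1) * coeff (n + 1) g - ∑ i : Fin (n + 1),
      (a * ((n + 1 - (i : ℕ) : ℕ) : k) - ((i : ℕ) : k)) * coeff (n + 1 - (i : ℕ)) f *
        coeff (i : ℕ) g := by
  have e1 : C a * eul f * g = C a * (g * eul f) := by ring
  rw [mul_comm f, e1, coeff_C_mul, coeff_mul, coeff_mul,
    Finset.Nat.sum_antidiagonal_eq_sum_range_succ_mk,
    Finset.Nat.sum_antidiagonal_eq_sum_range_succ_mk]
  simp only [coeff_eul]
  rw [Finset.sum_range_succ, Finset.sum_range_succ (n := n + 1)]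
  simp only [Nat.sub_self, Nat.cast_zero, mul_zero, add_zero,
    coeff_zero_eq_constantCoeff_apply, hf, mul_one]
  rw [Finset.sum_range, Finset.sum_range, Finset.mul_sum]
  have e2 : (∑ i : Fin (n + 1),
      (a * ((n + 1 - (i : ℕ) : ℕ) : k) - ((i : ℕ) : k)) * coeff (n + 1 - (i : ℕ)) f *
        coeff (i : ℕ) g) = (∑ i : Fin (n + 1), a * (coeff (i : ℕ) g *
        (((n + 1 - (i : ℕ) : ℕ) : k) * coeff (n + 1 - (i : ℕ)) f))) -
        ∑ i : Fin (n + 1), ((i : ℕ) : k) * coeff (i : ℕ) g * coeff (n + 1 - (i : ℕ)) f := by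
    rw [← Finset.sum_sub_distrib]
    refine Finset.sum_congr rfl fun i _ => ?_
    ring
  rw [e2]
  push_cast
  ring

/-- The defining differential equation of `rp`. -/
theorem rp_ode [CharZero k] {f : k⟦X⟧} (hf : constantCoeff f = 1) (a : k) :
    f * eul (rp f a) = C a * eul f * rp f a := by
  ext n
  cases n with
  | zero => simp [eul]
  | succ n =>
    have h := ode_iff hf a (rp f a) n
    rw [coeff_rp f a (n + 1), rpc_succ] at h
    have hn : ((n : k) + 1) ≠ 0 := by exact_mod_cast Nat.succ_ne_zero n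
    simp only [coeff_rp] at h
    rw [mul_div_cancel₀ _ hn, sub_self, sub_eq_zero] at h
    exact h

theorem ode_unique [CharZero k] {f d : k⟦X⟧} (hf : constantCoeff f = 1) (a : k)
    (h : f * eul d = C a * eul f * d) (h0 : constantCoeff d = 0) : d = 0 := by
  ext n
  induction n using Nat.strong_induction_on with
  | _ n ih =>
    cases n with
    | zero => simpa using h0
    | succ n =>
      have h1 := ode_iff hf a d n
      rw [h, sub_self, Finset.sum_eq_zero, sub_zero] at h1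
      · have hn : ((n : k) + 1) ≠ 0 := by exact_mod_cast Nat.succ_ne_zero n
        simpa [hn] using h1.symm
      · intro i _
        rw [ih i i.2]
        simp

end basic

/-! ## Derivatives of families of power series -/

/-- Coefficientwise derivative at `0`. -/
def HD (F : ℝ → ℂ⟦X⟧) (F' : ℂ⟦X⟧) : Prop :=
  ∀ n, HasDerivAt (fun ε => coeff n (F ε)) (coeff n F') 0

theorem HD.unique {F : ℝ → ℂ⟦X⟧} {F' F'' : ℂ⟦X⟧} (h : HD F F') (h' : HD F F'') : F' = F'' := by
  ext n
  exact (h n).unique (h' n)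

theorem HD.add {F G : ℝ → ℂ⟦X⟧} {F' G' : ℂ⟦X⟧} (hF : HD F F') (hG : HD G G') :
    HD (fun ε => F ε + G ε) (F' + G') := by
  intro n
  simp only [map_add]
  exact (hF n).add (hG n)

theorem HD.mul {F G : ℝ → ℂ⟦X⟧} {F' G' : ℂ⟦X⟧} (hF : HD F F') (hG : HD G G') :
    HD (fun ε => F ε * G ε) (F' * G 0 + F 0 * G') := by
  intro n
  simp only [map_add, coeff_mul]
  rw [← Finset.sum_add_distrib]
  refine HasDerivAt.fun_sum fun x _ => ?_
  exact (hF x.1).mul (hG x.2)

theorem HD.eul {F : ℝ → ℂ⟦X⟧} {F' : ℂ⟦X⟧} (hF : HD F F') :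
    HD (fun ε => eul (F ε)) (eul F') := by
  intro n
  simp only [coeff_eul]
  exact (hF n).const_mul _

theorem HD.const (F : ℂ⟦X⟧) : HD (fun _ => F) 0 := by
  intro n
  simpa using hasDerivAt_const (0 : ℝ) (coeff n F)

theorem HD.rp {F : ℝ → ℂ⟦X⟧} {F' : ℂ⟦X⟧} (hF : HD F F') (h1 : ∀ ε, constantCoeff (F ε) = 1)
    (a : ℂ) : HD (fun ε => rp (F ε) a) (C a * F' * (F 0)⁻¹ * KIM.rp (F 0) a) := by
  have hd : ∀ n, DifferentiableAt ℝ (fun ε => rpc (F ε) a n) 0 := by
    intro n
    induction n using Nat.strong_induction_on with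
    | _ n ih =>
      cases n with
      | zero => simp [rpc_zero]
      | succ n =>
        simp only [rpc_succ]
        refine DifferentiableAt.div_const (DifferentiableAt.fun_sum fun i _ => ?_) _
        exact ((hF _).differentiableAt.const_mul _).mul (ih i i.2)
  obtain ⟨H, hH⟩ : ∃ H : ℂ⟦X⟧, HD (fun ε => KIM.rp (F ε) a) H := by
    refine ⟨PowerSeries.mk fun n => deriv (fun ε => rpc (F ε) a n) 0, fun n => ?_⟩
    simp only [coeff_rp, coeff_mk]
    exact (hd n).hasDerivAt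
  have hF0 : constantCoeff (F 0) ≠ 0 := by rw [h1]; exact one_ne_zero
  have hinv : F 0 * (F 0)⁻¹ = 1 := PowerSeries.mul_inv_cancel _ hF0
  have hc : constantCoeff F' = 0 := by
    have := hF 0
    simp only [coeff_zero_eq_constantCoeff_apply, h1] at this
    exact this.unique (hasDerivAt_const _ _)
  have hcH : constantCoeff H = 0 := by
    have := hH 0
    simp only [coeff_zero_eq_constantCoeff_apply, constantCoeff_rp] at this
    exact this.unique (hasDerivAt_const _ _)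
  have hode : F' * KIM.eul (KIM.rp (F 0) a) + F 0 * KIM.eul H =
      C a * KIM.eul F' * KIM.rp (F 0) a + C a * KIM.eul (F 0) * H := by
    have e1 : HD (fun ε => F ε * KIM.eul (KIM.rp (F ε) a))
        (F' * KIM.eul (KIM.rp (F 0) a) + F 0 * KIM.eul H) := hF.mul hH.eul
    have e2 : HD (fun ε => (C a * KIM.eul (F ε)) * KIM.rp (F ε) a)
        ((0 * KIM.eul (F 0) + C a * KIM.eul F') * KIM.rp (F 0) a +
          (C a * KIM.eul (F 0)) * H) := ((HD.const (C a)).mul hF.eul).mul hH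
    have e3 : (fun ε => F ε * KIM.eul (KIM.rp (F ε) a)) =
        fun ε => (C a * KIM.eul (F ε)) * KIM.rp (F ε) a := by
      funext ε
      exact rp_ode (h1 ε) a
    rw [e3] at e1
    have := e1.unique e2
    rw [this]
    ring
  have h0 := rp_ode (h1 0) a
  have key : H = C a * F' * (F 0)⁻¹ * KIM.rp (F 0) a := by
    rw [← sub_eq_zero]
    apply ode_unique (h1 0) a
    · set K := C a * F' * (F 0)⁻¹ * KIM.rp (F 0) a with hK
      have k1 : F 0 * K = C a * F' * KIM.rp (F 0) a := by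
        rw [hK]
        linear_combination (C a * F' * KIM.rp (F 0) a) * hinv
      have k2 := congrArg KIM.eul k1
      rw [eul_mul (F 0) K, eul_mul (C a * F'), eul_mul (C a) F'] at k2
      have e0 : KIM.eul (C a : ℂ⟦X⟧) = 0 := by simp [KIM.eul]
      rw [e0] at k2
      rw [eul_sub]
      have k3 : F' * KIM.eul (KIM.rp (F 0) a) = K * KIM.eul (F 0) := by
        have : F 0 * (F' * KIM.eul (KIM.rp (F 0) a)) = F 0 * (K * KIM.eul (F 0)) := by
          linear_combination F' * h0 - KIM.eul (F 0) * k1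
        calc F' * KIM.eul (KIM.rp (F 0) a) = (F 0)⁻¹ * (F 0 * (F' * KIM.eul (KIM.rp (F 0) a))) := by
              linear_combination (-F' * KIM.eul (KIM.rp (F 0) a)) * hinv
          _ = (F 0)⁻¹ * (F 0 * (K * KIM.eul (F 0))) := by rw [this]
          _ = K * KIM.eul (F 0) := by linear_combination (K * KIM.eul (F 0)) * hinv
      linear_combination hode - k2 + (-1 - C a) * k3
    · rw [map_sub, hcH]
      simp [hc]
  rw [← key]
  exact hH

/-- The derivative of `ph` along a Loewner velocity. -/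
theorem ph_flow (al be : ℝ) {S P : ℂ⟦X⟧} (hS : constantCoeff S = 1) (hP : constantCoeff P = 1) :
    HD (fun ε => ph al be (S + C (ε : ℂ) * (P * (S + eul S) - S)))
      (P * eul (ph al be S) + ph al be S *
        (C ((al : ℂ) + be) * (P - 1) + C (be : ℂ) * eul P)) := by
  set V := P * (S + eul S) - S with hV
  have ceul : ∀ F : ℂ⟦X⟧, constantCoeff (eul F) = 0 := fun F => by simp [KIM.eul]
  have cV : constantCoeff V = 0 := by simp [hV, hP, hS, ceul]
  have h1 : ∀ ε : ℝ, constantCoeff (S + C (ε : ℂ) * V) = 1 := fun ε => by simp [hS, cV]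
  have h2 : ∀ ε : ℝ, constantCoeff ((S + C (ε : ℂ) * V) + eul (S + C (ε : ℂ) * V)) = 1 :=
    fun ε => by rw [map_add, h1, ceul, add_zero]
  have d1 : HD (fun ε => S + C (ε : ℂ) * V) V := by
    intro n
    simp only [map_add, coeff_C_mul]
    have := ((hasDerivAt_id (0 : ℝ)).ofReal_comp.mul_const (coeff n V)).const_add (coeff n S)
    simpa using this
  have d2 := d1.add d1.eul
  have A := d1.rp h1 (al : ℂ)
  have B := d2.rp h2 (be : ℂ)
  have AB := A.mul B
  have z0 : S + C ((0 : ℝ) : ℂ) * V = S := by simp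
  simp only [z0] at AB
  have hSS : S * S⁻¹ = 1 := PowerSeries.mul_inv_cancel _ (by rw [hS]; exact one_ne_zero)
  have cD : constantCoeff (S + eul S) = 1 := by rw [map_add, hS, ceul, add_zero]
  have hDD : (S + eul S) * (S + eul S)⁻¹ = 1 :=
    PowerSeries.mul_inv_cancel _ (by rw [cD]; exact one_ne_zero)
  have o1 := rp_ode hS (al : ℂ)
  have o2 := rp_ode cD (be : ℂ)
  have o1' : eul (rp S (al : ℂ)) = C (al : ℂ) * eul S * S⁻¹ * rp S (al : ℂ) := by
    linear_combination S⁻¹ * o1 - eul (rp S (al : ℂ)) * hSS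
  have o2' : eul (rp (S + eul S) (be : ℂ)) =
      C (be : ℂ) * eul (S + eul S) * (S + eul S)⁻¹ * rp (S + eul S) (be : ℂ) := by
    linear_combination (S + eul S)⁻¹ * o2 - eul (rp (S + eul S) (be : ℂ)) * hDD
  have eV : eul V = eul P * (S + eul S) + P * eul (S + eul S) - eul S := by
    rw [hV, eul_sub, eul_mul]
  have key : P * eul (ph al be S) + ph al be S *
        (C ((al : ℂ) + be) * (P - 1) + C (be : ℂ) * eul P) =
      C (al : ℂ) * V * S⁻¹ * rp S (al : ℂ) * rp (S + eul S) (be : ℂ) +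
        rp S (al : ℂ) * (C (be : ℂ) * (V + eul V) * (S + eul S)⁻¹ * rp (S + eul S) (be : ℂ)) := by
    rw [ph, eul_mul, o1', o2', eV, hV, map_add]
    linear_combination (-C (al : ℂ) * rp S (al : ℂ) * rp (S + eul S) (be : ℂ) * (P - 1)) * hSS -
      (C (be : ℂ) * rp S (al : ℂ) * rp (S + eul S) (be : ℂ) * (P - 1 + eul P)) * hDD
  rw [key]
  exact AB

/-! ## The series of the kernel and of the velocity -/

/-- The Taylor series of `(1 + κ z) / (1 - κ z)`. -/
noncomputable def Pk (κ : ℂ) : ℂ⟦X⟧ := PowerSeries.mk fun k => if k = 0 then 1 else 2 * κ ^ k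

theorem kernel_diff {κ : ℂ} (hκ : ‖κ‖ = 1) :
    DifferentiableOn ℂ (fun z => (1 + κ * z) / (1 - κ * z)) LOE.Dk := by
  intro z hz
  have hz1 : ‖z‖ < 1 := by simpa [LOE.Dk] using hz
  have hne : 1 - κ * z ≠ 0 := by
    intro h
    have h1 : κ * z = 1 := (sub_eq_zero.mp h).symm
    have h2 : ‖κ * z‖ = 1 := by rw [h1, norm_one]
    rw [norm_mul, hκ, one_mul] at h2
    linarith
  refine DifferentiableAt.differentiableWithinAt ?_
  exact ((differentiableAt_id.const_mul κ).const_add 1).div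
    ((differentiableAt_id.const_mul κ).const_sub 1) hne

theorem coeff_vel {g : ℂ → ℂ} (hg : DifferentiableOn ℂ g LOE.Dk) {κ : ℂ} (hκ : ‖κ‖ = 1) (n : ℕ) :
    coeff n (Pk κ * (serD g + eul (serD g)) - serD g) =
      LOE.coef (n + 1) (LOE.vel g (fun z => (1 + κ * z) / (1 - κ * z))) := by
  rw [LOE.coef_vel hg (kernel_diff hκ), map_sub, mul_comm, coeff_mul,
    Finset.Nat.sum_antidiagonal_eq_sum_range_succ_mk, Finset.sum_range_succ' (n := n + 1)]
  simp only [Nat.cast_zero, zero_mul, add_zero, serD, coeff_mk, map_add, coeff_eul, Pk]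
  congr 1
  refine Finset.sum_congr rfl fun i hi => ?_
  rw [LOE.coef_kernel hκ, Nat.add_sub_add_right]
  push_cast
  ring

/-- Coefficients of the derivative of `ph` along the Loewner flow with kernel `κ`. -/
theorem coeff_flow (al be : ℝ) (κ : ℂ) (F : ℂ⟦X⟧) (m : ℕ) :
    coeff m (Pk κ * eul F + F * (C ((al : ℂ) + be) * (Pk κ - 1) + C (be : ℂ) * eul (Pk κ))) =
      (m : ℂ) * coeff m F + 2 * ∑ n ∈ Finset.range m,
        ((n : ℂ) + al + be * ((m : ℂ) - n + 1)) * (κ ^ (m - n) * coeff n F) := by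
  rw [map_add, mul_comm (Pk κ), coeff_mul, coeff_mul,
    Finset.Nat.sum_antidiagonal_eq_sum_range_succ_mk,
    Finset.Nat.sum_antidiagonal_eq_sum_range_succ_mk, ← Finset.sum_add_distrib,
    Finset.sum_range_succ]
  simp only [coeff_eul, LinearMap.map_add, coeff_C_mul, LinearMap.map_sub, Nat.sub_self]
  have e0 : coeff 0 (Pk κ) = 1 := by simp [Pk]
  rw [e0]
  have e1 : (∑ n ∈ Finset.range m, ((n : ℂ) * coeff n F * coeff (m - n) (Pk κ) +
      coeff n F * (((al : ℂ) + be) * (coeff (m - n) (Pk κ) - coeff (m - n) (1 : ℂ⟦X⟧)) +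
        be * (((m - n : ℕ) : ℂ) * coeff (m - n) (Pk κ))))) =
      2 * ∑ n ∈ Finset.range m,
        ((n : ℂ) + al + be * ((m : ℂ) - n + 1)) * (κ ^ (m - n) * coeff n F) := by
    rw [Finset.mul_sum]
    refine Finset.sum_congr rfl fun n hn => ?_
    have hnm : n < m := Finset.mem_range.mp hn
    have h1 : m - n ≠ 0 := by omega
    rw [coeff_one, if_neg h1, Pk, coeff_mk, if_neg h1, Nat.cast_sub hnm.le]
    ring
  rw [e1]
  simp
  ring

/-! ## The finite dimensional parametrisation -/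

/-- The series `1 + ∑ a_i X ^ (i + 1)`. -/
noncomputable def SA {N : ℕ} (a : Fin N → ℂ) : ℂ⟦X⟧ :=
  PowerSeries.mk fun k => if k = 0 then 1 else if h : k - 1 < N then a ⟨k - 1, h⟩ else 0

theorem constantCoeff_SA {N : ℕ} (a : Fin N → ℂ) : constantCoeff (SA a) = 1 := by
  rw [← coeff_zero_eq_constantCoeff_apply, SA, coeff_mk, if_pos rfl]

theorem ph_congr (al be : ℝ) {S S' : ℂ⟦X⟧} {N : ℕ} (h : ∀ m ≤ N, coeff m S = coeff m S') :
    ∀ m ≤ N, coeff m (ph al be S) = coeff m (ph al be S') := by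
  intro m hm
  have h2 : ∀ m ≤ N, coeff m (S + eul S) = coeff m (S' + eul S') := fun m hm => by
    rw [map_add, map_add, coeff_eul, coeff_eul, h m hm]
  rw [ph, ph, coeff_mul, coeff_mul]
  refine Finset.sum_congr rfl fun x hx => ?_
  have hx' := Finset.HasAntidiagonal.mem_antidiagonal.mp hx
  rw [rp_congr _ h x.1 (by omega), rp_congr _ h2 x.2 (by omega)]

theorem contDiff_rpc {E : Type*} [NormedAddCommGroup E] [NormedSpace ℝ E] {F : E → ℂ⟦X⟧}
    (hF : ∀ n, ContDiff ℝ 1 (fun a => coeff n (F a))) (α : ℂ) (n : ℕ) :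
    ContDiff ℝ 1 (fun a => rpc (F a) α n) := by
  induction n using Nat.strong_induction_on with
  | _ n ih =>
    cases n with
    | zero =>
      simp only [rpc_zero]
      exact contDiff_const
    | succ n =>
      simp only [rpc_succ]
      refine ContDiff.div_const (ContDiff.sum fun i _ => ?_) _
      exact (contDiff_const.mul (hF _)).mul (ih i i.2)

theorem contDiff_ph {E : Type*} [NormedAddCommGroup E] [NormedSpace ℝ E] {F : E → ℂ⟦X⟧}
    (hF : ∀ n, ContDiff ℝ 1 (fun a => coeff n (F a))) (al be : ℝ) (n : ℕ) :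
    ContDiff ℝ 1 (fun a => coeff n (ph al be (F a))) := by
  simp only [ph, coeff_mul, coeff_rp]
  refine ContDiff.sum fun x _ => (contDiff_rpc hF _ _).mul (contDiff_rpc (fun n => ?_) _ _)
  simp only [map_add, coeff_eul]
  exact (hF n).add (contDiff_const.mul (hF n))

theorem contDiff_SA {N : ℕ} (n : ℕ) : ContDiff ℝ 1 (fun a : Fin N → ℂ => coeff n (SA a)) := by
  simp only [SA, coeff_mk]
  by_cases h0 : n = 0
  · simp only [h0, if_true]
    exact contDiff_const
  · simp only [h0, if_false]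
    by_cases h : n - 1 < N
    · simp only [h, dif_pos]
      exact contDiff_apply ℝ ℂ _
    · simp only [h, dif_neg, not_false_eq_true]
      exact contDiff_const

theorem coeff_SA_cf {N : ℕ} {g : ℂ → ℂ} (hg : LOE.coef 1 g = 1) (k : ℕ) (hk : k ≤ N) :
    coeff k (SA (LOE.cf N g)) = coeff k (serD g) := by
  rw [SA, coeff_mk, serD, coeff_mk]
  by_cases h0 : k = 0
  · rw [if_pos h0, h0, hg]
  · rw [if_neg h0, dif_pos (by omega)]
    simp only [LOE.cf]
    congr 1
    omega

theorem coef_one {g : ℂ → ℂ} (hg : ClassS g) : LOE.coef 1 g = 1 := by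
  simp [LOE.coef, hg.2.2.2]

/-- The derivative of the coefficients along the Loewner velocity. -/
theorem fderiv_flow (al be : ℝ) {N : ℕ} {g : ℂ → ℂ} (hg : ClassS g) {κ : ℂ} (hκ : ‖κ‖ = 1)
    {m : ℕ} (hm : m ≤ N) :
    fderiv ℝ (fun a : Fin N → ℂ => coeff m (ph al be (SA a))) (LOE.cf N g)
        (LOE.cf N (LOE.vel g (fun z => (1 + κ * z) / (1 - κ * z)))) =
      (m : ℂ) * cc al be g m + 2 * ∑ n ∈ Finset.range m,
        ((n : ℂ) + al + be * ((m : ℂ) - n + 1)) * (κ ^ (m - n) * cc al be g n) := by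
  set v := LOE.cf N (LOE.vel g (fun z => (1 + κ * z) / (1 - κ * z))) with hv
  set a := LOE.cf N g with ha
  have c1 := coef_one hg
  have hS : constantCoeff (serD g) = 1 := by
    rw [← coeff_zero_eq_constantCoeff_apply, serD, coeff_mk]
    exact c1
  have hP : constantCoeff (Pk κ) = 1 := by
    rw [← coeff_zero_eq_constantCoeff_apply, Pk, coeff_mk, if_pos rfl]
  have h1 := ph_flow al be hS hP m
  rw [coeff_flow] at h1
  have hd : HasFDerivAt (fun a : Fin N → ℂ => coeff m (ph al be (SA a)))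
      (fderiv ℝ (fun a : Fin N → ℂ => coeff m (ph al be (SA a))) a) (a + (0 : ℝ) • v) := by
    rw [zero_smul, add_zero]
    exact ((contDiff_ph (fun n => contDiff_SA n) al be m).differentiable one_ne_zero a).hasFDerivAt
  have h2 := hd.comp_hasDerivAt (0 : ℝ)
    (((hasDerivAt_id (0 : ℝ)).smul_const v).const_add a)
  rw [one_smul] at h2
  have h3 : ((fun a : Fin N → ℂ => coeff m (ph al be (SA a))) ∘
      fun ε : ℝ => a + (id ε : ℝ) • v) = fun ε : ℝ => coeff m (ph al be (serD g + C (ε : ℂ) *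
        (Pk κ * (serD g + eul (serD g)) - serD g))) := by
    funext ε
    simp only [Function.comp_apply, id]
    refine ph_congr al be (N := N) (fun k hk => ?_) m hm
    rw [map_add, coeff_C_mul, coeff_vel hg.1 hκ]
    by_cases h0 : k = 0
    · subst h0
      have : LOE.coef (0 + 1) (LOE.vel g (fun z => (1 + κ * z) / (1 - κ * z))) = 0 := by
        rw [LOE.coef_vel hg.1 (kernel_diff hκ)]
        simp [Finset.sum_range_succ, LOE.coef_kernel hκ]
      rw [this, mul_zero, add_zero, SA, coeff_mk, if_pos rfl, serD, coeff_mk, c1]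
    · rw [SA, coeff_mk, if_neg h0, dif_pos (by omega), serD, coeff_mk]
      simp only [Pi.add_apply, Pi.smul_apply, ha, hv, LOE.cf, Complex.real_smul]
      rw [show k - 1 + 2 = k + 1 by omega]
  rw [h3] at h2
  exact h2.unique h1

theorem rot_term {κ : ℂ} (hκ : ‖κ‖ = 1) (al be : ℝ) (c : ℕ → ℂ) (m : ℕ) :
    (starRingEnd ℂ) (c m) * ((m : ℂ) * c m + 2 * ∑ n ∈ Finset.range m,
        ((n : ℂ) + al + be * ((m : ℂ) - n + 1)) * (κ ^ (m - n) * c n)) =
    (starRingEnd ℂ) (κ⁻¹ ^ m * c m) * ((m : ℂ) * (κ⁻¹ ^ m * c m) +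
      2 * ∑ n ∈ Finset.range m, ((n : ℂ) + al + be * ((m : ℂ) - n + 1)) * (κ⁻¹ ^ n * c n)) := by
  have hκ0 : κ ≠ 0 := by
    intro h
    rw [h, norm_zero] at hκ
    exact zero_ne_one hκ
  have h1 : (starRingEnd ℂ) κ * κ = 1 := by
    rw [mul_comm, Complex.mul_conj, Complex.normSq_eq_norm_sq, hκ]
    simp
  have h2 : (starRingEnd ℂ) (κ⁻¹ ^ m) * κ⁻¹ ^ m = 1 := by
    rw [map_pow, map_inv₀, ← mul_pow, ← mul_inv, h1, inv_one, one_pow]
  have h3 : ∀ n ∈ Finset.range m, ((n : ℂ) + al + be * ((m : ℂ) - n + 1)) * (κ⁻¹ ^ n * c n) =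
      κ⁻¹ ^ m * (((n : ℂ) + al + be * ((m : ℂ) - n + 1)) * (κ ^ (m - n) * c n)) := by
    intro n hn
    have hnm : n ≤ m := (Finset.mem_range.mp hn).le
    have : κ⁻¹ ^ n = κ⁻¹ ^ m * κ ^ (m - n) := by
      rw [inv_pow, inv_pow, pow_sub₀ κ hκ0 hnm]
      field_simp
    rw [this]
    ring
  rw [Finset.sum_congr rfl h3, ← Finset.mul_sum, map_mul]
  linear_combination (-(starRingEnd ℂ) (c m) * ((m : ℂ) * c m + 2 * ∑ n ∈ Finset.range m,
        ((n : ℂ) + al + be * ((m : ℂ) - n + 1)) * (κ ^ (m - n) * c n))) * h2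

theorem rp_one (a : ℂ) : rp (1 : ℂ⟦X⟧) a = 1 := by
  ext n
  cases n with
  | zero => simp [coeff_rp, rpc_zero]
  | succ n =>
    rw [coeff_rp, rpc_succ, Finset.sum_eq_zero, zero_div, coeff_one, if_neg (Nat.succ_ne_zero n)]
    intro i _
    have hi := i.2
    rw [coeff_one, if_neg (by omega)]
    ring

theorem ph_zero (al be : ℝ) {N : ℕ} : ph al be (SA (0 : Fin N → ℂ)) = 1 := by
  have h1 : SA (0 : Fin N → ℂ) = 1 := by
    ext n
    rw [SA, coeff_mk, coeff_one]
    by_cases h : n = 0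
    · simp [h]
    · simp [h]
  have h2 : eul (1 : ℂ⟦X⟧) = 0 := by simp [KIM.eul]
  rw [h1, ph, h2, add_zero, rp_one, rp_one, one_mul]

end Pool.Agent.KIM.PRI_

namespace Pool.Agent.KIM

open Pool.Agent.KIM.PRI_

/-- **The monotonicity principle.** -/
theorem flow_principle (al be : ℝ) (N : ℕ) {T : ℝ} (hT : 0 < T) (s s' : ℕ → ℝ → ℝ)
    (hs : ∀ m ≤ N, ∀ t ∈ Icc (0 : ℝ) T, HasDerivWithinAt (s m) (s' m t) (Icc 0 T) t)
    (hs' : ∀ m ≤ N, ContinuousOn (s' m) (Icc 0 T))
    (hm : ∀ t ∈ Icc (0 : ℝ) T, ∀ g : ℂ → ℂ, ClassS g →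
      (∀ z ∈ LOE.Dk, ‖g z‖ < Real.exp (T - t)) → ∀ κ : ℂ, ‖κ‖ = 1 →
      0 ≤ Qf N al be (fun m => s m t) (fun m => s' m t) (fun m => κ⁻¹ ^ m * cc al be g m))
    {f : ℂ → ℂ} (hf : ClassS f) (hb : ∀ z ∈ LOE.Dk, ‖f z‖ < Real.exp T) :
    ∑ m ∈ Finset.range (N + 1), s m 0 * ‖cc al be f m‖ ^ 2 ≤ s 0 T := by
  set c : ℕ → (Fin N → ℂ) → ℂ := fun m a => coeff m (ph al be (SA a)) with hc
  have hcd : ∀ m, ContDiff ℝ 1 (c m) := fun m => contDiff_ph (fun n => contDiff_SA n) al be m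
  have hcn : ∀ m, ContDiff ℝ 1 (fun a => ‖c m a‖ ^ 2) := fun m => (hcd m).norm_sq ℝ
  set Φ : ℝ × (Fin N → ℂ) → ℝ := fun x =>
    ∑ m ∈ Finset.range (N + 1), s m x.1 * ‖c m x.2‖ ^ 2 with hΦ
  set Φ' : ℝ × (Fin N → ℂ) → (ℝ × (Fin N → ℂ) →L[ℝ] ℝ) := fun x =>
    ∑ m ∈ Finset.range (N + 1), (s m x.1 • (fderiv ℝ (fun a => ‖c m a‖ ^ 2) x.2).comp
      (ContinuousLinearMap.snd ℝ ℝ (Fin N → ℂ)) + ‖c m x.2‖ ^ 2 •
        (s' m x.1 • ContinuousLinearMap.fst ℝ ℝ (Fin N → ℂ))) with hΦ'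
  have hcc : ∀ g : ℂ → ℂ, ClassS g → ∀ m ≤ N, c m (LOE.cf N g) = cc al be g m := by
    intro g hg m hm
    exact ph_congr al be (fun k hk => coeff_SA_cf (coef_one hg) k hk) m hm
  have main := LOE.loewner_principle_kernel N hT Φ Φ' ?_ ?_ ?_ hf hb
  · have e0 : Φ (0, LOE.cf N f) = ∑ m ∈ Finset.range (N + 1), s m 0 * ‖cc al be f m‖ ^ 2 := by
      simp only [hΦ]
      refine Finset.sum_congr rfl fun m hm => ?_
      rw [hcc f hf m (by have := Finset.mem_range.mp hm; omega)]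
    have e1 : Φ (T, 0) = s 0 T := by
      simp only [hΦ, hc, ph_zero, coeff_one]
      rw [Finset.sum_eq_single 0]
      · simp
      · intro m _ hm
        simp [hm]
      · intro h
        exact absurd (Finset.mem_range.mpr (Nat.succ_pos N)) h
    rw [e0, e1] at main
    exact main
  · intro x hx
    simp only [hΦ, hΦ']
    refine HasFDerivWithinAt.fun_sum fun m hm => ?_
    have hmN : m ≤ N := by have := Finset.mem_range.mp hm; omega
    have h1 : HasFDerivWithinAt (fun x : ℝ × (Fin N → ℂ) => s m x.1)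
        (s' m x.1 • ContinuousLinearMap.fst ℝ ℝ (Fin N → ℂ)) (Icc (0 : ℝ) T ×ˢ univ) x := by
      have hfst : HasFDerivWithinAt (Prod.fst : ℝ × (Fin N → ℂ) → ℝ)
          (ContinuousLinearMap.fst ℝ ℝ (Fin N → ℂ)) (Icc (0 : ℝ) T ×ˢ univ) x :=
        hasFDerivAt_fst.hasFDerivWithinAt
      have hmt : MapsTo (Prod.fst : ℝ × (Fin N → ℂ) → ℝ) (Icc (0 : ℝ) T ×ˢ univ) (Icc 0 T) :=
        fun y hy => hy.1
      exact (hs m hmN x.1 hx.1).comp_hasFDerivWithinAt x hfst hmt
    have h2 : HasFDerivWithinAt (fun x : ℝ × (Fin N → ℂ) => ‖c m x.2‖ ^ 2)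
        ((fderiv ℝ (fun a => ‖c m a‖ ^ 2) x.2).comp
          (ContinuousLinearMap.snd ℝ ℝ (Fin N → ℂ))) (Icc (0 : ℝ) T ×ˢ univ) x := by
      have h3 : HasFDerivAt (fun a => ‖c m a‖ ^ 2) (fderiv ℝ (fun a => ‖c m a‖ ^ 2) x.2) x.2 :=
        ((hcn m).differentiable one_ne_zero x.2).hasFDerivAt
      exact (h3.comp x hasFDerivAt_snd).hasFDerivWithinAt
    exact h1.mul h2
  · simp only [hΦ']
    refine continuousOn_finsetSum _ fun m hm => ?_
    have hmN : m ≤ N := by have := Finset.mem_range.mp hm; omega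
    have c1 : ContinuousOn (fun x : ℝ × (Fin N → ℂ) => s m x.1) (Icc (0 : ℝ) T ×ˢ univ) := by
      have : ContinuousOn (s m) (Icc 0 T) := fun t ht => (hs m hmN t ht).continuousWithinAt
      exact this.comp continuousOn_fst fun y hy => hy.1
    have c2 : ContinuousOn (fun x : ℝ × (Fin N → ℂ) => s' m x.1) (Icc (0 : ℝ) T ×ˢ univ) :=
      (hs' m hmN).comp continuousOn_fst fun y hy => hy.1
    have c3 : Continuous (fun x : ℝ × (Fin N → ℂ) => ‖c m x.2‖ ^ 2) :=
      (hcn m).continuous.comp continuous_snd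
    have c4 : Continuous (fun x : ℝ × (Fin N → ℂ) =>
        (fderiv ℝ (fun a => ‖c m a‖ ^ 2) x.2).comp (ContinuousLinearMap.snd ℝ ℝ (Fin N → ℂ))) :=
      (((hcn m).continuous_fderiv one_ne_zero).comp continuous_snd).clm_comp continuous_const
    exact (c1.smul c4.continuousOn).add (c3.continuousOn.smul (c2.smul continuousOn_const))
  · intro t ht g hg hgb κ hκ
    have h := hm t ht g hg hgb κ hκ
    have e : Φ' (t, LOE.cf N g)
        (1, LOE.cf N (LOE.vel g (fun z => (1 + κ * z) / (1 - κ * z)))) =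
        Qf N al be (fun m => s m t) (fun m => s' m t) (fun m => κ⁻¹ ^ m * cc al be g m) := by
      simp only [hΦ', Qf, sum_apply, add_apply, smul_apply, ContinuousLinearMap.comp_apply,
        ContinuousLinearMap.coe_fst', ContinuousLinearMap.coe_snd', smul_eq_mul, mul_one]
      refine Finset.sum_congr rfl fun m hm => ?_
      have hmN : m ≤ N := by have := Finset.mem_range.mp hm; omega
      have hn : ‖κ⁻¹ ^ m * cc al be g m‖ = ‖cc al be g m‖ := by
        rw [norm_mul, norm_pow, norm_inv, hκ, inv_one, one_pow, one_mul]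
      have hf1 : HasFDerivAt (c m) (fderiv ℝ (c m) (LOE.cf N g)) (LOE.cf N g) :=
        ((hcd m).differentiable one_ne_zero _).hasFDerivAt
      have hr := rot_term hκ al be (cc al be g) m
      rw [hf1.norm_sq.fderiv, hn, ← hr]
      have hfl := fderiv_flow al be hg hκ hmN
      simp only [smul_apply, ContinuousLinearMap.comp_apply]
      rw [show fderiv ℝ (c m) (LOE.cf N g)
        (LOE.cf N (LOE.vel g (fun z => (1 + κ * z) / (1 - κ * z)))) = _ from hfl]
      rw [hcc g hg m hmN]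
      generalize (m : ℂ) * cc al be g m + 2 * ∑ n ∈ Finset.range m,
        ((n : ℂ) + al + be * ((m : ℂ) - n + 1)) * (κ ^ (m - n) * cc al be g n) = A
      simp only [innerSL_apply_apply, Complex.inner, nsmul_eq_mul]
      push_cast
      rw [mul_comm A]
      ring
    rw [e]
    exact h

/-- The monotonicity principle in the form used by the assembly. -/
theorem principle (N : ℕ) (al be : ℝ) (s s' : ℕ → ℝ → ℝ) {T : ℝ} (hT : 0 < T)
    (hs : ∀ m ≤ N, ∀ t, HasDerivAt (s m) (s' m t) t) (hs' : ∀ m ≤ N, Continuous (s' m))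
    (hpos : ∀ t ∈ Set.Icc (0 : ℝ) T, ∀ g : ℂ → ℂ, ClassS g →
      (∀ z ∈ LOE.Dk, ‖g z‖ < Real.exp (T - t)) → ∀ ka : ℂ, ‖ka‖ = 1 →
      0 ≤ Qf N al be (fun m => s m t) (fun m => s' m t)
        (fun m => (starRingEnd ℂ) ka ^ m * cc al be g m))
    {f : ℂ → ℂ} (hf : ClassS f) (hb : ∀ z ∈ LOE.Dk, ‖f z‖ < Real.exp T) :
    ∑ m ∈ Finset.range (N + 1), s m 0 * ‖cc al be f m‖ ^ 2 ≤ s 0 T := by
  refine flow_principle al be N hT s s' (fun m hm t _ => (hs m hm t).hasDerivWithinAt)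
    (fun m hm => (hs' m hm).continuousOn) (fun t ht g hg hgb κ hκ => ?_) hf hb
  have h := hpos t ht g hg hgb κ hκ
  have e : (starRingEnd ℂ) κ = κ⁻¹ := by
    rw [Complex.inv_def, Complex.normSq_eq_norm_sq, hκ]
    simp
  rw [e] at h
  exact h

end Pool.Agent.KIM
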