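import Pool.Agent.KIM.PQT

/-!
# KIM / PWZ: two summation identities

`κ_j = (1/2)_j (λ+j)_j / (j! (λ+j-1/2)_j)`, `t(n,j) = κ_j gc (λ + 2 j) (n - j)` for `j ≤ n` and
`t(n,j) = 0` for `j > n`.  Put
`g(n,j) = j (λ+j-1) (λ+n+j+1/2) / ((λ+2j-1/2)(n+1)(λ+n)(λ+n+j)) * t(n+1,j)`.
Then for all `j ≤ n + 1`
`t(n+1,j) - t(n,j) = -(λ+2n+1) (g(n,j+1) - g(n,j))` and, with `ω_j = (λ-1)/((λ+2j)(λ+2j-1))`
(`ω_0 = 1/λ`; note `ω_0 = 1/λ` also if `λ = 1`),
`(λ+2n+2) ω_j t(n+1,j) - (λ+2n) ω_j t(n,j) = -(λ-1) (g(n,j+1) - g(n,j))`,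
`g(n,0) = 0 = g(n,n+2)`; sum over `j ≤ n + 1` and induct on `n`.
Useful ratios (`j ≤ n`): `t(n+1,j)/t(n,j) = (n-j+1/2)(λ+n+j)/((λ+n+j+1/2)(n+1-j))`,
`t(n,j+1)/t(n,j) = (j+1/2)(λ+j-1/2)(λ+n+j)(λ+2j+3/2)(n-j) /
((j+1)(λ+j)(λ+2j-1/2)(n-j-1/2)(λ+n+j+1/2))` (`j + 1 ≤ n`).
It is convenient to treat `j ≤ n` and `j = n + 1` separately; in the case `j ≤ n` express
everything through one quantity, e.g. `t(n, j)`, by `field_simp; ring`.
(All identities checked with rational arithmetic.)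
-/

set_option autoImplicit false

open PowerSeries Finset

namespace Pool.Agent.KIM

/-- `κ_j`. -/
noncomputable def kj (lam : ℝ) (j : ℕ) : ℝ :=
  poc (1 / 2) j * poc (lam + j) j / ((j.factorial : ℝ) * poc (lam + j - 1 / 2) j)

/-- `κ_j (λ - 1) / ((λ + 2 j)(λ + 2 j - 1))`, and `1 / λ` for `j = 0`. -/
noncomputable def kf (lam : ℝ) (j : ℕ) : ℝ :=
  if j = 0 then 1 / lam else kj lam j * (lam - 1) / ((lam + 2 * j) * (lam + 2 * j - 1))

private theorem pwz_poc_left (a : ℝ) (n : ℕ) : poc a (n + 1) = a * poc (a + 1) n := by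
  unfold poc
  rw [prod_range_succ', mul_comm]
  congr 1
  · simp
  · refine prod_congr rfl fun i _ => ?_
    push_cast
    ring

/-- `a (a+2)...`: shifting the argument by two. -/
private theorem pwz_poc_two {a : ℝ} (n : ℕ) :
    a * (a + 1) * poc (a + 2) n = poc a n * (a + n) * (a + n + 1) := by
  have h1 : poc a (n + 2) = a * ((a + 1) * poc (a + 1 + 1) n) := by
    rw [pwz_poc_left, pwz_poc_left]
  have h2 : poc a (n + 2) = poc a n * (a + n) * (a + (n + 1 : ℕ)) := by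
    rw [show n + 2 = (n + 1) + 1 from rfl, poc_succ, poc_succ]
  have h3 : a + 1 + 1 = a + 2 := by ring
  rw [h3] at h1
  rw [h1] at h2
  push_cast at h2
  linarith [h2]

private theorem pwz_gc_shift {mu : ℝ} (hmu : 0 < mu) (m : ℕ) :
    gc (mu + 2) m = gc mu m * ((mu + m) * (mu + m + 1) * (mu + 1 / 2) * (mu + 3 / 2)) /
      (mu * (mu + 1) * (mu + m + 1 / 2) * (mu + m + 3 / 2)) := by
  have h1 := pwz_poc_two (a := mu) m
  have h2 := pwz_poc_two (a := mu + 1 / 2) m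
  have hm : (0 : ℝ) ≤ m := Nat.cast_nonneg m
  have e1 : poc (mu + 2) m = poc mu m * (mu + m) * (mu + m + 1) / (mu * (mu + 1)) := by
    rw [eq_div_iff (by positivity), ← h1]
    ring
  have e2 : poc (mu + 2 + 1 / 2) m =
      poc (mu + 1 / 2) m * (mu + 1 / 2 + m) * (mu + 1 / 2 + m + 1) /
        ((mu + 1 / 2) * (mu + 1 / 2 + 1)) := by
    rw [eq_div_iff (by positivity), ← h2, show mu + 2 + 1 / 2 = mu + 1 / 2 + 2 by ring]
    ring
  have hp : poc (mu + 1 / 2) m ≠ 0 := (poc_pos (by positivity) m).ne'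
  have hf : (m.factorial : ℝ) ≠ 0 := by positivity
  have n1 : mu + m + 1 / 2 ≠ 0 := by positivity
  have n2 : mu + m + 3 / 2 ≠ 0 := by positivity
  have n3 : mu ≠ 0 := hmu.ne'
  have n4 : mu + 1 ≠ 0 := by positivity
  have n5 : mu + 1 / 2 ≠ 0 := by positivity
  have n6 : mu + 3 / 2 ≠ 0 := by positivity
  unfold gc
  rw [e1, e2, show mu + 1 / 2 + m = mu + m + 1 / 2 by ring,
    show mu + m + 1 / 2 + 1 = mu + m + 3 / 2 by ring, show mu + 1 / 2 + 1 = mu + 3 / 2 by ring]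
  field_simp

private theorem pwz_gc_succ {mu : ℝ} (hmu : 0 < mu) (m : ℕ) :
    gc mu (m + 1) = gc mu m * ((m + 1 / 2) * (mu + m)) / ((mu + m + 1 / 2) * (m + 1)) := by
  have hm : (0 : ℝ) ≤ m := Nat.cast_nonneg m
  have hp : poc (mu + 1 / 2) m ≠ 0 := (poc_pos (by positivity) m).ne'
  have hf : (m.factorial : ℝ) ≠ 0 := by positivity
  have n1 : mu + m + 1 / 2 ≠ 0 := by positivity
  have n2 : (m : ℝ) + 1 ≠ 0 := by positivity
  unfold gc
  rw [poc_succ, poc_succ, poc_succ, Nat.factorial_succ, show mu + 1 / 2 + m = mu + m + 1 / 2 by ring]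
  push_cast
  field_simp
  ring

private theorem pwz_kj_succ {lam : ℝ} (h : 1 ≤ lam) (j : ℕ) :
    kj lam (j + 1) = kj lam j * ((j + 1 / 2) * (lam + 2 * j) * (lam + 2 * j + 1) *
      (lam + j - 1 / 2)) / ((j + 1) * (lam + j) * (lam + 2 * j - 1 / 2) *
        (lam + 2 * j + 1 / 2)) := by
  have hj : (0 : ℝ) ≤ j := Nat.cast_nonneg j
  have p1 : 0 < lam + j := by linarith
  have p2 : 0 < lam + j - 1 / 2 := by linarith
  have p3 : 0 < lam + 2 * j - 1 / 2 := by linarith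
  have p4 : 0 < lam + 2 * j + 1 / 2 := by linarith
  have h1 : poc (lam + j) (j + 2) = (lam + j) * poc (lam + (j + 1 : ℕ)) (j + 1) := by
    rw [show j + 2 = (j + 1) + 1 from rfl, pwz_poc_left]
    push_cast
    rw [show lam + j + 1 = lam + (j + 1) by ring]
  have h2 : poc (lam + j) (j + 2) = poc (lam + j) j * (lam + 2 * j) * (lam + 2 * j + 1) := by
    rw [show j + 2 = (j + 1) + 1 from rfl, poc_succ, poc_succ]
    push_cast
    ring
  have h3 : poc (lam + j - 1 / 2) (j + 2) =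
      (lam + j - 1 / 2) * poc (lam + (j + 1 : ℕ) - 1 / 2) (j + 1) := by
    rw [show j + 2 = (j + 1) + 1 from rfl, pwz_poc_left]
    push_cast
    rw [show lam + j - 1 / 2 + 1 = lam + (j + 1) - 1 / 2 by ring]
  have h4 : poc (lam + j - 1 / 2) (j + 2) =
      poc (lam + j - 1 / 2) j * (lam + 2 * j - 1 / 2) * (lam + 2 * j + 1 / 2) := by
    rw [show j + 2 = (j + 1) + 1 from rfl, poc_succ, poc_succ]
    push_cast
    ring
  have e1 : poc (lam + (j + 1 : ℕ)) (j + 1) =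
      poc (lam + j) j * (lam + 2 * j) * (lam + 2 * j + 1) / (lam + j) := by
    rw [eq_div_iff p1.ne', ← h2, h1]
    ring
  have e2 : poc (lam + (j + 1 : ℕ) - 1 / 2) (j + 1) =
      poc (lam + j - 1 / 2) j * (lam + 2 * j - 1 / 2) * (lam + 2 * j + 1 / 2) /
        (lam + j - 1 / 2) := by
    rw [eq_div_iff p2.ne', ← h4, h3]
    ring
  have hp : poc (lam + j - 1 / 2) j ≠ 0 := (poc_pos p2 j).ne'
  have hf : (j.factorial : ℝ) ≠ 0 := by positivity
  have n1 : (j : ℝ) + 1 ≠ 0 := by positivity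
  have n2 := p1.ne'
  have n3 := p2.ne'
  have n4 := p3.ne'
  have n5 := p4.ne'
  unfold kj
  rw [e1, e2, poc_succ, Nat.factorial_succ, show (1 : ℝ) / 2 + j = j + 1 / 2 by ring]
  push_cast
  field_simp

/-- `t(n, j)` with `m = n - j`. -/
private noncomputable def pwz_t (lam : ℝ) (j m : ℕ) : ℝ := kj lam j * gc (lam + 2 * j) m

private theorem pwz_t_succ {lam : ℝ} (h : 1 ≤ lam) (j m : ℕ) :
    pwz_t lam j (m + 1) = pwz_t lam j m * ((m + 1 / 2) * (lam + 2 * j + m)) /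
      ((lam + 2 * j + m + 1 / 2) * (m + 1)) := by
  have hj : (0 : ℝ) ≤ j := Nat.cast_nonneg j
  unfold pwz_t
  rw [pwz_gc_succ (by linarith)]
  ring

private theorem pwz_t_shift {lam : ℝ} (h : 1 ≤ lam) (j m : ℕ) :
    pwz_t lam (j + 1) m = pwz_t lam j m * ((j + 1 / 2) * (lam + j - 1 / 2) *
      (lam + 2 * j + m + 1) * (lam + 2 * j + 3 / 2) * (lam + 2 * j + m)) /
      ((j + 1) * (lam + j) * (lam + 2 * j - 1 / 2) * (lam + 2 * j + m + 3 / 2) *
        (lam + 2 * j + m + 1 / 2)) := by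
  have hj : (0 : ℝ) ≤ j := Nat.cast_nonneg j
  have hm : (0 : ℝ) ≤ m := Nat.cast_nonneg m
  have p0 : 0 < lam + 2 * j := by linarith
  have n1 : (j : ℝ) + 1 ≠ 0 := by positivity
  have n2 : lam + j ≠ 0 := by linarith
  have n3 : lam + 2 * j - 1 / 2 ≠ 0 := by linarith
  have n4 : lam + 2 * j + 1 / 2 ≠ 0 := by linarith
  have n5 : lam + 2 * j + m + 3 / 2 ≠ 0 := by linarith
  have n6 : lam + 2 * j + m + 1 / 2 ≠ 0 := by linarith
  have n7 : lam + 2 * j + 1 ≠ 0 := by linarith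
  have n8 : lam + 2 * j ≠ 0 := by linarith
  have n9 : lam + 2 * j + 3 / 2 ≠ 0 := by linarith
  unfold pwz_t
  rw [show lam + 2 * ((j + 1 : ℕ) : ℝ) = lam + 2 * j + 2 by push_cast; ring,
    pwz_gc_shift p0, pwz_kj_succ h]
  field_simp

/-- `g(n, j)` with `n + 1 = j + m`. -/
private noncomputable def pwz_g (lam : ℝ) (n j : ℕ) : ℝ :=
  j * (lam + j - 1) * (lam + n + j + 1 / 2) /
    ((lam + 2 * j - 1 / 2) * (n + 1) * (lam + n) * (lam + n + j)) * pwz_t lam j (n + 1 - j)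

private theorem pwz_step_one {lam : ℝ} (h : 1 ≤ lam) (j m : ℕ) :
    pwz_t lam j (m + 1) - pwz_t lam j m =
      -(lam + 2 * (j + m : ℕ) + 1) * (pwz_g lam (j + m) (j + 1) - pwz_g lam (j + m) j) := by
  have hj : (0 : ℝ) ≤ j := Nat.cast_nonneg j
  have hm : (0 : ℝ) ≤ m := Nat.cast_nonneg m
  have n1 : (j : ℝ) + 1 ≠ 0 := by positivity
  have n2 : lam + j ≠ 0 := by linarith
  have n3 : lam + 2 * j - 1 / 2 ≠ 0 := by linarith
  have n5 : lam + 2 * j + m + 3 / 2 ≠ 0 := by linarith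
  have n6 : lam + 2 * j + m + 1 / 2 ≠ 0 := by linarith
  have n9 : lam + 2 * j + 3 / 2 ≠ 0 := by linarith
  have n10 : lam + j + m ≠ 0 := by linarith
  have n11 : (j : ℝ) + m + 1 ≠ 0 := by linarith
  have n12 : lam + 2 * j + m ≠ 0 := by linarith
  have n13 : lam + 2 * j + m + 1 ≠ 0 := by linarith
  have n14 : (m : ℝ) + 1 ≠ 0 := by linarith
  unfold pwz_g
  rw [show j + m + 1 - (j + 1) = m by omega, show j + m + 1 - j = m + 1 by omega,
    pwz_t_shift h, pwz_t_succ h]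
  push_cast
  rw [show lam + ((j : ℝ) + m) + (j + 1) + 1 / 2 = lam + 2 * j + m + 3 / 2 by ring,
    show lam + 2 * ((j : ℝ) + 1) - 1 / 2 = lam + 2 * j + 3 / 2 by ring,
    show lam + ((j : ℝ) + m) + (j + 1) = lam + 2 * j + m + 1 by ring,
    show lam + ((j : ℝ) + m) + j + 1 / 2 = lam + 2 * j + m + 1 / 2 by ring,
    show lam + ((j : ℝ) + m) + j = lam + 2 * j + m by ring,
    show lam + ((j : ℝ) + m) = lam + j + m by ring,
    show lam + ((j : ℝ) + 1) - 1 = lam + j by ring]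
  generalize pwz_t lam j m = T
  have m1 : 2 * (lam + 2 * (j : ℝ)) - 1 ≠ 0 := by
    intro hh; apply n3; linarith
  field_simp
  ring

private theorem pwz_g_last {lam : ℝ} (h : 1 ≤ lam) (n : ℕ) :
    (lam + 2 * n + 1) * pwz_g lam n (n + 1) = pwz_t lam (n + 1) 0 := by
  have hn : (0 : ℝ) ≤ n := Nat.cast_nonneg n
  have n1 : (n : ℝ) + 1 ≠ 0 := by positivity
  have n2 : lam + n ≠ 0 := by linarith
  have n3 : lam + 2 * n + 3 / 2 ≠ 0 := by linarith
  have n4 : lam + 2 * n + 1 ≠ 0 := by linarith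
  unfold pwz_g
  rw [show n + 1 - (n + 1) = 0 by omega]
  push_cast
  rw [show lam + (n : ℝ) + (n + 1) + 1 / 2 = lam + 2 * n + 3 / 2 by ring,
    show lam + 2 * ((n : ℝ) + 1) - 1 / 2 = lam + 2 * n + 3 / 2 by ring,
    show lam + (n : ℝ) + (n + 1) = lam + 2 * n + 1 by ring,
    show lam + ((n : ℝ) + 1) - 1 = lam + n by ring]
  field_simp

private theorem pwz_g_zero (lam : ℝ) (n : ℕ) : pwz_g lam n 0 = 0 := by
  unfold pwz_g
  simp

private noncomputable def pwz_om (lam : ℝ) (j : ℕ) : ℝ :=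
  if j = 0 then 1 / lam else (lam - 1) / ((lam + 2 * j) * (lam + 2 * j - 1))

private theorem pwz_kf_eq (lam : ℝ) (j m : ℕ) :
    kf lam j * gc (lam + 2 * j) m = pwz_om lam j * pwz_t lam j m := by
  unfold kf pwz_om pwz_t
  by_cases hj : j = 0
  · subst hj
    simp [kj, poc_zero]
  · rw [if_neg hj, if_neg hj]
    ring

private theorem pwz_step_two {lam : ℝ} (h : 1 ≤ lam) (j m : ℕ) :
    (lam + 2 * (j + m : ℕ) + 2) * (pwz_om lam j * pwz_t lam j (m + 1)) -
      (lam + 2 * (j + m : ℕ)) * (pwz_om lam j * pwz_t lam j m) =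
      -(lam - 1) * (pwz_g lam (j + m) (j + 1) - pwz_g lam (j + m) j) := by
  have hj : (0 : ℝ) ≤ j := Nat.cast_nonneg j
  have hm : (0 : ℝ) ≤ m := Nat.cast_nonneg m
  have n1 : (j : ℝ) + 1 ≠ 0 := by positivity
  have n2 : lam + j ≠ 0 := by linarith
  have n3 : lam + 2 * j - 1 / 2 ≠ 0 := by linarith
  have n5 : lam + 2 * j + m + 3 / 2 ≠ 0 := by linarith
  have n6 : lam + 2 * j + m + 1 / 2 ≠ 0 := by linarith
  have n9 : lam + 2 * j + 3 / 2 ≠ 0 := by linarith
  have n10 : lam + j + m ≠ 0 := by linarith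
  have n11 : (j : ℝ) + m + 1 ≠ 0 := by linarith
  have n12 : lam + 2 * j + m ≠ 0 := by linarith
  have n13 : lam + 2 * j + m + 1 ≠ 0 := by linarith
  have n14 : (m : ℝ) + 1 ≠ 0 := by linarith
  have m1 : 2 * (lam + 2 * (j : ℝ)) - 1 ≠ 0 := by
    intro hh; apply n3; linarith
  unfold pwz_g
  rw [show j + m + 1 - (j + 1) = m by omega, show j + m + 1 - j = m + 1 by omega,
    pwz_t_shift h, pwz_t_succ h]
  push_cast
  rw [show lam + ((j : ℝ) + m) + (j + 1) + 1 / 2 = lam + 2 * j + m + 3 / 2 by ring,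
    show lam + 2 * ((j : ℝ) + 1) - 1 / 2 = lam + 2 * j + 3 / 2 by ring,
    show lam + ((j : ℝ) + m) + (j + 1) = lam + 2 * j + m + 1 by ring,
    show lam + ((j : ℝ) + m) + j + 1 / 2 = lam + 2 * j + m + 1 / 2 by ring,
    show lam + ((j : ℝ) + m) + j = lam + 2 * j + m by ring,
    show lam + ((j : ℝ) + m) = lam + j + m by ring,
    show lam + ((j : ℝ) + 1) - 1 = lam + j by ring]
  generalize pwz_t lam j m = T
  unfold pwz_om
  by_cases h0 : j = 0
  · subst h0
    have l0 : lam ≠ 0 := by linarith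
    have l1 : lam + m ≠ 0 := by linarith
    have l2 : lam + m + 1 / 2 ≠ 0 := by linarith
    have l3 : lam + m + 3 / 2 ≠ 0 := by linarith
    have l4 : lam + 3 / 2 ≠ 0 := by linarith
    have l5 : lam - 1 / 2 ≠ 0 := by linarith
    have l6 : lam + m + 1 ≠ 0 := by linarith
    have l7 : lam * 2 - 1 ≠ 0 := by linarith
    simp only [if_true, Nat.cast_zero, mul_zero, add_zero, zero_mul, zero_add, zero_div, sub_zero]
    field_simp
    ring
  · rw [if_neg h0]
    have hj1 : (1 : ℝ) ≤ j := by exact_mod_cast Nat.one_le_iff_ne_zero.mpr h0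
    have k1 : lam + 2 * j ≠ 0 := by linarith
    have k2 : lam + 2 * j - 1 ≠ 0 := by linarith
    field_simp
    ring

theorem kj_nonneg {lam : ℝ} (h : 1 ≤ lam) (j : ℕ) : 0 ≤ kj lam j := by
  have hj : (0 : ℝ) ≤ j := Nat.cast_nonneg j
  have p1 : 0 < poc (1 / 2 : ℝ) j := poc_pos (by norm_num) j
  have p2 : 0 < poc (lam + j) j := poc_pos (by linarith) j
  have p3 : 0 < poc (lam + j - 1 / 2) j := poc_pos (by linarith) j
  unfold kj
  positivity

theorem kf_nonneg {lam : ℝ} (h : 1 ≤ lam) (j : ℕ) : 0 ≤ kf lam j := by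
  unfold kf
  split_ifs with h0
  · have : 0 < lam := by linarith
    positivity
  · have hj1 : (1 : ℝ) ≤ j := by exact_mod_cast Nat.one_le_iff_ne_zero.mpr h0
    apply div_nonneg
    · exact mul_nonneg (kj_nonneg h j) (by linarith)
    · exact mul_nonneg (by linarith) (by linarith)

private theorem pwz_t_zero_zero (lam : ℝ) : pwz_t lam 0 0 = 1 := by
  simp [pwz_t, kj, gc, poc_zero]

theorem sum_kj {lam : ℝ} (h : 1 ≤ lam) (n : ℕ) :
    ∑ j ∈ range (n + 1), kj lam j * gc (lam + 2 * j) (n - j) = 1 := by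
  have key : ∀ n, ∑ j ∈ range (n + 1), pwz_t lam j (n - j) = 1 := by
    intro n
    induction n with
    | zero => simp [pwz_t_zero_zero]
    | succ n ih =>
      rw [sum_range_succ]
      have e1 : ∑ j ∈ range (n + 1), pwz_t lam j (n + 1 - j) -
          ∑ j ∈ range (n + 1), pwz_t lam j (n - j) =
          ∑ j ∈ range (n + 1), -(lam + 2 * n + 1) * (pwz_g lam n (j + 1) - pwz_g lam n j) := by
        rw [← sum_sub_distrib]
        refine sum_congr rfl fun j hj => ?_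
        obtain ⟨m, rfl⟩ := Nat.exists_eq_add_of_le (Nat.lt_succ_iff.mp (mem_range.mp hj))
        rw [← pwz_step_one h j m, show j + m + 1 - j = m + 1 by omega,
          show j + m - j = m by omega]
      rw [← mul_sum, sum_range_sub (fun j => pwz_g lam n j), pwz_g_zero, ih] at e1
      have e2 := pwz_g_last h n
      rw [show n + 1 - (n + 1) = 0 by omega, ← e2]
      linarith
  exact key n

theorem sum_kf {lam : ℝ} (h : 1 ≤ lam) (n : ℕ) :
    ∑ j ∈ range (n + 1), kf lam j * gc (lam + 2 * j) (n - j) = 1 / (lam + 2 * n) := by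
  have key : ∀ n : ℕ, (lam + 2 * n) *
      ∑ j ∈ range (n + 1), pwz_om lam j * pwz_t lam j (n - j) = 1 := by
    intro n
    induction n with
    | zero =>
      have l0 : lam ≠ 0 := by linarith
      simp [pwz_t_zero_zero, pwz_om, l0]
    | succ n ih =>
      have hn : (0 : ℝ) ≤ n := Nat.cast_nonneg n
      rw [sum_range_succ]
      have e1 : (lam + 2 * n + 2) * ∑ j ∈ range (n + 1), pwz_om lam j * pwz_t lam j (n + 1 - j) -
          (lam + 2 * n) * ∑ j ∈ range (n + 1), pwz_om lam j * pwz_t lam j (n - j) =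
          ∑ j ∈ range (n + 1), -(lam - 1) * (pwz_g lam n (j + 1) - pwz_g lam n j) := by
        rw [mul_sum, mul_sum, ← sum_sub_distrib]
        refine sum_congr rfl fun j hj => ?_
        obtain ⟨m, rfl⟩ := Nat.exists_eq_add_of_le (Nat.lt_succ_iff.mp (mem_range.mp hj))
        rw [← pwz_step_two h j m, show j + m + 1 - j = m + 1 by omega,
          show j + m - j = m by omega]
      rw [← mul_sum, sum_range_sub (fun j => pwz_g lam n j), pwz_g_zero, ih] at e1
      have e2 := pwz_g_last h n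
      have e3 : (lam + 2 * ((n + 1 : ℕ) : ℝ)) * pwz_om lam (n + 1) =
          (lam - 1) / (lam + 2 * n + 1) := by
        have k1 : lam + 2 * n + 2 ≠ 0 := by linarith
        have k2 : lam + 2 * n + 1 ≠ 0 := by linarith
        unfold pwz_om
        rw [if_neg (Nat.succ_ne_zero n)]
        push_cast
        rw [show lam + 2 * ((n : ℝ) + 1) - 1 = lam + 2 * n + 1 by ring,
          show lam + 2 * ((n : ℝ) + 1) = lam + 2 * n + 2 by ring]
        field_simp
      have k2 : lam + 2 * n + 1 ≠ 0 := by linarith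
      rw [show n + 1 - (n + 1) = 0 by omega, ← e2, mul_add, ← mul_assoc (lam + 2 * _), e3]
      have e4 : (lam - 1) / (lam + 2 * n + 1) * ((lam + 2 * n + 1) * pwz_g lam n (n + 1)) =
          (lam - 1) * pwz_g lam n (n + 1) := by
        field_simp
      rw [e4]
      push_cast
      linarith
  have hn : (0 : ℝ) ≤ n := Nat.cast_nonneg n
  have k1 : lam + 2 * n ≠ 0 := by linarith
  rw [eq_div_iff k1, mul_comm]
  rw [← key n]
  congr 1
  exact sum_congr rfl fun j _ => pwz_kf_eq lam j _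

end Pool.Agent.KIM
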