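import Pool.Agent.KIM.Defs

/-!
# KIM / RPA: the differential equation characterising `rp f a`

Proof notes.
* `coeff_zero_rp`: definition `rpc _ _ 0 = 1`.
* `rp_rec`: the Miller recursion in the form `n g_n = ∑_{i<n} (a (n - i) - i) f_{n-i} g_i`
  (unfold `rpc` at `n = m + 1`, `Fin.sum_univ_eq_sum_range`, multiply by `m + 1 ≠ 0`).
* `rp_ode`: compare coefficients of `X * (f * g') = X * (C a * f' * g)`:
  `∑_{i ≤ n} i g_i f_{n-i} = a ∑_{i ≤ n} (n - i) f_{n-i} g_i` (coefficients of `eul g` are `n g_n`,
  `coeff_mul` over the antidiagonal); the term `i = n` on the left is `n g_n f_0 = n g_n`.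
* `rp_unique`: strong induction on `n`, the same comparison read backwards (char zero, `f_0 = 1`).
-/

set_option autoImplicit false

open PowerSeries Finset

namespace Pool.Agent.KIM

variable {k : Type*} [Field k]

theorem coeff_zero_rp (f : k⟦X⟧) (a : k) : coeff 0 (rp f a) = 1 := by
  rw [rp, coeff_mk, rpc]

theorem constantCoeff_rp (f : k⟦X⟧) (a : k) : constantCoeff (rp f a) = 1 := by
  rw [← coeff_zero_eq_constantCoeff_apply, coeff_zero_rp]

theorem coeff_eul (f : k⟦X⟧) (n : ℕ) : coeff n (eul f) = (n : k) * coeff n f := by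
  rw [eul]
  cases n with
  | zero => simp
  | succ n =>
    rw [coeff_succ_X_mul, coeff_derivative]
    push_cast
    ring

theorem rp_rec [CharZero k] (f : k⟦X⟧) (a : k) (n : ℕ) :
    (n : k) * coeff n (rp f a) =
      ∑ i ∈ range n, (a * ((n : k) - i) - i) * coeff (n - i) f * coeff i (rp f a) := by
  cases n with
  | zero => simp
  | succ m =>
    have hm : ((m : k) + 1) ≠ 0 := by exact_mod_cast Nat.succ_ne_zero m
    rw [rp, coeff_mk, rpc]
    rw [Fin.sum_univ_eq_sum_range (fun i : ℕ => (a * ((m + 1 - i : ℕ) : k) - (i : k)) *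
      coeff (m + 1 - i) f * rpc f a i) (m + 1)]
    push_cast
    rw [mul_div_cancel₀ _ hm]
    apply Finset.sum_congr rfl
    intro i hi
    have hi' : i ≤ m + 1 := (Finset.mem_range.mp hi).le
    rw [coeff_mk, Nat.cast_sub hi']
    push_cast
    ring

private theorem rpa_coeff_eq (f g : k⟦X⟧) (a : k) (hf : constantCoeff f = 1) (n : ℕ) :
    coeff n (f * eul g) - coeff n (C a * eul f * g) =
      (n : k) * coeff n g -
        ∑ i ∈ range n, (a * ((n : k) - i) - i) * coeff (n - i) f * coeff i g := by
  have h1 : coeff n (f * eul g) = (n : k) * coeff n g +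
      ∑ i ∈ range n, (i : k) * coeff (n - i) f * coeff i g := by
    rw [mul_comm f, coeff_mul, Finset.Nat.sum_antidiagonal_eq_sum_range_succ
      (fun i j => coeff i (eul g) * coeff j f), Finset.sum_range_succ, Nat.sub_self,
      coeff_zero_eq_constantCoeff_apply, hf, mul_one, coeff_eul, add_comm]
    congr 1
    apply Finset.sum_congr rfl
    intro i _
    rw [coeff_eul]
    ring
  have h2 : coeff n (C a * eul f * g) =
      ∑ i ∈ range n, (a * ((n : k) - i)) * coeff (n - i) f * coeff i g := by
    rw [mul_assoc, coeff_C_mul, mul_comm (eul f), coeff_mul,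
      Finset.Nat.sum_antidiagonal_eq_sum_range_succ
      (fun i j => coeff i g * coeff j (eul f)), Finset.sum_range_succ, Nat.sub_self,
      coeff_eul f 0, Nat.cast_zero, zero_mul, mul_zero, add_zero, Finset.mul_sum]
    apply Finset.sum_congr rfl
    intro i hi
    have hi' : i ≤ n := (Finset.mem_range.mp hi).le
    rw [coeff_eul, Nat.cast_sub hi']
    ring
  have h3 : ∑ i ∈ range n, (a * ((n : k) - i) - i) * coeff (n - i) f * coeff i g =
      ∑ i ∈ range n, (a * ((n : k) - i)) * coeff (n - i) f * coeff i g -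
        ∑ i ∈ range n, (i : k) * coeff (n - i) f * coeff i g := by
    rw [← Finset.sum_sub_distrib]
    apply Finset.sum_congr rfl
    intro i _
    ring
  rw [h1, h2, h3]
  ring

theorem rp_eul [CharZero k] {f : k⟦X⟧} (hf : constantCoeff f = 1) (a : k) :
    f * eul (rp f a) = C a * eul f * rp f a := by
  ext n
  have h := rpa_coeff_eq f (rp f a) a hf n
  rw [← rp_rec f a n, sub_self] at h
  exact sub_eq_zero.mp h

private theorem rpa_X_cancel {f g : k⟦X⟧} (h : X * f = X * g) : f = g :=
  mul_left_cancel₀ X_ne_zero h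

theorem rp_ode [CharZero k] {f : k⟦X⟧} (hf : constantCoeff f = 1) (a : k) :
    f * d⁄dX k (rp f a) = C a * d⁄dX k f * rp f a := by
  apply rpa_X_cancel
  have h := rp_eul hf a
  unfold eul at h
  calc X * (f * d⁄dX k (rp f a)) = f * (X * d⁄dX k (rp f a)) := by ring
    _ = C a * (X * d⁄dX k f) * rp f a := h
    _ = X * (C a * d⁄dX k f * rp f a) := by ring

theorem rp_unique_eul [CharZero k] {f g : k⟦X⟧} {a : k} (hf : constantCoeff f = 1)
    (hg : constantCoeff g = 1) (h : f * eul g = C a * eul f * g) : g = rp f a := by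
  ext n
  induction n using Nat.strong_induction_on with
  | _ n ih =>
    rcases Nat.eq_zero_or_pos n with rfl | hn
    · rw [coeff_zero_rp, coeff_zero_eq_constantCoeff_apply, hg]
    · have h1 := rpa_coeff_eq f g a hf n
      rw [h, sub_self] at h1
      have h2 := rp_rec f a n
      have h3 : ∑ i ∈ range n, (a * ((n : k) - i) - i) * coeff (n - i) f * coeff i g =
          ∑ i ∈ range n, (a * ((n : k) - i) - i) * coeff (n - i) f * coeff i (rp f a) := by
        apply Finset.sum_congr rfl
        intro i hi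
        rw [ih i (Finset.mem_range.mp hi)]
      have h4 : (n : k) * coeff n g = (n : k) * coeff n (rp f a) := by
        rw [h2, ← h3]
        exact (sub_eq_zero.mp h1.symm)
      have hn0 : (n : k) ≠ 0 := by exact_mod_cast hn.ne'
      exact mul_left_cancel₀ hn0 h4

theorem rp_unique [CharZero k] {f g : k⟦X⟧} {a : k} (hf : constantCoeff f = 1)
    (hg : constantCoeff g = 1) (h : f * d⁄dX k g = C a * d⁄dX k f * g) : g = rp f a := by
  apply rp_unique_eul hf hg
  unfold eul
  calc f * (X * d⁄dX k g) = X * (f * d⁄dX k g) := by ring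
    _ = X * (C a * d⁄dX k f * g) := by rw [h]
    _ = C a * (X * d⁄dX k f) * g := by ring

end Pool.Agent.KIM
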