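import Pool.Agent.KIM.RPA

/-!
# KIM / RPB: laws of `rp`

All by `rp_unique_eul` / `rp_unique` (`eul` is a derivation: `eul (f g) = eul f * g + f * eul g`),
cancelling the factor `f` (a power series with constant coefficient `1` is not a zero divisor:
`ℂ⟦X⟧`, `k⟦X⟧` are domains) where needed.
* `rp_add`: `f * eul (rp f a * rp f b) = C (a + b) * eul f * (rp f a * rp f b)`.
* `rp_mul`: `(f g) * eul (rp f a * rp g a) = C a * eul (f g) * (rp f a * rp g a)`.
* `rp_rp`: put `h = rp f a`, `g = rp h b`; `h * eul g = b eul h g`; multiply by `f`: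
  `h * (f * eul g) = b (f eul h) g = b a eul f h g`, cancel `h`.
* `map_rp`: apply the ring hom `map φ` to `rp_eul`.
* `subst_rp`: apply the algebra hom `substAlgHom` to `rp_ode` and use
  `PowerSeries.derivative_subst`: `d (g.subst p) = (dg).subst p * dp`.
-/

set_option autoImplicit false

open PowerSeries Finset

namespace Pool.Agent.KIM

variable {k : Type*} [Field k]

theorem eul_mul (f g : k⟦X⟧) : eul (f * g) = eul f * g + f * eul g := by
  unfold eul
  rw [Derivation.leibniz]
  simp only [smul_eq_mul]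
  ring

theorem eul_add (f g : k⟦X⟧) : eul (f + g) = eul f + eul g := by
  unfold eul
  rw [map_add]
  ring

theorem eul_sub (f g : k⟦X⟧) : eul (f - g) = eul f - eul g := by
  unfold eul
  rw [map_sub]
  ring

theorem eul_C (c : k) : eul (C c : k⟦X⟧) = 0 := by
  ext n
  rw [coeff_eul, coeff_C]
  rcases Nat.eq_zero_or_pos n with rfl | hn
  · simp
  · simp [hn.ne']

theorem eul_one : eul (1 : k⟦X⟧) = 0 := by
  have h := eul_C (1 : k)
  rwa [map_one] at h

theorem eul_X : eul (X : k⟦X⟧) = X := by
  ext n
  rw [coeff_eul, coeff_X]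
  by_cases hn : n = 1
  · simp [hn]
  · simp [hn]

theorem eul_C_mul (c : k) (f : k⟦X⟧) : eul (C c * f) = C c * eul f := by
  rw [eul_mul, eul_C, zero_mul, zero_add]

theorem eul_pow (f : k⟦X⟧) (n : ℕ) : f * eul (f ^ n) = C (n : k) * eul f * f ^ n := by
  induction n with
  | zero => simp [eul_one]
  | succ n ih =>
    rw [pow_succ, eul_mul]
    have h : (C ((n + 1 : ℕ) : k) : k⟦X⟧) = C (n : k) + 1 := by
      push_cast
      rw [map_add, map_one]
    rw [h]
    calc f * (eul (f ^ n) * f + f ^ n * eul f) = (f * eul (f ^ n)) * f + f ^ n * eul f * f := by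
          ring
      _ = (C (n : k) * eul f * f ^ n) * f + f ^ n * eul f * f := by rw [ih]
      _ = (C (n : k) + 1) * eul f * (f ^ n * f) := by ring

theorem eul_X_pow (n : ℕ) : eul ((X : k⟦X⟧) ^ n) = C (n : k) * X ^ n := by
  ext m
  rw [coeff_eul, coeff_C_mul, coeff_X_pow]
  by_cases hm : m = n
  · simp [hm]
  · simp [hm]

theorem rp_ne_zero (f : k⟦X⟧) (a : k) : rp f a ≠ 0 := by
  intro h
  have h1 := constantCoeff_rp f a
  rw [h, map_zero] at h1
  exact zero_ne_one h1

theorem ne_zero_of_one {f : k⟦X⟧} (hf : constantCoeff f = 1) : f ≠ 0 := by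
  rintro rfl
  rw [map_zero] at hf
  exact zero_ne_one hf

theorem rp_zero [CharZero k] {f : k⟦X⟧} (hf : constantCoeff f = 1) : rp f 0 = 1 := by
  symm
  apply rp_unique_eul hf (map_one _)
  rw [eul_one, map_zero]
  ring

theorem rp_one [CharZero k] {f : k⟦X⟧} (hf : constantCoeff f = 1) : rp f 1 = f := by
  symm
  apply rp_unique_eul hf hf
  rw [map_one]
  ring

theorem rp_one_left [CharZero k] (a : k) : rp (1 : k⟦X⟧) a = 1 := by
  symm
  apply rp_unique_eul (map_one _) (map_one _)
  rw [eul_one]
  ring

theorem rp_add [CharZero k] {f : k⟦X⟧} (hf : constantCoeff f = 1) (a b : k) :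
    rp f (a + b) = rp f a * rp f b := by
  symm
  apply rp_unique_eul hf
  · rw [map_mul, constantCoeff_rp, constantCoeff_rp, one_mul]
  · rw [eul_mul, map_add]
    have h1 := rp_eul hf a
    have h2 := rp_eul hf b
    calc f * (eul (rp f a) * rp f b + rp f a * eul (rp f b)) =
        (f * eul (rp f a)) * rp f b + rp f a * (f * eul (rp f b)) := by ring
      _ = (C a * eul f * rp f a) * rp f b + rp f a * (C b * eul f * rp f b) := by rw [h1, h2]
      _ = (C a + C b) * eul f * (rp f a * rp f b) := by ring

theorem rp_mul [CharZero k] {f g : k⟦X⟧} (hf : constantCoeff f = 1) (hg : constantCoeff g = 1)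
    (a : k) : rp (f * g) a = rp f a * rp g a := by
  symm
  apply rp_unique_eul
  · rw [map_mul, hf, hg, one_mul]
  · rw [map_mul, constantCoeff_rp, constantCoeff_rp, one_mul]
  · rw [eul_mul, eul_mul]
    have h1 := rp_eul hf a
    have h2 := rp_eul hg a
    calc f * g * (eul (rp f a) * rp g a + rp f a * eul (rp g a)) =
        (f * eul (rp f a)) * (g * rp g a) + (g * eul (rp g a)) * (f * rp f a) := by ring
      _ = (C a * eul f * rp f a) * (g * rp g a) + (C a * eul g * rp g a) * (f * rp f a) := by
          rw [h1, h2]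
      _ = C a * (eul f * g + f * eul g) * (rp f a * rp g a) := by ring

theorem rp_natCast [CharZero k] {f : k⟦X⟧} (hf : constantCoeff f = 1) (n : ℕ) :
    rp f (n : k) = f ^ n := by
  symm
  apply rp_unique_eul hf
  · rw [map_pow, hf, one_pow]
  · exact eul_pow f n

theorem rp_neg_mul [CharZero k] {f : k⟦X⟧} (hf : constantCoeff f = 1) (a : k) :
    rp f (-a) * rp f a = 1 := by
  rw [← rp_add hf, neg_add_cancel, rp_zero hf]

theorem rp_neg_one_mul [CharZero k] {f : k⟦X⟧} (hf : constantCoeff f = 1) :
    rp f (-1) * f = 1 := by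
  have h := rp_neg_mul hf 1
  rwa [rp_one hf] at h

theorem rp_rp [CharZero k] {f : k⟦X⟧} (hf : constantCoeff f = 1) (a b : k) :
    rp (rp f a) b = rp f (a * b) := by
  apply rp_unique_eul hf (constantCoeff_rp _ _)
  have h1 := rp_eul hf a
  have h2 := rp_eul (constantCoeff_rp f a) b
  apply mul_left_cancel₀ (rp_ne_zero f a)
  rw [map_mul]
  calc rp f a * (f * eul (rp (rp f a) b)) = f * (rp f a * eul (rp (rp f a) b)) := by ring
    _ = f * (C b * eul (rp f a) * rp (rp f a) b) := by rw [h2]
    _ = (f * eul (rp f a)) * (C b * rp (rp f a) b) := by ring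
    _ = (C a * eul f * rp f a) * (C b * rp (rp f a) b) := by rw [h1]
    _ = rp f a * (C a * C b * eul f * rp (rp f a) b) := by ring

private theorem rpb_map_eul {k' : Type*} [Field k'] (φ : k →+* k') (f : k⟦X⟧) :
    PowerSeries.map φ (eul f) = eul (PowerSeries.map φ f) := by
  ext n
  rw [coeff_map, coeff_eul, coeff_eul, coeff_map, map_mul, map_natCast]

theorem map_rp {k' : Type*} [Field k'] [CharZero k] [CharZero k'] (φ : k →+* k') {f : k⟦X⟧}
    (hf : constantCoeff f = 1) (a : k) : PowerSeries.map φ (rp f a) =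
      rp (PowerSeries.map φ f) (φ a) := by
  apply rp_unique_eul
  · rw [← coeff_zero_eq_constantCoeff_apply, coeff_map, coeff_zero_eq_constantCoeff_apply, hf,
      map_one]
  · rw [← coeff_zero_eq_constantCoeff_apply, coeff_map, coeff_zero_rp, map_one]
  · have h := congrArg (PowerSeries.map φ) (rp_eul hf a)
    rw [map_mul, map_mul, map_mul, rpb_map_eul, rpb_map_eul, PowerSeries.map_C] at h
    exact h

theorem rescale_eul (c : k) (f : k⟦X⟧) : rescale c (eul f) = eul (rescale c f) := by
  ext n
  rw [coeff_rescale, coeff_eul, coeff_eul, coeff_rescale]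
  ring

theorem rescale_rp [CharZero k] {f : k⟦X⟧} (hf : constantCoeff f = 1) (c a : k) :
    rescale c (rp f a) = rp (rescale c f) a := by
  apply rp_unique_eul
  · rw [← coeff_zero_eq_constantCoeff_apply, coeff_rescale, coeff_zero_eq_constantCoeff_apply,
      hf, pow_zero, one_mul]
  · rw [← coeff_zero_eq_constantCoeff_apply, coeff_rescale, coeff_zero_rp, pow_zero, one_mul]
  · have h := congrArg (rescale c) (rp_eul hf a)
    rw [map_mul, map_mul, map_mul, rescale_eul, rescale_eul] at h
    have hC : rescale c (C a : k⟦X⟧) = C a := by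
      ext n
      rw [coeff_rescale, coeff_C]
      by_cases hn : n = 0
      · simp [hn]
      · simp [hn]
    rw [hC] at h
    exact h

private theorem rpb_subst_C {p : k⟦X⟧} (c : k) : (C c : k⟦X⟧).subst p = C c := by
  exact subst_C c

theorem subst_rp [CharZero k] {f p : k⟦X⟧} (hf : constantCoeff f = 1)
    (hp : constantCoeff p = 0) (a : k) : (rp f a).subst p = rp (f.subst p) a := by
  have hs : HasSubst p := HasSubst.of_constantCoeff_zero hp
  have hconst : ∀ g : k⟦X⟧, constantCoeff g = 1 → constantCoeff (g.subst p) = 1 := by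
    intro g hg
    have h1 : constantCoeff ((g - C 1).subst p) = 0 := by
      apply constantCoeff_subst_eq_zero hp
      rw [map_sub, hg]
      simp
    rw [subst_sub hs, rpb_subst_C] at h1
    rw [map_one, map_sub, map_one] at h1
    exact sub_eq_zero.mp h1
  apply rp_unique (hconst f hf) (hconst _ (constantCoeff_rp f a))
  rw [derivative_subst hs, derivative_subst hs]
  have h := congrArg (PowerSeries.subst p) (rp_ode hf a)
  rw [subst_mul hs, subst_mul hs, subst_mul hs, rpb_subst_C] at h
  calc f.subst p * ((d⁄dX k (rp f a)).subst p * d⁄dX k p) =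
      (f.subst p * (d⁄dX k (rp f a)).subst p) * d⁄dX k p := by ring
    _ = (C a * (d⁄dX k f).subst p * (rp f a).subst p) * d⁄dX k p := by rw [h]
    _ = C a * ((d⁄dX k f).subst p * d⁄dX k p) * (rp f a).subst p := by ring

end Pool.Agent.KIM
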