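import Pool.Agent.KIM.RPB

/-!
# KIM / SWA: the inverse `W` of the Koebe function as a power series

* `catalanSeries_sq_mul_X_add_one : catalanSeries ^ 2 * X + 1 = catalanSeries` mapped to `ℝ⟦X⟧` and
  rescaled by `-1` (`rescale (-1) X = -X`): `c = 1 - X c^2`, `W = 1 - c = X c^2 = X (1 - W)^2`.
* `eul_W`: apply `eul` to `W = X (1 - W)^2`: `eul W = X (1-W)^2 - 2 X (1 - W) eul W`, multiply by
  `1 - W`: `(1 - W) eul W = (1 - W) W - 2 W eul W`, so `(1 + W) eul W = W (1 - W)`.
* `k0`: coefficients; `(1 - X)^2 k0 = X`, `(1 - X) eul k0 = (1 + X) k0`.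
* `eq_of_fix`: if `A = p (1 - A)^2`, `B = p (1 - B)^2`, all with constant coefficient `0`, then
  `A - B = p (B - A) (2 - A - B)`, so `(A - B) (1 + p (2 - A - B)) = 0` and the second factor is
  not zero (constant coefficient `1`).
-/

set_option autoImplicit false

open PowerSeries Finset

namespace Pool.Agent.KIM

theorem W_eq : W = X * (1 - W) ^ 2 := by
  have h := congrArg (fun f => rescale (-1 : ℝ) (PowerSeries.map (Nat.castRingHom ℝ) f))
    catalanSeries_sq_mul_X_add_one
  simp only [map_add, map_mul, map_pow, map_one, PowerSeries.map_X] at h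
  have hX : rescale (-1 : ℝ) (X : ℝ⟦X⟧) = -X := by
    rw [rescale_X]; simp
  rw [hX] at h
  unfold W
  linear_combination h

theorem constantCoeff_W : constantCoeff W = 0 := by
  have h := congrArg constantCoeff W_eq
  simpa using h

theorem eul_W : (1 + W) * eul W = W * (1 - W) := by
  have h0 := W_eq
  have h : eul W = X * (1 - W) ^ 2 - 2 * X * (1 - W) * eul W := by
    have h1 := congrArg eul W_eq
    rw [sq, eul_mul, eul_mul, eul_X, eul_sub, eul_one] at h1
    linear_combination h1
  linear_combination (1 - W) * h - (1 - W - 2 * eul W) * h0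

theorem constantCoeff_one_sub_W : constantCoeff (1 - W) = 1 := by
  rw [map_sub, constantCoeff_W]; simp

theorem constantCoeff_one_add_W : constantCoeff (1 + W) = 1 := by
  rw [map_add, constantCoeff_W]; simp

theorem constantCoeff_k0 : constantCoeff k0 = 0 := by
  rw [← coeff_zero_eq_constantCoeff_apply]
  simp [k0]

theorem k0_eq : (1 - X) ^ 2 * k0 = X := by
  have h1 : (1 - X) * k0 = X * PowerSeries.mk (fun _ => (1 : ℝ)) := by
    ext n
    rcases n with _ | n
    · simp [k0, sub_mul]
    · rw [sub_mul, one_mul, map_sub, coeff_succ_X_mul, coeff_succ_X_mul]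
      simp [k0]
  have h2 : (1 - X) * PowerSeries.mk (fun _ => (1 : ℝ)) = 1 := by
    ext n
    rcases n with _ | n
    · simp [sub_mul]
    · rw [sub_mul, one_mul, map_sub, coeff_succ_X_mul]
      simp
  calc (1 - X) ^ 2 * k0 = (1 - X) * ((1 - X) * k0) := by ring
    _ = X * ((1 - X) * PowerSeries.mk (fun _ => (1 : ℝ))) := by rw [h1]; ring
    _ = X := by rw [h2, mul_one]

theorem eul_k0 : (1 - X) * eul k0 = (1 + X) * k0 := by
  have hne : (1 - X : ℝ⟦X⟧) ≠ 0 := by
    apply ne_zero_of_one
    simp
  have h := k0_eq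
  have h1 := congrArg eul h
  rw [sq, eul_mul, eul_mul, eul_sub, eul_one, eul_X] at h1
  apply mul_left_cancel₀ hne
  linear_combination h1 - h

theorem eq_of_fix {p A B : ℝ⟦X⟧} (hp : constantCoeff p = 0) (hA : A = p * (1 - A) ^ 2)
    (hB : B = p * (1 - B) ^ 2) : A = B := by
  have h : (A - B) * (1 + p * (2 - A - B)) = 0 := by
    linear_combination hA - hB
  rcases mul_eq_zero.mp h with h | h
  · exact sub_eq_zero.mp h
  · exfalso
    refine ne_zero_of_one (k := ℝ) (f := 1 + p * (2 - A - B)) ?_ h
    rw [map_add, map_mul, hp]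
    simp

end Pool.Agent.KIM
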